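import Pool.Agent.Lvl.CycD

set_option autoImplicit false
set_option linter.unusedSectionVars false

noncomputable section

open Classical

/-!
PACKAGE LVL-CYCP. Extension of partial permutations.

* `exists_perm`: the relation `E` is a bijection between the subtypes of all `u` with
  `∃ v, E u v` and of all `v` with `∃ u, E u v`; extend it to a permutation of the finite set
  (`Equiv.extendSubtype`).
* `exists_fits`: for every `a` let `E u v` be: (`w v = (a, true)` and `u = v + 1`) or
  (`w u = (a, false)` and `v = u + 1`). It satisfies the hypotheses of `exists_perm`: two pairs of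
  the same kind are clear; `u = v + 1`, `w v = (a, true)` and `w u = (a, false)` is
  excluded by `hw`; `v = u' + 1`, `w u' = (a, false)` and `w v = (a, true)` too.
-/

namespace Pool.Agent.Lvl

theorem exists_perm {V : Type} [Finite V] (E : V → V → Prop)
    (h1 : ∀ u v v', E u v → E u v' → v = v') (h2 : ∀ u u' v, E u v → E u' v → u = u') :
    ∃ σ : Equiv.Perm V, ∀ u v, E u v → σ u = v := by
  have := Fintype.ofFinite V
  let e : {u : V // ∃ v, E u v} ≃ {v : V // ∃ u, E u v} :=
    { toFun := fun x => ⟨x.2.choose, x.1, x.2.choose_spec⟩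
      invFun := fun y => ⟨y.2.choose, y.1, y.2.choose_spec⟩
      left_inv := fun x => by
        apply Subtype.ext
        have a1 := x.2.choose_spec
        have a2 : ∃ u, E u x.2.choose := ⟨x.1, a1⟩
        exact h2 _ _ _ a2.choose_spec a1
      right_inv := fun y => by
        apply Subtype.ext
        have a1 := y.2.choose_spec
        have a2 : ∃ v, E y.2.choose v := ⟨y.1, a1⟩
        exact h1 _ _ _ a2.choose_spec a1 }
  refine ⟨e.extendSubtype, fun u v huv => ?_⟩
  rw [Equiv.extendSubtype_apply_of_mem e u ⟨v, huv⟩]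
  have a2 : ∃ v, E u v := ⟨v, huv⟩
  exact h1 _ _ _ a2.choose_spec huv

theorem exists_fits {α : Type} {L : ℕ} [NeZero L] (w : Fin L → α × Bool)
    (hw : ∀ v, (w v).1 = (w (v + 1)).1 → (w v).2 = (w (v + 1)).2) :
    ∃ σ : α → Equiv.Perm (Fin L), Fits w σ := by
  have key : ∀ a : α, ∃ σ : Equiv.Perm (Fin L), ∀ u v,
      ((w v = (a, true) ∧ u = v + 1) ∨ (w u = (a, false) ∧ v = u + 1)) → σ u = v := by
    intro a
    apply exists_perm
    · rintro u v v' (⟨h, hu⟩ | ⟨h, hv⟩) (⟨h', hu'⟩ | ⟨h', hv'⟩)
      · exact add_right_cancel (hu.symm.trans hu')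
      · have := hw v (by rw [h, ← hu, h'])
        rw [h, ← hu, h'] at this
        exact absurd this (by simp)
      · have := hw v' (by rw [h', ← hu', h])
        rw [h', ← hu', h] at this
        exact absurd this (by simp)
      · rw [hv, hv']
    · rintro u u' v (⟨h, hu⟩ | ⟨h, hv⟩) (⟨h', hu'⟩ | ⟨h', hv'⟩)
      · rw [hu, hu']
      · have := hw u' (by rw [h', ← hv', h])
        rw [h', ← hv', h] at this
        exact absurd this (by simp)
      · have := hw u (by rw [h, ← hv, h'])
        rw [h, ← hv, h'] at this
        exact absurd this (by simp)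
      · exact add_right_cancel (hv.symm.trans hv')
  choose σ hσ using key
  refine ⟨σ, fun v => ?_⟩
  rcases hv : w v with ⟨a, b⟩
  cases b with
  | true =>
    simp only [lp, if_true]
    exact hσ a (v + 1) v (Or.inl ⟨hv, rfl⟩)
  | false =>
    simp only [lp, Bool.false_eq_true, if_false]
    rw [Equiv.Perm.inv_eq_iff_eq]
    exact (hσ a v (v + 1) (Or.inr ⟨hv, rfl⟩)).symm

end Pool.Agent.Lvl
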