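import Pool.Agent.Lvl.Formal

set_option autoImplicit false
set_option linter.unusedSectionVars false

noncomputable section

open Classical

/-!
PACKAGE LVL-DEFORM. Every representation of a free group can be deformed to the trivial one.

Let `A a = ρ (of a)`, an invertible matrix. Over the polynomial ring `R[X]` let
`B a = 1 + X (A a - 1)`. Its determinant `D a` has the value `1` at `X = 0` and the unit `det (A a)`
at `X = 1` (`RingHom.map_det`, evaluation). Let `D` be the product of all `D a` (`α` is finite) and
`𝓛 = Localization.Away D`. Over `𝓛` all `B a` are invertible (`D a` divides `D`,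
`Matrix.isUnit_iff_isUnit_det`), so there is a homomorphism `ρ'` from the free group to the
units of the matrices over `𝓛` with `of a ↦ B a` (`FreeGroup.lift`).
`e0 : 𝓛 → R⟦X⟧` (`IsLocalization.Away.lift`; the image of `D` has constant coefficient `1`,
`PowerSeries.isUnit_iff_constantCoeff`) and `e1 : 𝓛 → R`, `X ↦ 1` (`D ↦` a unit).
(i) `ρ'` followed by `e1` is `ρ` (`FreeGroup.ext_hom`), so the traces of `ρ' h` and `ρ' h'` are
different. (ii) `e0` is injective: `IsLocalization.mk'` form `f / D ^ n`; if the image is zero then
the image of `f` in `R⟦X⟧` is zero (`D` becomes a unit), so `f = 0` (`Polynomial.coe_injective`).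
(iii) `ρ''` is `ρ'` followed by `e0`: its traces at `h`, `h'` differ; the constant coefficient of
`B a` is `1`, so the constant coefficient of `ρ'' g` is `1` for all `g` (`FreeGroup.ext_hom`).
-/

namespace Pool.Agent.Lvl

open MonoidAlgebra

private def bMat {R V : Type} [CommRing R] [Fintype V] (A : Matrix V V R) :
    Matrix V V (Polynomial R) :=
  1 + (Polynomial.X : Polynomial R) • (A - 1).map Polynomial.C

private lemma bMat_map {R V S : Type} [CommRing R] [Fintype V] [CommRing S] (A : Matrix V V R)
    (f : Polynomial R →+* S) :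
    (bMat A).map f = 1 + f Polynomial.X • (A - 1).map (fun r => f (Polynomial.C r)) := by
  unfold bMat
  ext i j
  simp only [Matrix.map_apply, Matrix.add_apply, Matrix.smul_apply, smul_eq_mul, map_add, map_mul]
  congr 1
  by_cases h : i = j
  · subst h; simp
  · simp [Matrix.one_apply_ne h]

private lemma bMat_eval0 {R V : Type} [CommRing R] [Fintype V] (A : Matrix V V R) :
    (bMat A).map (Polynomial.evalRingHom (0 : R)) = 1 := by
  rw [bMat_map]; simp

private lemma bMat_eval1 {R V : Type} [CommRing R] [Fintype V] (A : Matrix V V R) :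
    (bMat A).map (Polynomial.evalRingHom (1 : R)) = A := by
  rw [bMat_map]
  ext i j
  simp

theorem exists_formal {α R V : Type} [Finite α] [CommRing R] [Fintype V]
    (ρ : FreeGroup α →* Matrix V V R) {h h' : FreeGroup α} (htr : (ρ h).trace ≠ (ρ h').trace) :
    ∃ ρ' : FreeGroup α →* Matrix V V (PowerSeries R),
      (∀ g, (ρ' g).map (PowerSeries.constantCoeff (R := R)) = 1) ∧
      (ρ' h).trace ≠ (ρ' h').trace := by
  have : Fintype α := Fintype.ofFinite α
  let A : α → Matrix V V R := fun a => ρ (FreeGroup.of a)
  have hA : ∀ a, IsUnit (A a) := fun a => (Group.isUnit (FreeGroup.of a)).map ρ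
  let D : Polynomial R := ∏ a, (bMat (A a)).det
  have hD0 : Polynomial.evalRingHom (0 : R) D = 1 := by
    rw [map_prod]
    apply Finset.prod_eq_one
    intro a _
    rw [RingHom.map_det, RingHom.mapMatrix_apply, bMat_eval0, Matrix.det_one]
  have hD1 : IsUnit (Polynomial.evalRingHom (1 : R) D) := by
    rw [map_prod]
    have h1 : ∀ a, IsUnit (Polynomial.evalRingHom (1 : R) (bMat (A a)).det) := by
      intro a
      rw [RingHom.map_det, RingHom.mapMatrix_apply, bMat_eval1]
      exact (Matrix.isUnit_iff_isUnit_det _).1 (hA a)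
    rw [IsUnit.prod_iff]
    exact fun a _ => h1 a
  let L := Localization.Away D
  have hDL : IsUnit (algebraMap (Polynomial R) L D) := IsLocalization.Away.algebraMap_isUnit D
  have hB : ∀ a, IsUnit ((bMat (A a)).map (algebraMap (Polynomial R) L)) := by
    intro a
    rw [Matrix.isUnit_iff_isUnit_det, ← RingHom.mapMatrix_apply, ← RingHom.map_det]
    exact isUnit_of_dvd_unit (map_dvd _ (Finset.dvd_prod_of_mem (fun a => (bMat (A a)).det)
      (Finset.mem_univ a))) hDL
  let ρL : FreeGroup α →* Matrix V V L :=
    (Units.coeHom _).comp (FreeGroup.lift (fun a => (hB a).unit))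
  have hρL : ∀ a, ρL (FreeGroup.of a) = (bMat (A a)).map (algebraMap (Polynomial R) L) := by
    intro a
    simp [ρL]
  have hg0 : IsUnit ((Polynomial.coeToPowerSeries.ringHom (R := R)) D) := by
    rw [PowerSeries.isUnit_iff_constantCoeff]
    have : PowerSeries.constantCoeff ((Polynomial.coeToPowerSeries.ringHom (R := R)) D) = 1 := by
      rw [← hD0]
      simp [Polynomial.coeff_zero_eq_eval_zero]
    rw [this]
    exact isUnit_one
  let e0 : L →+* PowerSeries R := IsLocalization.Away.lift D hg0
  have he0 : ∀ x, e0 (algebraMap (Polynomial R) L x) =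
      (Polynomial.coeToPowerSeries.ringHom (R := R)) x :=
    fun x => IsLocalization.Away.lift_eq D hg0 x
  let e1 : L →+* R := IsLocalization.Away.lift D hD1
  have he1 : ∀ x, e1 (algebraMap (Polynomial R) L x) = Polynomial.evalRingHom (1 : R) x :=
    fun x => IsLocalization.Away.lift_eq D hD1 x
  have hinj : Function.Injective e0 := by
    have h2 : Function.Injective (Polynomial.coeToPowerSeries.ringHom (R := R)) := by
      intro x y hxy
      exact Polynomial.coe_injective R hxy
    rw [injective_iff_map_eq_zero]
    intro z hz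
    obtain ⟨n, f, hf⟩ := IsLocalization.Away.surj D z
    have h3 : (Polynomial.coeToPowerSeries.ringHom (R := R)) f = 0 := by
      rw [← he0, ← hf, map_mul, hz, zero_mul]
    have h4 : f = 0 := h2 (by rw [h3, map_zero])
    rw [h4, map_zero] at hf
    exact ((hDL.pow n).mul_left_eq_zero).1 hf
  have hcomp1 : (e1.mapMatrix : Matrix V V L →+* Matrix V V R).toMonoidHom.comp ρL = ρ := by
    apply FreeGroup.ext_hom
    intro a
    change (ρL (FreeGroup.of a)).map e1 = ρ (FreeGroup.of a)
    rw [hρL, Matrix.map_map]
    have : (⇑e1 ∘ ⇑(algebraMap (Polynomial R) L)) = Polynomial.evalRingHom (1 : R) := by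
      funext x; exact he1 x
    rw [this, bMat_eval1]
  have htr1 : ∀ g, e1 (ρL g).trace = (ρ g).trace := by
    intro g
    rw [← hcomp1]
    change e1 (ρL g).trace = ((ρL g).map e1).trace
    simp [Matrix.trace, map_sum]
  refine ⟨(e0.mapMatrix : Matrix V V L →+* Matrix V V (PowerSeries R)).toMonoidHom.comp ρL,
    ?_, ?_⟩
  · have hcomp0 : (((PowerSeries.constantCoeff (R := R)).comp e0).mapMatrix :
        Matrix V V L →+* Matrix V V R).toMonoidHom.comp ρL = 1 := by
      apply FreeGroup.ext_hom
      intro a
      change (ρL (FreeGroup.of a)).map ((PowerSeries.constantCoeff (R := R)).comp e0) = 1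
      rw [hρL, Matrix.map_map]
      have : (⇑((PowerSeries.constantCoeff (R := R)).comp e0) ∘ ⇑(algebraMap (Polynomial R) L)) =
          Polynomial.evalRingHom (0 : R) := by
        funext x
        change PowerSeries.constantCoeff (e0 (algebraMap (Polynomial R) L x)) = _
        rw [he0]
        simp [Polynomial.coeff_zero_eq_eval_zero]
      rw [this, bMat_eval0]
    intro g
    have := DFunLike.congr_fun hcomp0 g
    exact this
  · have htr0 : ∀ g, (((e0.mapMatrix : Matrix V V L →+* Matrix V V (PowerSeries R)).toMonoidHom.comp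
        ρL) g).trace = e0 (ρL g).trace := by
      intro g
      change ((ρL g).map e0).trace = e0 (ρL g).trace
      simp [Matrix.trace, map_sum]
    rw [htr0, htr0]
    intro hcon
    apply htr
    rw [← htr1, ← htr1, hinj hcon]

theorem not_cc_of_trace {α R V : Type} [Finite α] [CommRing R] [Algebra ℚ R] [Fintype V]
    (ρ : FreeGroup α →* Matrix V V R) {h h' : FreeGroup α} (htr : (ρ h).trace ≠ (ρ h').trace) :
    ¬ CC h h' := by
  obtain ⟨ρ', h1, h2⟩ := exists_formal ρ htr
  exact not_cc_of_formal ρ' h1 h2

end Pool.Agent.Lvl
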