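import Pool.Agent.Lvl.CycK
import Pool.Agent.Lvl.CycP
import Pool.Agent.Lvl.Deform

set_option autoImplicit false
set_option linter.unusedSectionVars false

noncomputable section

open Classical

/-!
PACKAGE LVL-CYCF. The trace functions on the quotients of the rational group ring of a free group by
powers of the augmentation ideal separate the conjugacy classes.

* `CC.symm`: negatives. `CC.conj`: `u h u⁻¹ - h = (u h) u⁻¹ - u⁻¹ (u h)` is in `comQ`
  (`single_mul_single`); so `CC` does not change if `h` (or `h'`) is replaced by a conjugate.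
* `exists_cyc`: `FreeGroup.reduceCyclically`, `FreeGroup.reduceCyclically.isCyclicallyReduced`,
  `FreeGroup.reduceCyclically.conj_conjugator_reduceCyclically`: every element is conjugate to
  `mk l` with `l` cyclically reduced.
* `isConj_of_CC`: we may assume `h = mk l`, `h' = mk l'` with `l`, `l'` cyclically reduced
  (`CC.conj`, `IsConj.trans`) and `length l' ≤ length l` (`CC.symm`). If `l = []` then `l' = []`.
  Let
  `L = length l ≥ 1`, `w = l.get` (so `l = List.ofFn w`), `hw` holds because `l` is
  cyclically reduced (neighbours, and last and first letter: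
  `FreeGroup.isCyclicallyReduced_iff`, `List.isChain_iff_get`). Take `σ` from `exists_fits`, `m0`
  from
  `cyc_self`. If `h`, `h'` are not conjugate then `tau σ h' (v, 0) ≠ (v, m0)` for all `v`
  (`conj_of_theta`), so by `trace_ne` there is a representation with different traces,
  and `not_cc_of_trace` gives `¬ CC h h'`.
-/

namespace Pool.Agent.Lvl

open MonoidAlgebra

section Gen

variable {H : Type} [Group H]

lemma CC.symm {h h' : H} (hc : CC h h') : CC h' h := by
  intro n
  have h1 := Submodule.neg_mem _ (hc n)
  rwa [neg_sub] at h1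

lemma CC.conj {h h' : H} (hc : CC h h') (u : H) : CC (u * h * u⁻¹) h' := by
  intro n
  have h1 : single (u * h * u⁻¹) (1 : ℚ) - single h 1 ∈ comQ H := by
    apply Submodule.subset_span
    refine ⟨single (u * h) 1, single u⁻¹ 1, ?_⟩
    rw [single_mul_single, single_mul_single, mul_one, inv_mul_cancel_left]
  have h2 := Submodule.add_mem _ (Submodule.mem_sup_right (S := Fil ℚ H n) h1) (hc n)
  rwa [sub_add_sub_cancel] at h2

lemma CC.of_isConj {h h' k : H} (hc : CC h h') (hk : IsConj h k) : CC k h' := by
  obtain ⟨u, rfl⟩ := isConj_iff.1 hk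
  exact hc.conj u

end Gen

variable {α : Type}

lemma exists_cyc (h : FreeGroup α) :
    ∃ l : List (α × Bool), FreeGroup.IsCyclicallyReduced l ∧ IsConj h (FreeGroup.mk l) := by
  refine ⟨FreeGroup.reduceCyclically h.toWord,
    FreeGroup.reduceCyclically.isCyclicallyReduced FreeGroup.isReduced_toWord, ?_⟩
  apply IsConj.symm
  rw [isConj_iff]
  refine ⟨FreeGroup.mk (FreeGroup.reduceCyclically.conjugator h.toWord), ?_⟩
  rw [FreeGroup.inv_mk, FreeGroup.mul_mk, FreeGroup.mul_mk,
    FreeGroup.reduceCyclically.conj_conjugator_reduceCyclically, FreeGroup.mk_toWord]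

private lemma fin_succ_val {L : ℕ} [NeZero L] (v : Fin L) :
    ((v + 1 : Fin L) : ℕ) = (v.val + 1) % L := by
  rw [Fin.val_add, Fin.val_one', Nat.add_mod_mod]

private lemma cyc_get {l : List (α × Bool)} (hl : FreeGroup.IsCyclicallyReduced l)
    [NeZero l.length] (v : Fin l.length) :
    (l.get v).1 = (l.get (v + 1)).1 → (l.get v).2 = (l.get (v + 1)).2 := by
  obtain ⟨h1, h2⟩ := hl
  have hv := fin_succ_val v
  by_cases h : v.val + 1 < l.length
  · rw [Nat.mod_eq_of_lt h] at hv
    rw [FreeGroup.IsReduced, List.isChain_iff_getElem] at h1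
    have h3 := h1 v.val h
    simp only [List.get_eq_getElem, hv]
    exact h3
  · have h4 : v.val + 1 = l.length := by
      have := v.isLt
      omega
    rw [h4, Nat.mod_self] at hv
    have hpos : 0 < l.length := Nat.pos_of_ne_zero (NeZero.ne _)
    refine h2 (l.get v) ?_ (l.get (v + 1)) ?_
    · rw [Option.mem_def, List.getLast?_eq_getElem?, List.get_eq_getElem,
        List.getElem?_eq_some_iff]
      refine ⟨by omega, ?_⟩
      congr 1
      omega
    · rw [Option.mem_def, List.head?_eq_getElem?, List.get_eq_getElem,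
        List.getElem?_eq_some_iff]
      refine ⟨hpos, ?_⟩
      congr 1
      exact hv.symm

private theorem isConj_aux [Finite α] {l l' : List (α × Bool)}
    (hl : FreeGroup.IsCyclicallyReduced l) (hlen : l'.length ≤ l.length)
    (hc : CC (FreeGroup.mk l) (FreeGroup.mk l')) : IsConj (FreeGroup.mk l) (FreeGroup.mk l') := by
  by_cases h0 : l = []
  · subst h0
    rw [List.length_nil, Nat.le_zero, List.length_eq_zero_iff] at hlen
    subst hlen
    exact IsConj.refl _
  · have hN : NeZero l.length := ⟨fun h => h0 (List.length_eq_zero_iff.1 h)⟩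
    obtain ⟨σ, hf⟩ := exists_fits l.get (cyc_get hl)
    obtain ⟨m0, h1, h2⟩ := cyc_self hf (cyc_get hl)
    have h3 : List.ofFn l.get = l := List.ofFn_get l
    by_contra hcon
    have h4 : ∀ v, tau σ (FreeGroup.mk l') (v, 0) ≠ (v, m0) := by
      intro v hv
      have h5 := conj_of_theta hf (cyc_get hl) hlen hv h2
      rw [h3] at h5
      exact hcon h5
    rw [h3] at h1
    obtain ⟨ρ, hρ⟩ := trace_ne σ h1 h4
    exact not_cc_of_trace ρ hρ hc

theorem isConj_of_CC [Finite α] {h h' : FreeGroup α} (hc : CC h h') : IsConj h h' := by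
  obtain ⟨l, hl, h1⟩ := exists_cyc h
  obtain ⟨l', hl', h1'⟩ := exists_cyc h'
  have h2 : CC (FreeGroup.mk l) (FreeGroup.mk l') :=
    ((hc.of_isConj h1).symm.of_isConj h1').symm
  have h3 : IsConj (FreeGroup.mk l) (FreeGroup.mk l') := by
    rcases le_total l'.length l.length with h | h
    · exact isConj_aux hl h h2
    · exact (isConj_aux hl' h h2.symm).symm
  exact (h1.trans h3).trans h1'.symm

/-- the powers of the augmentation ideal separate the elements of a free group -/
theorem free_resN [Finite α] (g : FreeGroup α) (hg : g ≠ 1) :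
    ∃ n, single g (1 : ℚ) - 1 ∉ Fil ℚ (FreeGroup α) n := by
  by_contra hcon
  push Not at hcon
  have h1 : CC g 1 := fun n => Submodule.mem_sup_left (hcon n)
  exact hg (isConj_one_left.mp (isConj_of_CC h1))

end Pool.Agent.Lvl
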