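import Mathlib

set_option autoImplicit false
set_option linter.unusedSectionVars false

noncomputable section

open Classical

/-!
PACKAGE LVL-GROSS. Grossman's lemma for free groups: an endomorphism which maps every element to a
conjugate is conjugation by some element.

* `length_le_of_conj`: let `l` be cyclically reduced and `mk l` conjugate to `g`. Then
  `length l ≤ norm g`: `mk l = u g u⁻¹`, `(mk l) ^ n = u g ^ n u⁻¹` has norm at most
  `n norm g + 2 norm u` (`FreeGroup.norm_mul_le`, `norm_inv_eq`), and
  `norm ((mk l) ^ n) = n length l` (`FreeGroup.IsCyclicallyReduced.flatten_replicate`: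
  the word `(List.replicate n l).flatten` is reduced, `IsReduced.reduce_eq`). Let `n` be large.
* `eq_pow_mul_pow`: choose `m`, `n` such that the norm of `g' = of i ^ m * g * of j ^ n` is minimal.
  Suppose `g' ≠ 1`, with the reduced word `w`. The first letter of `w` is not `(i, _)` (otherwise
  multiplication by `of i` or its inverse from the left makes the norm smaller), the last letter is
  not `(j, _)`. `of i * (g * of j * g⁻¹)` is conjugate (by `of i ^ m`) to
  `of i * (g' * of j * g'⁻¹)`, which is the value of the list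
  `(i, true) :: w ++ (j, true) :: invRev w`. This list is cyclically reduced (`w` and `invRev w` are
  reduced; check the four junctions), of length `2 + 2 length w > 2`. But it is conjugate to
  `of i * of j` of norm `≤ 2`, contradiction to `length_le_of_conj`. So `g' = 1`.
* `pow_eq_zero`: apply the homomorphism to the free group or any group where `i` and `k` go to
  matrices `(1 1; 0 1)`, `(1 0; 1 1)`, or compare reduced words, or use
  `length_le`: the word of `of i ^ m * of k * of i ^ (-m)` is reduced of length `2 |m| + 1`.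
* `grossman`: if `α` has at most one element then the free group is commutative and `f x = x`.
  Otherwise let `i ≠ j`. `f (of i)` is conjugate to `of i`; after composition with an inner
  automorphism `f (of i) = of i`. `f (of j) = g * of j * g⁻¹` and `f (of i * of j)` is
  conjugate to `of i * of j`, so `g = of i ^ m * of j ^ n` by `eq_pow_mul_pow`, and
  `f (of j) = of i ^ m * of j * of i ^ (-m)`. After composition with conjugation by `of i ^ (-m)` we
  have `f (of i) = of i`, `f (of j) = of j`. For another generator `k` we get in the same way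
  `f (of k) = of i ^ m * of k * of i ^ (-m)` from the pair `i`, `k`, and
  `f (of k) = of j ^ m' * of k * of j ^ (-m')` from the pair `j`, `k`. Apply the endomorphism which
  maps `j` to `1` and fixes the other generators: `of i ^ m * of k * of i ^ (-m) = of k`, so
  `m = 0` by `pow_eq_zero`, `f (of k) = of k`. So `f = id` (`FreeGroup.ext_hom`).
-/

namespace Pool.Agent.Lvl

variable {α : Type}

private lemma norm_pow_le (g : FreeGroup α) (n : ℕ) :
    FreeGroup.norm (g ^ n) ≤ n * FreeGroup.norm g := by
  induction n with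
  | zero => simp
  | succ n ih =>
    rw [pow_succ, Nat.succ_mul]
    exact (FreeGroup.norm_mul_le _ _).trans (Nat.add_le_add_right ih _)

lemma length_le_of_conj {l : List (α × Bool)} (hl : FreeGroup.IsCyclicallyReduced l)
    {g : FreeGroup α} (h : IsConj (FreeGroup.mk l) g) : l.length ≤ FreeGroup.norm g := by
  obtain ⟨c, hc⟩ := isConj_iff.mp h
  have key : ∀ n : ℕ, n * l.length ≤ 2 * FreeGroup.norm c + n * FreeGroup.norm g := by
    intro n
    have h1 : FreeGroup.norm (FreeGroup.mk l ^ n) = n * l.length := by
      rw [FreeGroup.pow_mk, FreeGroup.norm, FreeGroup.toWord_mk,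
        (hl.flatten_replicate n).isReduced.reduce_eq]
      simp
    have h2 : FreeGroup.mk l ^ n = c⁻¹ * g ^ n * c := by
      rw [← hc, conj_pow]
      group
    rw [← h1, h2]
    have h3 := FreeGroup.norm_mul_le (c⁻¹ * g ^ n) c
    have h4 := FreeGroup.norm_mul_le c⁻¹ (g ^ n)
    have h5 := norm_pow_le g n
    rw [FreeGroup.norm_inv_eq] at h4
    omega
  by_contra hlt
  have h6 := key (2 * FreeGroup.norm c + 1)
  obtain ⟨t, ht⟩ := Nat.exists_eq_add_of_lt (not_le.mp hlt)
  rw [ht] at h6
  nlinarith

private lemma isChain_invRev {w : List (α × Bool)} (h : FreeGroup.IsReduced w) :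
    FreeGroup.IsReduced (FreeGroup.invRev w) := by
  have h1 := (FreeGroup.isReduced_toWord (x := (FreeGroup.mk w)⁻¹))
  rwa [FreeGroup.toWord_inv, FreeGroup.toWord_mk, h.reduce_eq] at h1

theorem eq_pow_mul_pow {i j : α} (hij : i ≠ j) {g : FreeGroup α}
    (h : IsConj (FreeGroup.of i * FreeGroup.of j)
      (FreeGroup.of i * (g * FreeGroup.of j * g⁻¹))) :
    ∃ m n : ℤ, g = FreeGroup.of i ^ m * FreeGroup.of j ^ n := by
  obtain ⟨⟨m, n⟩, hmin⟩ : ∃ q : ℤ × ℤ, ∀ q' : ℤ × ℤ,
      FreeGroup.norm (FreeGroup.of i ^ q.1 * g * FreeGroup.of j ^ q.2) ≤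
        FreeGroup.norm (FreeGroup.of i ^ q'.1 * g * FreeGroup.of j ^ q'.2) :=
    ⟨_, fun q' => Function.argmin_le
      (fun q : ℤ × ℤ => FreeGroup.norm (FreeGroup.of i ^ q.1 * g * FreeGroup.of j ^ q.2)) q'⟩
  set g' := FreeGroup.of i ^ m * g * FreeGroup.of j ^ n with hg'
  have hleft : ∀ e : ℤ, FreeGroup.norm g' ≤ FreeGroup.norm (FreeGroup.of i ^ e * g') := by
    intro e
    have := hmin (e + m, n)
    simp only at this
    rwa [zpow_add, mul_assoc, mul_assoc, ← mul_assoc (FreeGroup.of i ^ m)] at this
  have hright : ∀ e : ℤ, FreeGroup.norm g' ≤ FreeGroup.norm (g' * FreeGroup.of j ^ e) := by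
    intro e
    have := hmin (m, n + e)
    simp only at this
    rwa [zpow_add, ← mul_assoc] at this
  suffices hone : g' = 1 by
    refine ⟨-m, -n, ?_⟩
    rw [hg'] at hone
    calc g = FreeGroup.of i ^ (-m) * (FreeGroup.of i ^ m * g * FreeGroup.of j ^ n) *
        FreeGroup.of j ^ (-n) := by group
      _ = _ := by rw [hone, mul_one]
  by_contra hne
  set w := g'.toWord with hw
  have hwr : FreeGroup.IsReduced w := FreeGroup.isReduced_toWord
  have hmk : FreeGroup.mk w = g' := FreeGroup.mk_toWord
  have hw0 : w ≠ [] := fun h0 => hne (FreeGroup.toWord_eq_nil_iff.mp h0)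
  have hlen : FreeGroup.norm g' = w.length := rfl
  have hfirst : ∀ a ∈ w.head?, a.1 ≠ i := by
    intro a ha hai
    obtain ⟨w', hw'⟩ : ∃ w', w = a :: w' := by
      cases hww : w with
      | nil => exact absurd hww hw0
      | cons b w' =>
        rw [hww] at ha
        simp only [List.head?_cons, Option.mem_def, Option.some.injEq] at ha
        exact ⟨w', by rw [ha]⟩
    have h1 : ∃ e : ℤ, FreeGroup.of i ^ e * g' = FreeGroup.mk w' := by
      obtain ⟨a1, a2⟩ := a
      simp only at hai
      subst hai
      rw [← hmk, hw']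
      cases a2 with
      | true =>
        refine ⟨-1, ?_⟩
        have : FreeGroup.mk ((a1, true) :: w') = FreeGroup.of a1 * FreeGroup.mk w' := rfl
        rw [this, zpow_neg, zpow_one, inv_mul_cancel_left]
      | false =>
        refine ⟨1, ?_⟩
        have : FreeGroup.mk ((a1, false) :: w') = (FreeGroup.of a1)⁻¹ * FreeGroup.mk w' := rfl
        rw [this, zpow_one, mul_inv_cancel_left]
    obtain ⟨e, he⟩ := h1
    have h2 := hleft e
    rw [he, hlen, hw', List.length_cons] at h2
    have h3 := FreeGroup.norm_mk_le (L₁ := w')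
    omega
  have hlast : ∀ a ∈ w.getLast?, a.1 ≠ j := by
    intro a ha haj
    obtain ⟨w', hw'⟩ : ∃ w', w = w' ++ [a] := by
      refine ⟨w.dropLast, ?_⟩
      rw [Option.mem_def] at ha
      exact (List.dropLast_append_getLast? a ha).symm
    have h1 : ∃ e : ℤ, g' * FreeGroup.of j ^ e = FreeGroup.mk w' := by
      obtain ⟨a1, a2⟩ := a
      simp only at haj
      subst haj
      rw [← hmk, hw', ← FreeGroup.mul_mk]
      cases a2 with
      | true =>
        refine ⟨-1, ?_⟩
        have : FreeGroup.mk [(a1, true)] = FreeGroup.of a1 := rfl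
        rw [this, zpow_neg, zpow_one, mul_inv_cancel_right]
      | false =>
        refine ⟨1, ?_⟩
        have : FreeGroup.mk [(a1, false)] = (FreeGroup.of a1)⁻¹ := rfl
        rw [this, zpow_one, inv_mul_cancel_right]
    obtain ⟨e, he⟩ := h1
    have h2 := hright e
    rw [he, hlen, hw', List.length_append, List.length_singleton] at h2
    have h3 := FreeGroup.norm_mk_le (L₁ := w')
    omega
  -- the cyclically reduced word
  set L : List (α × Bool) := (i, true) :: (w ++ (j, true) :: FreeGroup.invRev w) with hL
  have hmkL : FreeGroup.mk L = FreeGroup.of i * (g' * FreeGroup.of j * g'⁻¹) := by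
    rw [← hmk, FreeGroup.inv_mk, mul_assoc (FreeGroup.mk w)]
    rfl
  have hinvlast : ∀ a ∈ (FreeGroup.invRev w).getLast?, a.1 ≠ i := by
    intro a ha
    rw [FreeGroup.invRev, List.getLast?_reverse, List.head?_map, Option.mem_def,
      Option.map_eq_some_iff] at ha
    obtain ⟨b, hb, rfl⟩ := ha
    exact hfirst b hb
  have hinvfirst : ∀ a ∈ (FreeGroup.invRev w).head?, a.1 ≠ j := by
    intro a ha
    rw [FreeGroup.invRev, List.head?_reverse, List.getLast?_map, Option.mem_def,
      Option.map_eq_some_iff] at ha
    obtain ⟨b, hb, rfl⟩ := ha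
    exact hlast b hb
  have hLr : FreeGroup.IsReduced L := by
    have h1 : FreeGroup.IsReduced ((j, true) :: FreeGroup.invRev w) := by
      refine List.IsChain.append (l₁ := [(j, true)]) (List.isChain_singleton _)
        (isChain_invRev hwr) ?_
      intro x hx y hy hxy
      simp only [List.getLast?_singleton, Option.mem_def, Option.some.injEq] at hx
      subst hx
      exact absurd hxy.symm (hinvfirst y hy)
    have h2 : FreeGroup.IsReduced (w ++ (j, true) :: FreeGroup.invRev w) := by
      refine List.IsChain.append hwr h1 ?_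
      intro x hx y hy hxy
      simp only [List.head?_cons, Option.mem_def, Option.some.injEq] at hy
      subst hy
      exact absurd hxy (hlast x hx)
    refine List.IsChain.append (l₁ := [(i, true)]) (List.isChain_singleton _) h2 ?_
    intro x hx y hy hxy
    simp only [List.getLast?_singleton, Option.mem_def, Option.some.injEq] at hx
    subst hx
    refine absurd hxy.symm (hfirst y ?_)
    change y ∈ (w ++ (j, true) :: FreeGroup.invRev w).head? at hy
    rwa [List.head?_append_of_ne_nil _ hw0] at hy
  have hLc : FreeGroup.IsCyclicallyReduced L := by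
    refine ⟨hLr, ?_⟩
    intro a ha b hb hab
    simp only [hL, List.head?_cons, Option.mem_def, Option.some.injEq] at hb
    subst hb
    refine absurd hab (hinvlast a ?_)
    have hne' : FreeGroup.invRev w ≠ [] := by
      intro h0
      apply hw0
      have := congrArg List.length h0
      rw [FreeGroup.invRev_length] at this
      exact List.length_eq_zero_iff.mp this
    have hLe : L = ((i, true) :: (w ++ [(j, true)])) ++ FreeGroup.invRev w := by
      rw [hL]
      simp
    rwa [hLe, List.getLast?_append_of_ne_nil _ hne'] at ha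
  have hconj : IsConj (FreeGroup.mk L) (FreeGroup.of i * FreeGroup.of j) := by
    refine IsConj.trans ?_ h.symm
    rw [hmkL, isConj_iff]
    refine ⟨FreeGroup.of i ^ (-m), ?_⟩
    rw [hg']
    group
  have h7 := length_le_of_conj hLc hconj
  have h8 := FreeGroup.norm_mul_le (FreeGroup.of i) (FreeGroup.of j)
  rw [FreeGroup.norm_of, FreeGroup.norm_of] at h8
  have h9 : L.length = 2 + 2 * w.length := by
    rw [hL]
    simp only [List.length_cons, List.length_append, FreeGroup.invRev_length]
    ring
  have h10 : 0 < w.length := List.length_pos_iff.mpr hw0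
  omega

private lemma zpow_addRight_apply (m x : ℤ) : ((Equiv.addRight (1 : ℤ)) ^ m) x = x + m := by
  induction m using Int.induction_on generalizing x with
  | zero => simp
  | succ n ih => rw [zpow_add_one, Equiv.Perm.mul_apply, Equiv.coe_addRight, ih]; ring
  | pred n ih =>
    rw [zpow_sub_one, Equiv.Perm.mul_apply, ih]
    have : ((Equiv.addRight (1 : ℤ))⁻¹ : Equiv.Perm ℤ) x = x - 1 := rfl
    rw [this]
    ring

lemma pow_eq_zero {i k : α} (hik : i ≠ k) {m : ℤ}
    (h : FreeGroup.of i ^ m * FreeGroup.of k * (FreeGroup.of i ^ m)⁻¹ = FreeGroup.of k) :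
    m = 0 := by
  let φ : FreeGroup α →* Equiv.Perm ℤ := FreeGroup.lift fun l =>
    if l = i then Equiv.addRight (1 : ℤ) else Equiv.neg ℤ
  have hi : φ (FreeGroup.of i) = Equiv.addRight (1 : ℤ) := by
    simp only [φ, FreeGroup.lift_apply_of, if_pos]
  have hk : φ (FreeGroup.of k) = Equiv.neg ℤ := by
    simp only [φ, FreeGroup.lift_apply_of, if_neg hik.symm]
  have h1 := congrArg φ (mul_inv_eq_iff_eq_mul.mp h)
  rw [map_mul, map_mul, map_zpow, hi, hk] at h1
  have h2 := DFunLike.congr_fun h1 (0 : ℤ)
  rw [Equiv.Perm.mul_apply, Equiv.Perm.mul_apply, zpow_addRight_apply, zpow_addRight_apply] at h2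
  simp only [Equiv.neg_apply] at h2
  omega

private lemma gstep {f : FreeGroup α →* FreeGroup α} (hf : ∀ x, IsConj x (f x)) {i k : α}
    (hik : i ≠ k) (hi : f (FreeGroup.of i) = FreeGroup.of i) :
    ∃ m : ℤ, f (FreeGroup.of k) = FreeGroup.of i ^ m * FreeGroup.of k *
      (FreeGroup.of i ^ m)⁻¹ := by
  obtain ⟨g, hg⟩ := isConj_iff.mp (hf (FreeGroup.of k))
  have h1 := hf (FreeGroup.of i * FreeGroup.of k)
  rw [map_mul, hi, ← hg] at h1
  obtain ⟨m, n, hmn⟩ := eq_pow_mul_pow hik h1
  refine ⟨m, ?_⟩
  rw [← hg, hmn]
  group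

private lemma isConj_conj {f : FreeGroup α →* FreeGroup α} (hf : ∀ x, IsConj x (f x))
    (c : FreeGroup α) (x : FreeGroup α) :
    IsConj x (((MulAut.conj c).toMonoidHom.comp f) x) := by
  refine (hf x).trans (isConj_iff.mpr ⟨c, ?_⟩)
  rfl

theorem grossman (f : FreeGroup α →* FreeGroup α) (hf : ∀ x, IsConj x (f x)) :
    ∃ w, ∀ x, f x = w * x * w⁻¹ := by
  by_cases hα : ∀ i j : α, i = j
  · have hcomm : ∀ (c : FreeGroup α) (i : α), Commute c (FreeGroup.of i) := by
      intro c i
      induction c using FreeGroup.induction_on with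
      | C1 => exact Commute.one_left _
      | of j => rw [hα j i]
      | inv_of j h => exact h.inv_left
      | mul x y hx hy => exact hx.mul_left hy
    have hid : f = MonoidHom.id _ := by
      refine FreeGroup.ext_hom _ _ fun i => ?_
      obtain ⟨c, hc⟩ := isConj_iff.mp (hf (FreeGroup.of i))
      rw [← hc, (hcomm c i).eq, mul_inv_cancel_right]
      rfl
    exact ⟨1, fun x => by rw [hid]; simp⟩
  · push Not at hα
    obtain ⟨i, j, hij⟩ := hα
    obtain ⟨c, hc⟩ := isConj_iff.mp (hf (FreeGroup.of i))
    set f1 : FreeGroup α →* FreeGroup α := (MulAut.conj c⁻¹).toMonoidHom.comp f with hf1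
    have hf1a : ∀ x, f1 x = c⁻¹ * f x * c := by
      intro x
      change c⁻¹ * f x * c⁻¹⁻¹ = _
      rw [inv_inv]
    have hf1c : ∀ x, IsConj x (f1 x) := isConj_conj hf _
    have hf1i : f1 (FreeGroup.of i) = FreeGroup.of i := by
      rw [hf1a, ← hc]
      group
    obtain ⟨m, hm⟩ := gstep hf1c hij hf1i
    set f2 : FreeGroup α →* FreeGroup α :=
      (MulAut.conj (FreeGroup.of i ^ m)⁻¹).toMonoidHom.comp f1 with hf2
    have hf2a : ∀ x, f2 x = (FreeGroup.of i ^ m)⁻¹ * f1 x * FreeGroup.of i ^ m := by
      intro x
      change (FreeGroup.of i ^ m)⁻¹ * f1 x * (FreeGroup.of i ^ m)⁻¹⁻¹ = _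
      rw [inv_inv]
    have hf2c : ∀ x, IsConj x (f2 x) := isConj_conj hf1c _
    have hf2i : f2 (FreeGroup.of i) = FreeGroup.of i := by
      rw [hf2a, hf1i]
      group
    have hf2j : f2 (FreeGroup.of j) = FreeGroup.of j := by
      rw [hf2a, hm]
      group
    have hid : f2 = MonoidHom.id _ := by
      refine FreeGroup.ext_hom _ _ fun k => ?_
      by_cases hki : k = i
      · rw [hki, hf2i]
        rfl
      by_cases hkj : k = j
      · rw [hkj, hf2j]
        rfl
      obtain ⟨a, ha⟩ := gstep hf2c (Ne.symm hki) hf2i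
      obtain ⟨b, hb⟩ := gstep hf2c (Ne.symm hkj) hf2j
      let φ : FreeGroup α →* FreeGroup α := FreeGroup.lift fun l =>
        if l = j then 1 else FreeGroup.of l
      have hφi : φ (FreeGroup.of i) = FreeGroup.of i := by
        simp only [φ, FreeGroup.lift_apply_of, if_neg hij]
      have hφj : φ (FreeGroup.of j) = 1 := by
        simp only [φ, FreeGroup.lift_apply_of, if_pos]
      have hφk : φ (FreeGroup.of k) = FreeGroup.of k := by
        simp only [φ, FreeGroup.lift_apply_of, if_neg hkj]
      have h1 := congrArg φ (ha.symm.trans hb)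
      simp only [map_mul, map_inv, map_zpow, hφi, hφj, hφk, one_zpow, one_mul, inv_one,
        mul_one] at h1
      have ha0 := pow_eq_zero (Ne.symm hki) h1
      rw [ha, ha0]
      simp
    refine ⟨c * FreeGroup.of i ^ m, fun x => ?_⟩
    have h2 : (FreeGroup.of i ^ m)⁻¹ * (c⁻¹ * f x * c) * FreeGroup.of i ^ m = x := by
      rw [← hf1a, ← hf2a, hid]
      rfl
    conv_rhs => rw [← h2]
    group

end Pool.Agent.Lvl
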