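import Mathlib

set_option autoImplicit false

/-!
PACKAGE LVL-KONIG. Kőnig's lemma for sequences of finite sets.

Use `nonempty_sections_of_finite_inverse_system` (a functor `ℕᵒᵖ ⥤ Type`, for example
`CategoryTheory.Functor.ofOpSequence`), or by hand: let `F k n : Z (k + n) → Z k` be the composed
maps, `W k` the set of all `z ∈ Z k` which are in the range of `F k n` for all `n`. `W k` is not
empty (decreasing nonempty subsets of a finite set) and `f k` maps `W (k + 1)` onto `W k` (for
`z ∈ W k` the sets of all `w ∈ Z (k + 1)` in the range of `F (k + 1) n` with `f k w = z` decrease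
and are nonempty). Choose step by step.
-/

namespace Pool.Agent.Lvl

open CategoryTheory in
theorem konig (Z : ℕ → Type) [∀ k, Finite (Z k)] [∀ k, Nonempty (Z k)]
    (f : ∀ k, Z (k + 1) → Z k) : ∃ z : ∀ k, Z k, ∀ k, f k (z (k + 1)) = z k := by
  classical
  let F : ℕᵒᵖ ⥤ Type := Functor.ofOpSequence (X := Z) (fun k => ↾(f k))
  have h1 : ∀ j : ℕᵒᵖ, Finite (F.obj j) := fun j => inferInstanceAs (Finite (Z j.unop))
  have h2 : ∀ j : ℕᵒᵖ, Nonempty (F.obj j) := fun j => inferInstanceAs (Nonempty (Z j.unop))
  obtain ⟨s, hs⟩ := nonempty_sections_of_finite_inverse_system F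
  refine ⟨fun k => s (Opposite.op k), fun k => ?_⟩
  have h := hs (homOfLE (Nat.le_succ k)).op
  rw [Functor.ofOpSequence_map_homOfLE_succ] at h
  exact h

end Pool.Agent.Lvl
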