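import Pool.Agent.Lvl.LimF
import Pool.Agent.Lvl.Konig

set_option autoImplicit false
set_option linter.unusedSectionVars false

noncomputable section

/-!
PACKAGE LVL-APPROX. The compactness argument: if `u` can be approximated by combinations of the
`m i` then it is a combination.

Given `k` choose `N` with `Fil N = ⊥` at the level `k` (`exists_fil_eq_bot`, `isPGroup_P`): the set
`Z k = {z : ι → GA T k // u k = ∑ i, z i * (m i) k}` is nonempty; it is finite, and `prA` maps
`Z (k + 1)` to `Z k` (ring homomorphism, `u.2 k`, `(m i).2 k`). `konig` gives a compatible family,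
that is `z i ∈ L1` with `u = ∑ z i * m i` (check at every level).
-/

namespace Pool.Agent.Lvl

open MonoidAlgebra MvPolynomial

variable {p q d : ℕ} [hp : Fact p.Prime] (T : Tower p q d)

private lemma approx_coe_sum {ι : Type} (s : Finset ι) (z : ι → Lim T (ZMod p)) (k : ℕ) :
    (∑ i ∈ s, z i).1 k = ∑ i ∈ s, (z i).1 k := by
  have h1 : (∑ i ∈ s, z i).1 = ∑ i ∈ s, (z i).1 := AddSubmonoidClass.coe_finsetSum _ _
  rw [h1, Finset.sum_apply]

private instance approx_finite (k : ℕ) : Finite (GA T k) := by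
  have : Finite (T.P k → ZMod p) := inferInstance
  exact Finite.of_injective (fun (u : GA T k) (g : T.P k) => u.coeff g) fun u v h =>
    MonoidAlgebra.ext (Finsupp.ext fun g => congrFun h g)

/-- the compactness argument: if `u` can be approximated by combinations of the `m i` then it is
one -/
theorem exists_of_approx {ι : Type} [Fintype ι] (m : ι → Lim T (ZMod p)) (u : Lim T (ZMod p))
    (h : ∀ N, ∃ z : ι → Lim T (ZMod p), FL T N (u - ∑ i, z i * m i)) :
    ∃ z : ι → Lim T (ZMod p), u = ∑ i, z i * m i := by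
  let Z : ℕ → Type := fun k => {z : ι → GA T k // u.1 k = ∑ i, z i * (m i).1 k}
  have hfin : ∀ k, Finite (Z k) := fun k => inferInstance
  have hne : ∀ k, Nonempty (Z k) := by
    intro k
    obtain ⟨N, hN⟩ := exists_fil_eq_bot (isPGroup_P T k)
    obtain ⟨z, hz⟩ := h N
    have h1 := hz k
    rw [hN, Submodule.mem_bot] at h1
    have h2 : (u - ∑ i, z i * m i).1 k = u.1 k - ∑ i, (z i).1 k * (m i).1 k := by
      have h3 : (u - ∑ i, z i * m i).1 k = u.1 k - (∑ i, z i * m i).1 k := rfl
      rw [h3, approx_coe_sum]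
      rfl
    rw [h2] at h1
    exact ⟨⟨fun i => (z i).1 k, sub_eq_zero.1 h1⟩⟩
  have key : ∀ k (z : Z (k + 1)), u.1 k = ∑ i, prA T k (z.1 i) * (m i).1 k := by
    intro k z
    have h1 : prA T k (u.1 (k + 1)) = u.1 k := u.2 k
    have h3 : prA T k (u.1 (k + 1)) = prA T k (∑ i, z.1 i * (m i).1 (k + 1)) :=
      congrArg (prA T k) z.2
    rw [← h1, h3, map_sum]
    refine Finset.sum_congr rfl fun i _ => ?_
    have h2 : prA T k ((m i).1 (k + 1)) = (m i).1 k := (m i).2 k
    rw [map_mul, h2]
  let f : ∀ k, Z (k + 1) → Z k := fun k z => ⟨fun i => prA T k (z.1 i), key k z⟩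
  obtain ⟨z, hz⟩ := konig Z f
  refine ⟨fun i => ⟨fun k => (z k).1 i, fun k => ?_⟩, ?_⟩
  · have h1 := congrArg (fun w : Z k => w.1 i) (hz k)
    exact h1
  · apply Subtype.ext
    funext k
    rw [approx_coe_sum]
    exact (z k).2

end Pool.Agent.Lvl
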