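import Pool.Agent.Lvl.AugI

set_option autoImplicit false
set_option linter.unusedSectionVars false

noncomputable section

/-!
PACKAGE LVL-AUGC. Characteristic `p`: `q`-th powers and nilpotence.

* `pow_char_mem`: `single (g ^ q) 1 - 1 = (single g 1 - 1) ^ q` for `q = p ^ s` (characteristic `p`,
  `sub_pow_char_pow_of_commute`), and this is in `Fil q` (induction with `fil_mul`).
* `exists_fil_eq_bot`: NILPOTENCE. The submodules `Fil n` decrease, the algebra is finite, so
  `Fil n = Fil (n + 1)` for some `n`. Let `V = Fil n` and suppose `V ≠ ⊥`. The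
  group `P` acts linearly on `V` by left multiplication, hence on the finite set `D` of all
  linear maps `V → ZMod p` by `(g f) v = f (g⁻¹ v)`. The number of elements of `D` is divisible
  by `p` (it is a nonzero `F_p`-vector space), so the number of fixed points is divisible by `p`
  (`IsPGroup.card_modEq_card_fixedPoints`) and there is a fixed point `f ≠ 0`. Then
  `f ((g - 1) v) = 0` for all `g`, `v ∈ V`, so `f` vanishes on `Fil (n + 1) = V` (`fil_succ_le_of`),
  contradiction.
-/

namespace Pool.Agent.Lvl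

open MonoidAlgebra

section Char

variable {p : ℕ} [hp : Fact p.Prime] {P : Type} [Group P]

private lemma pow_mem_fil (n : ℕ) {x : MonoidAlgebra (ZMod p) P} (hx : x ∈ Fil (ZMod p) P 1) :
    x ^ n ∈ Fil (ZMod p) P n := by
  induction n with
  | zero => exact mem_fil_zero _
  | succ n ih => rw [pow_succ]; exact fil_mul ih hx

lemma pow_char_mem (s : ℕ) (g : P) :
    single (g ^ p ^ s) (1 : ZMod p) - 1 ∈ Fil (ZMod p) P (p ^ s) := by
  have hc : CharP (MonoidAlgebra (ZMod p) P) p := by
    have hinj : Function.Injective (algebraMap (ZMod p) (MonoidAlgebra (ZMod p) P)) :=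
      FaithfulSMul.algebraMap_injective _ _
    exact charP_of_injective_algebraMap hinj p
  have h : single (g ^ p ^ s) (1 : ZMod p) - 1 = (single g (1 : ZMod p) - 1) ^ p ^ s := by
    rw [sub_pow_char_pow_of_commute _ _ (Commute.one_right _), one_pow, single_pow, one_pow]
  rw [h]
  exact pow_mem_fil _ (single_sub_mem g)

/-- left multiplication by a group element on a step of the filtration -/
private def lmul (n : ℕ) (g : P) : Fil (ZMod p) P n →ₗ[ZMod p] Fil (ZMod p) P n where
  toFun v := ⟨single g (1 : ZMod p) * v.1, fil_mul_left v.2 _⟩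
  map_add' := by
    intro v w
    apply Subtype.ext
    simp [mul_add]
  map_smul' := by
    intro c v
    apply Subtype.ext
    simp

private lemma lmul_one (n : ℕ) : lmul (p := p) n (1 : P) = LinearMap.id := by
  ext v : 1
  apply Subtype.ext
  change single (1 : P) (1 : ZMod p) * v.1 = v.1
  rw [← one_def, one_mul]

private lemma lmul_mul (n : ℕ) (g h : P) :
    lmul (p := p) n (g * h) = (lmul n g).comp (lmul n h) := by
  ext v : 1
  apply Subtype.ext
  change single (g * h) (1 : ZMod p) * v.1 = single g 1 * (single h 1 * v.1)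
  rw [← mul_assoc, single_mul_single, one_mul]

/-- the action on the dual space -/
@[instance_reducible]
private def act (n : ℕ) : MulAction P (Fil (ZMod p) P n →ₗ[ZMod p] ZMod p) where
  smul g f := f.comp (lmul n g⁻¹)
  one_smul := by
    intro f
    change f.comp (lmul n (1 : P)⁻¹) = f
    rw [inv_one, lmul_one, LinearMap.comp_id]
  mul_smul := by
    intro g h f
    change f.comp (lmul n (g * h)⁻¹) = (f.comp (lmul n h⁻¹)).comp (lmul n g⁻¹)
    rw [mul_inv_rev, lmul_mul, LinearMap.comp_assoc]

theorem exists_fil_eq_bot [Finite P] (hP : IsPGroup p P) : ∃ n, Fil (ZMod p) P n = ⊥ := by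
  have hfin : Finite (MonoidAlgebra (ZMod p) P) := by
    have h1 : Finite (P → ZMod p) := inferInstance
    exact Finite.of_injective (fun x : MonoidAlgebra (ZMod p) P => fun g => x.coeff g)
      (fun x y h => MonoidAlgebra.coeff_injective (Finsupp.ext fun g => congrFun h g))
  have hst : ∃ n, Fil (ZMod p) P n = Fil (ZMod p) P (n + 1) := by
    by_contra hcon
    push Not at hcon
    have hanti : StrictAnti (fun n => Fil (ZMod p) P n) :=
      strictAnti_nat_of_succ_lt fun n => lt_of_le_of_ne (fil_le (Nat.le_succ n)) (hcon n).symm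
    have hinj := hanti.injective
    have hf : Finite (Submodule (ZMod p) (MonoidAlgebra (ZMod p) P)) :=
      Finite.of_injective (fun W => (W : Set (MonoidAlgebra (ZMod p) P)))
        SetLike.coe_injective
    exact not_injective_infinite_finite _ hinj
  obtain ⟨n, hn⟩ := hst
  refine ⟨n, ?_⟩
  by_contra hV
  obtain ⟨v, hv, hv0⟩ := Submodule.exists_mem_ne_zero_of_ne_bot hV
  let _ : MulAction P (Fil (ZMod p) P n →ₗ[ZMod p] ZMod p) := act n
  have hfD : Finite (Fil (ZMod p) P n →ₗ[ZMod p] ZMod p) := DFunLike.finite _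
  have hne : ∃ f : Fil (ZMod p) P n →ₗ[ZMod p] ZMod p, f ≠ 0 := by
    by_contra hcon
    push Not at hcon
    have h0 : (⟨v, hv⟩ : Fil (ZMod p) P n) = 0 :=
      (Module.forall_dual_apply_eq_zero_iff (ZMod p) (⟨v, hv⟩ : Fil (ZMod p) P n)).mp
        (fun φ => by rw [hcon φ]; rfl)
    exact hv0 (congrArg Subtype.val h0)
  obtain ⟨f0, hf0⟩ := hne
  have hcard : p ∣ Nat.card (Fil (ZMod p) P n →ₗ[ZMod p] ZMod p) := by
    have h1 : addOrderOf f0 = p := by
      apply addOrderOf_eq_prime _ hf0
      ext v
      simp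
    have h2 := addOrderOf_dvd_natCard f0
    rwa [h1] at h2
  have hfix0 : (0 : Fil (ZMod p) P n →ₗ[ZMod p] ZMod p) ∈
      MulAction.fixedPoints P (Fil (ZMod p) P n →ₗ[ZMod p] ZMod p) := by
    intro g
    change (0 : Fil (ZMod p) P n →ₗ[ZMod p] ZMod p).comp (lmul n g⁻¹) = 0
    rw [LinearMap.zero_comp]
  obtain ⟨f, hf, hf1⟩ := hP.exists_fixed_point_of_prime_dvd_card_of_fixed_point _ hcard hfix0
  have hfg : ∀ (g : P) (w : Fil (ZMod p) P n), f (lmul n g w) = f w := by
    intro g w
    have h1 : f.comp (lmul n (g⁻¹)⁻¹) = f := hf g⁻¹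
    rw [inv_inv] at h1
    exact LinearMap.congr_fun h1 w
  have hle : Fil (ZMod p) P (n + 1) ≤
      Submodule.map (Fil (ZMod p) P n).subtype (LinearMap.ker f) := by
    apply fil_succ_le_of
    intro g w hw
    refine ⟨lmul n g ⟨w, hw⟩ - ⟨w, hw⟩, ?_, ?_⟩
    · rw [SetLike.mem_coe, LinearMap.mem_ker, map_sub, hfg, sub_self]
    · rw [map_sub, sub_mul, one_mul]
      rfl
  apply hf1
  ext w
  have hw : w.1 ∈ Fil (ZMod p) P (n + 1) := hn ▸ w.2
  obtain ⟨u, hu, hu'⟩ := hle hw
  have huw : u = w := Subtype.ext hu'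
  rw [← huw]
  exact (LinearMap.mem_ker.mp hu).symm

end Char

end Pool.Agent.Lvl
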