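import Pool.Agent.Lvl.Defs

set_option autoImplicit false

noncomputable section

/-!
PACKAGE LVL-AUGI. The filtration `Fil R P n = ⊤ * aug ^ n` by the powers of the augmentation ideal
(the span of the `single g 1 - 1`).

* `aug * ⊤ ≤ ⊤ * aug`: `(g - 1) h = h (h⁻¹ g h - 1)`, linearity (`Submodule.mul_le`,
  `Submodule.span_induction`; every element of the group algebra is a combination of `single h 1`).
  So `aug ^ n * ⊤ ≤ ⊤ * aug ^ n` by induction. And `⊤ * ⊤ ≤ ⊤`, `1 ≤ ⊤`.
* `fil_zero`: `⊤ * 1 = ⊤`. `fil_mul`: `⊤ * aug ^ m * (⊤ * aug ^ n) ≤ ⊤ * ⊤ * aug ^ m * aug ^ n`.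
  `fil_le`: `aug ≤ ⊤`, `⊤ * aug ^ (m + r) = ⊤ * aug ^ r * aug ^ m ≤ ⊤ * ⊤ * aug ^ m`
  (`Submodule.mul_le_mul`, `Submodule.mul_mem_mul`).
* `sub_one_mem_closure`: the set of all `g` with `single g 1 - 1 ∈ Fil n` is a subgroup:
  `g h - 1 = (g - 1) h + (h - 1)`, `g⁻¹ - 1 = - g⁻¹ (g - 1)`.
* `map_fil`: images of the generators.
* `lift_fil_one`: the augmentation vanishes on `Fil 1`.
* `fil_succ_le_of`: a submodule which contains `(single g 1 - 1) * v` for all `v ∈ Fil n` contains
  `Fil (n + 1)`: `Fil (n + 1) = ⊤ * aug ^ (n + 1) ≤ aug * (⊤ * aug ^ n)`: for this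
  `⊤ * aug ≤ aug * ⊤` (`h (g - 1) = (h g h⁻¹ - 1) h`).
-/

namespace Pool.Agent.Lvl

open MonoidAlgebra

section Gen

variable {R P : Type} [CommRing R] [Group P]

private lemma gen_mem (g : P) : single g (1 : R) - 1 ∈ aug R P :=
  Submodule.subset_span ⟨g, rfl⟩

private lemma aug_comm : Commute (⊤ : Submodule R (MonoidAlgebra R P)) (aug R P) := by
  apply le_antisymm
  · rw [Submodule.mul_le]
    intro m _ x hx
    refine Submodule.span_induction (p := fun x _ => m * x ∈ aug R P * ⊤) ?_ ?_ ?_ ?_ hx
    · rintro _ ⟨g, rfl⟩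
      induction m using MonoidAlgebra.induction_linear with
      | zero => rw [zero_mul]; exact Submodule.zero_mem _
      | add a b ha hb => rw [add_mul]; exact Submodule.add_mem _ (ha trivial) (hb trivial)
      | single h r =>
        have e : (single h r : MonoidAlgebra R P) * (single g 1 - 1)
            = (single (h * g * h⁻¹) 1 - 1) * single h r := by
          rw [mul_sub, sub_mul, single_mul_single, single_mul_single, mul_one, one_mul, mul_one,
            one_mul, inv_mul_cancel_right]
        rw [e]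
        exact Submodule.mul_mem_mul (gen_mem _) trivial
    · rw [mul_zero]; exact Submodule.zero_mem _
    · intro a b _ _ ha hb
      rw [mul_add]; exact Submodule.add_mem _ ha hb
    · intro r a _ ha
      rw [mul_smul_comm]; exact Submodule.smul_mem _ _ ha
  · rw [Submodule.mul_le]
    intro x hx m _
    refine Submodule.span_induction (p := fun x _ => x * m ∈ ⊤ * aug R P) ?_ ?_ ?_ ?_ hx
    · rintro _ ⟨g, rfl⟩
      induction m using MonoidAlgebra.induction_linear with
      | zero => rw [mul_zero]; exact Submodule.zero_mem _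
      | add a b ha hb => rw [mul_add]; exact Submodule.add_mem _ (ha trivial) (hb trivial)
      | single h r =>
        have e : (single g 1 - 1) * (single h r : MonoidAlgebra R P)
            = single h r * (single (h⁻¹ * (g * h)) 1 - 1) := by
          rw [mul_sub, sub_mul, single_mul_single, single_mul_single, mul_one, one_mul, mul_one,
            one_mul, mul_inv_cancel_left]
        rw [e]
        exact Submodule.mul_mem_mul trivial (gen_mem _)
    · rw [zero_mul]; exact Submodule.zero_mem _
    · intro a b _ _ ha hb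
      rw [add_mul]; exact Submodule.add_mem _ ha hb
    · intro r a _ ha
      rw [smul_mul_assoc]; exact Submodule.smul_mem _ _ ha

private lemma top_top : (⊤ : Submodule R (MonoidAlgebra R P)) * ⊤ = ⊤ := by
  apply le_antisymm le_top
  intro x _
  rw [← one_mul x]
  exact Submodule.mul_mem_mul trivial trivial

lemma fil_zero : Fil R P 0 = ⊤ := by
  unfold Fil
  rw [pow_zero, mul_one]

lemma fil_mul {m n : ℕ} {x y : MonoidAlgebra R P} (hx : x ∈ Fil R P m) (hy : y ∈ Fil R P n) :
    x * y ∈ Fil R P (m + n) := by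
  have h := Submodule.mul_mem_mul hx hy
  have e : Fil R P m * Fil R P n = Fil R P (m + n) := by
    unfold Fil
    have hc : aug R P ^ m * ⊤ = ⊤ * aug R P ^ m := ((aug_comm (R := R) (P := P)).pow_right m).symm
    rw [mul_assoc, ← mul_assoc (aug R P ^ m), hc, mul_assoc, ← pow_add, ← mul_assoc, top_top]
  rw [e] at h
  exact h

lemma fil_le {m n : ℕ} (h : m ≤ n) : Fil R P n ≤ Fil R P m := by
  obtain ⟨r, rfl⟩ := Nat.exists_eq_add_of_le' h
  unfold Fil
  rw [pow_add, ← mul_assoc]
  rw [Submodule.mul_le]
  intro a _ b hb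
  exact Submodule.mul_mem_mul trivial hb

lemma mem_fil_zero (x : MonoidAlgebra R P) : x ∈ Fil R P 0 := by
  rw [fil_zero]; trivial

lemma fil_mul_left {n : ℕ} {x : MonoidAlgebra R P} (hx : x ∈ Fil R P n) (y : MonoidAlgebra R P) :
    y * x ∈ Fil R P n := by
  simpa using fil_mul (mem_fil_zero y) hx

lemma fil_mul_right {n : ℕ} {x : MonoidAlgebra R P} (hx : x ∈ Fil R P n) (y : MonoidAlgebra R P) :
    x * y ∈ Fil R P n := by
  simpa using fil_mul hx (mem_fil_zero y)

lemma single_sub_mem (g : P) : single g (1 : R) - 1 ∈ Fil R P 1 := by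
  unfold Fil
  rw [pow_one, ← one_mul (single g (1 : R) - 1)]
  exact Submodule.mul_mem_mul trivial (gen_mem g)

lemma sub_one_mem_closure {n : ℕ} {S : Set P}
    (hS : ∀ g ∈ S, single g (1 : R) - 1 ∈ Fil R P n) {g : P} (hg : g ∈ Subgroup.closure S) :
    single g (1 : R) - 1 ∈ Fil R P n := by
  induction hg using Subgroup.closure_induction with
  | mem x hx => exact hS x hx
  | one =>
    have : (single (1 : P) (1 : R) : MonoidAlgebra R P) - 1 = 0 := by
      rw [MonoidAlgebra.one_def, sub_self]
    rw [this]; exact Submodule.zero_mem _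
  | mul a b _ _ ha hb =>
    have e : (single (a * b) (1 : R) : MonoidAlgebra R P) - 1
        = (single a 1 - 1) * single b 1 + (single b 1 - 1) := by
      rw [sub_mul, single_mul_single, mul_one, one_mul]
      abel
    rw [e]
    exact Submodule.add_mem _ (fil_mul_right ha _) hb
  | inv a _ ha =>
    have e : (single a⁻¹ (1 : R) : MonoidAlgebra R P) - 1 = - (single a⁻¹ 1 * (single a 1 - 1)) := by
      rw [mul_sub, single_mul_single, mul_one, mul_one, inv_mul_cancel, ← MonoidAlgebra.one_def]
      abel
    rw [e]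
    exact Submodule.neg_mem _ (fil_mul_left ha _)

lemma map_fil {Q : Type} [Group Q] (f : P →* Q) {n : ℕ} {x : MonoidAlgebra R P}
    (hx : x ∈ Fil R P n) : mapDomainRingHom R f x ∈ Fil R Q n := by
  have h1 : Submodule.map (mapDomainAlgHom R R f).toLinearMap (Fil R P n) ≤ Fil R Q n := by
    unfold Fil
    rw [Submodule.map_mul, Submodule.map_pow]
    have h2 : Submodule.map (mapDomainAlgHom R R f).toLinearMap (aug R P) ≤ aug R Q := by
      unfold aug
      rw [Submodule.map_span_le]
      rintro _ ⟨g, rfl⟩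
      have : (mapDomainAlgHom R R f).toLinearMap (single g (1 : R) - 1)
          = single (f g) (1 : R) - 1 := by
        rw [map_sub, AlgHom.toLinearMap_apply, AlgHom.toLinearMap_apply, map_one]
        simp
      rw [this]
      exact Submodule.subset_span ⟨f g, rfl⟩
    exact mul_le_mul' le_top (pow_le_pow_left' h2 n)
  have h3 := h1 (Submodule.mem_map_of_mem hx)
  exact h3

/-- the coefficient sum of elements of the augmentation ideal is zero -/
lemma lift_fil_one {x : MonoidAlgebra R P} (hx : x ∈ Fil R P 1) :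
    MonoidAlgebra.lift R R P (1 : P →* R) x = 0 := by
  unfold Fil at hx
  rw [pow_one] at hx
  refine Submodule.mul_induction_on hx ?_ ?_
  · intro a _ b hb
    rw [map_mul]
    have : MonoidAlgebra.lift R R P (1 : P →* R) b = 0 := by
      refine Submodule.span_induction (p := fun b _ => MonoidAlgebra.lift R R P (1 : P →* R) b = 0)
        ?_ ?_ ?_ ?_ hb
      · rintro _ ⟨g, rfl⟩
        rw [map_sub (MonoidAlgebra.lift R R P (1 : P →* R)), MonoidAlgebra.lift_single,
          map_one (MonoidAlgebra.lift R R P (1 : P →* R))]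
        simp
      · exact map_zero _
      · intro c d _ _ hc hd
        rw [map_add, hc, hd, add_zero]
      · intro r c _ hc
        rw [map_smul, hc, smul_zero]
    rw [this, mul_zero]
  · intro a b ha hb
    rw [map_add, ha, hb, add_zero]

lemma fil_succ_le_of {n : ℕ} (W : Submodule R (MonoidAlgebra R P))
    (h : ∀ (g : P), ∀ v ∈ Fil R P n, (single g (1 : R) - 1) * v ∈ W) : Fil R P (n + 1) ≤ W := by
  have e : Fil R P (n + 1) = aug R P * Fil R P n := by
    unfold Fil
    have hc : ⊤ * aug R P = aug R P * ⊤ := aug_comm (R := R) (P := P)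
    rw [pow_succ', ← mul_assoc, hc, mul_assoc]
  rw [e, Submodule.mul_le]
  intro m hm v hv
  refine Submodule.span_induction (p := fun m _ => m * v ∈ W) ?_ ?_ ?_ ?_ hm
  · rintro _ ⟨g, rfl⟩
    exact h g v hv
  · rw [zero_mul]; exact Submodule.zero_mem _
  · intro a b _ _ ha hb
    rw [add_mul]; exact Submodule.add_mem _ ha hb
  · intro r a _ ha
    rw [smul_mul_assoc]; exact Submodule.smul_mem _ _ ha

end Gen

end Pool.Agent.Lvl
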