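import Pool.Agent.Lvl.OPow

set_option autoImplicit false

noncomputable section

/-!
PACKAGE LVL-BAS. The basis `b ^ e` (`e l < p ^ k`) of the group algebra `F_p[P k]`.

* `bb_pow`: `(c - 1) ^ (p ^ k) = c ^ (p ^ k) - 1 = 0` (`sub_pow_char_pow_of_commute` or
  `sub_pow_expChar_pow_of_commute`, `single_pow`, `T.c_pow`; the characteristic is `p`).
* `bm_eq_zero`: one factor `b l ^ e l` with `p ^ k ≤ e l` is zero (`opow`, `List.prod_eq_zero`).
* `span_bm`: every element is a combination of the `single g 1`; `g = opow (T.c k) a` (`T.gen`),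
  `single g 1 = opow (fun l => single (c l) 1) a` (`map_opow` for `MonoidAlgebra.of`) and
  `single (c l) 1 = 1 + b l`, so `opow_mem_span` and `bm_eq_zero` give the claim.
* `finrank_GA`: the group algebra is `P k →₀ ZMod p` (`Module.finrank_finsupp` through the linear
  equivalence `coeff`), and `T.card`.
* `bas`: `basisOfTopLeSpanOfCardEqFinrank`.
* `pl_coeff_ne`, `pl_bm`, `ev_pl`, `pl_ev_coeff`: compute on the basis (`Module.Basis.constr_basis`,
  `Module.Basis.ext`, `MvPolynomial.induction_on'` or linearity).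
* `pr_bm`: `map_opow` and `T.pr_c`. `pl_pr`: both sides are linear in `u`; check on the basis of
  level `k + 1`.
-/

namespace Pool.Agent.Lvl

open MonoidAlgebra

variable {p q d : ℕ} [hp : Fact p.Prime] (T : Tower p q d)

/-- the group algebra over the field with `p` elements -/
abbrev GA (T : Tower p q d) (k : ℕ) : Type := MonoidAlgebra (ZMod p) (T.P k)

/-- the map `F_p[P (k + 1)] → F_p[P k]` -/
abbrev prA (T : Tower p q d) (k : ℕ) : GA T (k + 1) →+* GA T k :=
  mapDomainRingHom (ZMod p) (T.pr k)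

/-- exponents smaller than `p ^ k` -/
def Bx (p k : ℕ) {d : ℕ} (e : Fin d →₀ ℕ) : Prop := ∀ l, e l < p ^ k

/-- the exponent of an index -/
def ex {p k : ℕ} (i : Fin d → Fin (p ^ k)) : Fin d →₀ ℕ :=
  Finsupp.equivFunOnFinite.symm fun l => (i l : ℕ)

lemma ex_apply {p k : ℕ} (i : Fin d → Fin (p ^ k)) (l : Fin d) : ex i l = i l := rfl

lemma ex_injective {p k : ℕ} : Function.Injective (ex : (Fin d → Fin (p ^ k)) → Fin d →₀ ℕ) := by
  intro i j h
  funext l
  have := DFunLike.congr_fun h l
  rw [ex_apply, ex_apply] at this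
  exact Fin.ext this

lemma exists_ex {k : ℕ} {e : Fin d →₀ ℕ} (h : Bx p k e) :
    ∃ i : Fin d → Fin (p ^ k), ex i = e := by
  refine ⟨fun l => ⟨e l, h l⟩, ?_⟩
  ext l
  rfl

lemma bx_ex {k : ℕ} (i : Fin d → Fin (p ^ k)) : Bx p k (ex i) := fun l => (i l).isLt

private lemma charP_GA (k : ℕ) : CharP (GA T k) p := by
  have h : Function.Injective (algebraMap (ZMod p) (GA T k)) :=
    FaithfulSMul.algebraMap_injective (ZMod p) (GA T k)
  exact charP_of_injective_algebraMap h p

lemma bb_pow (k : ℕ) (l : Fin d) : bb T (ZMod p) k l ^ p ^ k = 0 := by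
  have hc := charP_GA T k
  unfold bb
  have h := sub_pow_char_pow_of_commute (R := GA T k) (p := p) (n := k)
    (x := single (T.c k l) 1) (y := 1) (Commute.one_right _)
  rw [h, MonoidAlgebra.single_pow, T.c_pow, one_pow, one_pow, MonoidAlgebra.one_def, sub_self]

lemma bm_eq_zero {k : ℕ} {e : Fin d →₀ ℕ} (h : ¬ Bx p k e) : bm T (ZMod p) k e = 0 := by
  unfold Bx at h
  push Not at h
  obtain ⟨l, hl⟩ := h
  unfold bm opow
  have h0 : bb T (ZMod p) k l ^ e l = 0 := by
    obtain ⟨m, hm⟩ := Nat.exists_eq_add_of_le hl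
    rw [hm, pow_add, bb_pow, zero_mul]
  apply List.prod_eq_zero
  rw [List.mem_ofFn]
  exact ⟨l, h0⟩

lemma span_bm (k : ℕ) : Submodule.span (ZMod p)
    (Set.range fun i : Fin d → Fin (p ^ k) => bm T (ZMod p) k (ex i)) = ⊤ := by
  rw [eq_top_iff]
  intro x _
  have key : ∀ g : T.P k, (single g (1 : ZMod p) : GA T k) ∈ Submodule.span (ZMod p)
      (Set.range fun i : Fin d → Fin (p ^ k) => bm T (ZMod p) k (ex i)) := by
    intro g
    obtain ⟨a, ha⟩ := T.gen k g
    have h1 : (single g (1 : ZMod p) : GA T k) = opow (fun l => 1 + bb T (ZMod p) k l) a := by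
      have h2 : (MonoidAlgebra.of (ZMod p) (T.P k)) g =
          opow (fun l => (MonoidAlgebra.of (ZMod p) (T.P k)) (T.c k l)) a := by
        rw [ha, map_opow]
      rw [MonoidAlgebra.of_apply] at h2
      rw [h2]
      congr 1
      funext l
      rw [MonoidAlgebra.of_apply]
      unfold bb
      abel
    rw [h1]
    refine Submodule.span_le.2 ?_ (opow_mem_span (R := ZMod p) (bb T (ZMod p) k) a)
    rintro y ⟨e, rfl⟩
    have h3 : opow (bb T (ZMod p) k) (fun l => (e l : ℕ)) =
        bm T (ZMod p) k (Finsupp.equivFunOnFinite.symm fun l => (e l : ℕ)) := rfl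
    show opow (bb T (ZMod p) k) (fun l => (e l : ℕ)) ∈ _
    rw [h3]
    by_cases hb : Bx p k (Finsupp.equivFunOnFinite.symm fun l => (e l : ℕ))
    · obtain ⟨i, hi⟩ := exists_ex hb
      apply Submodule.subset_span
      exact ⟨i, by rw [← hi]⟩
    · rw [bm_eq_zero T hb]
      exact Submodule.zero_mem _
  induction x using MonoidAlgebra.induction_linear with
  | zero => exact Submodule.zero_mem _
  | add f g hf hg => exact Submodule.add_mem _ (hf trivial) (hg trivial)
  | single g r =>
    have : (single g r : GA T k) = r • single g (1 : ZMod p) := by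
      rw [MonoidAlgebra.smul_single, smul_eq_mul, mul_one]
    rw [this]
    exact Submodule.smul_mem _ _ (key g)

lemma finrank_GA (k : ℕ) : Module.finrank (ZMod p) (GA T k) = p ^ (k * d) := by
  rw [(MonoidAlgebra.coeffLinearEquiv (ZMod p)).finrank_eq, Module.finrank_finsupp,
    Module.finrank_self, mul_one, T.card]

instance (k : ℕ) : Module.Finite (ZMod p) (GA T k) :=
  Module.Finite.equiv (MonoidAlgebra.coeffLinearEquiv (ZMod p)).symm

instance (k : ℕ) : Finite (GA T k) := Module.finite_of_finite (ZMod p)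

/-- the basis `b ^ e` -/
def bas (k : ℕ) : Module.Basis (Fin d → Fin (p ^ k)) (ZMod p) (GA T k) :=
  basisOfTopLeSpanOfCardEqFinrank (fun i => bm T (ZMod p) k (ex i)) (span_bm T k).ge (by
    rw [finrank_GA]
    simp [pow_mul])

lemma bas_apply (k : ℕ) (i : Fin d → Fin (p ^ k)) : bas T k i = bm T (ZMod p) k (ex i) := by
  simp [bas]

/-- the polynomial of an element of the group algebra: `b ^ e` goes to `X ^ e` for exponents
smaller than `p ^ k` -/
def pl (k : ℕ) : GA T k →ₗ[ZMod p] MvPolynomial (Fin d) (ZMod p) :=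
  (bas T k).constr (ZMod p) fun i => MvPolynomial.monomial (ex i) 1

/-- the value of a polynomial: `X ^ e` goes to `b ^ e` -/
def ev (k : ℕ) : MvPolynomial (Fin d) (ZMod p) →ₗ[ZMod p] GA T k :=
  (MvPolynomial.basisMonomials (Fin d) (ZMod p)).constr (ZMod p) fun e => bm T (ZMod p) k e

lemma ev_monomial (k : ℕ) (e : Fin d →₀ ℕ) (r : ZMod p) :
    ev T k (MvPolynomial.monomial e r) = r • bm T (ZMod p) k e := by
  have h : MvPolynomial.monomial e r = r • (MvPolynomial.basisMonomials (Fin d) (ZMod p)) e := by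
    rw [MvPolynomial.coe_basisMonomials, MvPolynomial.smul_monomial, smul_eq_mul, mul_one]
  rw [h, map_smul]
  congr 1
  exact Module.Basis.constr_basis _ _ _ _

lemma pl_bm {k : ℕ} {e : Fin d →₀ ℕ} (h : Bx p k e) :
    pl T k (bm T (ZMod p) k e) = MvPolynomial.monomial e 1 := by
  obtain ⟨i, rfl⟩ := exists_ex h
  rw [← bas_apply]
  exact Module.Basis.constr_basis _ _ _ _

lemma ev_pl (k : ℕ) (u : GA T k) : ev T k (pl T k u) = u := by
  have h : (ev T k).comp (pl T k) = LinearMap.id := by
    refine (bas T k).ext fun i => ?_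
    rw [LinearMap.comp_apply, bas_apply, pl_bm T (bx_ex i), ev_monomial, one_smul,
      LinearMap.id_apply]
  exact DFunLike.congr_fun h u

lemma pl_coeff_ne {k : ℕ} {u : GA T k} {e : Fin d →₀ ℕ} (h : (pl T k u).coeff e ≠ 0) :
    Bx p k e := by
  by_contra hb
  apply h
  have hz : (MvPolynomial.lcoeff (ZMod p) e).comp (pl T k) = 0 := by
    refine (bas T k).ext fun i => ?_
    rw [LinearMap.comp_apply, bas_apply, pl_bm T (bx_ex i), MvPolynomial.lcoeff_apply,
      MvPolynomial.coeff_monomial, if_neg, LinearMap.zero_apply]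
    rintro rfl
    exact hb (bx_ex i)
  exact DFunLike.congr_fun hz u

lemma pl_ev_coeff {k : ℕ} (f : MvPolynomial (Fin d) (ZMod p)) {e : Fin d →₀ ℕ} (h : Bx p k e) :
    (pl T k (ev T k f)).coeff e = f.coeff e := by
  have hz : (MvPolynomial.lcoeff (ZMod p) e).comp ((pl T k).comp (ev T k)) =
      MvPolynomial.lcoeff (ZMod p) e := by
    refine (MvPolynomial.basisMonomials (Fin d) (ZMod p)).ext fun e' => ?_
    rw [LinearMap.comp_apply, LinearMap.comp_apply, MvPolynomial.coe_basisMonomials, ev_monomial,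
      one_smul, MvPolynomial.lcoeff_apply, MvPolynomial.lcoeff_apply,
      MvPolynomial.coeff_monomial]
    by_cases hb : Bx p k e'
    · rw [pl_bm T hb, MvPolynomial.coeff_monomial]
    · rw [bm_eq_zero T hb, map_zero, MvPolynomial.coeff_zero, if_neg]
      rintro rfl
      exact hb h
  exact DFunLike.congr_fun hz f

lemma pr_bm (R : Type) [CommRing R] (k : ℕ) (e : Fin d →₀ ℕ) :
    mapDomainRingHom R (T.pr k) (bm T R (k + 1) e) = bm T R k e := by
  unfold bm
  have h := map_opow ((mapDomainRingHom R (T.pr k)).toMonoidHom) (bb T R (k + 1)) e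
  refine h.trans ?_
  congr 1
  funext l
  show mapDomainRingHom R (T.pr k) (bb T R (k + 1) l) = bb T R k l
  unfold bb
  rw [map_sub, map_one]
  congr 1
  rw [mapDomainRingHom_apply, mapDomain_single, T.pr_c]

private lemma prA_smul (k : ℕ) (r : ZMod p) (u : GA T (k + 1)) :
    prA T k (r • u) = r • prA T k u := by
  show mapDomainRingHom (ZMod p) (T.pr k) (r • u) = r • mapDomainRingHom (ZMod p) (T.pr k) u
  rw [mapDomainRingHom_apply, mapDomainRingHom_apply, mapDomain_smul]

lemma pr_ev (k : ℕ) (f : MvPolynomial (Fin d) (ZMod p)) :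
    prA T k (ev T (k + 1) f) = ev T k f := by
  refine MvPolynomial.induction_on' f (fun e r => ?_) fun f g hf hg => ?_
  · rw [ev_monomial, ev_monomial, prA_smul, pr_bm]
  · rw [map_add, map_add, map_add, hf, hg]

lemma pl_pr {k : ℕ} (u : GA T (k + 1)) {e : Fin d →₀ ℕ} (h : Bx p k e) :
    (pl T k (prA T k u)).coeff e = (pl T (k + 1) u).coeff e := by
  have h1 := pr_ev T k (pl T (k + 1) u)
  rw [ev_pl] at h1
  rw [h1, pl_ev_coeff T _ h]

end Pool.Agent.Lvl
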