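import Pool.Agent.Lvl.Defs

set_option autoImplicit false

noncomputable section

namespace Pool.Agent.Lvl

open MonoidAlgebra

/-- the span of the commutators of the rational group ring -/
def comQ (H : Type) [Group H] : Submodule ℚ (MonoidAlgebra ℚ H) :=
  Submodule.span ℚ {z | ∃ x y, z = x * y - y * x}

/-- The elements `h` and `h'` cannot be separated by trace functions on the quotients of the
rational group ring by the powers of the augmentation ideal. -/
def CC {H : Type} [Group H] (h h' : H) : Prop :=
  ∀ n, single h (1 : ℚ) - single h' 1 ∈ Fil ℚ H n ⊔ comQ H

end Pool.Agent.Lvl
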