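import Pool.Agent.Lvl.Defs

set_option autoImplicit false
set_option linter.unusedSectionVars false

noncomputable section

/-!
PACKAGE LVL-CIRC. The monoid `Circ q N R` of all `N × N` matrices `X` over `R` with the product
`X ∗ Y = X + Y + q X Y`; `X ↦ 1 + q X` is a homomorphism to the matrices with the usual product.

* `toMat`: `(1 + q X) (1 + q Y) = 1 + q (X + Y + q X Y)`.
* `pow_formula`: induction on `n`, or `X ^ n = ∑ j < n, choose n (j + 1) q ^ j X ^ (j + 1)`. Here
  the power on the left is the one of `Circ`. (Induction: `X ^ (n + 1) = X ^ n + X + q X ^ n X`,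
  Pascal.)
* `isUnit_of_nilp`: let `q ^ s = 0` in `R`. `1 + q X` is invertible: the inverse is the finite sum
  `∑ (-q) ^ j X ^ j = 1 + q Y`, so `Y = - ∑ (-q) ^ j X ^ (j + 1)` satisfies `X ∗ Y = 0 = Y ∗ X`.
  (It is
  enough: every element has a left inverse.)
* `cmap`: ring homomorphisms.
-/

namespace Pool.Agent.Lvl

/-- all matrices with the product `X + Y + q X Y` -/
@[ext]
structure Circ (q N : ℕ) (R : Type) where
  m : Matrix (Fin N) (Fin N) R

namespace Circ

variable {q N : ℕ} {R S : Type} [CommRing R] [CommRing S]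

instance : One (Circ q N R) := ⟨⟨0⟩⟩

instance : Mul (Circ q N R) := ⟨fun X Y => ⟨X.m + Y.m + (q : R) • (X.m * Y.m)⟩⟩

lemma one_m : (1 : Circ q N R).m = 0 := rfl

lemma mul_m (X Y : Circ q N R) : (X * Y).m = X.m + Y.m + (q : R) • (X.m * Y.m) := rfl

instance : Monoid (Circ q N R) where
  mul_assoc X Y Z := by
    apply Circ.ext
    rw [mul_m, mul_m, mul_m, mul_m]
    simp only [add_mul, mul_add, smul_add, Matrix.smul_mul, Matrix.mul_smul, Matrix.mul_assoc]
    abel
  one_mul X := by
    apply Circ.ext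
    rw [mul_m, one_m, zero_add, zero_mul, smul_zero, add_zero]
  mul_one X := by
    apply Circ.ext
    rw [mul_m, one_m, add_zero, mul_zero, smul_zero, add_zero]

/-- the matrix `1 + q X` -/
def toMat : Circ q N R →* Matrix (Fin N) (Fin N) R where
  toFun X := 1 + (q : R) • X.m
  map_one' := by
    rw [one_m, smul_zero, add_zero]
  map_mul' X Y := by
    rw [mul_m]
    simp only [add_mul, mul_add, smul_add, Matrix.smul_mul, Matrix.mul_smul, one_mul, mul_one]
    abel

/-- change of the ring -/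
def cmap (φ : R →+* S) : Circ q N R →* Circ q N S where
  toFun X := ⟨X.m.map φ⟩
  map_one' := by
    apply Circ.ext
    rw [one_m, one_m]
    exact Matrix.map_zero φ (map_zero φ)
  map_mul' X Y := by
    apply Circ.ext
    rw [mul_m, mul_m]
    ext i j
    simp [Matrix.map_apply, Matrix.mul_apply, map_sum]

lemma cmap_m (φ : R →+* S) (X : Circ q N R) : (cmap φ X).m = X.m.map φ := rfl

lemma pow_formula (X : Circ q N R) (n : ℕ) :
    (X ^ n).m = ∑ j ∈ Finset.range n, ((n.choose (j + 1) * q ^ j : ℕ) : R) • X.m ^ (j + 1) := by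
  induction n with
  | zero =>
    rw [pow_zero, one_m, Finset.range_zero, Finset.sum_empty]
  | succ n ih =>
    have e1 : ∑ j ∈ Finset.range (n + 1),
        (((n + 1).choose (j + 1) * q ^ j : ℕ) : R) • X.m ^ (j + 1) =
        ∑ j ∈ Finset.range (n + 1), ((n.choose j * q ^ j : ℕ) : R) • X.m ^ (j + 1) +
        ∑ j ∈ Finset.range (n + 1), ((n.choose (j + 1) * q ^ j : ℕ) : R) • X.m ^ (j + 1) := by
      rw [← Finset.sum_add_distrib]
      refine Finset.sum_congr rfl fun j _ => ?_
      rw [← add_smul, Nat.choose_succ_succ, add_mul, Nat.cast_add]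
    have e2 : ∑ j ∈ Finset.range (n + 1), ((n.choose (j + 1) * q ^ j : ℕ) : R) • X.m ^ (j + 1) =
        ∑ j ∈ Finset.range n, ((n.choose (j + 1) * q ^ j : ℕ) : R) • X.m ^ (j + 1) := by
      rw [Finset.sum_range_succ, Nat.choose_succ_self, zero_mul, Nat.cast_zero, zero_smul,
        add_zero]
    have e3 : ∑ j ∈ Finset.range (n + 1), ((n.choose j * q ^ j : ℕ) : R) • X.m ^ (j + 1) =
        (q : R) • ((∑ j ∈ Finset.range n,
          ((n.choose (j + 1) * q ^ j : ℕ) : R) • X.m ^ (j + 1)) * X.m) + X.m := by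
      rw [Finset.sum_range_succ']
      congr 1
      · rw [Finset.sum_mul, Finset.smul_sum]
        refine Finset.sum_congr rfl fun j _ => ?_
        rw [Matrix.smul_mul, smul_smul, ← pow_succ]
        congr 1
        push_cast
        ring
      · simp
    rw [pow_succ, mul_m, ih, e1, e2, e3]
    abel

theorem isUnit_of_nilp {s : ℕ} (h : (q : R) ^ s = 0) (X : Circ q N R) : IsUnit X := by
  obtain ⟨a, ha⟩ : ∃ a : Matrix (Fin N) (Fin N) R, a = -((q : R) • X.m) := ⟨_, rfl⟩
  have ha1 : (1 : Matrix (Fin N) (Fin N) R) - a = 1 + (q : R) • X.m := by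
    rw [ha, sub_neg_eq_add]
  have has : a ^ s = 0 := by
    rw [ha, neg_pow, smul_pow, h, zero_smul, mul_zero]
  obtain ⟨G, hG⟩ : ∃ G : Matrix (Fin N) (Fin N) R, G = ∑ j ∈ Finset.range s, a ^ j := ⟨_, rfl⟩
  have h1 : (1 + (q : R) • X.m) * G = 1 := by
    rw [← ha1, hG, mul_neg_geom_sum, has, sub_zero]
  have h2 : G * (1 + (q : R) • X.m) = 1 := by
    rw [← ha1, hG, geom_sum_mul_neg, has, sub_zero]
  refine ⟨⟨X, ⟨-(G * X.m)⟩, ?_, ?_⟩, rfl⟩
  · apply Circ.ext
    rw [mul_m, one_m]
    have h3 : X.m + -(G * X.m) + (q : R) • (X.m * -(G * X.m)) =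
        X.m - ((1 + (q : R) • X.m) * G) * X.m := by
      rw [add_mul, one_mul, add_mul, Matrix.smul_mul, Matrix.smul_mul, mul_neg, smul_neg,
        Matrix.mul_assoc]
      abel
    rw [h3, h1, one_mul, sub_self]
  · apply Circ.ext
    rw [mul_m, one_m]
    have h3 : -(G * X.m) + X.m + (q : R) • (-(G * X.m) * X.m) =
        X.m - (G * (1 + (q : R) • X.m)) * X.m := by
      rw [mul_add, mul_one, add_mul, Matrix.mul_smul, Matrix.smul_mul, neg_mul, smul_neg]
      abel
    rw [h3, h2, one_mul, sub_self]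

instance [Fintype R] : Fintype (Circ q N R) :=
  Fintype.ofEquiv (Matrix (Fin N) (Fin N) R) ⟨Circ.mk, Circ.m, fun _ => rfl, fun _ => rfl⟩

lemma card_eq [Fintype R] : Fintype.card (Circ q N R) = Fintype.card R ^ (N * N) := by
  classical
  have h1 : Fintype.card (Circ q N R) = Fintype.card (Fin N × Fin N → R) :=
    Fintype.card_congr ⟨fun X p => X.m p.1 p.2, fun f => ⟨fun i j => f (i, j)⟩, fun _ => rfl,
      fun _ => rfl⟩
  rw [h1, Fintype.card_fun, Fintype.card_prod, Fintype.card_fin]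

end Circ

end Pool.Agent.Lvl
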