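import Pool.Agent.Lvl.Defs

set_option autoImplicit false

noncomputable section

/-!
PACKAGE LVL-OPOW. Ordered products of powers `opow c a = c 0 ^ a 0 * ... * c (d-1) ^ a (d-1)`.

`map_opow`: `map_list_prod`, `List.map_ofFn`. `opow_zero`, `opow_single`: induction on `d`
(`List.ofFn_succ`; for `opow_single` distinguish `l = 0` and `l = l'.succ`), or the factors are
`1` outside `l`. `opow_mul_central`: induction on `d`: if all elements `z l` commute with
everything then `opow (fun l => x l * z l)`-type products split:
`x0 z0 * (opow x' * opow z') = (x0 * opow x') * (z0 * opow z')`, here with `x l = c l ^ a l`,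
`z l = (c l ^ n) ^ y l`, and `c l ^ (a l + n * y l) = x l * z l`.
`opow_mem_span`: let `R` be a commutative ring, `A` an `R`-algebra, `b : Fin d → A`. Then
`opow (1 + b) a` is in the span of the `opow b e`, `e ≤ a`: induction on `d` with `List.ofFn_succ`:
`(1 + b 0) ^ a 0 = ∑ choose • b 0 ^ e` (`add_pow`, `1` commutes with `b 0`), and the product of
`b 0 ^ e0` with an element of the span of `opow b' e'` is in the span of the
`opow b (Fin.cons e0 e')` (`Submodule.span_induction`). `opow_eq_prod_word`: the product of the
word with `e 0` letters `0`, `e 1` letters `1` and so on.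
-/

namespace Pool.Agent.Lvl

variable {M N : Type} [Monoid M] [Monoid N] {d : ℕ}

private lemma opow_succ' {M : Type} [Monoid M] {d : ℕ} (c : Fin (d + 1) → M)
    (a : Fin (d + 1) → ℕ) :
    opow c a = c 0 ^ a 0 * opow (fun l => c l.succ) (fun l => a l.succ) := by
  simp only [opow, List.ofFn_succ, List.prod_cons]

lemma map_opow (f : M →* N) (c : Fin d → M) (a : Fin d → ℕ) :
    f (opow c a) = opow (fun l => f (c l)) a := by
  simp only [opow, map_list_prod, List.map_ofFn]
  congr 2
  funext l
  simp

lemma opow_zero (c : Fin d → M) : opow c 0 = 1 := by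
  induction d with
  | zero => simp [opow]
  | succ d ih =>
    rw [opow_succ']
    have h := ih (fun l => c l.succ)
    have e : (fun l : Fin d => (0 : Fin (d + 1) → ℕ) l.succ) = 0 := rfl
    rw [e, h]
    simp

lemma opow_single (c : Fin d → M) (l : Fin d) (n : ℕ) : opow c (Pi.single l n) = c l ^ n := by
  induction d with
  | zero => exact l.elim0
  | succ d ih =>
    rw [opow_succ']
    refine Fin.cases ?_ (fun l' => ?_) l
    · have e : (fun l : Fin d => (Pi.single (0 : Fin (d + 1)) n : Fin (d + 1) → ℕ) l.succ) = 0 := by
        funext i
        simp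
      rw [e, opow_zero]
      simp
    · have e : (fun l : Fin d => (Pi.single (l'.succ : Fin (d + 1)) n : Fin (d + 1) → ℕ) l.succ)
          = Pi.single l' n := by
        funext i
        by_cases h : i = l'
        · subst h; simp
        · rw [Pi.single_eq_of_ne h, Pi.single_eq_of_ne]
          exact fun h' => h (Fin.succ_injective _ h')
      rw [e, ih]
      have e0 : (Pi.single (l'.succ : Fin (d + 1)) n : Fin (d + 1) → ℕ) 0 = 0 :=
        Pi.single_eq_of_ne (Fin.succ_ne_zero l').symm n
      rw [e0]
      simp

lemma opow_add_central (c : Fin d → M) (a y : Fin d → ℕ) (n : ℕ)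
    (hc : ∀ l g, c l ^ n * g = g * c l ^ n) :
    opow c (fun l => a l + n * y l) = opow c a * opow (fun l => c l ^ n) y := by
  induction d with
  | zero => simp [opow]
  | succ d ih =>
    have h := ih (fun l => c l.succ) (fun l => a l.succ) (fun l => y l.succ)
      (fun l g => hc l.succ g)
    rw [opow_succ' c (fun l => a l + n * y l), opow_succ' c a,
      opow_succ' (fun l => c l ^ n) y]
    have h2 : opow (fun l : Fin d => c l.succ) (fun l => a l.succ + n * y l.succ)
        = opow (fun l : Fin d => c l.succ) (fun l => a l.succ) *
          opow (fun l : Fin d => c l.succ ^ n) (fun l => y l.succ) := h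
    rw [h2, pow_add, pow_mul]
    have hz : ∀ g, (c 0 ^ n) ^ y 0 * g = g * (c 0 ^ n) ^ y 0 := by
      intro g
      have : Commute (c 0 ^ n) g := hc 0 g
      exact (this.pow_left (y 0)).eq
    calc c 0 ^ a 0 * (c 0 ^ n) ^ y 0 *
          (opow (fun l : Fin d => c l.succ) (fun l => a l.succ) *
            opow (fun l : Fin d => c l.succ ^ n) (fun l => y l.succ))
        = c 0 ^ a 0 * (((c 0 ^ n) ^ y 0 *
          opow (fun l : Fin d => c l.succ) (fun l => a l.succ)) *
            opow (fun l : Fin d => c l.succ ^ n) (fun l => y l.succ)) := by
          simp only [mul_assoc]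
      _ = _ := by
          rw [hz]
          simp only [mul_assoc]

/-- the word with `e 0` letters `0`, `e 1` letters `1` and so on -/
def word (e : Fin d → ℕ) : List (Fin d) := (List.ofFn fun l => List.replicate (e l) l).flatten

private lemma word_succ {d : ℕ} (e : Fin (d + 1) → ℕ) :
    word e = List.replicate (e 0) 0 ++ (word fun l => e l.succ).map Fin.succ := by
  simp only [word, List.ofFn_succ, List.flatten_cons, List.map_flatten, List.map_ofFn]
  congr 3
  funext l
  simp

lemma opow_eq_prod_word (c : Fin d → M) (e : Fin d → ℕ) : opow c e = ((word e).map c).prod := by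
  induction d with
  | zero => simp [opow, word]
  | succ d ih =>
    rw [opow_succ', word_succ, ih]
    simp only [List.map_append, List.prod_append, List.map_replicate, List.prod_replicate,
      List.map_map]
    rfl

lemma length_word (e : Fin d → ℕ) : (word e).length = ∑ l, e l := by
  induction d with
  | zero => simp [word]
  | succ d ih =>
    rw [word_succ, List.length_append, List.length_replicate, List.length_map, ih,
      Fin.sum_univ_succ]

lemma count_word (e : Fin d → ℕ) (l : Fin d) : (word e).count l = e l := by
  induction d with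
  | zero => exact l.elim0
  | succ d ih =>
    rw [word_succ, List.count_append]
    refine Fin.cases ?_ (fun l' => ?_) l
    · have h : ((word fun l => e l.succ).map Fin.succ).count 0 = 0 := by
        rw [List.count_eq_zero]
        intro h
        obtain ⟨x, _, hx⟩ := List.mem_map.1 h
        exact Fin.succ_ne_zero x hx
      rw [h, List.count_replicate]
      simp
    · have h : (List.replicate (e 0) (0 : Fin (d + 1))).count l'.succ = 0 := by
        rw [List.count_eq_zero]
        intro h
        exact Fin.succ_ne_zero l' (List.eq_of_mem_replicate h)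
      rw [h, List.count_map_of_injective _ _ (Fin.succ_injective d), ih]
      simp

theorem opow_mem_span {R A : Type} [CommRing R] [Ring A] [Algebra R A] (b : Fin d → A)
    (a : Fin d → ℕ) : opow (fun l => 1 + b l) a ∈
      Submodule.span R (Set.range fun e : (l : Fin d) → Fin (a l + 1) => opow b fun l => e l) := by
  induction d with
  | zero =>
    apply Submodule.subset_span
    exact ⟨fun l => l.elim0, by simp [opow]⟩
  | succ d ih =>
    rw [opow_succ']
    have h := ih (fun l => b l.succ) (fun l => a l.succ)
    have h1 : (1 + b 0) ^ a 0 = ∑ m ∈ Finset.range (a 0 + 1), ((a 0).choose m : R) • b 0 ^ m := by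
      have hc : Commute (b 0) (1 : A) := Commute.one_right _
      rw [add_comm, hc.add_pow]
      refine Finset.sum_congr rfl fun m _ => ?_
      rw [one_pow, mul_one, Algebra.smul_def, map_natCast]
      exact ((Nat.cast_commute _ _).eq).symm
    rw [h1, Finset.sum_mul]
    refine Submodule.sum_mem _ fun m hm => ?_
    rw [smul_mul_assoc]
    refine Submodule.smul_mem _ _ ?_
    have hm' : m < a 0 + 1 := Finset.mem_range.1 hm
    refine Submodule.span_induction (p := fun x _ => b 0 ^ m * x ∈
      Submodule.span R (Set.range fun e : (l : Fin (d + 1)) → Fin (a l + 1) =>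
        opow b fun l => e l)) ?_ ?_ ?_ ?_ h
    · rintro x ⟨e, rfl⟩
      apply Submodule.subset_span
      refine ⟨Fin.cons (⟨m, hm'⟩ : Fin (a 0 + 1)) e, ?_⟩
      show opow b (fun l => ((Fin.cons (⟨m, hm'⟩ : Fin (a 0 + 1)) e :
        (l : Fin (d + 1)) → Fin (a l + 1)) l : ℕ)) = _
      rw [opow_succ']
      rfl
    · simp
    · intro x y _ _ hx hy
      rw [mul_add]
      exact Submodule.add_mem _ hx hy
    · intro r x _ hx
      rw [mul_smul_comm]
      exact Submodule.smul_mem _ _ hx

end Pool.Agent.Lvl
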