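import Pool.Agent.Lvl.CircP
import Pool.Agent.Lvl.OPow

set_option autoImplicit false
set_option linter.unusedSectionVars false

noncomputable section

/-!
PACKAGE LVL-CIRCK. The kernel of `Circ q N (ℤ/p^(k+1)) → Circ q N (ℤ/p^k)`, `q = p ^ s`, `1 ≤ s`,
`3 ≤ q`, and the generators.

* `cc_pow`: `pow_pj` with `j = k` and `p ^ k = 0` in `ℤ/p^k`; `cc_pow_succ`: at the level `k + 1`.
* `ker_mul`: at the level `k + 1`: if `X.m = p ^ k • Y` then `q • (X.m * Z.m) = 0` because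
  `p ^ (k + 1)` divides `q p ^ k`; so `X * Z = Z * X`, and `(X * Z).m = X.m + Z.m`.
* `opow_ker`: at the level `k + 1` the product `opow (fun l => c l ^ p ^ k) v` is
  `∑ l, v l • p ^ k • E l` (`cc_pow_succ`, `ker_mul`, induction on lists or on `d`).
* `exists_ker`: if `cmap X = cmap X'` (level `k`), then `X.m - X'.m = p ^ k • V`
  (kernel of `ℤ/p^(k+1) → ℤ/p^k`), and with `v l = (V i j).val` and `ker_mul`:
  `X = X' * opow (fun l => c l ^ p ^ k) v`.
-/

namespace Pool.Agent.Lvl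

open Circ

variable {p s N : ℕ} [hp : Fact p.Prime]

/-- the generators -/
def cc (q N : ℕ) (R : Type) [CommRing R] (l : Fin (N * N)) : Circ q N R :=
  ⟨Matrix.single (finProdFinEquiv.symm l).1 (finProdFinEquiv.symm l).2 1⟩

lemma cc_map {q : ℕ} {R S : Type} [CommRing R] [CommRing S] (φ : R →+* S) (l : Fin (N * N)) :
    cmap φ (cc q N R l) = cc q N S l := by
  apply Circ.ext
  rw [cmap_m]
  ext i j
  simp only [cc, Matrix.map_apply, Matrix.single_apply]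
  split_ifs
  · exact map_one φ
  · exact map_zero φ

/-- the map from the level `k + 1` to the level `k` -/
def pc (p q N k : ℕ) : Circ q N (ZMod (p ^ (k + 1))) →* Circ q N (ZMod (p ^ k)) :=
  cmap (ZMod.castHom (pow_dvd_pow p (Nat.le_succ k)) (ZMod (p ^ k)))

lemma cc_pow (hs : 1 ≤ s) (h3 : 3 ≤ p ^ s) (k : ℕ) (l : Fin (N * N)) :
    cc (p ^ s) N (ZMod (p ^ k)) l ^ p ^ k = 1 := by
  obtain ⟨Z, hZ⟩ := pow_pj hs h3 k (cc (p ^ s) N (ZMod (p ^ k)) l)
  apply Circ.ext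
  rw [hZ, ZMod.natCast_self, zero_smul, one_m]

lemma cc_pow_succ (hs : 1 ≤ s) (h3 : 3 ≤ p ^ s) (k : ℕ) (l : Fin (N * N)) :
    (cc (p ^ s) N (ZMod (p ^ (k + 1))) l ^ p ^ k).m =
      ((p ^ k : ℕ) : ZMod (p ^ (k + 1))) • (cc (p ^ s) N (ZMod (p ^ (k + 1))) l).m := by
  obtain ⟨Z, hZ⟩ := pow_pj hs h3 k (cc (p ^ s) N (ZMod (p ^ (k + 1))) l)
  have e : ((p ^ k : ℕ) : ZMod (p ^ (k + 1))) * (p : ZMod (p ^ (k + 1))) = 0 := by
    rw [← Nat.cast_mul, ← pow_succ]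
    exact ZMod.natCast_self _
  rw [hZ, smul_add, smul_smul, e, zero_smul, add_zero]

private lemma q_pk (hs : 1 ≤ s) (k : ℕ) :
    ((p ^ s : ℕ) : ZMod (p ^ (k + 1))) * ((p ^ k : ℕ) : ZMod (p ^ (k + 1))) = 0 := by
  rw [← Nat.cast_mul, ZMod.natCast_eq_zero_iff, ← pow_add]
  exact pow_dvd_pow p (by omega)

lemma ker_mul (hs : 1 ≤ s) {k : ℕ} {X : Circ (p ^ s) N (ZMod (p ^ (k + 1)))}
    {Y : Matrix (Fin N) (Fin N) (ZMod (p ^ (k + 1)))}
    (h : X.m = ((p ^ k : ℕ) : ZMod (p ^ (k + 1))) • Y) (Z : Circ (p ^ s) N (ZMod (p ^ (k + 1)))) :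
    X * Z = Z * X ∧ (X * Z).m = X.m + Z.m := by
  have h1 : (X * Z).m = X.m + Z.m := by
    rw [mul_m]
    have e : ((p ^ s : ℕ) : ZMod (p ^ (k + 1))) • (X.m * Z.m) = 0 := by
      rw [h, Matrix.smul_mul, smul_smul, q_pk hs k, zero_smul]
    rw [e, add_zero]
  have h2 : (Z * X).m = X.m + Z.m := by
    rw [mul_m]
    have e : ((p ^ s : ℕ) : ZMod (p ^ (k + 1))) • (Z.m * X.m) = 0 := by
      rw [h, Matrix.mul_smul, smul_smul, q_pk hs k, zero_smul]
    rw [e, add_zero]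
    exact add_comm _ _
  exact ⟨Circ.ext (h1.trans h2.symm), h1⟩

private lemma ker_pow (hs : 1 ≤ s) {k : ℕ} {X : Circ (p ^ s) N (ZMod (p ^ (k + 1)))}
    {Y : Matrix (Fin N) (Fin N) (ZMod (p ^ (k + 1)))}
    (h : X.m = ((p ^ k : ℕ) : ZMod (p ^ (k + 1))) • Y) (n : ℕ) :
    (X ^ n).m = ((p ^ k : ℕ) : ZMod (p ^ (k + 1))) • ((n : ZMod (p ^ (k + 1))) • Y) := by
  induction n with
  | zero => rw [pow_zero, one_m, Nat.cast_zero, zero_smul, smul_zero]
  | succ n ih =>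
    have e : X ^ (n + 1) = X ^ n * X := pow_succ X n
    rw [e, (ker_mul hs ih X).2, ih, h, ← smul_add]
    congr 1
    rw [Nat.cast_add, Nat.cast_one, add_smul, one_smul]

private lemma opow_ker (hs : 1 ≤ s) {k : ℕ} {d : ℕ}
    (x : Fin d → Circ (p ^ s) N (ZMod (p ^ (k + 1))))
    (Y : Fin d → Matrix (Fin N) (Fin N) (ZMod (p ^ (k + 1))))
    (h : ∀ l, (x l).m = ((p ^ k : ℕ) : ZMod (p ^ (k + 1))) • Y l) (v : Fin d → ℕ) :
    (opow x v).m = ((p ^ k : ℕ) : ZMod (p ^ (k + 1))) •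
      ∑ l, ((v l : ℕ) : ZMod (p ^ (k + 1))) • Y l := by
  induction d with
  | zero =>
    have e : opow x v = 1 := by simp [opow]
    rw [e, one_m, Finset.univ_eq_empty, Finset.sum_empty, smul_zero]
  | succ d ih =>
    have e : opow x v = x 0 ^ v 0 * opow (fun l => x l.succ) (fun l => v l.succ) := by
      simp only [opow, List.ofFn_succ, List.prod_cons]
    rw [e, (ker_mul hs (ker_pow hs (h 0) (v 0)) _).2, ker_pow hs (h 0) (v 0),
      ih (fun l => x l.succ) (fun l => Y l.succ) (fun l => h l.succ) (fun l => v l.succ),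
      ← smul_add, Fin.sum_univ_succ]

theorem exists_ker (hs : 1 ≤ s) (h3 : 3 ≤ p ^ s) {k : ℕ}
    {X X' : Circ (p ^ s) N (ZMod (p ^ (k + 1)))} (h : pc p (p ^ s) N k X = pc p (p ^ s) N k X') :
    ∃ v : Fin (N * N) → ℕ,
      X = X' * opow (fun l => cc (p ^ s) N (ZMod (p ^ (k + 1))) l ^ p ^ k) v := by
  have : NeZero (p ^ (k + 1)) := ⟨pow_ne_zero _ hp.out.ne_zero⟩
  have h1 : ∀ i j, ∃ n : ℕ, X.m i j = X'.m i j + ((p ^ k : ℕ) : ZMod (p ^ (k + 1))) * n := by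
    intro i j
    have h2 : (ZMod.castHom (pow_dvd_pow p (Nat.le_succ k)) (ZMod (p ^ k))) (X.m i j) =
        (ZMod.castHom (pow_dvd_pow p (Nat.le_succ k)) (ZMod (p ^ k))) (X'.m i j) := by
      have h3 := congrArg (fun Z : Circ (p ^ s) N (ZMod (p ^ k)) => Z.m i j) h
      exact h3
    have h4 : (ZMod.castHom (pow_dvd_pow p (Nat.le_succ k)) (ZMod (p ^ k)))
        (X.m i j - X'.m i j) = 0 := by
      rw [map_sub, h2, sub_self]
    have h5 : X.m i j - X'.m i j = (((X.m i j - X'.m i j).val : ℕ) : ZMod (p ^ (k + 1))) :=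
      (ZMod.natCast_zmod_val _).symm
    rw [h5, map_natCast, ZMod.natCast_eq_zero_iff] at h4
    obtain ⟨n, hn⟩ := h4
    refine ⟨n, ?_⟩
    rw [← Nat.cast_mul, ← hn, ← h5]
    ring
  choose n hn using h1
  refine ⟨fun l => n (finProdFinEquiv.symm l).1 (finProdFinEquiv.symm l).2, ?_⟩
  have hk := opow_ker hs (k := k) (fun l => cc (p ^ s) N (ZMod (p ^ (k + 1))) l ^ p ^ k)
    (fun l => (cc (p ^ s) N (ZMod (p ^ (k + 1))) l).m) (fun l => cc_pow_succ hs h3 k l)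
    (fun l => n (finProdFinEquiv.symm l).1 (finProdFinEquiv.symm l).2)
  have hm := ker_mul hs hk X'
  rw [← hm.1]
  apply Circ.ext
  rw [hm.2, hk]
  have hsum : ∑ l : Fin (N * N),
      ((n (finProdFinEquiv.symm l).1 (finProdFinEquiv.symm l).2 : ℕ) : ZMod (p ^ (k + 1))) •
        (cc (p ^ s) N (ZMod (p ^ (k + 1))) l).m =
      Matrix.of fun i j => ((n i j : ℕ) : ZMod (p ^ (k + 1))) := by
    rw [← Equiv.sum_comp (finProdFinEquiv (m := N) (n := N))]
    simp only [cc, Equiv.symm_apply_apply]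
    rw [Fintype.sum_prod_type]
    ext i j
    rw [Matrix.sum_apply, Finset.sum_eq_single i, Matrix.sum_apply, Finset.sum_eq_single j]
    · simp
    · intro b _ hb
      simp [hb]
    · intro hb
      exact absurd (Finset.mem_univ _) hb
    · intro b _ hb
      rw [Matrix.sum_apply]
      refine Finset.sum_eq_zero fun c _ => ?_
      simp [hb]
    · intro hb
      exact absurd (Finset.mem_univ _) hb
  rw [hsum]
  ext i j
  rw [Matrix.add_apply, Matrix.smul_apply, Matrix.of_apply, smul_eq_mul, hn i j]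
  exact add_comm _ _

end Pool.Agent.Lvl
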