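import Pool.Agent.Lvl.Circ

set_option autoImplicit false
set_option linter.unusedSectionVars false

noncomputable section

/-!
PACKAGE LVL-CIRCP. `p`-th powers in `Circ q N R`, `q = p ^ s`, `1 ≤ s`, `3 ≤ q`.

* `pow_p`: let `X.m = p ^ j • Y`. By `pow_formula` `(X ^ p).m = ∑ i < p, choose p (i + 1) q ^ i
  X.m ^ (i + 1)`. The term `i = 0` is `p ^ (j + 1) • Y`. The terms `1 ≤ i`, `i + 1 < p`: `p` divides
  `choose p (i + 1)`, `p` divides `q ^ i`, and `(p ^ j) ^ (i + 1)` is divisible by `p ^ (2 j)`: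
  together `p ^ (j + 2)`. The term `i = p - 1 ≥ 1`: `q ^ (p - 1) * p ^ (j p)`, and
  `s (p - 1) ≥ 2` (if `p = 2` then `s ≥ 2` by `3 ≤ 2 ^ s`).
* `pow_pj`: induction on `j` with `pow_p`.
-/

namespace Pool.Agent.Lvl

open Circ

variable {p s N : ℕ} [hp : Fact p.Prime] {R : Type} [CommRing R]

omit R in
private lemma dvd_aux (hs : 1 ≤ s) (h3 : 3 ≤ p ^ s) (j : ℕ) {i : ℕ} (hi : 1 ≤ i)
    (hip : i + 1 ≤ p) :
    p ^ (j + 2) ∣ p.choose (i + 1) * (p ^ s) ^ i * (p ^ j) ^ (i + 1) := by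
  have hpp : p.Prime := hp.out
  have h1 : p ^ j ∣ (p ^ j) ^ (i + 1) := dvd_pow_self _ (Nat.succ_ne_zero i)
  have h2 : p ^ 2 ∣ p.choose (i + 1) * (p ^ s) ^ i := by
    rcases Nat.lt_or_ge (i + 1) p with h | h
    · have h4 : p ∣ p.choose (i + 1) := hpp.dvd_choose_self (Nat.succ_ne_zero i) h
      have h5 : p ∣ (p ^ s) ^ i :=
        dvd_pow (dvd_pow_self p (by omega)) (by omega)
      rw [pow_two]
      exact Nat.mul_dvd_mul h4 h5
    · have h6 : 2 ≤ s * i := by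
        rcases Nat.lt_or_ge 1 i with h7 | h7
        · calc 2 = 1 * 2 := by norm_num
            _ ≤ s * i := Nat.mul_le_mul hs h7
        · have hi1 : i = 1 := by omega
          have hp2 : p = 2 := le_antisymm (by omega) hpp.two_le
          have hs2 : s ≠ 1 := by
            rintro rfl
            rw [hp2] at h3
            norm_num at h3
          rw [hi1]
          omega
      rw [← pow_mul]
      exact dvd_mul_of_dvd_right (pow_dvd_pow p h6) _
  have h8 : p ^ (j + 2) = p ^ 2 * p ^ j := by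
    rw [← pow_add, add_comm]
  rw [h8]
  exact Nat.mul_dvd_mul h2 h1

theorem pow_p (hs : 1 ≤ s) (h3 : 3 ≤ p ^ s) {j : ℕ} (X : Circ (p ^ s) N R)
    (Y : Matrix (Fin N) (Fin N) R) (h : X.m = ((p ^ j : ℕ) : R) • Y) :
    ∃ Z : Matrix (Fin N) (Fin N) R,
      (X ^ p).m = ((p ^ (j + 1) : ℕ) : R) • Y + ((p ^ (j + 2) : ℕ) : R) • Z := by
  choose D hD using fun (i : ℕ) (hi : i + 1 + 1 ≤ p) =>
    dvd_aux (p := p) (s := s) hs h3 j (i := i + 1) (by omega) hi
  refine ⟨∑ i ∈ Finset.range (p - 1),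
    ((if hi : i + 1 + 1 ≤ p then D i hi else 0 : ℕ) : R) • Y ^ (i + 1 + 1), ?_⟩
  have hp1 : p = (p - 1) + 1 := (Nat.sub_add_cancel hp.out.one_le).symm
  have hX : ∀ n : ℕ, X.m ^ n = (((p ^ j) ^ n : ℕ) : R) • Y ^ n := by
    intro n
    rw [h, smul_pow, ← Nat.cast_pow]
  have hmain : (X ^ p).m = ∑ i ∈ Finset.range p,
      ((p.choose (i + 1) * (p ^ s) ^ i * (p ^ j) ^ (i + 1) : ℕ) : R) • Y ^ (i + 1) := by
    rw [pow_formula]
    refine Finset.sum_congr rfl fun i _ => ?_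
    rw [hX, smul_smul, ← Nat.cast_mul]
  have hr : Finset.range p = Finset.range ((p - 1) + 1) := by rw [← hp1]
  rw [hmain, hr, Finset.sum_range_succ', add_comm]
  congr 1
  · rw [zero_add, pow_one, pow_zero, mul_one, pow_one, Nat.choose_one_right, pow_succ, mul_comm]
  · rw [Finset.smul_sum]
    refine Finset.sum_congr rfl fun i hi => ?_
    have hi2 : i + 1 + 1 ≤ p := by
      have := Finset.mem_range.1 hi
      omega
    rw [dif_pos hi2, smul_smul, ← Nat.cast_mul, ← hD i hi2]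

theorem pow_pj (hs : 1 ≤ s) (h3 : 3 ≤ p ^ s) (j : ℕ) (X : Circ (p ^ s) N R) :
    ∃ Z : Matrix (Fin N) (Fin N) R,
      (X ^ p ^ j).m = ((p ^ j : ℕ) : R) • (X.m + (p : R) • Z) := by
  induction j with
  | zero =>
    refine ⟨0, ?_⟩
    rw [pow_zero, pow_one, Nat.cast_one, one_smul, smul_zero, add_zero]
  | succ j ih =>
    obtain ⟨Z, hZ⟩ := ih
    obtain ⟨Z', hZ'⟩ := pow_p hs h3 (X ^ p ^ j) (X.m + (p : R) • Z) hZ
    refine ⟨Z + Z', ?_⟩
    have e1 : X ^ p ^ (j + 1) = (X ^ p ^ j) ^ p := by rw [pow_succ, pow_mul]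
    have e2 : ((p ^ (j + 2) : ℕ) : R) = ((p ^ (j + 1) : ℕ) : R) * (p : R) := by
      rw [← Nat.cast_mul, ← pow_succ]
    rw [e1, hZ', e2, mul_smul, ← smul_add]
    congr 1
    rw [smul_add, add_assoc]

end Pool.Agent.Lvl
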