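import Pool.Agent.Lvl.CircK

set_option autoImplicit false
set_option linter.unusedSectionVars false

noncomputable section

/-!
PACKAGE LVL-CIRCT. The tower `P k = Circ q N (ℤ/p^k)`, `q = p ^ s`, `1 ≤ s`, `3 ≤ q`.

* `gen_circ`: induction on `k`; `k = 0`: `ℤ/1` is trivial. `k + 1`: `cmap X = opow c a`, let
  `X' = opow c a` at the level `k + 1` (`map_opow`, `cc_map`); `exists_ker` and `opow_add_central`
  (`ker_mul`).
* `qpow_circ`: induction on `k`. If `p ^ (k + 1)` divides `q` then `X = 1`. Otherwise `s ≤ k`: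
`cmap X`
  is a product of `q`-th powers, lift the factors (`cmap` is surjective) to get
  `X'` in the closure with `cmap X' = cmap X`; `exists_ker`; the factors
  `(c l ^ p ^ k) ^ v l` are `q`-th powers because `q` divides `p ^ k`.
* `comm_circ`: if `C * (Y * X) = X * Y` then `C.m * (1 + q Z) = q • (X.m * Y.m - Y.m * X.m)` with
  `Z = (Y * X).m`, and `1 + q Z` is invertible (`isUnit_of_nilp`, `toMat`).
* `comm` in `circTower`: `C = x * y * x⁻¹ * y⁻¹` satisfies `C * (y * x) = x * y`, so `comm_circ` and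
  `qpow_circ` apply; the group structure is `groupOfIsUnit`, its monoid structure is the given one,
  and a submonoid closure is contained in the subgroup closure.
-/

namespace Pool.Agent.Lvl

open Circ

variable {p s N : ℕ} [hp : Fact p.Prime]

private lemma eq_of_zero (X Y : Circ (p ^ s) N (ZMod (p ^ 0))) : X = Y := by
  have : Subsingleton (ZMod (p ^ 0)) := by
    rw [pow_zero]
    infer_instance
  exact Circ.ext (Subsingleton.elim _ _)

private lemma pc_surj (q k : ℕ) : Function.Surjective (pc p q N k) := by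
  intro Z
  have : NeZero (p ^ k) := ⟨pow_ne_zero _ hp.out.ne_zero⟩
  refine ⟨⟨Matrix.of fun i j => ((Z.m i j).val : ZMod (p ^ (k + 1)))⟩, ?_⟩
  refine Circ.ext ?_
  ext i j
  rw [pc, cmap_m, Matrix.map_apply]
  show (ZMod.castHom _ (ZMod (p ^ k))) (((Z.m i j).val : ℕ) : ZMod (p ^ (k + 1))) = Z.m i j
  rw [map_natCast, ZMod.natCast_zmod_val]

private lemma pow_central (hs : 1 ≤ s) (h3 : 3 ≤ p ^ s) (k : ℕ) (l : Fin (N * N))
    (g : Circ (p ^ s) N (ZMod (p ^ (k + 1)))) :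
    cc (p ^ s) N (ZMod (p ^ (k + 1))) l ^ p ^ k * g =
      g * cc (p ^ s) N (ZMod (p ^ (k + 1))) l ^ p ^ k :=
  (ker_mul hs (cc_pow_succ hs h3 k l) g).1

theorem gen_circ (hs : 1 ≤ s) (h3 : 3 ≤ p ^ s) (k : ℕ) (X : Circ (p ^ s) N (ZMod (p ^ k))) :
    ∃ a : Fin (N * N) → ℕ, X = opow (cc (p ^ s) N (ZMod (p ^ k))) a := by
  induction k with
  | zero => exact ⟨0, eq_of_zero _ _⟩
  | succ k ih =>
    obtain ⟨a, ha⟩ := ih (pc p (p ^ s) N k X)
    have h1 : pc p (p ^ s) N k X =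
        pc p (p ^ s) N k (opow (cc (p ^ s) N (ZMod (p ^ (k + 1)))) a) := by
      rw [ha, map_opow]
      congr 1
      funext l
      exact (cc_map _ l).symm
    obtain ⟨v, hv⟩ := exists_ker hs h3 h1
    refine ⟨fun l => a l + p ^ k * v l, ?_⟩
    rw [hv, opow_add_central _ a v (p ^ k) (pow_central hs h3 k)]

theorem qpow_circ (hs : 1 ≤ s) (h3 : 3 ≤ p ^ s) (k : ℕ) (X : Circ (p ^ s) N (ZMod (p ^ k)))
    (Y : Matrix (Fin N) (Fin N) (ZMod (p ^ k)))
    (h : X.m = ((p ^ s : ℕ) : ZMod (p ^ k)) • Y) :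
    X ∈ Submonoid.closure (Set.range fun g : Circ (p ^ s) N (ZMod (p ^ k)) => g ^ p ^ s) := by
  induction k with
  | zero =>
    rw [eq_of_zero X 1]
    exact one_mem _
  | succ k ih =>
    by_cases hk : k + 1 ≤ s
    · have h0 : X = 1 := by
        refine Circ.ext ?_
        rw [h, (ZMod.natCast_eq_zero_iff _ _).2 (pow_dvd_pow p hk), zero_smul, one_m]
      rw [h0]
      exact one_mem _
    · have hk' : s ≤ k := by omega
      have h1 : pc p (p ^ s) N k X ∈ Submonoid.closure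
          (Set.range fun g : Circ (p ^ s) N (ZMod (p ^ k)) => g ^ p ^ s) := by
        refine ih _ (Y.map (ZMod.castHom (pow_dvd_pow p (Nat.le_succ k)) (ZMod (p ^ k)))) ?_
        rw [pc, cmap_m, h]
        ext i j
        rw [Matrix.map_apply, Matrix.smul_apply, Matrix.smul_apply, Matrix.map_apply, smul_eq_mul,
          smul_eq_mul, map_mul, map_natCast]
      have h2 : (Set.range fun g : Circ (p ^ s) N (ZMod (p ^ k)) => g ^ p ^ s) =
          pc p (p ^ s) N k ''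
            (Set.range fun g : Circ (p ^ s) N (ZMod (p ^ (k + 1))) => g ^ p ^ s) := by
        ext Z
        constructor
        · rintro ⟨g, rfl⟩
          obtain ⟨g', rfl⟩ := pc_surj (p ^ s) k g
          exact ⟨g' ^ p ^ s, ⟨g', rfl⟩, map_pow _ _ _⟩
        · rintro ⟨_, ⟨g, rfl⟩, rfl⟩
          exact ⟨pc p (p ^ s) N k g, (map_pow _ _ _).symm⟩
      rw [h2, ← MonoidHom.map_mclosure] at h1
      obtain ⟨X', hX', hXX'⟩ := h1
      obtain ⟨v, hv⟩ := exists_ker hs h3 hXX'.symm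
      rw [hv]
      refine mul_mem hX' ?_
      rw [opow]
      refine Submonoid.list_prod_mem _ fun x hx => ?_
      rw [List.mem_ofFn] at hx
      obtain ⟨l, rfl⟩ := hx
      refine Submonoid.subset_closure
        ⟨cc (p ^ s) N (ZMod (p ^ (k + 1))) l ^ (p ^ (k - s) * v l), ?_⟩
      show (cc (p ^ s) N (ZMod (p ^ (k + 1))) l ^ (p ^ (k - s) * v l)) ^ p ^ s =
        (cc (p ^ s) N (ZMod (p ^ (k + 1))) l ^ p ^ k) ^ v l
      rw [← pow_mul, ← pow_mul]
      congr 1
      rw [mul_right_comm, ← pow_add, Nat.sub_add_cancel hk']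

theorem comm_circ (hs : 1 ≤ s) (k : ℕ) (X Y C : Circ (p ^ s) N (ZMod (p ^ k)))
    (h : C * (Y * X) = X * Y) : ∃ W : Matrix (Fin N) (Fin N) (ZMod (p ^ k)),
      C.m = ((p ^ s : ℕ) : ZMod (p ^ k)) • W := by
  have hu : IsUnit (Y * X) := by
    refine isUnit_of_nilp (s := k) ?_ (Y * X)
    rw [← Nat.cast_pow, ZMod.natCast_eq_zero_iff, ← pow_mul]
    exact pow_dvd_pow p (Nat.le_mul_of_pos_left k hs)
  obtain ⟨V, hV⟩ := hu.exists_right_inv
  have h1 : (1 + ((p ^ s : ℕ) : ZMod (p ^ k)) • (Y * X).m) *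
      (1 + ((p ^ s : ℕ) : ZMod (p ^ k)) • V.m) = 1 := by
    have h2 := congrArg (toMat : Circ (p ^ s) N (ZMod (p ^ k)) →* _) hV
    rw [map_mul, map_one] at h2
    exact h2
  have h3 : C.m * (1 + ((p ^ s : ℕ) : ZMod (p ^ k)) • (Y * X).m) =
      ((p ^ s : ℕ) : ZMod (p ^ k)) • (X.m * Y.m - Y.m * X.m) := by
    have h4 := congrArg Circ.m h
    rw [mul_m C (Y * X), mul_m X Y] at h4
    rw [mul_add, mul_one, mul_smul_comm, smul_sub]
    have h5 := mul_m Y X
    have h6 : C.m + ((p ^ s : ℕ) : ZMod (p ^ k)) • (C.m * (Y * X).m) =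
        X.m + Y.m + ((p ^ s : ℕ) : ZMod (p ^ k)) • (X.m * Y.m) - (Y * X).m := by
      rw [← h4]
      abel
    rw [h6, h5]
    abel
  refine ⟨(X.m * Y.m - Y.m * X.m) * (1 + ((p ^ s : ℕ) : ZMod (p ^ k)) • V.m), ?_⟩
  rw [← smul_mul_assoc, ← h3, mul_assoc, h1, mul_one]

lemma isUnit_circ (hs : 1 ≤ s) (k : ℕ) (X : Circ (p ^ s) N (ZMod (p ^ k))) : IsUnit X := by
  refine isUnit_of_nilp (s := k) ?_ X
  rw [← Nat.cast_pow, ZMod.natCast_eq_zero_iff, ← pow_mul]
  exact pow_dvd_pow p (Nat.le_mul_of_pos_left k hs)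

private lemma comm_aux (hs : 1 ≤ s) (h3 : 3 ≤ p ^ s) (k : ℕ)
    (x y : Circ (p ^ s) N (ZMod (p ^ k))) :
    letI := groupOfIsUnit (isUnit_circ (p := p) (s := s) (N := N) hs k)
    x * y * x⁻¹ * y⁻¹ ∈
      Subgroup.closure (Set.range fun g : Circ (p ^ s) N (ZMod (p ^ k)) => g ^ p ^ s) := by
  letI := groupOfIsUnit (isUnit_circ (p := p) (s := s) (N := N) hs k)
  have h1 : x * y * x⁻¹ * y⁻¹ * (y * x) = x * y := by group
  obtain ⟨W, hW⟩ := comm_circ hs k x y (x * y * x⁻¹ * y⁻¹) h1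
  have h2 := qpow_circ hs h3 k _ W hW
  have h4 : Submonoid.closure (Set.range fun g : Circ (p ^ s) N (ZMod (p ^ k)) => g ^ p ^ s) ≤
      (Subgroup.closure
        (Set.range fun g : Circ (p ^ s) N (ZMod (p ^ k)) => g ^ p ^ s)).toSubmonoid :=
    Submonoid.closure_le.2 Subgroup.subset_closure
  exact h4 h2

/-- the tower of the congruence subgroup of `GL_N(ℤ_p)` of level `p ^ s` -/
def circTower (p s N : ℕ) [hp : Fact p.Prime] (hs : 1 ≤ s) (h3 : 3 ≤ p ^ s) :
    Tower p (p ^ s) (N * N) where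
  hq := ⟨s, rfl⟩
  h3 := h3
  P k := Circ (p ^ s) N (ZMod (p ^ k))
  grp k := groupOfIsUnit (isUnit_circ hs k)
  fin k := inferInstance
  pr k := pc p (p ^ s) N k
  c k := cc (p ^ s) N (ZMod (p ^ k))
  pr_c k l := cc_map _ _
  card k := by
    rw [card_eq, ZMod.card, ← pow_mul]
  gen k g := gen_circ hs h3 k g
  c_pow k l := cc_pow hs h3 k l
  comm k i j := by
    exact comm_aux hs h3 k _ _

end Pool.Agent.Lvl
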