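import Mathlib

set_option autoImplicit false

noncomputable section

open Classical

/-!
CONG: weighted permutation representations of free groups.
-/

namespace Pool.Agent.Lvl

variable {α V : Type}

/-- the permutation of a letter -/
def lp (σ : α → Equiv.Perm V) (x : α × Bool) : Equiv.Perm V := if x.2 then σ x.1 else (σ x.1)⁻¹

/-- the free abelian group of weights -/
abbrev Wt (α V : Type) := α × V → ℤ

/-- the edge at `v` with label `a` -/
def dt (a : α) (v : V) : Wt α V := Pi.single (a, v) 1

/-- the weighted permutation of a generator: `(v, m) ↦ (σ a v, m + δ (a, v))` -/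
def tau1 (σ : α → Equiv.Perm V) (a : α) : Equiv.Perm (V × Wt α V) where
  toFun x := (σ a x.1, x.2 + dt a x.1)
  invFun x := ((σ a)⁻¹ x.1, x.2 - dt a ((σ a)⁻¹ x.1))
  left_inv x := by simp
  right_inv x := by simp

/-- the weighted permutations of the elements of the free group -/
def tau (σ : α → Equiv.Perm V) : FreeGroup α →* Equiv.Perm (V × Wt α V) :=
  FreeGroup.lift (tau1 σ)

/-- The labels of a cycle: `w v` is the letter of the edge from `v + 1` to `v`; the permutations
`σ a` contain these edges. -/
def Fits {L : ℕ} [NeZero L] (w : Fin L → α × Bool) (σ : α → Equiv.Perm (Fin L)) : Prop :=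
  ∀ v, lp σ (w v) (v + 1) = v

end Pool.Agent.Lvl
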