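import Pool.Agent.Lvl.CycM

set_option autoImplicit false
set_option linter.unusedSectionVars false

noncomputable section

open Classical

/-!
PACKAGE LVL-CYCK. A closed path with the weight of the cycle is the cycle.

The edges of the cycle are `e v = (a, v + 1)` with the sign `+` if `w v = (a, true)` and
`e v = (a, v)` with the sign `-` if `w v = (a, false)`; `theta w m` is the sum over `v` of the
sign times `m (e v)`. Consider the step of a letter `x = (a, b)` from `u` to `p = lp σ x u`.
If `b = true` the weight changes by `dt a u`, and `theta` changes by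
`[w (u - 1) = (a, true)] - [w u = (a, false)]` (the brackets are `1` or `0`; at most one of
them is `1` by `hw`). If it is `1` then by `Fits` `p = σ a u = u - 1`, so `x = w p`, `u = p + 1`.
If `b = false` the weight changes by `- dt a p`, and `theta` changes by
`[w p = (a, false)] - [w (p - 1) = (a, true)]`; if it is `1` then `x = w p`, and by `Fits`
`lp σ (w p) (p + 1) = p = lp σ x u`, so `u = p + 1`. So `theta_step`; and `theta_fwd`: the step
with the letter `w p` from `p + 1` goes to `p` and changes `theta` by exactly `1`.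
* `theta_word`: induction on the list `l` (`FreeGroup.mk (x :: l) = mk [x] * mk l`).
  In the case of equality every step has `x = w p`, `u = p + 1`; so the list is
  `w p, w (p + 1), ...` for the final position `p`, and the starting position is `p + length`.
* `cyc_self`: the word `List.ofFn w` from the position `0 = L`: all steps are steps of
  `theta_fwd` (prove for the list of the letters `w p, ..., w (p + n - 1)` starting at `p + n`).
* `conj_of_theta`: `theta w m0 = L` and `theta_word` give `L ≤ length l`, so `length l = L` and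
  `l = (w v, w (v + 1), ..., w (v + L - 1))`, a rotation of `List.ofFn w`
  (`List.IsRotated`), and rotations of a word are conjugate
  (`mk (l1 ++ l2) = mk l1 * mk l2` is conjugate to `mk l2 * mk l1`).
-/

namespace Pool.Agent.Lvl

variable {α : Type} {L : ℕ} [NeZero L]

/-- the signed number of the edges of the cycle -/
def theta (w : Fin L → α × Bool) (m : Wt α (Fin L)) : ℤ :=
  ∑ v, if (w v).2 then m ((w v).1, v + 1) else - m ((w v).1, v)

lemma theta_add (w : Fin L → α × Bool) (m m' : Wt α (Fin L)) :
    theta w (m + m') = theta w m + theta w m' := by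
  unfold theta
  rw [← Finset.sum_add_distrib]
  refine Finset.sum_congr rfl fun v _ => ?_
  by_cases h : (w v).2 = true
  · rw [if_pos h, if_pos h, if_pos h]
    rfl
  · rw [if_neg h, if_neg h, if_neg h, Pi.add_apply]
    ring

private lemma theta_sub (w : Fin L → α × Bool) (m m' : Wt α (Fin L)) :
    theta w (m - m') = theta w m - theta w m' := by
  have h1 := theta_add w (m - m') m'
  rw [sub_add_cancel] at h1
  rw [h1]
  ring

private lemma theta_dt (w : Fin L → α × Bool) (a : α) (u : Fin L) :
    theta w (dt a u) = (if w (u - 1) = (a, true) then 1 else 0) -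
      (if w u = (a, false) then 1 else 0) := by
  have h1 : ∀ v : Fin L, (if (w v).2 then dt a u ((w v).1, v + 1) else - dt a u ((w v).1, v)) =
      (if v = u - 1 then (if w v = (a, true) then (1 : ℤ) else 0) else 0) -
      (if v = u then (if w v = (a, false) then (1 : ℤ) else 0) else 0) := by
    intro v
    unfold dt
    rcases hv : w v with ⟨a', b⟩
    cases b
    · simp only [Bool.false_eq_true, if_false, Prod.mk.injEq, and_false, ite_self, zero_sub,
        and_true, Pi.single_apply]
      by_cases h2 : v = u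
      · simp [h2]
      · simp [h2]
    · simp only [if_true, Prod.mk.injEq, and_true, Bool.true_eq_false, and_false, if_false,
        ite_self, sub_zero, Pi.single_apply]
      by_cases h2 : v = u - 1
      · simp [h2]
      · have h3 : v + 1 ≠ u := fun h => h2 (by rw [← h, add_sub_cancel_right])
        simp [h2, h3]
  unfold theta
  rw [Finset.sum_congr rfl fun v _ => h1 v, Finset.sum_sub_distrib,
    Finset.sum_ite_eq' Finset.univ (u - 1), Finset.sum_ite_eq' Finset.univ u]
  simp

private lemma tau_tt (σ : α → Equiv.Perm (Fin L)) (a : α) (u : Fin L) (m : Wt α (Fin L)) :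
    tau σ (FreeGroup.mk [(a, true)]) (u, m) = (σ a u, m + dt a u) := tau_of σ a (u, m)

private lemma tau_ff (σ : α → Equiv.Perm (Fin L)) (a : α) (u : Fin L) (m : Wt α (Fin L)) :
    tau σ (FreeGroup.mk [(a, false)]) (u, m) =
      ((σ a)⁻¹ u, m - dt a ((σ a)⁻¹ u)) := by
  have h1 : (FreeGroup.mk [(a, false)] : FreeGroup α) = (FreeGroup.of a)⁻¹ := rfl
  rw [h1, map_inv]
  have h2 : tau σ (FreeGroup.of a) = tau1 σ a := by simp [tau]
  rw [h2]
  rfl

private lemma tau_cons (σ : α → Equiv.Perm (Fin L)) (x : α × Bool) (l : List (α × Bool))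
    (y : Fin L × Wt α (Fin L)) :
    tau σ (FreeGroup.mk (x :: l)) y = tau σ (FreeGroup.mk [x]) (tau σ (FreeGroup.mk l) y) := by
  have h1 : (FreeGroup.mk (x :: l) : FreeGroup α) = FreeGroup.mk [x] * FreeGroup.mk l := by
    rw [FreeGroup.mul_mk]
    rfl
  rw [h1, map_mul]
  rfl

private lemma ofNat_succ (i : ℕ) : Fin.ofNat L (i + 1) = 1 + Fin.ofNat L i := by
  apply Fin.ext
  rw [Fin.val_add]
  change (i + 1) % L = ((1 % L) + (i % L)) % L
  rw [add_comm i 1, Nat.add_mod]

private lemma ofNat_zero : Fin.ofNat L 0 = 0 := by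
  apply Fin.ext
  change 0 % L = 0
  exact Nat.zero_mod L

lemma theta_step {w : Fin L → α × Bool} {σ : α → Equiv.Perm (Fin L)} (hf : Fits w σ)
    (hw : ∀ v, (w v).1 = (w (v + 1)).1 → (w v).2 = (w (v + 1)).2) (x : α × Bool) (u : Fin L)
    (m : Wt α (Fin L)) :
    theta w (tau σ (FreeGroup.mk [x]) (u, m)).2 ≤ theta w m + 1 ∧
    (theta w (tau σ (FreeGroup.mk [x]) (u, m)).2 = theta w m + 1 →
      x = w (tau σ (FreeGroup.mk [x]) (u, m)).1 ∧
      u = (tau σ (FreeGroup.mk [x]) (u, m)).1 + 1) := by
  obtain ⟨a, b⟩ := x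
  cases b
  · rw [tau_ff]
    change theta w (m - dt a ((σ a)⁻¹ u)) ≤ theta w m + 1 ∧
      (theta w (m - dt a ((σ a)⁻¹ u)) = theta w m + 1 →
        (a, false) = w ((σ a)⁻¹ u) ∧ u = (σ a)⁻¹ u + 1)
    rw [theta_sub, theta_dt]
    set p := (σ a)⁻¹ u with hp
    by_cases h1 : w p = (a, false)
    · have h2 : u = p + 1 := by
        have h3 := hf p
        rw [h1] at h3
        have h4 : (σ a)⁻¹ (p + 1) = p := h3
        have h5 : (σ a)⁻¹ (p + 1) = (σ a)⁻¹ u := by rw [h4]
        exact ((σ a)⁻¹.injective h5).symm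
      refine ⟨?_, fun _ => ⟨h1.symm, h2⟩⟩
      rw [if_pos h1]
      split_ifs <;> omega
    · rw [if_neg h1]
      constructor
      · split_ifs <;> omega
      · intro h2
        exfalso
        revert h2
        split_ifs <;> omega
  · rw [tau_tt]
    change theta w (m + dt a u) ≤ theta w m + 1 ∧
      (theta w (m + dt a u) = theta w m + 1 →
        (a, true) = w (σ a u) ∧ u = σ a u + 1)
    rw [theta_add, theta_dt]
    by_cases h1 : w (u - 1) = (a, true)
    · have h2 : σ a u = u - 1 := by
        have h3 := hf (u - 1)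
        rw [h1, sub_add_cancel] at h3
        exact h3
      refine ⟨?_, fun _ => ?_⟩
      · rw [if_pos h1]
        split_ifs <;> omega
      · rw [h2, sub_add_cancel]
        exact ⟨h1.symm, rfl⟩
    · rw [if_neg h1]
      constructor
      · split_ifs <;> omega
      · intro h2
        exfalso
        revert h2
        split_ifs <;> omega

lemma theta_fwd {w : Fin L → α × Bool} {σ : α → Equiv.Perm (Fin L)} (hf : Fits w σ)
    (hw : ∀ v, (w v).1 = (w (v + 1)).1 → (w v).2 = (w (v + 1)).2) (p : Fin L)
    (m : Wt α (Fin L)) :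
    (tau σ (FreeGroup.mk [w p]) (p + 1, m)).1 = p ∧
    theta w (tau σ (FreeGroup.mk [w p]) (p + 1, m)).2 = theta w m + 1 := by
  have hfp := hf p
  rcases hx : w p with ⟨a, b⟩
  rw [hx] at hfp
  cases b
  · have h1 : (σ a)⁻¹ (p + 1) = p := hfp
    rw [tau_ff, h1]
    refine ⟨rfl, ?_⟩
    change theta w (m - dt a p) = theta w m + 1
    have h2 : w (p - 1) ≠ (a, true) := by
      intro h3
      have h4 := hw (p - 1)
      rw [sub_add_cancel, h3, hx] at h4
      have h5 : true = false := h4 rfl
      exact Bool.noConfusion h5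
    rw [theta_sub, theta_dt, if_neg h2, if_pos hx]
    ring
  · have h1 : σ a (p + 1) = p := hfp
    rw [tau_tt, h1]
    refine ⟨rfl, ?_⟩
    change theta w (m + dt a (p + 1)) = theta w m + 1
    have h2 : w (p + 1) ≠ (a, false) := by
      intro h3
      have h4 := hw p
      rw [h3, hx] at h4
      have h5 : true = false := h4 rfl
      exact Bool.noConfusion h5
    rw [theta_add, theta_dt, if_neg h2, add_sub_cancel_right, if_pos hx]
    ring

lemma theta_word {w : Fin L → α × Bool} {σ : α → Equiv.Perm (Fin L)} (hf : Fits w σ)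
    (hw : ∀ v, (w v).1 = (w (v + 1)).1 → (w v).2 = (w (v + 1)).2) (l : List (α × Bool))
    (v : Fin L) :
    theta w (tau σ (FreeGroup.mk l) (v, 0)).2 ≤ l.length ∧
    (theta w (tau σ (FreeGroup.mk l) (v, 0)).2 = l.length →
      v = (tau σ (FreeGroup.mk l) (v, 0)).1 + Fin.ofNat L l.length ∧
      l = (List.range l.length).map fun i =>
        w ((tau σ (FreeGroup.mk l) (v, 0)).1 + Fin.ofNat L i)) := by
  induction l with
  | nil =>
    have h1 : (FreeGroup.mk [] : FreeGroup α) = 1 := rfl
    rw [h1, map_one]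
    change theta w 0 ≤ ((0 : ℕ) : ℤ) ∧ (theta w 0 = ((0 : ℕ) : ℤ) →
      v = v + Fin.ofNat L 0 ∧ [] = (List.range 0).map fun i => w (v + Fin.ofNat L i))
    have h2 : theta w 0 = 0 := by
      unfold theta
      refine Finset.sum_eq_zero fun v _ => ?_
      simp
    rw [h2, ofNat_zero, add_zero]
    exact ⟨le_rfl, fun _ => ⟨rfl, rfl⟩⟩
  | cons x l ih =>
    rw [tau_cons]
    obtain ⟨ih1, ih2⟩ := ih
    generalize tau σ (FreeGroup.mk l) (v, 0) = y at ih1 ih2 ⊢
    obtain ⟨u, m⟩ := y
    obtain ⟨h1, h2⟩ := theta_step hf hw x u m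
    generalize tau σ (FreeGroup.mk [x]) (u, m) = z at h1 h2 ⊢
    obtain ⟨p, m'⟩ := z
    change theta w m' ≤ theta w m + 1 at h1
    change theta w m' = theta w m + 1 → x = w p ∧ u = p + 1 at h2
    change theta w m ≤ (l.length : ℤ) at ih1
    change theta w m = (l.length : ℤ) → v = u + Fin.ofNat L l.length ∧
      l = (List.range l.length).map fun i => w (u + Fin.ofNat L i) at ih2
    change theta w m' ≤ (((x :: l).length : ℕ) : ℤ) ∧ (theta w m' = (((x :: l).length : ℕ) : ℤ) →
      v = p + Fin.ofNat L (x :: l).length ∧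
      x :: l = (List.range (x :: l).length).map fun i => w (p + Fin.ofNat L i))
    rw [List.length_cons]
    push_cast
    refine ⟨by omega, fun h3 => ?_⟩
    obtain ⟨h4, h5⟩ := h2 (by omega)
    obtain ⟨h6, h7⟩ := ih2 (by omega)
    subst h5
    constructor
    · rw [ofNat_succ, ← add_assoc]
      exact h6
    · rw [List.range_succ_eq_map, List.map_cons, ofNat_zero, add_zero, ← h4, List.map_map]
      congr 1
      refine h7.trans ?_
      refine List.map_congr_left fun i _ => ?_
      rw [Function.comp_apply, ofNat_succ, ← add_assoc]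

private lemma fwd_list {w : Fin L → α × Bool} {σ : α → Equiv.Perm (Fin L)} (hf : Fits w σ)
    (hw : ∀ v, (w v).1 = (w (v + 1)).1 → (w v).2 = (w (v + 1)).2) (n : ℕ) :
    ∀ (p : Fin L) (m : Wt α (Fin L)),
    (tau σ (FreeGroup.mk ((List.range n).map fun i => w (p + Fin.ofNat L i)))
      (p + Fin.ofNat L n, m)).1 = p ∧
    theta w (tau σ (FreeGroup.mk ((List.range n).map fun i => w (p + Fin.ofNat L i)))
      (p + Fin.ofNat L n, m)).2 = theta w m + n := by
  induction n with
  | zero =>
    intro p m
    have h1 : (FreeGroup.mk ((List.range 0).map fun i => w (p + Fin.ofNat L i)) : FreeGroup α) =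
      1 := rfl
    rw [h1, map_one, ofNat_zero, add_zero]
    refine ⟨rfl, ?_⟩
    change theta w m = _
    simp
  | succ n ih =>
    intro p m
    have h1 : ((List.range (n + 1)).map fun i => w (p + Fin.ofNat L i)) =
        w p :: ((List.range n).map fun i => w (p + 1 + Fin.ofNat L i)) := by
      rw [List.range_succ_eq_map, List.map_cons, ofNat_zero, add_zero, List.map_map]
      congr 1
      refine List.map_congr_left fun i _ => ?_
      rw [Function.comp_apply, ofNat_succ, ← add_assoc]
    rw [h1, tau_cons, ofNat_succ, ← add_assoc]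
    obtain ⟨h2, h3⟩ := ih (p + 1) m
    generalize tau σ (FreeGroup.mk ((List.range n).map fun i => w (p + 1 + Fin.ofNat L i)))
      (p + 1 + Fin.ofNat L n, m) = y at h2 h3 ⊢
    obtain ⟨u, m'⟩ := y
    change u = p + 1 at h2
    change theta w m' = _ at h3
    subst h2
    obtain ⟨h4, h5⟩ := theta_fwd hf hw p m'
    refine ⟨h4, ?_⟩
    rw [h5, h3]
    push_cast
    ring

theorem cyc_self {w : Fin L → α × Bool} {σ : α → Equiv.Perm (Fin L)} (hf : Fits w σ)
    (hw : ∀ v, (w v).1 = (w (v + 1)).1 → (w v).2 = (w (v + 1)).2) :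
    ∃ m0, tau σ (FreeGroup.mk (List.ofFn w)) (0, 0) = (0, m0) ∧ theta w m0 = L := by
  have h1 : List.ofFn w = (List.range L).map fun i => w (0 + Fin.ofNat L i) := by
    refine List.ext_getElem (by simp) fun i h2 h3 => ?_
    rw [List.getElem_ofFn, List.getElem_map, List.getElem_range, zero_add]
    congr 1
    apply Fin.ext
    have h4 : i < L := by simpa using h2
    exact (Nat.mod_eq_of_lt h4).symm
  have h2 : (0 : Fin L) + Fin.ofNat L L = 0 := by
    rw [zero_add]
    apply Fin.ext
    exact Nat.mod_self L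
  obtain ⟨h3, h4⟩ := fwd_list hf hw L 0 0
  rw [← h1, h2] at h3 h4
  refine ⟨(tau σ (FreeGroup.mk (List.ofFn w)) (0, 0)).2, Prod.ext h3 rfl, ?_⟩
  rw [h4]
  have h5 : theta w 0 = 0 := by
    unfold theta
    refine Finset.sum_eq_zero fun v _ => ?_
    simp
  rw [h5, zero_add]

theorem conj_of_theta {w : Fin L → α × Bool} {σ : α → Equiv.Perm (Fin L)} (hf : Fits w σ)
    (hw : ∀ v, (w v).1 = (w (v + 1)).1 → (w v).2 = (w (v + 1)).2) {l : List (α × Bool)}
    (hl : l.length ≤ L) {v : Fin L} {m0 : Wt α (Fin L)}
    (h : tau σ (FreeGroup.mk l) (v, 0) = (v, m0)) (hm : theta w m0 = L) :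
    IsConj (FreeGroup.mk (List.ofFn w)) (FreeGroup.mk l) := by
  obtain ⟨h1, h2⟩ := theta_word hf hw l v
  rw [h] at h1 h2
  change theta w m0 ≤ _ at h1
  change theta w m0 = (l.length : ℤ) → v = v + Fin.ofNat L l.length ∧
    l = (List.range l.length).map fun i => w (v + Fin.ofNat L i) at h2
  rw [hm] at h1 h2
  have h3 : l.length = L := by omega
  obtain ⟨-, h4⟩ := h2 (by rw [h3])
  have h5 : l = (List.ofFn w).rotate v := by
    refine List.ext_getElem (by simp [h3]) fun i h6 h7 => ?_
    rw [List.getElem_rotate, List.getElem_ofFn]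
    have h8 : l[i] = ((List.range l.length).map fun i => w (v + Fin.ofNat L i))[i]'(by
        simpa using h6) := by
      congr 1
    rw [h8, List.getElem_map, List.getElem_range]
    congr 1
    apply Fin.ext
    rw [Fin.val_add]
    change (v.1 + i % L) % L = (i + v.1) % (List.ofFn w).length
    rw [List.length_ofFn, Nat.add_mod_mod, add_comm]
  rw [h5, List.rotate_eq_drop_append_take (by simp [v.2.le]), isConj_iff]
  refine ⟨FreeGroup.mk ((List.ofFn w).drop v), ?_⟩
  conv_lhs => rw [← List.take_append_drop v.1 (List.ofFn w)]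
  rw [← FreeGroup.mul_mk, ← FreeGroup.mul_mk]
  rw [List.take_append_drop]
  group

end Pool.Agent.Lvl
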