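import Pool.Agent.Lvl.CycD

set_option autoImplicit false
set_option linter.unusedSectionVars false

noncomputable section

open Classical

/-!
PACKAGE LVL-CYCM. Weighted permutation matrices.

* `tau_add`: induction on `u` (`FreeGroup.induction_on`), or: the permutations `x ↦ (x.1, x.2 + m')`
  commute with `tau1 σ a`, so with all `tau σ u`.
* `exists_matrix`: `ρ u` is the matrix with the entry `single m 1` at `(v', v)` if
  `tau σ u (v, 0) = (v', m)`, and `0` otherwise. It is multiplicative by `tau_add`: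
  `tau σ (u u') (v, 0) = tau σ u (v', m') = (v'', m'' + m')` where `tau σ u' (v, 0) = (v', m')` and
  `tau σ u (v', 0) = (v'', m'')`.
* `trace_ne`: the coefficient of the trace of `ρ h` at `m0` is the number of all `v` with
  `tau σ h (v, 0) = (v, m0)`; it is at least `1` for `h` and zero for `h'`.
-/

namespace Pool.Agent.Lvl

variable {α V : Type}

lemma tau_of (σ : α → Equiv.Perm V) (a : α) (x : V × Wt α V) :
    tau σ (FreeGroup.of a) x = (σ a x.1, x.2 + dt a x.1) := by
  simp [tau, tau1]

/-- The shift of the weights. -/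
private def shf (m' : Wt α V) : Equiv.Perm (V × Wt α V) where
  toFun x := (x.1, x.2 + m')
  invFun x := (x.1, x.2 - m')
  left_inv x := by simp
  right_inv x := by simp

private lemma shf_apply (m' : Wt α V) (x : V × Wt α V) : shf m' x = (x.1, x.2 + m') := rfl

private lemma shf_comm (σ : α → Equiv.Perm V) (m' : Wt α V) (u : FreeGroup α) :
    Commute (tau σ u) (shf m') := by
  induction u using FreeGroup.induction_on with
  | C1 => rw [map_one]; exact Commute.one_left _
  | of a =>
    refine Equiv.ext fun x => ?_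
    rw [Equiv.Perm.mul_apply, Equiv.Perm.mul_apply]
    rw [tau_of, tau_of, shf_apply, shf_apply]
    exact Prod.ext rfl (add_right_comm _ _ _)
  | inv_of a h => rw [map_inv]; exact h.inv_left
  | mul u v hu hv => rw [map_mul]; exact hu.mul_left hv

lemma tau_add (σ : α → Equiv.Perm V) (u : FreeGroup α) (v : V) (m m' : Wt α V) :
    tau σ u (v, m + m') = ((tau σ u (v, m)).1, (tau σ u (v, m)).2 + m') := by
  have h := congrArg (fun e : Equiv.Perm (V × Wt α V) => e (v, m)) (shf_comm σ m' u).eq
  exact h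

theorem exists_matrix [Fintype V] (σ : α → Equiv.Perm V) :
    ∃ ρ : FreeGroup α →* Matrix V V (AddMonoidAlgebra ℚ (Wt α V)), ∀ u,
      (ρ u).trace = ∑ v, if (tau σ u (v, 0)).1 = v then
        AddMonoidAlgebra.single (tau σ u (v, 0)).2 (1 : ℚ) else 0 := by
  refine ⟨⟨⟨fun u => Matrix.of fun v' v => if (tau σ u (v, 0)).1 = v' then
      AddMonoidAlgebra.single (tau σ u (v, 0)).2 (1 : ℚ) else 0, ?_⟩, ?_⟩, fun u => rfl⟩
  · ext1 v' v
    rw [Matrix.of_apply, map_one, Equiv.Perm.one_apply, Matrix.one_apply]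
    by_cases h : v' = v
    · rw [if_pos h.symm, if_pos h]
      rfl
    · rw [if_neg h, if_neg fun h1 => h h1.symm]
  · intro u u'
    ext1 v'' v
    simp only [Matrix.mul_apply, Matrix.of_apply]
    rw [Finset.sum_eq_single (tau σ u' (v, 0)).1]
    · rw [if_pos rfl, map_mul, Equiv.Perm.mul_apply]
      have h1 : tau σ u (tau σ u' (v, 0)) =
          ((tau σ u ((tau σ u' (v, 0)).1, 0)).1,
            (tau σ u ((tau σ u' (v, 0)).1, 0)).2 + (tau σ u' (v, 0)).2) := by
        rw [← tau_add, zero_add]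
      rw [h1, ite_mul, zero_mul, AddMonoidAlgebra.single_mul_single, one_mul]
    · intro b _ hb
      have h2 : ¬ (tau σ u' (v, 0)).1 = b := fun h => hb h.symm
      rw [if_neg h2, mul_zero]
    · intro h
      exact absurd (Finset.mem_univ _) h

theorem trace_ne [Fintype V] (σ : α → Equiv.Perm V) {h h' : FreeGroup α} {m0 : Wt α V} {v0 : V}
    (h1 : tau σ h (v0, 0) = (v0, m0)) (h2 : ∀ v, tau σ h' (v, 0) ≠ (v, m0)) :
    ∃ ρ : FreeGroup α →* Matrix V V (AddMonoidAlgebra ℚ (Wt α V)),
      (ρ h).trace ≠ (ρ h').trace := by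
  obtain ⟨ρ, hρ⟩ := exists_matrix σ
  refine ⟨ρ, fun he => ?_⟩
  rw [hρ h, hρ h'] at he
  have h3 := congrArg (fun x : AddMonoidAlgebra ℚ (Wt α V) => x.coeff m0) he
  simp only [AddMonoidAlgebra.coeff_sum, Finsupp.finsetSum_apply] at h3
  have h4 : ∀ v, (if (tau σ h' (v, 0)).1 = v then
      AddMonoidAlgebra.single (tau σ h' (v, 0)).2 (1 : ℚ) else 0).coeff m0 = 0 := by
    intro v
    by_cases h5 : (tau σ h' (v, 0)).1 = v
    · rw [if_pos h5, AddMonoidAlgebra.coeff_single, Finsupp.single_apply, if_neg]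
      exact fun h6 => h2 v (Prod.ext h5 h6)
    · rw [if_neg h5]
      rfl
  rw [Finset.sum_eq_zero fun v _ => h4 v] at h3
  have h5 : ∀ v, 0 ≤ (if (tau σ h (v, 0)).1 = v then
      AddMonoidAlgebra.single (tau σ h (v, 0)).2 (1 : ℚ) else 0).coeff m0 := by
    intro v
    by_cases h6 : (tau σ h (v, 0)).1 = v
    · rw [if_pos h6, AddMonoidAlgebra.coeff_single, Finsupp.single_apply]
      split_ifs
      · exact zero_le_one
      · exact le_rfl
    · rw [if_neg h6]
      exact le_rfl
  have h6 := (Finset.sum_eq_zero_iff_of_nonneg fun v _ => h5 v).1 h3 v0 (Finset.mem_univ _)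
  rw [h1, if_pos rfl, AddMonoidAlgebra.coeff_single, Finsupp.single_apply, if_pos rfl] at h6
  exact one_ne_zero h6

end Pool.Agent.Lvl
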