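import Mathlib

set_option autoImplicit false

noncomputable section

/-!
CONG (MP_95030e): the Atiyah conjecture for groups which are residually congruence subgroups of
`GL_N(ℤ_p)`. Basic definitions: towers of finite `p`-groups, limits of group rings.
-/

namespace Pool.Agent.Lvl

open MonoidAlgebra

/-- ordered products of powers -/
def opow {M : Type} [Monoid M] {d : ℕ} (c : Fin d → M) (a : Fin d → ℕ) : M :=
  (List.ofFn fun l => c l ^ a l).prod

/-- A tower of finite groups: the finite quotients `P k` of a uniform pro-`p` group with the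
topological generators `c`. Every element of `P k` is an ordered product of powers of the
generators, and the commutators of the generators are products of `q`-th powers, where `q ≥ 3` is
a power of `p`. -/
structure Tower (p q d : ℕ) where
  hq : ∃ s, q = p ^ s
  h3 : 3 ≤ q
  P : ℕ → Type
  [grp : ∀ k, Group (P k)]
  [fin : ∀ k, Fintype (P k)]
  pr : ∀ k, P (k + 1) →* P k
  c : ∀ k, Fin d → P k
  pr_c : ∀ k l, pr k (c (k + 1) l) = c k l
  card : ∀ k, Fintype.card (P k) = p ^ (k * d)
  gen : ∀ k (g : P k), ∃ a : Fin d → ℕ, g = opow (c k) a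
  c_pow : ∀ k l, c k l ^ p ^ k = 1
  comm : ∀ k i j, c k i * c k j * (c k i)⁻¹ * (c k j)⁻¹ ∈
    Subgroup.closure (Set.range fun g : P k => g ^ q)

attribute [instance] Tower.grp Tower.fin

variable {p q d : ℕ}

/-- the inverse limit of the group rings `R[P k]` -/
def Lim (T : Tower p q d) (R : Type) [CommRing R] :
    Subring (∀ k, MonoidAlgebra R (T.P k)) where
  carrier := {a | ∀ k, mapDomainRingHom R (T.pr k) (a (k + 1)) = a k}
  mul_mem' := by
    intro a b ha hb k
    rw [Pi.mul_apply, map_mul, ha k, hb k, Pi.mul_apply]
  one_mem' := by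
    intro k
    rw [Pi.one_apply, map_one, Pi.one_apply]
  add_mem' := by
    intro a b ha hb k
    rw [Pi.add_apply, map_add, ha k, hb k, Pi.add_apply]
  zero_mem' := by
    intro k
    rw [Pi.zero_apply, map_zero, Pi.zero_apply]
  neg_mem' := by
    intro a ha k
    rw [Pi.neg_apply, map_neg, ha k, Pi.neg_apply]

/-- the elements `b = c - 1` -/
def bb (T : Tower p q d) (R : Type) [CommRing R] (k : ℕ) (l : Fin d) :
    MonoidAlgebra R (T.P k) := single (T.c k l) 1 - 1

/-- the ordered monomials `b ^ e` -/
def bm (T : Tower p q d) (R : Type) [CommRing R] (k : ℕ) (e : Fin d →₀ ℕ) :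
    MonoidAlgebra R (T.P k) := opow (bb T R k) e

/-- the augmentation ideal, as a submodule -/
def aug (R P : Type) [CommRing R] [Group P] : Submodule R (MonoidAlgebra R P) :=
  Submodule.span R (Set.range fun g : P => single g (1 : R) - 1)

/-- the filtration by the powers of the augmentation ideal -/
def Fil (R P : Type) [CommRing R] [Group P] (n : ℕ) : Submodule R (MonoidAlgebra R P) :=
  ⊤ * aug R P ^ n

end Pool.Agent.Lvl
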