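import Pool.Agent.Lvl.FilC

set_option autoImplicit false

noncomputable section

/-!
PACKAGE LVL-RANKF. Lower bound for the rank of left multiplication by `u` on `F_p[P k]`.

Let `u ∈ Fil n` with leading form `g = homogeneousComponent n (pl u) ≠ 0`. Let `V` be the span of
the
`bm f` with `f l + n < p ^ k` for all `l`; its dimension is `(p ^ k - n) ^ d` (these are basis
elements, `bas`; index them by `Fin d → Fin (p ^ k - n)`). Claim: `u * v ≠ 0` for `0 ≠ v ∈ V`. Let
`m` be the smallest degree of an exponent in `pl v`, so `v ∈ Fil m` (`mem_fil_iff`) and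
`h = homogeneousComponent m (pl v) ≠ 0`. The product `g * h` of polynomials over the field `F_p` is
not zero, so it has a nonzero coefficient at some exponent `e = e' + f'` with `e'` in the support of
`g` and `f'` in the support of `h` (`MvPolynomial.support_mul`); `degree e' = n` so `e' l ≤ n`, and
`f' l + n < p ^ k`. So `Bx p k e`, `degree e = n + m` and `pl_mul` gives
`(pl (u * v)).coeff e ≠ 0`. So left multiplication by `u` is injective on `V`, and the rank is at
least `dim V` (`LinearMap.finrank_le_finrank_of_injective` or `Submodule.finrank_map_eq`..).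
If `p ^ k < n + 1` the natural number subtraction gives `(p ^ k - n) ^ d = 0` (`0 < d`), or `d = 0`
and everything is clear: `V` is spanned by `bm 0` (for `d = 0` every exponent is zero, so `n = 0`).
-/

namespace Pool.Agent.Lvl

open MonoidAlgebra MvPolynomial

variable {p q d : ℕ} [hp : Fact p.Prime] (T : Tower p q d)

theorem mul_ne_zero_of_small {k n : ℕ} {u v : GA T k} (hu : u ∈ Fil (ZMod p) (T.P k) n)
    (hn : homogeneousComponent n (pl T k u) ≠ 0) (hv : v ≠ 0)
    (hs : ∀ f, (pl T k v).coeff f ≠ 0 → ∀ l, f l + n < p ^ k) : u * v ≠ 0 := by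
  have hpv : pl T k v ≠ 0 := by
    intro h
    apply hv
    rw [← ev_pl T k v, h, map_zero]
  obtain ⟨e0, he0, hmin⟩ := Finset.exists_min_image (pl T k v).support Finsupp.degree
    (MvPolynomial.support_nonempty.2 hpv)
  have hvm : v ∈ Fil (ZMod p) (T.P k) e0.degree := by
    rw [mem_fil_iff]
    intro e he
    exact hmin e (MvPolynomial.mem_support_iff.2 he)
  have hh : homogeneousComponent e0.degree (pl T k v) ≠ 0 := by
    intro h
    have h1 := coeff_homogeneousComponent (φ := pl T k v) e0.degree e0
    rw [h, MvPolynomial.coeff_zero, if_pos rfl] at h1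
    exact (MvPolynomial.mem_support_iff.1 he0) h1.symm
  have hgh := mul_ne_zero hn hh
  obtain ⟨e, he⟩ := MvPolynomial.ne_zero_iff.1 hgh
  have hmem := MvPolynomial.support_mul _ _ (MvPolynomial.mem_support_iff.2 he)
  obtain ⟨e', he', f', hf', hef⟩ := Finset.mem_add.1 hmem
  have h1 := MvPolynomial.mem_support_iff.1 he'
  have h2 := MvPolynomial.mem_support_iff.1 hf'
  rw [coeff_homogeneousComponent] at h1 h2
  have hd1 : e'.degree = n := by
    by_contra hc
    rw [if_neg hc] at h1
    exact h1 rfl
  have hd2 : f'.degree = e0.degree := by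
    by_contra hc
    rw [if_neg hc] at h2
    exact h2 rfl
  rw [if_pos hd2] at h2
  have hb : Bx p k e := by
    intro l
    have h3 := hs f' h2 l
    have h4 := Finsupp.le_degree l e'
    rw [← hef, Finsupp.add_apply]
    omega
  have hdeg : e.degree = n + e0.degree := by
    rw [← hef, map_add, hd1, hd2]
  have h5 := pl_mul T hu hvm hb hdeg
  intro h0
  rw [h0, map_zero, MvPolynomial.coeff_zero] at h5
  exact he h5.symm

theorem finrank_range_ge {k n : ℕ} {u : GA T k} (hu : u ∈ Fil (ZMod p) (T.P k) n)
    (hn : homogeneousComponent n (pl T k u) ≠ 0) :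
    (p ^ k - n) ^ d ≤
      Module.finrank (ZMod p) (LinearMap.range (LinearMap.mulLeft (ZMod p) u)) := by
  classical
  let j : (Fin d → Fin (p ^ k - n)) → (Fin d → Fin (p ^ k)) := fun i l =>
    ⟨i l, by have := (i l).2; omega⟩
  have hj : Function.Injective j := by
    intro a b h
    funext l
    have h1 := congrFun h l
    exact Fin.ext (Fin.mk.inj h1)
  let V : Submodule (ZMod p) (GA T k) := Submodule.span (ZMod p)
    (Set.range fun i : Fin d → Fin (p ^ k - n) => bas T k (j i))
  have hli : LinearIndependent (ZMod p) fun i : Fin d → Fin (p ^ k - n) => bas T k (j i) :=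
    (bas T k).linearIndependent.comp j hj
  have hV : Module.finrank (ZMod p) V = (p ^ k - n) ^ d := by
    rw [finrank_span_eq_card hli]
    simp
  have hsm : ∀ v ∈ V, ∀ f, (pl T k v).coeff f ≠ 0 → ∀ l, f l + n < p ^ k := by
    intro v hv
    refine Submodule.span_induction (p := fun v _ => ∀ f, (pl T k v).coeff f ≠ 0 →
      ∀ l, f l + n < p ^ k) ?_ ?_ ?_ ?_ hv
    · rintro _ ⟨i, rfl⟩ f hf l
      simp only [bas_apply] at hf
      rw [pl_bm T (bx_ex (j i)), coeff_monomial] at hf
      by_cases h : ex (j i) = f
      · rw [← h, ex_apply]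
        have := (i l).2
        show (i l : ℕ) + n < p ^ k
        omega
      · rw [if_neg h] at hf
        exact absurd rfl hf
    · intro f hf
      rw [map_zero, MvPolynomial.coeff_zero] at hf
      exact absurd rfl hf
    · intro x y _ _ hx hy f hf
      by_cases h : (pl T k x).coeff f = 0
      · apply hy f
        intro h'
        apply hf
        rw [map_add, MvPolynomial.coeff_add, h, h', add_zero]
      · exact hx f h
    · intro r x _ hx f hf
      apply hx f
      intro h'
      apply hf
      rw [map_smul, MvPolynomial.coeff_smul, h', smul_zero]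
  let F : V →ₗ[ZMod p] GA T k := (LinearMap.mulLeft (ZMod p) u).domRestrict V
  have hF : Function.Injective F := by
    rw [← LinearMap.ker_eq_bot, LinearMap.ker_eq_bot']
    intro v hv
    by_contra hne
    refine mul_ne_zero_of_small T hu hn (v := (v : GA T k)) ?_ (hsm v v.2) hv
    intro h
    exact hne (Subtype.ext h)
  rw [← hV, ← LinearMap.finrank_range_of_inj hF]
  apply Submodule.finrank_mono
  rintro _ ⟨v, rfl⟩
  exact ⟨v, rfl⟩

end Pool.Agent.Lvl
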