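import Mathlib

set_option autoImplicit false

noncomputable section

open Classical

/-!
PACKAGE LVL-REG. The left regular representation by matrices: `lm a x y = a (x y⁻¹)`.

* `lm` is a ring homomorphism: `(a b) (x y⁻¹) = ∑ z, a (x z⁻¹) b (z y⁻¹)`. It is enough to check the
  product on `single g r`, `single h s` (additivity), or use `MonoidAlgebra.lift` and the matrices
  of the permutations; `1 (x y⁻¹) = 1` if and only if `x = y`.
* `lm_map`: `MonoidAlgebra.coeff_mapRingHom`.
* `rank_lm`: under the linear equivalence `MonoidAlgebra K P ≃ (P → K)`, `u ↦ u.coeff`, the map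
  `(lm a).mulVecLin` is left multiplication by `a`:
  `(a u) x = ∑ y, a (x y⁻¹) u y`.
-/

namespace Pool.Agent.Lvl

open MonoidAlgebra

variable {K P : Type} [CommRing K] [Group P] [Fintype P]

private lemma coeff_mul_sum (a b : MonoidAlgebra K P) (x y : P) :
    (a * b).coeff (x * y⁻¹) = ∑ z, a.coeff (x * z⁻¹) * b.coeff (z * y⁻¹) := by
  rw [coeff_mul_antidiag a b (x * y⁻¹) (Finset.univ.map ⟨fun z => (x * z⁻¹, z * y⁻¹), by
    intro z z' h
    have h2 : z * y⁻¹ = z' * y⁻¹ := congrArg Prod.snd h
    exact mul_right_cancel h2⟩)]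
  · rw [Finset.sum_map]
    rfl
  · rintro ⟨u, v⟩
    rw [Finset.mem_map]
    constructor
    · rintro ⟨z, _, hz⟩
      have h1 : x * z⁻¹ = u := congrArg Prod.fst hz
      have h2 : z * y⁻¹ = v := congrArg Prod.snd hz
      rw [← h1, ← h2]
      group
    · intro h
      refine ⟨v * y, Finset.mem_univ _, ?_⟩
      have h1 : u * v = x * y⁻¹ := h
      show (x * (v * y)⁻¹, v * y * y⁻¹) = (u, v)
      have h2 : x * (v * y)⁻¹ = u := by
        rw [mul_inv_rev, ← mul_assoc, ← h1]
        group
      rw [h2, mul_inv_cancel_right]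

/-- the matrix of left multiplication -/
def lm (K P : Type) [CommRing K] [Group P] [Fintype P] :
    MonoidAlgebra K P →+* Matrix P P K where
  toFun a := Matrix.of fun x y => a.coeff (x * y⁻¹)
  map_one' := by
    ext x y
    show (1 : MonoidAlgebra K P).coeff (x * y⁻¹) = (1 : Matrix P P K) x y
    rw [one_def, coeff_single, Finsupp.single_apply, Matrix.one_apply]
    by_cases h : x = y
    · rw [if_pos h, if_pos (by rw [h]; group)]
    · rw [if_neg h, if_neg]
      intro h1
      apply h
      rw [← mul_inv_eq_one]
      exact h1.symm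
  map_mul' := by
    intro a b
    ext x y
    exact coeff_mul_sum a b x y
  map_zero' := by
    ext x y
    rfl
  map_add' a b := by
    ext x y
    rfl

lemma lm_apply (a : MonoidAlgebra K P) (x y : P) : lm K P a x y = a.coeff (x * y⁻¹) := rfl

lemma lm_map {K' : Type} [CommRing K'] (φ : K →+* K') (a : MonoidAlgebra K P) :
    lm K' P (mapRingHom P φ a) = (lm K P a).map φ := by
  ext x y
  simp [lm_apply]

/-- coefficients as functions -/
private def cf (F P : Type) [Field F] [Group P] [Fintype P] :
    MonoidAlgebra F P ≃ₗ[F] (P → F) where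
  toFun a := fun x => a.coeff x
  map_add' a b := by
    ext x
    rfl
  map_smul' r a := by
    ext x
    rfl
  invFun f := ofCoeff (Finsupp.equivFunOnFinite.symm f)
  left_inv a := by
    ext x
    rfl
  right_inv f := by
    ext x
    rfl

theorem rank_lm (F : Type) [Field F] (a : MonoidAlgebra F P) :
    (lm F P a).rank = Module.finrank F (LinearMap.range (LinearMap.mulLeft F a)) := by
  have h : (lm F P a).mulVecLin =
      ((cf F P : MonoidAlgebra F P →ₗ[F] (P → F)).comp (LinearMap.mulLeft F a)).comp
        ((cf F P).symm : (P → F) →ₗ[F] MonoidAlgebra F P) := by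
    apply LinearMap.ext
    intro v
    obtain ⟨u, rfl⟩ := (cf F P).surjective v
    ext x
    show (lm F P a).mulVec (fun y => u.coeff y) x =
      (a * (cf F P).symm (cf F P u)).coeff x
    rw [LinearEquiv.symm_apply_apply]
    have h1 := coeff_mul_sum a u x 1
    simp only [inv_one, mul_one] at h1
    rw [h1]
    rfl
  unfold Matrix.rank
  rw [h, LinearMap.range_comp, LinearEquiv.range, Submodule.map_top, LinearMap.range_comp]
  exact LinearEquiv.finrank_map_eq (cf F P) _

end Pool.Agent.Lvl
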