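import Mathlib

set_option autoImplicit false

noncomputable section

open Classical

/-!
PACKAGE LVL-RKF. Ranks of matrices under homomorphisms of the coefficients.

* `exists_left_right`: let `r = A.rank`. Choose a basis of the range of `A.mulVecLin` and preimages
  of the basis vectors: a matrix `C` (`n × r`) such that the columns of `A * C` are linearly
  independent; a linearly independent family has a left inverse (`Matrix` `B` with `B * (A * C) =
  1`:
  `LinearMap.exists_leftInverse_of_injective` for `(A * C).mulVecLin`, and `LinearMap.toMatrix'`).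
* `exists_factor`: `A = A' * A''` with inner dimension `r`: the columns of `A'` are a basis of the
  range of `A.mulVecLin`.
* `rank_ge_of_det`: `(B * A * C).rank ≤ A.rank` (`Matrix.rank_mul_le_left`, `rank_mul_le_right`) and
  a matrix with nonzero determinant over a field has full rank (`Matrix.rank_of_isUnit`).
* `rank_map_field`: `≤` by `exists_factor` (`Matrix.map_mul`, `Matrix.rank_le_card_width`), `≥` by
  `exists_left_right` and `rank_ge_of_det`.
* `rank_padic_ge`: take `B`, `C` for the matrix over `ZMod p`, lift them to `ℤ_[p]`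
  (`PadicInt.toZMod` is surjective). The determinant of `B * A * C` is `1` modulo `p`
  (`RingHom.map_det`), so it is not zero in `ℤ_[p]` and in `ℚ_[p]`.
-/

namespace Pool.Agent.Lvl

variable {m n : Type} [Fintype m] [Fintype n]

theorem exists_left_right {F : Type} [Field F] (A : Matrix m n F) :
    ∃ (B : Matrix (Fin A.rank) m F) (C : Matrix n (Fin A.rank) F), B * A * C = 1 := by
  let e : Module.Basis (Fin A.rank) F (LinearMap.range A.mulVecLin) :=
    Module.finBasis F (LinearMap.range A.mulVecLin)
  have h1 : ∀ i, ∃ c : n → F, A.mulVec c = (e i : m → F) := fun i => (e i).2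
  choose c hc using h1
  let C : Matrix n (Fin A.rank) F := Matrix.of fun j i => c i j
  have h2 : (A * C).col = fun i => (e i : m → F) := by
    funext i
    rw [← hc i]
    rfl
  have h3 : Function.Injective (A * C).mulVec := by
    rw [Matrix.mulVec_injective_iff, h2]
    exact e.linearIndependent.map' (LinearMap.range A.mulVecLin).subtype
      (Submodule.ker_subtype _)
  have h4 : LinearMap.ker (A * C).mulVecLin = ⊥ := by
    rw [LinearMap.ker_eq_bot]
    exact h3
  obtain ⟨g, hg⟩ := LinearMap.exists_leftInverse_of_injective _ h4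
  refine ⟨LinearMap.toMatrix' g, C, ?_⟩
  have h5 : LinearMap.toMatrix' (g.comp (A * C).mulVecLin) = LinearMap.toMatrix' g * (A * C) := by
    rw [LinearMap.toMatrix'_comp]
    congr 1
    exact LinearMap.toMatrix'_toLin' (A * C)
  rw [Matrix.mul_assoc, ← h5, hg, LinearMap.toMatrix'_id]

theorem exists_factor {F : Type} [Field F] (A : Matrix m n F) :
    ∃ (B : Matrix m (Fin A.rank) F) (C : Matrix (Fin A.rank) n F), A = B * C := by
  let e : Module.Basis (Fin A.rank) F (LinearMap.range A.mulVecLin) :=
    Module.finBasis F (LinearMap.range A.mulVecLin)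
  have h1 : ∀ j, A.col j ∈ LinearMap.range A.mulVecLin := fun j =>
    ⟨Pi.single j 1, Matrix.mulVec_single_one A j⟩
  refine ⟨Matrix.of fun i k => (e k : m → F) i,
    Matrix.of fun k j => e.repr ⟨A.col j, h1 j⟩ k, ?_⟩
  ext i j
  have h2 := e.sum_repr ⟨A.col j, h1 j⟩
  have h3 := congrArg (fun v : LinearMap.range A.mulVecLin => (v : m → F) i) h2
  have h4 : A.col j i = A i j := rfl
  rw [Matrix.mul_apply]
  simp only [Matrix.of_apply]
  rw [← h4]
  refine Eq.trans h3.symm ?_
  simp only [Submodule.coe_sum, Submodule.coe_smul, Finset.sum_apply, Pi.smul_apply, smul_eq_mul]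
  exact Finset.sum_congr rfl fun k _ => mul_comm _ _

theorem rank_ge_of_det {F : Type} [Field F] {A : Matrix m n F} {r : ℕ} (B : Matrix (Fin r) m F)
    (C : Matrix n (Fin r) F) (h : (B * A * C).det ≠ 0) : r ≤ A.rank := by
  have h1 : (B * A * C).rank = r := by
    rw [Matrix.rank_of_isUnit _ ((Matrix.isUnit_iff_isUnit_det _).2 (isUnit_iff_ne_zero.2 h)),
      Fintype.card_fin]
  rw [← h1]
  exact (Matrix.rank_mul_le_left _ _).trans (Matrix.rank_mul_le_right _ _)

theorem rank_map_field {F F' : Type} [Field F] [Field F'] (φ : F →+* F') (A : Matrix m n F) :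
    (A.map φ).rank = A.rank := by
  apply le_antisymm
  · obtain ⟨B, C, h⟩ := exists_factor A
    have h1 : A.map φ = B.map φ * C.map φ := by
      conv_lhs => rw [h]
      exact Matrix.map_mul
    rw [h1]
    refine (Matrix.rank_mul_le_left _ _).trans ?_
    have h2 := Matrix.rank_le_card_width (B.map φ)
    rwa [Fintype.card_fin] at h2
  · obtain ⟨B, C, h⟩ := exists_left_right A
    refine rank_ge_of_det (B.map φ) (C.map φ) ?_
    have h1 : B.map φ * A.map φ * C.map φ = 1 := by
      rw [← Matrix.map_mul, ← Matrix.map_mul, h]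
      exact Matrix.map_one φ φ.map_zero φ.map_one
    rw [h1, Matrix.det_one]
    exact one_ne_zero

theorem rank_padic_ge {p : ℕ} [Fact p.Prime] (A : Matrix m n ℤ_[p]) :
    (A.map PadicInt.toZMod).rank ≤ (A.map (algebraMap ℤ_[p] ℚ_[p])).rank := by
  obtain ⟨B, C, h⟩ := exists_left_right (A.map (PadicInt.toZMod (p := p)))
  have hs : Function.Surjective (PadicInt.toZMod (p := p)) := ZMod.ringHom_surjective _
  choose f hf using hs
  have hB : (B.map f).map (PadicInt.toZMod (p := p)) = B := by
    ext i j
    exact hf _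
  have hC : (C.map f).map (PadicInt.toZMod (p := p)) = C := by
    ext i j
    exact hf _
  refine rank_ge_of_det ((B.map f).map (algebraMap ℤ_[p] ℚ_[p]))
    ((C.map f).map (algebraMap ℤ_[p] ℚ_[p])) ?_
  rw [← Matrix.map_mul, ← Matrix.map_mul]
  have h1 : ((B.map f * A * C.map f).map (algebraMap ℤ_[p] ℚ_[p])).det =
      algebraMap ℤ_[p] ℚ_[p] (B.map f * A * C.map f).det :=
    (RingHom.map_det (algebraMap ℤ_[p] ℚ_[p]) _).symm
  rw [h1]
  intro h0
  have h2 : (B.map f * A * C.map f).det = 0 :=
    (IsFractionRing.injective ℤ_[p] ℚ_[p]) (h0.trans (map_zero _).symm)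
  have h3 := congrArg (PadicInt.toZMod (p := p)) h2
  rw [RingHom.map_det, map_zero] at h3
  have h4 : (PadicInt.toZMod (p := p)).mapMatrix (B.map f * A * C.map f) = 1 := by
    change (B.map f * A * C.map f).map (PadicInt.toZMod (p := p)) = 1
    rw [Matrix.map_mul, Matrix.map_mul, hB, hC, h]
  rw [h4, Matrix.det_one] at h3
  exact one_ne_zero h3

end Pool.Agent.Lvl
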