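import Pool.Agent.Lvl.LimZ
import Pool.Agent.Lvl.RankF
import Pool.Agent.Lvl.Reg
import Pool.Agent.Lvl.RkF

set_option autoImplicit false
set_option linter.unusedSectionVars false

noncomputable section

open Classical

/-!
PACKAGE LVL-DENS. For `0 ≠ a` in `L = lim ℤ_p[P k]` the left multiplication by `a` on `ℚ_p[P k]` is
asymptotically bijective.

* `finrank_ker_rho`: rank-nullity (`LinearMap.finrank_range_add_finrank_ker`,
  `Module.finrank_fintype_fun_eq_card`; `Matrix.rank` is the dimension of the range of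
  `mulVecLin`).
* `rank_ge`. Let `a ≠ 0`. `exists_unit_part` (for `φ = red T`, `lsep`, `red_eq_zero`):
  `a = p ^ s * a'` with `u = red T a' ≠ 0`. `exists_lf`: there is `n` with `FL n u`,
  `lf n u ≠ 0`. For all `k` with `n < p ^ k` we have
  `homogeneousComponent n (pl (u k)) = lf n u ≠ 0` (`lf_eq`), so `finrank_range_ge` and `rank_lm`
  give `(p ^ k - n) ^ d ≤ rank (lm (ZMod p) (u k))`; with `lm_map` and `rank_padic_ge` this is
  `≤ rank (lm ℚ_p (a' k))`, and the rank for `a = p ^ s a'` is the same (multiplication by the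
  nonzero scalar `p ^ s`).
* `tendsto_ker`: `card (P k) = p ^ (k * d) = (p ^ k) ^ d` (`T.card`), so
  `0 ≤ dim ker / card ≤ 1 - ((p ^ k - n) / p ^ k) ^ d → 0` (squeeze).
-/

namespace Pool.Agent.Lvl

open MonoidAlgebra MvPolynomial Filter Topology Module

variable {p q d : ℕ} [hp : Fact p.Prime] (T : Tower p q d)

/-- the matrix of left multiplication by an element of the limit ring at the level `k` -/
def lmL (k : ℕ) : Lim T ℤ_[p] →+* Matrix (T.P k) (T.P k) ℚ_[p] :=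
  (lm ℚ_[p] (T.P k)).comp ((mapRingHom (T.P k) (algebraMap ℤ_[p] ℚ_[p])).comp
    ((Pi.evalRingHom (fun k => MonoidAlgebra ℤ_[p] (T.P k)) k).comp (Lim T ℤ_[p]).subtype))

lemma lmL_apply (k : ℕ) (a : Lim T ℤ_[p]) (x y : T.P k) :
    lmL T k a x y = algebraMap ℤ_[p] ℚ_[p] ((a.1 k).coeff (x * y⁻¹)) := by
  simp [lmL, lm_apply]

/-- left multiplication by an element of the limit ring at the level `k` -/
def rho (k : ℕ) : Lim T ℤ_[p] →+* Module.End ℚ_[p] (T.P k → ℚ_[p]) :=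
  (Matrix.toLinAlgEquiv' (R := ℚ_[p]) (n := T.P k)).toRingEquiv.toRingHom.comp (lmL T k)

lemma rho_apply (k : ℕ) (a : Lim T ℤ_[p]) : rho T k a = (lmL T k a).mulVecLin := rfl

lemma finrank_ker_rho (k : ℕ) (a : Lim T ℤ_[p]) :
    finrank ℚ_[p] (LinearMap.ker (rho T k a)) + (lmL T k a).rank = Fintype.card (T.P k) := by
  have h := LinearMap.finrank_range_add_finrank_ker (rho T k a)
  rw [Module.finrank_fintype_fun_eq_card] at h
  rw [← h, rho_apply, Matrix.rank, add_comm]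

theorem rank_ge {a : Lim T ℤ_[p]} (ha : a ≠ 0) : ∃ n : ℕ, ∀ k, n < p ^ k →
    (p ^ k - n) ^ d ≤ (lmL T k a).rank := by
  obtain ⟨s, a', rfl, hu⟩ := exists_unit_part (φ := red T) (p := ((p : ℕ) : Lim T ℤ_[p]))
    (fun _ h => red_eq_zero T h) (fun _ h => lsep T h) ha
  obtain ⟨n, hn, hl⟩ := exists_lf T hu
  refine ⟨n, fun k hk => ?_⟩
  have h1 := finrank_range_ge T (hn k) (by rw [lf_eq T hk]; exact hl)
  rw [← rank_lm] at h1
  have h2 : lm (ZMod p) (T.P k) ((red T a').1 k) =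
      (lm ℤ_[p] (T.P k) (a'.1 k)).map PadicInt.toZMod := by
    rw [← lm_map]
    rfl
  rw [h2] at h1
  refine h1.trans ((rank_padic_ge _).trans ?_)
  have h3 : lmL T k a' = (lm ℤ_[p] (T.P k) (a'.1 k)).map (algebraMap ℤ_[p] ℚ_[p]) := by
    rw [← lm_map]
    rfl
  rw [← h3, map_mul, map_pow, map_natCast]
  have h4 : IsUnit (((p : ℕ) : Matrix (T.P k) (T.P k) ℚ_[p]) ^ s).det := by
    have h5 : ((p : ℕ) : Matrix (T.P k) (T.P k) ℚ_[p]) =
        Matrix.scalar (T.P k) ((p : ℕ) : ℚ_[p]) := by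
      rw [map_natCast]
    rw [Matrix.det_pow, h5, Matrix.scalar_apply, Matrix.det_diagonal, Finset.prod_const]
    exact IsUnit.mk0 _ (pow_ne_zero _ (pow_ne_zero _ (Nat.cast_ne_zero.mpr hp.out.ne_zero)))
  rw [Matrix.rank_mul_eq_right_of_isUnit_det _ _ h4]

private lemma lim_aux (n : ℕ) : Tendsto (fun k : ℕ => (1 : ℝ) - (1 - (n : ℝ) / (p : ℝ) ^ k) ^ d)
    atTop (𝓝 0) := by
  have h1 : Tendsto (fun k : ℕ => (p : ℝ) ^ k) atTop atTop :=
    tendsto_pow_atTop_atTop_of_one_lt (by exact_mod_cast hp.out.one_lt)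
  have h2 : Tendsto (fun k : ℕ => (n : ℝ) / (p : ℝ) ^ k) atTop (𝓝 0) :=
    tendsto_const_nhds.div_atTop h1
  have h3 := (tendsto_const_nhds (x := (1 : ℝ))).sub
    (((tendsto_const_nhds (x := (1 : ℝ))).sub h2).pow d)
  simpa using h3

theorem tendsto_ker {a : Lim T ℤ_[p]} (ha : a ≠ 0) :
    Tendsto (fun k => (finrank ℚ_[p] (LinearMap.ker (rho T k a)) : ℝ) /
      finrank ℚ_[p] (T.P k → ℚ_[p])) atTop (𝓝 0) := by
  obtain ⟨n, hn⟩ := rank_ge T ha
  refine squeeze_zero' (Eventually.of_forall fun k => by positivity) ?_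
    (lim_aux (p := p) (d := d) n)
  have h1 : Tendsto (fun k : ℕ => p ^ k) atTop atTop :=
    tendsto_pow_atTop_atTop_of_one_lt hp.out.one_lt
  filter_upwards [h1.eventually_gt_atTop n] with k hk
  have h2 := finrank_ker_rho T k a
  have h3 := hn k hk
  have hp0 : (0 : ℝ) < (p : ℝ) ^ k := by
    have := hp.out.pos
    positivity
  rw [Module.finrank_fintype_fun_eq_card, T.card k]
  rw [T.card k] at h2
  have h4 : ((p ^ (k * d) : ℕ) : ℝ) = ((p : ℝ) ^ k) ^ d := by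
    push_cast
    rw [pow_mul]
  have h5 : (finrank ℚ_[p] (LinearMap.ker (rho T k a)) : ℝ) + ((lmL T k a).rank : ℝ) =
      ((p : ℝ) ^ k) ^ d := by
    rw [← h4]
    exact_mod_cast h2
  have h6 : ((p : ℝ) ^ k - n) ^ d ≤ ((lmL T k a).rank : ℝ) := by
    have : (((p ^ k - n) ^ d : ℕ) : ℝ) ≤ ((lmL T k a).rank : ℝ) := by exact_mod_cast h3
    rw [Nat.cast_pow, Nat.cast_sub hk.le] at this
    exact_mod_cast this
  have hd : (0 : ℝ) < ((p : ℝ) ^ k) ^ d := by positivity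
  rw [h4, div_le_iff₀ hd]
  have h7 : (1 - (1 - (n : ℝ) / (p : ℝ) ^ k) ^ d) * ((p : ℝ) ^ k) ^ d =
      ((p : ℝ) ^ k) ^ d - ((p : ℝ) ^ k - n) ^ d := by
    rw [sub_mul, one_mul, ← mul_pow]
    congr 2
    field_simp
  rw [h7]
  linarith

end Pool.Agent.Lvl
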