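import Pool.Agent.Lvl.LimF

set_option autoImplicit false
set_option linter.unusedSectionVars false

noncomputable section

/-!
PACKAGE LVL-DIVS. One step of the division in the limit ring.

`lf n u = ∑ i, r i * g i` with `g i = lf (n' i) (m i)`, homogeneous of degree `n' i`
(`Ideal.mem_span_range_iff_exists_fun`). Taking the homogeneous components of degree `n` on both
sides we may replace `r i` by its homogeneous component of degree `n - n' i` (by `0` if `n < n'
  i`).
Let `z i = evL (r i)`. Then `FL n (z i * m i)` (`fl_evL`, `fl_mul`; if `n < n' i` it is `0`), so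
`FL n (u - ∑ z i * m i)`, and the form of degree `n` of it is
`lf n u - ∑ r i * g i = 0` (`lf_sub`, `lf_sum`, `lf_mul`, `lf_evL`), so `fl_succ` gives the claim.
-/

namespace Pool.Agent.Lvl

open MonoidAlgebra MvPolynomial

variable {p q d : ℕ} [hp : Fact p.Prime] (T : Tower p q d)

private lemma hc_mul {c g : MvPolynomial (Fin d) (ZMod p)} {e : ℕ} (hg : g.IsHomogeneous e)
    (n : ℕ) : homogeneousComponent n (c * g) =
      (if e ≤ n then homogeneousComponent (n - e) c else 0) * g := by
  classical
  have h1 : c * g = ∑ i ∈ Finset.range (c.totalDegree + 1), homogeneousComponent i c * g := by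
    rw [← Finset.sum_mul, sum_homogeneousComponent]
  have h2 : ∀ i, homogeneousComponent n (homogeneousComponent i c * g) =
      if i + e = n then homogeneousComponent i c * g else 0 := by
    intro i
    have h3 : (homogeneousComponent i c * g).IsHomogeneous (i + e) :=
      (homogeneousComponent_isHomogeneous i c).mul hg
    rw [homogeneousComponent_of_mem h3]
    by_cases h4 : i + e = n
    · simp [h4]
    · simp [h4, Ne.symm h4]
  rw [h1, map_sum]
  simp only [h2]
  by_cases he : e ≤ n
  · rw [if_pos he]
    have h5 : ∀ i ∈ Finset.range (c.totalDegree + 1),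
        (if i + e = n then homogeneousComponent i c * g else 0) =
        if i = n - e then homogeneousComponent (n - e) c * g else 0 := by
      intro i _
      by_cases h6 : i + e = n
      · have h7 : i = n - e := by omega
        rw [if_pos h6, if_pos h7, h7]
      · have h7 : ¬ i = n - e := by omega
        rw [if_neg h6, if_neg h7]
    rw [Finset.sum_congr rfl h5, Finset.sum_ite_eq']
    by_cases h8 : n - e ∈ Finset.range (c.totalDegree + 1)
    · rw [if_pos h8]
    · rw [if_neg h8]
      have h9 : c.totalDegree < n - e := by
        simp only [Finset.mem_range] at h8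
        omega
      rw [homogeneousComponent_eq_zero _ _ h9, zero_mul]
  · rw [if_neg he, zero_mul]
    refine Finset.sum_eq_zero fun i _ => ?_
    rw [if_neg (by omega)]

/-- one step of the division -/
theorem div_step {ι : Type} [Fintype ι] (m : ι → Lim T (ZMod p)) (n' : ι → ℕ)
    (hm : ∀ i, FL T (n' i) (m i)) {u : Lim T (ZMod p)} {n : ℕ} (hu : FL T n u)
    (h : lf T n u ∈ Ideal.span (Set.range fun i => lf T (n' i) (m i))) :
    ∃ z : ι → Lim T (ZMod p), FL T (n + 1) (u - ∑ i, z i * m i) := by
  classical
  obtain ⟨c, hc⟩ := (Ideal.mem_span_range_iff_exists_fun (R := MvPolynomial (Fin d) (ZMod p))).1 h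
  set r : ι → MvPolynomial (Fin d) (ZMod p) := fun i =>
    if n' i ≤ n then homogeneousComponent (n - n' i) (c i) else 0 with hr
  have hz : (0 : MvPolynomial (Fin d) (ZMod p)).IsHomogeneous n := isHomogeneous_zero _ _ _
  have h1 : ∀ i, FL T n (evL T (r i) * m i) ∧
      lf T n (evL T (r i) * m i) = r i * lf T (n' i) (m i) := by
    intro i
    by_cases hi : n' i ≤ n
    · have hri : r i = homogeneousComponent (n - n' i) (c i) := by
        simp only [hr]
        rw [if_pos hi]
      have h2 : (r i).IsHomogeneous (n - n' i) := by
        rw [hri]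
        exact homogeneousComponent_isHomogeneous _ _
      have h3 := fl_mul T (fl_evL T h2) (hm i)
      have h4 := lf_mul T (fl_evL T h2) (hm i)
      rw [lf_evL T h2] at h4
      have h5 : n - n' i + n' i = n := by omega
      rw [h5] at h3 h4
      exact ⟨h3, h4⟩
    · have hri : r i = 0 := by
        simp only [hr]
        rw [if_neg hi]
      have h3 := fl_mul T (fl_evL T hz) (fl_zero T (m i))
      have h4 := lf_mul T (fl_evL T hz) (fl_zero T (m i))
      rw [lf_evL T hz] at h4
      rw [Nat.add_zero] at h3 h4
      rw [hri]
      refine ⟨h3, ?_⟩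
      rw [h4, zero_mul, zero_mul]
  refine ⟨fun i => evL T (r i), ?_⟩
  refine fl_succ T (hu.sub T (FL.sum T fun i _ => (h1 i).1)) ?_
  rw [lf_sub, lf_sum, Finset.sum_congr rfl fun i _ => (h1 i).2]
  have h6 : homogeneousComponent n (lf T n u) = lf T n u := by
    rw [homogeneousComponent_of_mem (lf_isHomogeneous T n u)]
    simp
  rw [← h6, ← hc, map_sum, sub_eq_zero]
  refine Finset.sum_congr rfl fun i _ => ?_
  rw [hc_mul (lf_isHomogeneous T (n' i) (m i))]

end Pool.Agent.Lvl
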