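import Mathlib

set_option autoImplicit false
set_option linter.unusedSectionVars false

noncomputable section

/-!
PACKAGE LVL-ELIM. One step of the elimination. For a matrix `A` over `R` and a representation
`ρ : R → End V` let `op ρ A : (ι → V) → (κ → V)`, `v ↦ (∑ i, ρ (A j i) (v i))_j`.

Let `K' = {v ∈ ker (op B) | row j0 of A applied to v is 0}`.
(1) `ker (op A) ≤ K'`, and `v ↦ (∑ i, ρ (A (j0.succAbove j) i) (v i))_j` maps `K'` to
`∏ ker (ρ (y j))` with kernel `ker (op A)`, so
`dim ker (op A) ≤ dim K' ≤ dim ker (op A) + ∑ j, dim ker (ρ (y j))`.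
(2) the row `j0` defines a linear map `r : ker (op B) → V` with kernel `K'`; its range contains the
range of `ρ a` (`Pi.single i0 v` is in `ker (op B)`, because `B j i0 = 0`). So
`dim ker (op B) - dim V ≤ dim K' ≤ dim ker (op B) - dim V + dim ker (ρ a)`.
-/

namespace Pool.Agent.Lvl

open Module

variable {R K : Type} [Ring R] [Field K] {κ ι : Type} [Fintype κ] [Fintype ι]

/-- the action of a matrix -/
def op {V : Type} [AddCommGroup V] [Module K V] (ρ : R →+* Module.End K V) (A : Matrix κ ι R) :
    (ι → V) →ₗ[K] (κ → V) :=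
  LinearMap.pi fun j => ∑ i, (ρ (A j i)) ∘ₗ LinearMap.proj i

lemma op_apply {V : Type} [AddCommGroup V] [Module K V] (ρ : R →+* Module.End K V)
    (A : Matrix κ ι R) (v : ι → V) (j : κ) : op ρ A v j = ∑ i, ρ (A j i) (v i) := by
  simp [op]

private lemma fin_map {W V' : Type} [AddCommGroup W] [Module K W] [FiniteDimensional K W]
    [AddCommGroup V'] [Module K V'] (f : W →ₗ[K] V') (S : Submodule K W) :
    finrank K (S.map f) + finrank K (S ⊓ LinearMap.ker f : Submodule K W) = finrank K S := by
  have h := LinearMap.finrank_range_add_finrank_ker (f.domRestrict S)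
  rw [LinearMap.range_domRestrict] at h
  have h2 : finrank K (LinearMap.ker (f.domRestrict S)) =
      finrank K (S ⊓ LinearMap.ker f : Submodule K W) := by
    have h3 : LinearMap.ker (f.domRestrict S) = (LinearMap.ker f).comap S.subtype := by
      ext v
      simp
    rw [h3, ← Submodule.map_comap_subtype, Submodule.finrank_map_subtype_eq]
  omega

private lemma fin_pi {V : Type} [AddCommGroup V] [Module K V] [FiniteDimensional K V] {m : ℕ}
    (q : Fin m → Submodule K V) :
    finrank K (Submodule.pi Set.univ q) ≤ ∑ j, finrank K (q j) := by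
  have h : finrank K (∀ j, q j) = ∑ j, finrank K (q j) := Module.finrank_pi_fintype K
  rw [← h]
  let f : Submodule.pi Set.univ q →ₗ[K] (∀ j, q j) := LinearMap.pi fun j =>
    LinearMap.codRestrict (q j) (LinearMap.proj j ∘ₗ (Submodule.pi Set.univ q).subtype)
      (fun v => (Submodule.mem_pi.1 v.2) j (Set.mem_univ j))
  refine LinearMap.finrank_le_finrank_of_injective (f := f) ?_
  intro v w hvw
  refine Subtype.ext (funext fun j => ?_)
  exact congrArg Subtype.val (congrFun hvw j)

private lemma row_eq {V : Type} [AddCommGroup V] [Module K V]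
    (ρ : R →+* Module.End K V) {m : ℕ} (A : Matrix (Fin (m + 1)) ι R) (j0 : Fin (m + 1))
    (x y : Fin m → R) (B : Matrix (Fin m) ι R)
    (hB : ∀ j i, B j i = y j * A (j0.succAbove j) i - x j * A j0 i) (v : ι → V) (j : Fin m) :
    op ρ B v j = ρ (y j) (op ρ A v (j0.succAbove j)) - ρ (x j) (op ρ A v j0) := by
  rw [op_apply, op_apply, op_apply, map_sum, map_sum, ← Finset.sum_sub_distrib]
  refine Finset.sum_congr rfl fun i _ => ?_
  rw [hB j i, map_sub, map_mul, map_mul, LinearMap.sub_apply, Module.End.mul_apply,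
    Module.End.mul_apply]

private lemma op_single {V : Type} [AddCommGroup V] [Module K V] [DecidableEq ι]
    (ρ : R →+* Module.End K V) (A : Matrix κ ι R) (i0 : ι) (v : V) (j : κ) :
    op ρ A (Pi.single i0 v) j = ρ (A j i0) v := by
  rw [op_apply, Finset.sum_eq_single i0]
  · rw [Pi.single_eq_same]
  · intro i _ hi
    rw [Pi.single_eq_of_ne hi, map_zero]
  · intro h
    exact absurd (Finset.mem_univ _) h

/-- one elimination step -/
theorem elim_step {V : Type} [AddCommGroup V] [Module K V] [FiniteDimensional K V]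
    (ρ : R →+* Module.End K V) {m : ℕ} (A : Matrix (Fin (m + 1)) ι R) (j0 : Fin (m + 1)) (i0 : ι)
    (x y : Fin m → R) (B : Matrix (Fin m) ι R)
    (hB : ∀ j i, B j i = y j * A (j0.succAbove j) i - x j * A j0 i) (hB0 : ∀ j, B j i0 = 0) :
    finrank K (LinearMap.ker (op ρ A)) + finrank K V ≤
      finrank K (LinearMap.ker (op ρ B)) + finrank K (LinearMap.ker (ρ (A j0 i0))) ∧
    finrank K (LinearMap.ker (op ρ B)) ≤ finrank K (LinearMap.ker (op ρ A)) + finrank K V +
      ∑ j, finrank K (LinearMap.ker (ρ (y j))) := by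
  classical
  have hrow := row_eq ρ A j0 x y B hB
  let r : (ι → V) →ₗ[K] V := LinearMap.proj j0 ∘ₗ op ρ A
  have hr : ∀ v, r v = op ρ A v j0 := fun v => rfl
  let g : (ι → V) →ₗ[K] (Fin m → V) :=
    LinearMap.pi fun j => LinearMap.proj (j0.succAbove j) ∘ₗ op ρ A
  have hg : ∀ v j, g v j = op ρ A v (j0.succAbove j) := fun v j => rfl
  have e1 := fin_map r (LinearMap.ker (op ρ B))
  have e2 := fin_map g (LinearMap.ker (op ρ B) ⊓ LinearMap.ker r)
  have e3 : finrank K (LinearMap.range (ρ (A j0 i0))) +
      finrank K (LinearMap.ker (ρ (A j0 i0))) = finrank K V :=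
    LinearMap.finrank_range_add_finrank_ker _
  have l1 : finrank K ((LinearMap.ker (op ρ B)).map r) ≤ finrank K V := Submodule.finrank_le _
  have l2 : finrank K (LinearMap.range (ρ (A j0 i0))) ≤
      finrank K ((LinearMap.ker (op ρ B)).map r) := by
    refine Submodule.finrank_mono ?_
    rintro _ ⟨v, rfl⟩
    refine ⟨Pi.single i0 v, ?_, ?_⟩
    · show Pi.single i0 v ∈ LinearMap.ker (op ρ B)
      rw [LinearMap.mem_ker]
      funext j
      rw [op_single, hB0 j, map_zero]
      rfl
    · rw [hr, op_single]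
  have l3 : finrank K (LinearMap.ker (op ρ A)) ≤
      finrank K (LinearMap.ker (op ρ B) ⊓ LinearMap.ker r : Submodule K (ι → V)) := by
    refine Submodule.finrank_mono ?_
    intro v hv
    rw [LinearMap.mem_ker] at hv
    rw [Submodule.mem_inf, LinearMap.mem_ker, LinearMap.mem_ker, hr, hv]
    refine ⟨?_, rfl⟩
    funext j
    rw [hrow, hv, Pi.zero_apply, Pi.zero_apply, map_zero, map_zero, sub_zero]
    rfl
  have l4 : (LinearMap.ker (op ρ B) ⊓ LinearMap.ker r) ⊓ LinearMap.ker g ≤
      LinearMap.ker (op ρ A) := by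
    intro v hv
    rw [Submodule.mem_inf, Submodule.mem_inf, LinearMap.mem_ker, LinearMap.mem_ker,
      LinearMap.mem_ker] at hv
    rw [LinearMap.mem_ker]
    funext j
    rcases Fin.eq_self_or_eq_succAbove j0 j with h | ⟨k, h⟩
    · rw [h, ← hr, hv.1.2]
      rfl
    · rw [h, ← hg, hv.2]
      rfl
  have l5 := Submodule.finrank_mono l4
  have l6 : ((LinearMap.ker (op ρ B) ⊓ LinearMap.ker r).map g) ≤
      Submodule.pi Set.univ (fun j => LinearMap.ker (ρ (y j))) := by
    rintro _ ⟨v, hv, rfl⟩
    have hv' : v ∈ LinearMap.ker (op ρ B) ⊓ LinearMap.ker r := hv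
    rw [Submodule.mem_inf, LinearMap.mem_ker, LinearMap.mem_ker, hr] at hv'
    rw [Submodule.mem_pi]
    intro j _
    have h3 := congrFun hv'.1 j
    rw [hrow, hv'.2, map_zero, sub_zero] at h3
    rw [LinearMap.mem_ker, hg]
    exact h3
  have l7 := fin_pi (fun j => LinearMap.ker (ρ (y j)))
  have l8 := (Submodule.finrank_mono l6).trans l7
  constructor <;> omega

end Pool.Agent.Lvl
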