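import Pool.Agent.Lvl.Sort

set_option autoImplicit false
set_option linter.unusedSectionVars false

noncomputable section

/-!
PACKAGE LVL-FILB. The filtration in terms of the basis `b ^ e`, and products modulo the next step.
`Fil n = Fil (ZMod p) (T.P k) n`.

* `isPGroup_P`: `IsPGroup.of_card` with `T.card`.
* `mem_fil_iff`. Let `W n` be the span of the `bm e` with `n ≤ degree e`. `W n ≤ Fil n` by `bm_mem`
  and `fil_le`. Conversely: (a) `Fil 1 ≤ W 1`: for `u ∈ Fil 1` we have
  `u = ev (pl u) = ∑ coeff e • bm e`; the augmentation (`lift_fil_one`) kills `u` and all `bm e`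
  with `1 ≤ degree e` (they are in `Fil 1`), and `bm 0 = 1`, so the coefficient at `0` is zero.
  (b) `W m * W n ≤ W (m + n) + Fil (m + n + 1)`: `bm_mul`. (c) `Fil n ≤ W n + Fil (n + 1)` by
  induction on `n`: `n = 0`: `Fil 0 = ⊤ = W 0` (`ev_pl`); `n + 1`: `Fil (n + 1)` is spanned by
  products `x * v` with `x = single g 1 - 1 ∈ Fil 1 ≤ W 1`, `v ∈ Fil n ≤ W n + Fil (n + 1)`
  (`fil_succ_le_of`), use (b) and `Fil 1 * Fil (n + 1) ≤ Fil (n + 2)`. (d) So
  `Fil n ≤ W n + Fil (n + r)` for all `r` (`W (n + 1) ≤ W n`), and `Fil (n + r) = ⊥` for large `r`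
  (`exists_fil_eq_bot`, `fil_le`). (e) So `u ∈ Fil n` is a combination of `bm e` with
  `n ≤ degree e`; by `pl_bm`, `bm_eq_zero` the polynomial `pl u` has only exponents of degree
  `≥ n`. The converse: `u = ev (pl u) = ∑ (pl u).coeff e • bm e`.
-/

namespace Pool.Agent.Lvl

open MonoidAlgebra MvPolynomial

variable {p q d : ℕ} [hp : Fact p.Prime] (T : Tower p q d)

lemma isPGroup_P (k : ℕ) : IsPGroup p (T.P k) := by
  apply IsPGroup.of_card (n := k * d)
  rw [Nat.card_eq_fintype_card, T.card]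

/-- the span of the monomials of degree at least `n` -/
private def W (k n : ℕ) : Submodule (ZMod p) (GA T k) :=
  Submodule.span (ZMod p) {x | ∃ e : Fin d →₀ ℕ, n ≤ e.degree ∧ x = bm T (ZMod p) k e}

private lemma bm_mem_W {k n : ℕ} {e : Fin d →₀ ℕ} (h : n ≤ e.degree) :
    bm T (ZMod p) k e ∈ W T k n :=
  Submodule.subset_span ⟨e, h, rfl⟩

private lemma W_le_Fil (k n : ℕ) : W T k n ≤ Fil (ZMod p) (T.P k) n := by
  unfold W
  rw [Submodule.span_le]
  rintro _ ⟨e, he, rfl⟩
  exact fil_le he (bm_mem T _ k e)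

private lemma W_anti {k m n : ℕ} (h : m ≤ n) : W T k n ≤ W T k m := by
  conv_lhs => unfold W
  rw [Submodule.span_le]
  rintro _ ⟨e, he, rfl⟩
  exact bm_mem_W T (h.trans he)

private lemma eq_sum (k : ℕ) (u : GA T k) :
    ∑ e ∈ (pl T k u).support, (pl T k u).coeff e • bm T (ZMod p) k e = u := by
  have h := ev_pl T k u
  rw [MvPolynomial.as_sum (pl T k u), map_sum] at h
  refine Eq.trans (Finset.sum_congr rfl fun e _ => ?_) h
  rw [ev_monomial]

private lemma bm_zero (k : ℕ) : bm T (ZMod p) k 0 = 1 := by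
  unfold bm
  exact opow_zero _

private lemma ev_sub_mem (k : ℕ) (f : MvPolynomial (Fin d) (ZMod p)) :
    ev T k f - f.coeff 0 • (1 : GA T k) ∈ W T k 1 := by
  refine MvPolynomial.induction_on' f (fun e r => ?_) fun f g hf hg => ?_
  · rw [ev_monomial, MvPolynomial.coeff_monomial]
    by_cases h : e = 0
    · rw [if_pos h, h, bm_zero, sub_self]
      exact Submodule.zero_mem _
    · rw [if_neg h, zero_smul, sub_zero]
      refine Submodule.smul_mem _ _ (bm_mem_W T ?_)
      rw [Nat.one_le_iff_ne_zero]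
      intro h0
      exact h (Finsupp.degree_eq_zero_iff e |>.1 h0)
  · rw [map_add, MvPolynomial.coeff_add, add_smul, add_sub_add_comm]
    exact Submodule.add_mem _ hf hg

private lemma fil_one_le (k : ℕ) : Fil (ZMod p) (T.P k) 1 ≤ W T k 1 := by
  intro u hu
  have h := ev_sub_mem T k (pl T k u)
  rw [ev_pl] at h
  have h1 : (pl T k u).coeff 0 • (1 : GA T k) ∈ Fil (ZMod p) (T.P k) 1 := by
    have h2 := Submodule.sub_mem _ hu (W_le_Fil T k 1 h)
    rw [sub_sub_cancel] at h2
    exact h2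
  have h3 := lift_fil_one h1
  rw [map_smul, map_one (MonoidAlgebra.lift (ZMod p) (ZMod p) (T.P k) (1 : T.P k →* ZMod p)),
    smul_eq_mul, mul_one] at h3
  rw [h3, zero_smul, sub_zero] at h
  exact h

private lemma W_mul {k m n : ℕ} {x y : GA T k} (hx : x ∈ W T k m) (hy : y ∈ W T k n) :
    x * y ∈ W T k (m + n) ⊔ Fil (ZMod p) (T.P k) (m + n + 1) := by
  refine Submodule.span_induction
    (p := fun x _ => x * y ∈ W T k (m + n) ⊔ Fil (ZMod p) (T.P k) (m + n + 1)) ?_ ?_ ?_ ?_ hx
  · rintro _ ⟨e, he, rfl⟩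
    refine Submodule.span_induction (p := fun y _ =>
      bm T (ZMod p) k e * y ∈ W T k (m + n) ⊔ Fil (ZMod p) (T.P k) (m + n + 1)) ?_ ?_ ?_ ?_ hy
    · rintro _ ⟨f, hf, rfl⟩
      have h1 := fil_le (by omega : m + n + 1 ≤ e.degree + f.degree + 1) (bm_mul T k e f)
      have h2 : bm T (ZMod p) k (e + f) ∈ W T k (m + n) := by
        apply bm_mem_W
        rw [map_add]
        omega
      have h3 : bm T (ZMod p) k e * bm T (ZMod p) k f = bm T (ZMod p) k (e + f) +
          (bm T (ZMod p) k e * bm T (ZMod p) k f - bm T (ZMod p) k (e + f)) := by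
        abel
      rw [h3]
      exact Submodule.add_mem_sup h2 h1
    · rw [mul_zero]
      exact Submodule.zero_mem _
    · intro a b _ _ ha hb
      rw [mul_add]
      exact Submodule.add_mem _ ha hb
    · intro r a _ ha
      rw [mul_smul_comm]
      exact Submodule.smul_mem _ _ ha
  · rw [zero_mul]
    exact Submodule.zero_mem _
  · intro a b _ _ ha hb
    rw [add_mul]
    exact Submodule.add_mem _ ha hb
  · intro r a _ ha
    rw [smul_mul_assoc]
    exact Submodule.smul_mem _ _ ha

private lemma fil_le_sup (k n : ℕ) :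
    Fil (ZMod p) (T.P k) n ≤ W T k n ⊔ Fil (ZMod p) (T.P k) (n + 1) := by
  induction n with
  | zero =>
    intro u _
    apply Submodule.mem_sup_left
    rw [← eq_sum T k u]
    exact Submodule.sum_mem _ fun e _ => Submodule.smul_mem _ _ (bm_mem_W T (Nat.zero_le _))
  | succ n ih =>
    refine fil_succ_le_of _ fun g v hv => ?_
    have hx : single g (1 : ZMod p) - 1 ∈ Fil (ZMod p) (T.P k) 1 := single_sub_mem g
    obtain ⟨w, hw, v', hv', rfl⟩ := Submodule.mem_sup.1 (ih hv)
    rw [mul_add]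
    have h1 := W_mul T (fil_one_le T k hx) hw
    have h2 := fil_mul hx hv'
    have e1 : 1 + n = n + 1 := Nat.add_comm _ _
    have e2 : 1 + (n + 1) = n + 1 + 1 := Nat.add_comm _ _
    rw [e1] at h1
    rw [e2] at h2
    exact Submodule.add_mem _ h1 (Submodule.mem_sup_right h2)

private lemma fil_le_sup' (k n r : ℕ) :
    Fil (ZMod p) (T.P k) n ≤ W T k n ⊔ Fil (ZMod p) (T.P k) (n + r) := by
  induction r with
  | zero => exact le_sup_right
  | succ r ih =>
    refine ih.trans (sup_le le_sup_left ?_)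
    refine (fil_le_sup T k (n + r)).trans (sup_le ?_ le_sup_right)
    exact (W_anti T (Nat.le_add_right n r)).trans le_sup_left

private lemma fil_le_W (k n : ℕ) : Fil (ZMod p) (T.P k) n ≤ W T k n := by
  obtain ⟨N, hN⟩ := exists_fil_eq_bot (isPGroup_P T k)
  refine (fil_le_sup' T k n N).trans (sup_le le_rfl ?_)
  have h := fil_le (R := ZMod p) (P := T.P k) (Nat.le_add_left N n)
  rw [hN] at h
  exact h.trans bot_le

private lemma coeff_of_mem_W {k n : ℕ} {u : GA T k} (hu : u ∈ W T k n) {e : Fin d →₀ ℕ}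
    (he : e.degree < n) : (pl T k u).coeff e = 0 := by
  refine Submodule.span_induction (p := fun u _ => (pl T k u).coeff e = 0) ?_ ?_ ?_ ?_ hu
  · rintro _ ⟨f, hf, rfl⟩
    by_cases hb : Bx p k f
    · rw [pl_bm T hb, MvPolynomial.coeff_monomial, if_neg]
      rintro rfl
      omega
    · rw [bm_eq_zero T hb, map_zero, MvPolynomial.coeff_zero]
  · rw [map_zero, MvPolynomial.coeff_zero]
  · intro a b _ _ ha hb
    rw [map_add, MvPolynomial.coeff_add, ha, hb, add_zero]
  · intro r a _ ha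
    rw [map_smul, MvPolynomial.coeff_smul, ha, smul_zero]

theorem mem_fil_iff {k n : ℕ} {u : GA T k} :
    u ∈ Fil (ZMod p) (T.P k) n ↔ ∀ e, (pl T k u).coeff e ≠ 0 → n ≤ e.degree := by
  constructor
  · intro hu e he
    by_contra hlt
    exact he (coeff_of_mem_W T (fil_le_W T k n hu) (not_le.1 hlt))
  · intro h
    apply W_le_Fil
    rw [← eq_sum T k u]
    refine Submodule.sum_mem _ fun e he => Submodule.smul_mem _ _ (bm_mem_W T ?_)
    exact h e (MvPolynomial.mem_support_iff.1 he)

end Pool.Agent.Lvl
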