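import Pool.Agent.Lvl.FilB

set_option autoImplicit false
set_option linter.unusedSectionVars false

noncomputable section

/-!
PACKAGE LVL-FILC. Products modulo the next step of the filtration.

* `ev_mem_fil`: `bm_mem` and linearity.
* `ev_mul`: bilinear (`MvPolynomial.induction_on'` or sums over the supports), for monomials of
  degrees `m`, `n` this is `bm_mul`.
* `pl_mul`. Write `u = u' + u''` with `u' = ev (homogeneousComponent m (pl u))`, `u'' ∈ Fil (m + 1)`
  (`mem_fil_iff`, `pl_ev_coeff`, `pl_coeff_ne`), and `v = v' + v''` in the same way. Then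
  `u v - u' v' ∈ Fil (m + n + 1)` (`fil_mul`), so the coefficients of degree `m + n` agree
  (`mem_fil_iff`). For polynomials `f`, `g` homogeneous of degrees `m`, `n`:
  `ev f * ev g - ev (f * g) ∈ Fil (m + n + 1)`: bilinear, for monomials this is `bm_mul`. Then
  `pl_ev_coeff`.
-/

namespace Pool.Agent.Lvl

open MonoidAlgebra MvPolynomial

variable {p q d : ℕ} [hp : Fact p.Prime] (T : Tower p q d)

private lemma degree_of_mem {n : ℕ} {f : MvPolynomial (Fin d) (ZMod p)} (hf : f.IsHomogeneous n)
    {e : Fin d →₀ ℕ} (he : e ∈ f.support) : e.degree = n := by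
  by_contra h
  exact MvPolynomial.mem_support_iff.1 he (hf.coeff_eq_zero h)

/-- the value of a homogeneous polynomial -/
lemma ev_mem_fil {k n : ℕ} {f : MvPolynomial (Fin d) (ZMod p)} (hf : f.IsHomogeneous n) :
    ev T k f ∈ Fil (ZMod p) (T.P k) n := by
  rw [MvPolynomial.as_sum f, map_sum]
  refine Submodule.sum_mem _ fun e he => ?_
  rw [ev_monomial]
  refine Submodule.smul_mem _ _ ?_
  have hd : e.degree = n := degree_of_mem hf he
  rw [← hd]
  exact bm_mem T _ k e

private lemma bm_mul_ev {k m n : ℕ} {e : Fin d →₀ ℕ} (he : e.degree = m)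
    {g : MvPolynomial (Fin d) (ZMod p)} (hg : g.IsHomogeneous n) (r : ZMod p) :
    ev T k (monomial e r) * ev T k g - ev T k (monomial e r * g) ∈
      Fil (ZMod p) (T.P k) (m + n + 1) := by
  have key : ev T k (monomial e r) * ev T k g - ev T k (monomial e r * g) =
      ∑ e' ∈ g.support, (ev T k (monomial e r) * ev T k (monomial e' (g.coeff e')) -
        ev T k (monomial e r * monomial e' (g.coeff e'))) := by
    conv_lhs => rw [MvPolynomial.as_sum g]
    rw [Finset.mul_sum, map_sum, map_sum, Finset.mul_sum, ← Finset.sum_sub_distrib]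
  rw [key]
  refine Submodule.sum_mem _ fun e' he' => ?_
  have hd : e'.degree = n := degree_of_mem hg he'
  rw [MvPolynomial.monomial_mul, ev_monomial, ev_monomial, ev_monomial, smul_mul_smul_comm,
    ← smul_sub]
  refine Submodule.smul_mem _ _ ?_
  have h := bm_mul T k e e'
  rw [he, hd] at h
  exact h

theorem ev_mul {k m n : ℕ} {f g : MvPolynomial (Fin d) (ZMod p)} (hf : f.IsHomogeneous m)
    (hg : g.IsHomogeneous n) :
    ev T k f * ev T k g - ev T k (f * g) ∈ Fil (ZMod p) (T.P k) (m + n + 1) := by
  have key : ev T k f * ev T k g - ev T k (f * g) =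
      ∑ e ∈ f.support, (ev T k (monomial e (f.coeff e)) * ev T k g -
        ev T k (monomial e (f.coeff e) * g)) := by
    conv_lhs => rw [MvPolynomial.as_sum f]
    rw [Finset.sum_mul, map_sum, map_sum, Finset.sum_mul, ← Finset.sum_sub_distrib]
  rw [key]
  exact Submodule.sum_mem _ fun e he => bm_mul_ev T (degree_of_mem hf he) hg _

private lemma sub_ev_mem {k m : ℕ} {u : GA T k} (hu : u ∈ Fil (ZMod p) (T.P k) m) :
    u - ev T k (homogeneousComponent m (pl T k u)) ∈ Fil (ZMod p) (T.P k) (m + 1) := by
  rw [mem_fil_iff]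
  intro e he
  have hb := pl_coeff_ne T he
  rw [map_sub, MvPolynomial.coeff_sub, pl_ev_coeff T _ hb,
    MvPolynomial.coeff_homogeneousComponent] at he
  by_cases hd : e.degree = m
  · rw [if_pos hd, sub_self] at he
    exact absurd rfl he
  · rw [if_neg hd, sub_zero] at he
    have h := (mem_fil_iff T).1 hu e he
    omega

theorem pl_mul {k m n : ℕ} {u v : GA T k} (hu : u ∈ Fil (ZMod p) (T.P k) m)
    (hv : v ∈ Fil (ZMod p) (T.P k) n) {e : Fin d →₀ ℕ} (he : Bx p k e) (hd : e.degree = m + n) :
    (pl T k (u * v)).coeff e =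
      (homogeneousComponent m (pl T k u) * homogeneousComponent n (pl T k v)).coeff e := by
  have hf : (homogeneousComponent m (pl T k u)).IsHomogeneous m :=
    MvPolynomial.homogeneousComponent_isHomogeneous m _
  have hg : (homogeneousComponent n (pl T k v)).IsHomogeneous n :=
    MvPolynomial.homogeneousComponent_isHomogeneous n _
  have hu1 := sub_ev_mem T hu
  have hv1 := sub_ev_mem T hv
  generalize hfe : homogeneousComponent m (pl T k u) = f at hf hu1
  generalize hge : homogeneousComponent n (pl T k v) = g at hg hv1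
  have h1 : (u - ev T k f) * v ∈ Fil (ZMod p) (T.P k) (m + n + 1) :=
    fil_le (by omega) (fil_mul hu1 hv)
  have h2 : ev T k f * (v - ev T k g) ∈ Fil (ZMod p) (T.P k) (m + n + 1) :=
    fil_le (by omega) (fil_mul (ev_mem_fil T hf) hv1)
  have h3 := ev_mul T (k := k) hf hg
  have h4 : u * v - ev T k (f * g) ∈ Fil (ZMod p) (T.P k) (m + n + 1) := by
    have h5 : u * v - ev T k (f * g) = (u - ev T k f) * v + ev T k f * (v - ev T k g) +
        (ev T k f * ev T k g - ev T k (f * g)) := by
      rw [sub_mul, mul_sub]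
      abel
    rw [h5]
    exact Submodule.add_mem _ (Submodule.add_mem _ h1 h2) h3
  have h6 : (pl T k (u * v - ev T k (f * g))).coeff e = 0 := by
    by_contra hne
    have h7 := (mem_fil_iff T).1 h4 e hne
    omega
  rw [map_sub, MvPolynomial.coeff_sub, pl_ev_coeff T _ he, sub_eq_zero] at h6
  exact h6

end Pool.Agent.Lvl
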