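import Pool.Agent.Lvl.AugI
import Pool.Agent.Lvl.CCDef

set_option autoImplicit false

noncomputable section

/-!
CONG: definitions for the lattices in rational group rings, and the level subgroups.
-/

namespace Pool.Agent.Lvl

open MonoidAlgebra

section

variable {H : Type} [Group H]

/-- the elements `(h - 1) / q` of the rational group ring -/
def yy (q : ℕ) (h : H) : MonoidAlgebra ℚ H := (q : ℚ)⁻¹ • (single h 1 - 1)

/-- the ring generated by the elements `(h - 1) / q` -/
def SS (H : Type) [Group H] (q : ℕ) : Subring (MonoidAlgebra ℚ H) :=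
  Subring.closure (Set.range (yy q : H → MonoidAlgebra ℚ H))

/-- the subgroup `[H, H] H ^ m` generated by all commutators and all `m`-th powers -/
def UU (H : Type) [Group H] (m : ℕ) : Subgroup H :=
  Subgroup.closure ({x | ∃ a b, x = a * b * a⁻¹ * b⁻¹} ∪ {x | ∃ a, x = a ^ m})

/-- The level `m` subgroup of the automorphism group of `H`: all automorphisms which act trivially
on `H₁(H; ℤ/m) = H / [H, H] H ^ m`. -/
def level (H : Type) [Group H] (m : ℕ) : Subgroup (MulAut H) where
  carrier := {φ | ∀ h, h⁻¹ * φ h ∈ UU H m}
  mul_mem' := by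
    intro φ ψ hφ hψ h
    have h1 := (UU H m).mul_mem (hψ h) (hφ (ψ h))
    rwa [mul_assoc, mul_inv_cancel_left] at h1
  one_mem' := by
    intro h
    show h⁻¹ * h ∈ UU H m
    rw [inv_mul_cancel]
    exact (UU H m).one_mem
  inv_mem' := by
    intro φ hφ h
    have h1 := (UU H m).inv_mem (hφ (φ⁻¹ h))
    have h2 : φ (φ⁻¹ h) = h := MulAut.apply_inv_self H φ h
    rwa [h2, mul_inv_rev, inv_inv] at h1

/-- the inner automorphisms in the level `m` subgroup (this is the group of all inner
automorphisms) -/
def inner (H : Type) [Group H] (m : ℕ) : Subgroup (level H m) :=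
  (MulAut.conj : H →* MulAut H).range.subgroupOf (level H m)

instance conj_range_normal : ((MulAut.conj : H →* MulAut H).range).Normal where
  conj_mem := by
    rintro _ ⟨g, rfl⟩ φ
    refine ⟨φ g, ?_⟩
    ext x
    simp

instance inner_normal (m : ℕ) : (inner H m).Normal := by
  unfold inner
  infer_instance

end

end Pool.Agent.Lvl
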