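import Pool.Agent.Lvl.Trans
import Pool.Agent.Lvl.SDef

set_option autoImplicit false
set_option linter.unusedSectionVars false

noncomputable section

open Classical

/-!
CONG: the outer automorphism group and its level subgroups.
-/

namespace Pool.Agent.Lvl

open Pool.Agent.VN

/-- the outer automorphism group -/
abbrev Out (H : Type) [Group H] : Type := MulAut H ⧸ (MulAut.conj : H →* MulAut H).range

/-- the level `m` subgroup of the outer automorphism group: the outer automorphisms which act
trivially on `H₁(H; ℤ/m)` -/
def outLevel (H : Type) [Group H] (m : ℕ) : Subgroup (Out H) :=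
  (level H m).map (QuotientGroup.mk' (MulAut.conj : H →* MulAut H).range)

variable {H : Type} [Group H] {m : ℕ}

theorem atiyah_outLevel (h : AtiyahOver ⊤ (level H m ⧸ inner H m)) :
    AtiyahOver ⊤ (outLevel H m) := by
  let π : level H m →* Out H :=
    (QuotientGroup.mk' (MulAut.conj : H →* MulAut H).range).comp (level H m).subtype
  have hker : π.ker = inner H m := by
    ext φ
    rw [MonoidHom.mem_ker]
    show (QuotientGroup.mk' (MulAut.conj : H →* MulAut H).range) φ.1 = 1 ↔ _
    rw [QuotientGroup.mk'_apply, QuotientGroup.eq_one_iff]
    exact Iff.rfl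
  have hran : π.range = outLevel H m := by
    rw [MonoidHom.range_comp, Subgroup.range_subtype]
    rfl
  have e1 : level H m ⧸ π.ker ≃* π.range := QuotientGroup.quotientKerEquivRange π
  have e2 : level H m ⧸ π.ker ≃* level H m ⧸ inner H m := QuotientGroup.quotientMulEquivOfEq hker
  have e3 : outLevel H m ≃* π.range := MulEquiv.subgroupCongr hran.symm
  have e : outLevel H m ≃* level H m ⧸ inner H m := e3.trans (e1.symm.trans e2)
  exact h.of_injective e.toMonoidHom e.injective

/-- the dimensions for a group with an injective homomorphism to a group `Q`, if the subgroup `L` of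
`Q` satisfies the Atiyah conjecture -/
theorem index_mul {Q G : Type} [Group Q] [Group G] (L : Subgroup Q) (hL : AtiyahOver ⊤ L)
    (f : G →* Q) (hf : Function.Injective f) {r n : ℕ} (A : Matrix (Fin r) (Fin n) (G →₀ ℂ)) :
    ∃ z : ℤ, ((L.comap f).index : ℝ) * kerDim A = z := by
  refine transfer (k := ⊤) (L.comap f) ?_ A fun _ _ _ => trivial
  refine hL.of_injective ((f.comp (L.comap f).subtype).codRestrict L fun x => x.2) ?_
  intro x y hxy
  have h1 := congrArg Subtype.val hxy
  exact Subtype.ext (hf h1)

end Pool.Agent.Lvl
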