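import Pool.Agent.Lvl.FreeF
import Pool.Agent.Lvl.OutF
import Pool.Agent.CongCL.AllG

set_option autoImplicit false
set_option linter.unusedSectionVars false

noncomputable section

/-!
CONG: the final theorem for the fundamental groups of surfaces.
-/

namespace Pool.Agent.Lvl

open MonoidAlgebra Pool.Agent.VN

/-- transport of `ResN` -/
theorem ResN.of_equiv {H K : Type} [Group H] [Group K] (e : H ≃* K) (hK : ResN K) : ResN H := by
  intro g hg
  have h1 : e g ≠ 1 := fun h => hg (e.injective (by rw [h, map_one]))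
  obtain ⟨n, hn⟩ := hK (e g) h1
  refine ⟨n, fun h => hn ?_⟩
  have h2 := map_fil (R := ℚ) (e : H →* K) h
  rw [map_sub, map_one, mapDomainRingHom_apply, mapDomain_single] at h2
  exact h2

/-- transport of the second hypothesis -/
theorem inner_of_equiv {H K : Type} [Group H] [Group K] (e : H ≃* K)
    (hK : ∀ φ : K →* K, (∀ h, CC (φ h) h) → ∃ w, ∀ x, φ x = w * x * w⁻¹)
    (φ : MulAut H) (h : ∀ x, CC (φ x) x) : ∃ w, ∀ x, φ x = w * x * w⁻¹ := by
  obtain ⟨w, hw⟩ := hK ((e : H →* K).comp ((φ : H →* H).comp (e.symm : K →* H))) (by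
    intro k
    have h1 := CongCL.CC_map (e : H →* K) (h (e.symm k))
    have h2 : (e : H →* K) (e.symm k) = k := e.apply_symm_apply k
    rw [h2] at h1
    exact h1)
  refine ⟨e.symm w, fun x => ?_⟩
  have h3 := hw (e x)
  apply e.injective
  rw [map_mul, map_mul, map_inv, e.apply_symm_apply]
  have h4 : ((e : H →* K).comp ((φ : H →* H).comp (e.symm : K →* H))) (e x) = e (φ x) := by
    show e (φ (e.symm (e x))) = e (φ x)
    rw [e.symm_apply_apply]
  rw [← h4]
  exact h3

/-- `H` is isomorphic to the fundamental group of a connected orientable surface of finite type: it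
is a free group of finite rank or the fundamental group of a closed orientable surface. -/
def SurfH (H : Type) [Group H] : Prop :=
  (∃ n : ℕ, Nonempty (H ≃* FreeGroup (Fin n))) ∨ ∃ g : ℕ, Nonempty (H ≃* CongCL.SurfaceGroup g)

section

variable {H : Type} [Group H]

theorem fg_of_equiv {K : Type} [Group K] (e : H ≃* K) [Group.FG K] : Group.FG H :=
  Group.fg_of_surjective (f := (e.symm : K →* H)) e.symm.surjective

theorem SurfH.fg (hH : SurfH H) : Group.FG H := by
  rcases hH with ⟨n, ⟨e⟩⟩ | ⟨g, ⟨e⟩⟩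
  · exact fg_of_equiv e
  · exact fg_of_equiv e

theorem SurfH.resN (hH : SurfH H) : ResN H := by
  rcases hH with ⟨n, ⟨e⟩⟩ | ⟨g, ⟨e⟩⟩
  · exact ResN.of_equiv e free_resN
  · exact ResN.of_equiv e (CongCL.surf_resN' g)

theorem SurfH.inner (hH : SurfH H) (φ : MulAut H) (h : ∀ x, CC (φ x) x) :
    ∃ w, ∀ x, φ x = w * x * w⁻¹ := by
  rcases hH with ⟨n, ⟨e⟩⟩ | ⟨g, ⟨e⟩⟩
  · exact inner_of_equiv e (fun φ hφ => grossman φ fun x => (isConj_of_CC (hφ x)).symm) φ h
  · exact inner_of_equiv e (CongCL.inner_of_CC' g) φ h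

theorem surf_aut (hH : SurfH H) {m : ℕ} (hm : 3 ≤ m) : AtiyahOver ⊤ (level H m) := by
  have := hH.fg
  exact strong_level hH.resN hm

theorem surf_out (hH : SurfH H) {m : ℕ} (hm : 3 ≤ m) : AtiyahOver ⊤ (outLevel H m) := by
  have := hH.fg
  exact atiyah_outLevel (strong_out hH.inner hm)

end

/-! ### the index of the level subgroups -/

section

variable (H : Type) [Group H] (m : ℕ)

theorem UU_char (φ : MulAut H) {x : H} (hx : x ∈ UU H m) : φ x ∈ UU H m := by
  have h1 : UU H m ≤ (UU H m).comap (φ : H →* H) := by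
    rw [UU, Subgroup.closure_le]
    rintro x (⟨a, b, rfl⟩ | ⟨a, rfl⟩)
    · refine Subgroup.subset_closure (Or.inl ⟨φ a, φ b, ?_⟩)
      simp
    · refine Subgroup.subset_closure (Or.inr ⟨φ a, ?_⟩)
      simp
  exact h1 hx

instance UU_normal : (UU H m).Normal where
  conj_mem _ hx g := UU_char H m (MulAut.conj g) hx

variable {H m}

theorem finite_quot [Group.FG H] (hm : 0 < m) : Finite (H ⧸ UU H m) := by
  have hc : ∀ a b : H ⧸ UU H m, a * b = b * a := by
    intro a b
    obtain ⟨a, rfl⟩ := QuotientGroup.mk_surjective a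
    obtain ⟨b, rfl⟩ := QuotientGroup.mk_surjective b
    rw [← QuotientGroup.mk_mul, ← QuotientGroup.mk_mul, QuotientGroup.eq]
    refine Subgroup.subset_closure (Or.inl ⟨b⁻¹, a⁻¹, ?_⟩)
    group
  let I : CommGroup (H ⧸ UU H m) := { (inferInstance : Group (H ⧸ UU H m)) with mul_comm := hc }
  refine @CommGroup.finite_of_fg_isMulTorsion (H ⧸ UU H m) I
    (inferInstance : Group.FG (H ⧸ UU H m)) ?_
  intro a
  obtain ⟨a, rfl⟩ := QuotientGroup.mk_surjective a
  rw [isOfFinOrder_iff_pow_eq_one]
  refine ⟨m, hm, ?_⟩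
  have h1 : ((a ^ m : H) : H ⧸ UU H m) = 1 :=
    (QuotientGroup.eq_one_iff _).2 (Subgroup.subset_closure (Or.inr ⟨a, rfl⟩))
  exact h1

/-- the action on `H / [H, H] H ^ m` -/
def actQ (H : Type) [Group H] (m : ℕ) : MulAut H →* Monoid.End (H ⧸ UU H m) where
  toFun φ := QuotientGroup.map (UU H m) (UU H m) (φ : H →* H) fun _ hx => UU_char H m φ hx
  map_one' := by
    apply MonoidHom.ext
    intro x
    obtain ⟨x, rfl⟩ := QuotientGroup.mk_surjective x
    rfl
  map_mul' φ ψ := by
    apply MonoidHom.ext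
    intro x
    obtain ⟨x, rfl⟩ := QuotientGroup.mk_surjective x
    rfl

theorem ker_actQ : (actQ H m).toHomUnits.ker = level H m := by
  ext φ
  rw [MonoidHom.mem_ker]
  constructor
  · intro h x
    have h1 : (actQ H m φ) (x : H ⧸ UU H m) = x := by
      have h2 := congrArg Units.val h
      rw [MonoidHom.coe_toHomUnits] at h2
      rw [h2]
      rfl
    exact (QuotientGroup.eq.1 h1.symm : x⁻¹ * φ x ∈ UU H m)
  · intro h
    apply Units.ext
    rw [MonoidHom.coe_toHomUnits]
    apply MonoidHom.ext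
    intro x
    obtain ⟨x, rfl⟩ := QuotientGroup.mk_surjective x
    exact (QuotientGroup.eq.2 (h x) : (x : H ⧸ UU H m) = (φ x : H)).symm

theorem level_finiteIndex [Group.FG H] (hm : 0 < m) : (level H m).FiniteIndex := by
  have := finite_quot (H := H) hm
  have h1 : Finite (Monoid.End (H ⧸ UU H m)) :=
    Finite.of_injective (fun f : Monoid.End (H ⧸ UU H m) => (f : H ⧸ UU H m → H ⧸ UU H m))
      DFunLike.coe_injective
  rw [← ker_actQ]
  infer_instance

theorem outLevel_finiteIndex [Group.FG H] (hm : 0 < m) : (outLevel H m).FiniteIndex := by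
  have := level_finiteIndex (H := H) hm
  refine ⟨fun h => this.index_ne_zero ?_⟩
  have h1 := Subgroup.index_map_dvd (level H m) (QuotientGroup.mk'_surjective
    (MulAut.conj : H →* MulAut H).range)
  have h2 : (outLevel H m).index ∣ (level H m).index := h1
  rw [h] at h2
  exact Nat.eq_zero_of_zero_dvd h2

theorem comap_finiteIndex {G Q : Type} [Group G] [Group Q] (L : Subgroup Q) [hL : L.FiniteIndex]
    (f : G →* Q) : (L.comap f).FiniteIndex := by
  refine ⟨?_⟩
  rw [Subgroup.index_comap]
  exact (Subgroup.isFiniteRelIndex_of_finiteIndex (H := L) (K := f.range)).relIndex_ne_zero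

end

/-- The main theorem: the level subgroups of the automorphism group and the outer automorphism group
of a surface group, and the dimensions for all groups of outer automorphisms. -/
theorem levels {H : Type} [Group H] (hH : SurfH H) {m : ℕ} (hm : 3 ≤ m) :
    AtiyahOver ⊤ (level H m) ∧ AtiyahOver ⊤ (outLevel H m) ∧
    ∀ (G : Type) [Group G] (f : G →* Out H), Function.Injective f →
      ((outLevel H m).comap f).FiniteIndex ∧
      ∀ (r n : ℕ) (A : Matrix (Fin r) (Fin n) (G →₀ ℂ)),
        ∃ z : ℤ, (((outLevel H m).comap f).index : ℝ) * kerDim A = z := by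
  have := hH.fg
  have := outLevel_finiteIndex (H := H) (m := m) (by omega)
  exact ⟨surf_aut hH hm, surf_out hH hm, fun G _ f hf =>
    ⟨comap_finiteIndex _ f, fun r n A => index_mul _ (surf_out hH hm) f hf A⟩⟩

end Pool.Agent.Lvl
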