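import Pool.Agent.Lvl.AugI
import Pool.Agent.Lvl.CCDef

set_option autoImplicit false
set_option linter.unusedSectionVars false

noncomputable section

open Classical

/-!
PACKAGE LVL-FORMAL. Traces of formal deformations of the trivial representation.

`ρ` extends to a homomorphism `F` of the rational group ring to the matrices over the power series
(`MonoidAlgebra.lift ℚ _ H`; the matrices are a `ℚ`-algebra). `F (single g 1 - 1)` has
entries divisible by `X` (`PowerSeries.X_dvd_iff`), so by `fil_succ_le_of` and induction on `n`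
(or from the definition `Fil n = ⊤ * aug ^ n`, `Submodule.mul_induction_on`) all entries of
`F x`, `x ∈ Fil n`, are divisible by `X ^ n`, and so is the trace. The trace of
`F (x y - y x)` is zero (`Matrix.trace_mul_comm`). So if `h - h' ∈ Fil n ⊔ comQ` then
`X ^ n` divides `trace (ρ h) - trace (ρ h')`. If this holds for all `n` then the difference
is zero (compare coefficients, `PowerSeries.X_pow_dvd_iff`).
-/

namespace Pool.Agent.Lvl

open MonoidAlgebra

/-- the submodule of the elements whose images have entries divisible by `X ^ n` -/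
private def dvdSub {H R V : Type} [Group H] [CommRing R] [Algebra ℚ R] [Fintype V]
    (F : MonoidAlgebra ℚ H →ₐ[ℚ] Matrix V V (PowerSeries R)) (n : ℕ) :
    Submodule ℚ (MonoidAlgebra ℚ H) where
  carrier := {x | ∀ i j, (PowerSeries.X : PowerSeries R) ^ n ∣ F x i j}
  add_mem' := by
    intro a b ha hb i j
    rw [map_add, Matrix.add_apply]
    exact dvd_add (ha i j) (hb i j)
  zero_mem' := by
    intro i j
    rw [map_zero, Matrix.zero_apply]
    exact dvd_zero _
  smul_mem' := by
    intro c a ha i j
    rw [map_smul, Matrix.smul_apply, Algebra.smul_def]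
    exact Dvd.dvd.mul_left (ha i j) _

private lemma fil_dvd {H R V : Type} [Group H] [CommRing R] [Algebra ℚ R] [Fintype V]
    (F : MonoidAlgebra ℚ H →ₐ[ℚ] Matrix V V (PowerSeries R))
    (hF : ∀ g i j, (PowerSeries.X : PowerSeries R) ∣ F (single g 1 - 1) i j) (n : ℕ) :
    Fil ℚ H n ≤ dvdSub F n := by
  induction n with
  | zero =>
    intro x _ i j
    rw [pow_zero]
    exact one_dvd _
  | succ n ih =>
    apply fil_succ_le_of
    intro g v hv i j
    rw [map_mul, Matrix.mul_apply]
    apply Finset.dvd_sum
    intro k _
    rw [pow_succ']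
    exact mul_dvd_mul (hF g i k) (ih hv k j)

theorem not_cc_of_formal {H R V : Type} [Group H] [CommRing R] [Algebra ℚ R] [Fintype V]
    (ρ : H →* Matrix V V (PowerSeries R))
    (h1 : ∀ g, (ρ g).map (PowerSeries.constantCoeff (R := R)) = 1) {h h' : H}
    (htr : (ρ h).trace ≠ (ρ h').trace) : ¬ CC h h' := by
  intro hcc
  apply htr
  set F : MonoidAlgebra ℚ H →ₐ[ℚ] Matrix V V (PowerSeries R) :=
    MonoidAlgebra.lift ℚ (Matrix V V (PowerSeries R)) H ρ with hFdef
  have hFs : ∀ g : H, F (single g 1) = ρ g := by
    intro g
    rw [hFdef, MonoidAlgebra.lift_single, one_smul]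
  have hF : ∀ g i j, (PowerSeries.X : PowerSeries R) ∣ F (single g 1 - 1) i j := by
    intro g i j
    rw [PowerSeries.X_dvd_iff, map_sub, map_one, hFs, Matrix.sub_apply, map_sub]
    have e := congrFun (congrFun (h1 g) i) j
    rw [Matrix.map_apply] at e
    rw [e]
    by_cases hij : i = j
    · subst hij
      simp
    · simp [Matrix.one_apply_ne hij]
  have key : ∀ n, (PowerSeries.X : PowerSeries R) ^ n ∣ (ρ h).trace - (ρ h').trace := by
    intro n
    have hm := hcc n
    rw [Submodule.mem_sup] at hm
    obtain ⟨y, hy, z, hz, hyz⟩ := hm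
    have ey : (PowerSeries.X : PowerSeries R) ^ n ∣ (F y).trace := by
      unfold Matrix.trace
      apply Finset.dvd_sum
      intro k _
      exact fil_dvd F hF n hy k k
    have ez : (F z).trace = 0 := by
      unfold comQ at hz
      refine Submodule.span_induction (p := fun z _ => (F z).trace = 0) ?_ ?_ ?_ ?_ hz
      · rintro _ ⟨a, b, rfl⟩
        rw [map_sub, map_mul, map_mul, Matrix.trace_sub, Matrix.trace_mul_comm, sub_self]
      · rw [map_zero, Matrix.trace_zero]
      · intro a b _ _ ha hb
        rw [map_add, Matrix.trace_add, ha, hb, add_zero]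
      · intro c a _ ha
        rw [map_smul, Matrix.trace_smul, ha, smul_zero]
    have et : (ρ h).trace - (ρ h').trace = (F y).trace := by
      rw [← hFs h, ← hFs h', ← Matrix.trace_sub, ← map_sub, ← hyz, map_add, Matrix.trace_add, ez,
        add_zero]
    rw [et]
    exact ey
  rw [← sub_eq_zero]
  ext m
  have := (PowerSeries.X_pow_dvd_iff.mp (key (m + 1))) m (Nat.lt_succ_self m)
  rw [this, map_zero]

end Pool.Agent.Lvl
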