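import Pool.Agent.Lvl.ThmD
import Pool.Agent.Lvl.CycF
import Pool.Agent.Lvl.Gross

set_option autoImplicit false
set_option linter.unusedSectionVars false

noncomputable section

/-!
CONG: the level subgroups of `Aut(F_n)` and `Out(F_n)`.
-/

namespace Pool.Agent.Lvl

open Pool.Agent.VN

variable {α : Type}

theorem free_inner [Finite α] (φ : MulAut (FreeGroup α)) (h : ∀ x, CC (φ x) x) :
    ∃ w, ∀ x, φ x = w * x * w⁻¹ :=
  grossman (φ : FreeGroup α →* FreeGroup α) fun x => (isConj_of_CC (h x)).symm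

theorem free_level [Finite α] {m : ℕ} (hm : 3 ≤ m) : AtiyahOver ⊤ (level (FreeGroup α) m) :=
  strong_level free_resN hm

theorem free_out [Finite α] {m : ℕ} (hm : 3 ≤ m) :
    AtiyahOver ⊤ (level (FreeGroup α) m ⧸ inner (FreeGroup α) m) :=
  strong_out free_inner hm

end Pool.Agent.Lvl
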