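import Pool.Agent.Lvl.Padic

set_option autoImplicit false
set_option linter.unusedSectionVars false

noncomputable section

open Classical

/-!
PACKAGE LVL-GLC. From `GL_N` to `Circ`.

* `exists_circ`: let `R` be a domain (or `q` not a zero divisor) and `(q : R) ≠ 0`. For a
  homomorphism `f` to the matrices with `f g = 1 + q X g` the matrix `X g` is unique,
  so `g ↦ X g` is a homomorphism to `Circ q N R` (`toMat` is an injective homomorphism and
  `toMat (X g) = f g`).
* `detM_of_GL`: apply this to `Units.coeHom _ ∘ f`; `f g ≠ 1` implies that the image is not `1`.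
-/

namespace Pool.Agent.Lvl

open Circ

variable {G : Type} [Group G]

private lemma toMat_inj {R : Type} [CommRing R] [IsDomain R] {q N : ℕ} (hq : (q : R) ≠ 0)
    {X Y : Circ q N R} (h : toMat X = toMat Y) : X = Y := by
  have h1 : (1 : Matrix (Fin N) (Fin N) R) + (q : R) • X.m = 1 + (q : R) • Y.m := h
  have h2 : (q : R) • X.m = (q : R) • Y.m := add_left_cancel h1
  apply Circ.ext
  ext i j
  have h3 := congrFun (congrFun h2 i) j
  rw [Matrix.smul_apply, Matrix.smul_apply, smul_eq_mul, smul_eq_mul] at h3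
  exact mul_left_cancel₀ hq h3

theorem exists_circ {R : Type} [CommRing R] [IsDomain R] {q N : ℕ} (hq : (q : R) ≠ 0)
    (f : G →* Matrix (Fin N) (Fin N) R) (hf : ∀ g, ∃ X, f g = 1 + (q : R) • X) :
    ∃ f' : G →* Circ q N R, ∀ g, toMat (f' g) = f g := by
  choose X hX using hf
  have key : ∀ g, toMat (⟨X g⟩ : Circ q N R) = f g := fun g => (hX g).symm
  refine ⟨⟨⟨fun g => ⟨X g⟩, ?_⟩, ?_⟩, key⟩
  · apply toMat_inj hq
    rw [key, map_one, map_one]
  · intro g g'
    apply toMat_inj hq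
    show toMat (⟨X (g * g')⟩ : Circ q N R) = _
    rw [key, map_mul, map_mul]
    congr 1
    · exact (key g).symm
    · exact (key g').symm

/-- groups which are residually congruence subgroups of `GL_N(ℤ_p)` -/
theorem detM_of_GL (h : ∀ F : Finset G, (∀ g ∈ F, g ≠ 1) → ∃ (p : ℕ) (_ : Fact p.Prime)
    (s N : ℕ) (_ : 1 ≤ s) (_ : 3 ≤ p ^ s) (f : G →* GL (Fin N) ℤ_[p]),
    (∀ g, ∃ X : Matrix (Fin N) (Fin N) ℤ_[p],
      (f g : Matrix (Fin N) (Fin N) ℤ_[p]) = 1 + ((p ^ s : ℕ) : ℤ_[p]) • X) ∧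
    ∀ g ∈ F, f g ≠ 1) : DetM G := by
  intro F hF
  obtain ⟨p, hp, s, N, hs, h3, f, hf, hne⟩ := h F hF
  have hq : ((p ^ s : ℕ) : ℤ_[p]) ≠ 0 := by
    rw [Nat.cast_ne_zero]
    exact pow_ne_zero _ hp.out.ne_zero
  obtain ⟨f', hf'⟩ := exists_circ hq ((Units.coeHom _).comp f) hf
  refine ⟨p, hp, s, N, hs, h3, f', ?_⟩
  intro g hg h1
  apply hne g hg
  apply Units.ext
  have h2 := hf' g
  rw [h1, map_one] at h2
  exact h2.symm

end Pool.Agent.Lvl
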