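import Pool.Agent.Lvl.Elim

set_option autoImplicit false
set_option linter.unusedSectionVars false

noncomputable section

/-!
PACKAGE LVL-INTRANK. Asymptotically faithful representations of an Ore domain `R`: the normalised
dimensions of the kernels of all matrices converge to integers.

`V k` are finite dimensional vector spaces over `K`, `ρ k : R → End (V k)`, and
`dim ker (ρ k a) / dim V k → 0` for every `a ≠ 0`. For a matrix `A` over `R` let
`op (ρ k) A : (ι → V k) → (κ → V k)`, `v ↦ (∑ i, ρ k (A j i) (v i))_j`.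

Claim: `dim ker (op (ρ k) A) / dim V k` converges to an integer. Induction on `m` for
`κ = Fin m` and all `A` (`ι` is fixed); a general `κ` by `Fintype.equivFin` (`op_reindex`: the
kernel does not change). `m = 0` or `A = 0`: the kernel is everything, the dimension is
`card ι * dim V k`, the quotient is `card ι` (`0 < dim V k`). Let `a = A j0 i0 ≠ 0`, the other rows
are `A (j0.succAbove j)`, `j : Fin m`. For every `j` there are `x j`, `y j` with `y j ≠ 0`
and `y j * A (j0.succAbove j) i0 = x j * a`: Ore if `A (j0.succAbove j) i0 ≠ 0`, and `x j = 0`,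
`y j = 1` otherwise. Let `B j i = y j * A (j0.succAbove j) i - x j * A j0 i`, so `B j i0 = 0`.
By induction `dim ker (op B) / dim V → z`. Claim: `dim ker (op A) / dim V → z - 1`.
`elim_step` gives `dim ker (op A) + dim V ≤ dim ker (op B) + dim ker (ρ a)` and
`dim ker (op B) ≤ dim ker (op A) + dim V + ∑ j, dim ker (ρ (y j))`.
Divide by `dim V k` and let `k → ∞`.
-/

namespace Pool.Agent.Lvl

open Filter Topology Module

variable {R K : Type} [Ring R] [Field K] {κ ι : Type} [Fintype κ] [Fintype ι]

private lemma lim_zero {K : Type} [Field K] {R : Type} [Ring R] {κ ι : Type} [Fintype κ]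
    [Fintype ι] (V : ℕ → Type) [∀ k, AddCommGroup (V k)] [∀ k, Module K (V k)]
    [∀ k, FiniteDimensional K (V k)] [∀ k, Nontrivial (V k)] (ρ : ∀ k, R →+* Module.End K (V k))
    (A : Matrix κ ι R) (hA : ∀ j i, A j i = 0) :
    ∃ z : ℤ, Tendsto (fun k => (finrank K (LinearMap.ker (op (ρ k) A)) : ℝ) /
      finrank K (V k)) atTop (𝓝 (z : ℝ)) := by
  refine ⟨(Fintype.card ι : ℤ), ?_⟩
  have h1 : ∀ k, (finrank K (LinearMap.ker (op (ρ k) A)) : ℝ) / finrank K (V k) =
      ((Fintype.card ι : ℤ) : ℝ) := by
    intro k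
    have h2 : op (ρ k) A = 0 := by
      ext v j
      simp [op_apply, hA]
    have h3 : finrank K (LinearMap.ker (op (ρ k) A)) = Fintype.card ι * finrank K (V k) := by
      rw [h2, LinearMap.ker_zero, finrank_top, Module.finrank_pi_fintype]
      simp
    have h4 : (finrank K (V k) : ℝ) ≠ 0 := by
      have := Module.finrank_pos (R := K) (M := V k)
      positivity
    rw [h3]
    push_cast
    field_simp
  simp only [h1]
  exact tendsto_const_nhds

private lemma ker_reindex {V : Type} [AddCommGroup V] [Module K V] (ρ : R →+* Module.End K V)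
    {κ' : Type} [Fintype κ'] (e : κ' ≃ κ) (A : Matrix κ ι R) :
    LinearMap.ker (op ρ (fun (j : κ') i => A (e j) i)) = LinearMap.ker (op ρ A) := by
  ext v
  rw [LinearMap.mem_ker, LinearMap.mem_ker]
  constructor
  · intro h
    funext j
    have h1 := congrFun h (e.symm j)
    rw [op_apply] at h1 ⊢
    simpa using h1
  · intro h
    funext j
    have h1 := congrFun h (e j)
    rw [op_apply] at h1 ⊢
    simpa using h1

private lemma fin_case (hOre : ∀ a b : R, a ≠ 0 → b ≠ 0 → ∃ x y : R, x ≠ 0 ∧ y ≠ 0 ∧ x * a = y * b)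
    (V : ℕ → Type) [∀ k, AddCommGroup (V k)] [∀ k, Module K (V k)]
    [∀ k, FiniteDimensional K (V k)] [∀ k, Nontrivial (V k)] (ρ : ∀ k, R →+* Module.End K (V k))
    (h : ∀ a : R, a ≠ 0 → Tendsto (fun k => (finrank K (LinearMap.ker (ρ k a)) : ℝ) /
      finrank K (V k)) atTop (𝓝 0)) (m : ℕ) : ∀ A : Matrix (Fin m) ι R,
    ∃ z : ℤ, Tendsto (fun k => (finrank K (LinearMap.ker (op (ρ k) A)) : ℝ) /
      finrank K (V k)) atTop (𝓝 (z : ℝ)) := by
  induction m with
  | zero =>
    intro A
    exact lim_zero V ρ A (fun j => j.elim0)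
  | succ m ih =>
    intro A
    by_cases hA : ∀ j i, A j i = 0
    · exact lim_zero V ρ A hA
    push Not at hA
    obtain ⟨j0, i0, ha⟩ := hA
    have hxy : ∀ j : Fin m, ∃ x y : R, y ≠ 0 ∧ x * A j0 i0 = y * A (j0.succAbove j) i0 := by
      intro j
      by_cases hc : A (j0.succAbove j) i0 = 0
      · refine ⟨0, 1, ?_, by rw [hc]; simp⟩
        intro h1
        apply ha
        rw [← one_mul (A j0 i0), h1, zero_mul]
      · obtain ⟨x, y, -, hy, he⟩ := hOre _ _ ha hc
        exact ⟨x, y, hy, he⟩
    choose x y hy he using hxy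
    set B : Matrix (Fin m) ι R := fun j i => y j * A (j0.succAbove j) i - x j * A j0 i with hBdef
    obtain ⟨z, hz⟩ := ih B
    have hB0 : ∀ j, B j i0 = 0 := by
      intro j
      simp [hBdef, he]
    have hstep := fun k => elim_step (ρ k) A j0 i0 x y B (fun j i => rfl) hB0
    have hsum : Tendsto (fun k => ∑ j, ((finrank K (LinearMap.ker (ρ k (y j))) : ℝ) /
        finrank K (V k))) atTop (𝓝 0) := by
      have := tendsto_finsetSum (Finset.univ : Finset (Fin m)) (fun j _ => h (y j) (hy j))
      simpa using this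
    have hpos : ∀ k, (0 : ℝ) < finrank K (V k) := by
      intro k
      exact_mod_cast Module.finrank_pos (R := K) (M := V k)
    refine ⟨z - 1, ?_⟩
    have hlow : Tendsto (fun k => (finrank K (LinearMap.ker (op (ρ k) B)) : ℝ) /
        finrank K (V k) - 1 - ∑ j, ((finrank K (LinearMap.ker (ρ k (y j))) : ℝ) /
        finrank K (V k))) atTop (𝓝 (((z - 1 : ℤ)) : ℝ)) := by
      have := (hz.sub_const 1).sub hsum
      simpa using this
    have hup : Tendsto (fun k => (finrank K (LinearMap.ker (op (ρ k) B)) : ℝ) /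
        finrank K (V k) + (finrank K (LinearMap.ker (ρ k (A j0 i0))) : ℝ) /
        finrank K (V k) - 1) atTop (𝓝 (((z - 1 : ℤ)) : ℝ)) := by
      have := (hz.add (h _ ha)).sub_const 1
      simpa using this
    refine tendsto_of_tendsto_of_tendsto_of_le_of_le hlow hup ?_ ?_
    · intro k
      have h2 : (finrank K (LinearMap.ker (op (ρ k) B)) : ℝ) ≤
          finrank K (LinearMap.ker (op (ρ k) A)) + finrank K (V k) +
          ∑ j, (finrank K (LinearMap.ker (ρ k (y j))) : ℝ) := by
        exact_mod_cast (hstep k).2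
      have hp := hpos k
      simp only []
      rw [← Finset.sum_div]
      have e1 : (finrank K (LinearMap.ker (op (ρ k) B)) : ℝ) / finrank K (V k) - 1 -
          (∑ j, (finrank K (LinearMap.ker (ρ k (y j))) : ℝ)) / finrank K (V k) =
          ((finrank K (LinearMap.ker (op (ρ k) B)) : ℝ) - finrank K (V k) -
          ∑ j, (finrank K (LinearMap.ker (ρ k (y j))) : ℝ)) / finrank K (V k) := by
        field_simp
      rw [e1]
      apply div_le_div_of_nonneg_right _ hp.le
      linarith
    · intro k
      have h2 : (finrank K (LinearMap.ker (op (ρ k) A)) : ℝ) + finrank K (V k) ≤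
          finrank K (LinearMap.ker (op (ρ k) B)) +
          finrank K (LinearMap.ker (ρ k (A j0 i0))) := by
        exact_mod_cast (hstep k).1
      have hp := hpos k
      simp only []
      have e1 : (finrank K (LinearMap.ker (op (ρ k) B)) : ℝ) / finrank K (V k) +
          (finrank K (LinearMap.ker (ρ k (A j0 i0))) : ℝ) / finrank K (V k) - 1 =
          ((finrank K (LinearMap.ker (op (ρ k) B)) : ℝ) +
          (finrank K (LinearMap.ker (ρ k (A j0 i0))) : ℝ) - finrank K (V k)) /
          finrank K (V k) := by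
        field_simp
      rw [e1]
      apply div_le_div_of_nonneg_right _ hp.le
      linarith

theorem integral_limit (hOre : ∀ a b : R, a ≠ 0 → b ≠ 0 → ∃ x y : R, x ≠ 0 ∧ y ≠ 0 ∧ x * a = y * b)
    (V : ℕ → Type) [∀ k, AddCommGroup (V k)] [∀ k, Module K (V k)]
    [∀ k, FiniteDimensional K (V k)] [∀ k, Nontrivial (V k)] (ρ : ∀ k, R →+* Module.End K (V k))
    (h : ∀ a : R, a ≠ 0 → Tendsto (fun k => (finrank K (LinearMap.ker (ρ k a)) : ℝ) /
      finrank K (V k)) atTop (𝓝 0)) (A : Matrix κ ι R) :
    ∃ z : ℤ, Tendsto (fun k => (finrank K (LinearMap.ker (op (ρ k) A)) : ℝ) /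
      finrank K (V k)) atTop (𝓝 (z : ℝ)) := by
  classical
  obtain ⟨z, hz⟩ := fin_case hOre V ρ h (Fintype.card κ)
    (fun j i => A ((Fintype.equivFin κ).symm j) i)
  refine ⟨z, ?_⟩
  refine hz.congr fun k => ?_
  have h1 := ker_reindex (ρ k) (Fintype.equivFin κ).symm A
  have h2 : finrank K (LinearMap.ker (op (ρ k)
      (fun (j : Fin (Fintype.card κ)) i => A ((Fintype.equivFin κ).symm j) i))) =
      finrank K (LinearMap.ker (op (ρ k) A)) := by rw [h1]
  exact congrArg (fun n : ℕ => (n : ℝ) / finrank K (V k)) h2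

end Pool.Agent.Lvl
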