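import Pool.Agent.Lvl.GLC

set_option autoImplicit false
set_option linter.unusedSectionVars false

noncomputable section

open Classical

/-!
PACKAGE LVL-LATC. Lattices with an action which is trivial modulo `q`.

* `circ_of_lattice`: `Λ` is a finitely generated subgroup of a rational vector space, so it is a
  finitely generated torsion-free, hence free `ℤ`-module (`Module.Free` of finite torsion-free
  modules over a PID; `Module.finBasis`). The hypothesis gives `ρ g Λ ⊆ Λ`; in a basis the matrix of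
  `ρ g` on `Λ` is `1 + q X g`; this is a homomorphism to the matrices over `ℤ`
  (`LinearMap.toMatrix`, `Module.End`), so `exists_circ` for `R = ℤ` applies. If `f' g = 1` then
  `ρ g` is the identity on `Λ`.
* `detM_of_latDet`: let `F` be finite; for every `g ∈ F` take `(V g, ρ g, Λ g)`. Let `V` be the
  product over `g ∈ F`, with the product action and the product of the `Λ g` (finitely generated:
  `AddSubgroup.pi`, it is the sum of the images of the factors). `circ_of_lattice` gives
  `f : G → Circ q N ℤ` with `f g ≠ 1` for `g ∈ F`; compose with `cmap (Int.castRingHom ℤ_[p])`,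
  which
  is injective.
-/

namespace Pool.Agent.Lvl

open Circ

variable {G : Type} [Group G]

private def latAct {V : Type} [AddCommGroup V] [Module ℚ V]
    (ρ : G →* Module.End ℚ V) (Λ : AddSubgroup V) (h : ∀ g, ∀ x ∈ Λ, ρ g x ∈ Λ) :
    G →* Module.End ℤ Λ where
  toFun g :=
    { toFun := fun x => ⟨ρ g x, h g x x.2⟩
      map_add' := fun x y => Subtype.ext (by simp)
      map_smul' := fun n x => Subtype.ext (by simp) }
  map_one' := by
    ext x
    simp
  map_mul' g g' := by
    ext x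
    simp

theorem circ_of_lattice {q : ℕ} (hq : 0 < q) {V : Type} [AddCommGroup V] [Module ℚ V]
    (ρ : G →* Module.End ℚ V) (Λ : AddSubgroup V) (hfg : Λ.FG)
    (h : ∀ g, ∀ x ∈ Λ, ∃ y ∈ Λ, ρ g x = x + q • y) :
    ∃ (N : ℕ) (f : G →* Circ q N ℤ), ∀ g, f g = 1 → ∀ x ∈ Λ, ρ g x = x := by
  have hmem : ∀ g, ∀ x ∈ Λ, ρ g x ∈ Λ := by
    intro g x hx
    obtain ⟨y, hy, h1⟩ := h g x hx
    rw [h1]
    exact Λ.add_mem hx (Λ.nsmul_mem hy q)
  have hfin : Module.Finite ℤ Λ := by
    have h1 : Module.Finite ℤ (AddSubgroup.toIntSubmodule Λ) :=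
      Module.Finite.iff_fg.2 ((Submodule.fg_iff_addSubgroup_fg _).2 hfg)
    exact h1
  have htf : Module.IsTorsionFree ℤ V := Module.IsTorsionFree.trans ℚ
  have htf2 : Module.IsTorsionFree ℤ (AddSubgroup.toIntSubmodule Λ) := inferInstance
  have htf3 : Module.IsTorsionFree ℤ Λ := htf2
  have hfree : Module.Free ℤ Λ := Module.free_of_finite_type_torsion_free'
  set b := Module.finBasis ℤ Λ with hb
  have hq0 : ((q : ℕ) : ℤ) ≠ 0 := by exact_mod_cast hq.ne'
  let f0 : G →* Matrix (Fin (Module.finrank ℤ Λ)) (Fin (Module.finrank ℤ Λ)) ℤ :=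
    { toFun := fun g => LinearMap.toMatrixAlgEquiv b (latAct ρ Λ hmem g)
      map_one' := by rw [map_one, map_one]
      map_mul' := fun g g' => by rw [map_mul, map_mul] }
  have hf0 : ∀ g, ∃ X, f0 g = 1 + (q : ℤ) • X := by
    intro g
    have h1 : ∀ i, ∃ y : Λ, latAct ρ Λ hmem g (b i) = b i + (q : ℤ) • y := by
      intro i
      obtain ⟨y, hy, h1⟩ := h g (b i) (b i).2
      refine ⟨⟨y, hy⟩, Subtype.ext ?_⟩
      have h2 : ((latAct ρ Λ hmem g (b i) : Λ) : V) = ρ g (b i) := rfl
      rw [h2, h1]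
      simp
    choose y hy using h1
    refine ⟨LinearMap.toMatrixAlgEquiv b (b.constr ℤ y), ?_⟩
    have h2 : latAct ρ Λ hmem g = 1 + (q : ℤ) • b.constr ℤ y := by
      apply b.ext
      intro i
      rw [hy i]
      simp
    change LinearMap.toMatrixAlgEquiv b (latAct ρ Λ hmem g) = _
    rw [h2, map_add, map_one, map_smul]
  obtain ⟨f', hf'⟩ := exists_circ (q := q) (R := ℤ) hq0 f0 hf0
  refine ⟨_, f', fun g hg x hx => ?_⟩
  have h1 := hf' g
  rw [hg, map_one] at h1
  have h2 : latAct ρ Λ hmem g = 1 := by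
    apply (LinearMap.toMatrixAlgEquiv b).injective
    rw [map_one]
    exact h1.symm
  have h3 := congrArg Subtype.val (LinearMap.congr_fun h2 ⟨x, hx⟩)
  exact h3

/-- every nontrivial element acts nontrivially on some lattice with an action which is trivial
modulo `q` -/
def LatDet (q : ℕ) (G : Type) [Group G] : Prop :=
  ∀ g : G, g ≠ 1 → ∃ (V : Type) (_ : AddCommGroup V) (_ : Module ℚ V)
    (ρ : G →* Module.End ℚ V) (Λ : AddSubgroup V), Λ.FG ∧
    (∀ g', ∀ x ∈ Λ, ∃ y ∈ Λ, ρ g' x = x + q • y) ∧ ∃ x ∈ Λ, ρ g x ≠ x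

theorem detM_of_latDet {p s : ℕ} [hp : Fact p.Prime] (hs : 1 ≤ s) (h3 : 3 ≤ p ^ s)
    (h : LatDet (p ^ s) G) : DetM G := by
  intro F hF
  have hF' : ∀ g : F, g.1 ≠ 1 := fun g => hF g.1 g.2
  choose V i1 i2 ρ Λ h1 h2 h4 using fun g : F => h g.1 (hF' g)
  let ρ' : G →* Module.End ℚ (∀ g : F, V g) :=
    { toFun := fun g' => LinearMap.pi fun i => (ρ i g') ∘ₗ LinearMap.proj i
      map_one' := by
        apply LinearMap.ext
        intro x
        funext i
        simp
      map_mul' := by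
        intro a b
        apply LinearMap.ext
        intro x
        funext i
        simp }
  have hρ' : ∀ g' x i, ρ' g' x i = ρ i g' (x i) := fun _ _ _ => rfl
  have hfg : (AddSubgroup.pi Set.univ Λ).FG := by
    have h5 : (Submodule.pi Set.univ fun i => AddSubgroup.toIntSubmodule (Λ i)).FG :=
      Submodule.fg_pi fun i => (Submodule.fg_iff_addSubgroup_fg _).2 (h1 i)
    rw [Submodule.fg_iff_addSubgroup_fg] at h5
    exact h5
  have hq : 0 < p ^ s := pow_pos hp.out.pos s
  obtain ⟨N, f, hf⟩ := circ_of_lattice hq ρ' (AddSubgroup.pi Set.univ Λ) hfg (by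
    intro g' x hx
    rw [AddSubgroup.mem_pi] at hx
    choose y hy hxy using fun i : F => h2 i g' (x i) (hx i (Set.mem_univ i))
    refine ⟨y, ?_, ?_⟩
    · rw [AddSubgroup.mem_pi]
      exact fun i _ => hy i
    · funext i
      rw [hρ', hxy i]
      rfl)
  refine ⟨p, hp, s, N, hs, h3, (cmap (Int.castRingHom ℤ_[p])).comp f, fun g hg h5 => ?_⟩
  obtain ⟨x, hx, hne⟩ := h4 ⟨g, hg⟩
  have h6 : f g = 1 := by
    apply Circ.ext
    ext i j
    have h7 := congrFun (congrFun (congrArg Circ.m h5) i) j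
    have h8 : (((f g).m i j : ℤ) : ℤ_[p]) = 0 := h7
    rw [Int.cast_eq_zero] at h8
    exact h8
  apply hne
  have h7 := hf g h6 (Pi.single ⟨g, hg⟩ x) (by
    rw [AddSubgroup.mem_pi]
    intro i _
    by_cases hi : i = ⟨g, hg⟩
    · subst hi
      rwa [Pi.single_eq_same]
    · rw [Pi.single_eq_of_ne hi]
      exact (Λ i).zero_mem)
  have h8 := congrFun h7 ⟨g, hg⟩
  rw [hρ', Pi.single_eq_same] at h8
  exact h8

end Pool.Agent.Lvl
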