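import Mathlib

set_option autoImplicit false

noncomputable section

/-!
PACKAGE LVL-LIFT. Lifting of properties from `L / p L` to `L`.

`L` is a ring (not commutative) with a central element `p`, `p x = 0` only for `x = 0`,
`φ : L → L1` is surjective with kernel `p L`, series `∑ p ^ r z r` converge (`hcomp`) and
`⋂ p ^ n L = 0` (`hsep`).

* `exists_unit_part`: for `x ≠ 0` there is `s`, `x'` with `x = p ^ s * x'` and `φ x' ≠ 0`: otherwise
  `x ∈ p ^ n L` for all `n` by induction (`hk`), contradiction to `hsep`.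
* `domain_lift`: `x = p ^ s x'`, `y = p ^ t y'`, `x y = p ^ (s + t) x' y'`, so `x y = 0` gives
  `x' y' = 0` (`h0`), `φ x' φ y' = 0`.
* `noeth_lift`: let `M` be a left ideal of `L`. `N s = {φ x | p ^ s x ∈ M}` is a left ideal of `L1`
  (`φ` is surjective), `N s ≤ N (s + 1)`. So `N s = N t` for all `s ≥ t`
  (`monotone_stabilizes_iff_noetherian`), and all `N s` are finitely generated: there are finitely
  many `x s i`, (`s ≤ t`) with `p ^ s x s i ∈ M` whose images generate `N s`. Claim: the finitely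
  many elements `p ^ s x s i` generate `M`. STEP: let `y ∈ M`, `y = p ^ s y'`. Then
  `φ y' ∈ N s = N (min s t)`, so `φ y' = ∑ φ (z i) φ (x (min s t) i)` and
  `y' - ∑ z i x (min s t) i = p y''`, so `y - ∑ z i (p ^ s x (min s t) i) = p ^ (s + 1) y''`, and
  this is in `M` again (`p ^ s = p ^ (s - t) p ^ t` for `s > t`, central). Iterate from `s = 0`: the
  steps `s < t` subtract a combination of the `p ^ s x s i`; the step `t + r` subtracts
  `∑ i, p ^ r z r i * (p ^ t x t i)`. With `Z i - ∑ r < n, p ^ r z r i ∈ p ^ n L` (`hcomp`) the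
  difference of `y` and the combination with the coefficients `Z i` is in `p ^ n L` for all `n`,
  so it is zero.
-/

namespace Pool.Agent.Lvl

section

variable {L L1 : Type} [Ring L] [Ring L1] {φ : L →+* L1} {p : L}

theorem exists_unit_part (hk : ∀ x, φ x = 0 → ∃ y, x = p * y)
    (hsep : ∀ x, (∀ n, ∃ y, x = p ^ n * y) → x = 0) {x : L} (hx : x ≠ 0) :
    ∃ (s : ℕ) (x' : L), x = p ^ s * x' ∧ φ x' ≠ 0 := by
  by_contra hcon
  push Not at hcon
  refine hx (hsep x fun n => ?_)
  induction n with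
  | zero => exact ⟨x, by rw [pow_zero, one_mul]⟩
  | succ n ih =>
    obtain ⟨y, hy⟩ := ih
    obtain ⟨y', rfl⟩ := hk y (hcon n y hy)
    exact ⟨y', by rw [hy, pow_succ, mul_assoc]⟩

private theorem pow_comm' (hc : ∀ x, p * x = x * p) (n : ℕ) (x : L) : p ^ n * x = x * p ^ n :=
  (Commute.pow_left (hc x) n : Commute (p ^ n) x).eq

private theorem pow_zero' (h0 : ∀ x, p * x = 0 → x = 0) (n : ℕ) (x : L) (h : p ^ n * x = 0) :
    x = 0 := by
  induction n with
  | zero => rwa [pow_zero, one_mul] at h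
  | succ n ih =>
    rw [pow_succ', mul_assoc] at h
    exact ih (h0 _ h)

theorem domain_lift [NoZeroDivisors L1] (hc : ∀ x, p * x = x * p) (h0 : ∀ x, p * x = 0 → x = 0)
    (hk : ∀ x, φ x = 0 → ∃ y, x = p * y) (hsep : ∀ x, (∀ n, ∃ y, x = p ^ n * y) → x = 0) :
    NoZeroDivisors L := by
  refine ⟨fun {x y} hxy => ?_⟩
  by_contra hcon
  push Not at hcon
  obtain ⟨s, x', rfl, hx'⟩ := exists_unit_part hk hsep hcon.1
  obtain ⟨t, y', rfl, hy'⟩ := exists_unit_part hk hsep hcon.2
  have h1 : p ^ (s + t) * (x' * y') = 0 := by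
    rw [← hxy, pow_add, mul_assoc, ← mul_assoc (p ^ t) x' y', pow_comm' hc t x']
    noncomm_ring
  have h2 := pow_zero' h0 _ _ h1
  have h3 : φ x' * φ y' = 0 := by rw [← map_mul, h2, map_zero]
  rcases mul_eq_zero.1 h3 with h | h
  · exact hx' h
  · exact hy' h

private theorem lft_gens [IsNoetherianRing L1] (hφ : Function.Surjective φ)
    (hc : ∀ x, p * x = x * p) (M : Submodule L L) :
    ∃ (t : ℕ) (n : ℕ → ℕ) (x : ∀ s, Fin (n s) → L), (∀ s i, p ^ s * x s i ∈ M) ∧
      ∀ s y, p ^ s * y ∈ M → ∃ z : Fin (n (min s t)) → L,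
        φ (y - ∑ i, z i * x (min s t) i) = 0 := by
  let N : ℕ → Submodule L1 L1 := fun s =>
    { carrier := {b | ∃ x, φ x = b ∧ p ^ s * x ∈ M}
      add_mem' := by
        rintro _ _ ⟨x, rfl, hx⟩ ⟨y, rfl, hy⟩
        exact ⟨x + y, map_add φ x y, by rw [mul_add]; exact M.add_mem hx hy⟩
      zero_mem' := ⟨0, map_zero φ, by rw [mul_zero]; exact M.zero_mem⟩
      smul_mem' := by
        rintro c _ ⟨x, rfl, hx⟩
        obtain ⟨c', rfl⟩ := hφ c
        refine ⟨c' * x, map_mul φ c' x, ?_⟩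
        rw [← mul_assoc, pow_comm' hc, mul_assoc]
        exact M.smul_mem c' hx }
  have hN : Monotone N := monotone_nat_of_le_succ fun s b => by
    rintro ⟨x, rfl, hx⟩
    refine ⟨x, rfl, ?_⟩
    rw [pow_succ', mul_assoc]
    exact M.smul_mem p hx
  obtain ⟨t, ht⟩ := monotone_stabilizes_iff_noetherian.2 (inferInstance : IsNoetherian L1 L1)
    ⟨N, hN⟩
  have hfg : ∀ s, ∃ (n : ℕ) (x : Fin n → L), (∀ i, p ^ s * x i ∈ M) ∧
      ∀ b ∈ N s, ∃ z : Fin n → L, ∑ i, φ (z i) * φ (x i) = b := by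
    intro s
    obtain ⟨n, g, hg⟩ := Submodule.fg_iff_exists_fin_generating_family.1
      (IsNoetherian.noetherian (N s))
    have h1 : ∀ i, g i ∈ N s := fun i => by
      rw [← hg]
      exact Submodule.subset_span ⟨i, rfl⟩
    choose x hx hxM using h1
    refine ⟨n, x, hxM, fun b hb => ?_⟩
    rw [← hg, Submodule.mem_span_range_iff_exists_fun] at hb
    obtain ⟨c, hc'⟩ := hb
    choose z hz using fun i => hφ (c i)
    refine ⟨z, ?_⟩
    rw [← hc']
    exact Finset.sum_congr rfl fun i _ => by rw [hz, hx, smul_eq_mul]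
  choose n x hx hgen using hfg
  refine ⟨t, n, x, hx, fun s y hy => ?_⟩
  have h1 : φ y ∈ N (min s t) := by
    rcases le_total s t with h | h
    · rw [min_eq_left h]
      exact ⟨y, rfl, hy⟩
    · rw [min_eq_right h]
      have h2 : N t = N s := ht s h
      rw [h2]
      exact ⟨y, rfl, hy⟩
  obtain ⟨z, hz⟩ := hgen _ _ h1
  refine ⟨z, ?_⟩
  rw [map_sub, map_sum, ← hz, sub_eq_zero]
  exact Finset.sum_congr rfl fun i _ => (map_mul φ _ _).symm

theorem noeth_lift [IsNoetherianRing L1] (hφ : Function.Surjective φ)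
    (hc : ∀ x, p * x = x * p) (h0 : ∀ x, p * x = 0 → x = 0)
    (hk : ∀ x, φ x = 0 → ∃ y, x = p * y) (hsep : ∀ x, (∀ n, ∃ y, x = p ^ n * y) → x = 0)
    (hcomp : ∀ z : ℕ → L, ∃ s, ∀ n, ∃ y, s - ∑ r ∈ Finset.range n, p ^ r * z r = p ^ n * y) :
    IsNoetherianRing L := by
  refine ⟨fun M => ?_⟩
  obtain ⟨t, n, x, hx, hgen⟩ := lft_gens hφ hc M
  -- one step
  have step : ∀ s y, p ^ s * y ∈ M → ∃ (z : Fin (n (min s t)) → L) (y' : L),
      y - ∑ i, z i * x (min s t) i = p * y' ∧ p ^ (s + 1) * y' ∈ M := by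
    intro s y hy
    obtain ⟨z, hz⟩ := hgen s y hy
    obtain ⟨y', hy'⟩ := hk _ hz
    refine ⟨z, y', hy', ?_⟩
    rw [pow_succ, mul_assoc, ← hy', mul_sub, Finset.mul_sum]
    refine M.sub_mem hy (M.sum_mem fun i _ => ?_)
    have h1 : p ^ s * (z i * x (min s t) i) =
        (z i * p ^ (s - min s t)) * (p ^ min s t * x (min s t) i) := by
      rw [← mul_assoc, pow_comm' hc, mul_assoc (z i), mul_assoc (z i),
        ← mul_assoc (p ^ (s - min s t)), ← pow_add, Nat.sub_add_cancel (min_le_left s t)]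
    rw [h1]
    exact M.smul_mem _ (hx _ i)
  set P : Submodule L L := Submodule.span L
    (Set.range fun q : Σ s : Fin (t + 1), Fin (n s) => p ^ (q.1 : ℕ) * x q.1 q.2) with hP
  have hPM : P ≤ M := Submodule.span_le.2 (by
    rintro _ ⟨q, rfl⟩
    exact hx _ _)
  have hgP : ∀ s ≤ t, ∀ i, p ^ s * x s i ∈ P := fun s hs i =>
    Submodule.subset_span ⟨⟨⟨s, Nat.lt_succ_of_le hs⟩, i⟩, rfl⟩
  suffices hMP : M ≤ P by
    have h1 : M = P := le_antisymm hMP hPM
    rw [h1, hP]
    exact Submodule.fg_def.2 ⟨_, Set.finite_range _, rfl⟩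
  intro y hy
  -- the first `t` steps
  have phase : ∀ s ≤ t, ∃ u ∈ P, ∃ y', y - u = p ^ s * y' := by
    intro s
    induction s with
    | zero => exact fun _ => ⟨0, P.zero_mem, y, by rw [sub_zero, pow_zero, one_mul]⟩
    | succ s ih =>
      intro hs
      obtain ⟨u, hu, y', hy'⟩ := ih (Nat.le_of_succ_le hs)
      have h1 : p ^ s * y' ∈ M := by
        rw [← hy']
        exact M.sub_mem hy (hPM hu)
      have h2 := step s y' h1
      rw [min_eq_left (Nat.le_of_succ_le hs)] at h2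
      obtain ⟨z, y'', hz, -⟩ := h2
      refine ⟨u + ∑ i, z i * (p ^ s * x s i), P.add_mem hu (P.sum_mem fun i _ =>
        P.smul_mem _ (hgP s (Nat.le_of_succ_le hs) i)), y'', ?_⟩
      rw [← sub_sub, hy', pow_succ, mul_assoc, ← hz, mul_sub, Finset.mul_sum]
      congr 1
      refine Finset.sum_congr rfl fun i _ => ?_
      rw [← mul_assoc, ← mul_assoc, pow_comm' hc]
  obtain ⟨u, hu, y0, hy0⟩ := phase t le_rfl
  have hy0M : p ^ t * y0 ∈ M := by
    rw [← hy0]
    exact M.sub_mem hy (hPM hu)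
  -- the infinitely many further steps
  have step2 : ∀ r y, p ^ (t + r) * y ∈ M → ∃ (z : Fin (n t) → L) (y' : L),
      y - ∑ i, z i * x t i = p * y' ∧ p ^ (t + (r + 1)) * y' ∈ M := by
    intro r y hy
    have h1 := step (t + r) y hy
    rw [min_eq_right (Nat.le_add_right t r)] at h1
    exact h1
  choose! z nxt hz hnxt using step2
  let Y : ℕ → L := fun r => Nat.rec y0 (fun r y => nxt r y) r
  have hY : ∀ r, p ^ (t + r) * Y r ∈ M := by
    intro r
    induction r with
    | zero => exact hy0M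
    | succ r ih => exact hnxt r (Y r) ih
  have hsum : ∀ m, y0 - ∑ i, (∑ r ∈ Finset.range m, p ^ r * z r (Y r) i) * x t i =
      p ^ m * Y m := by
    intro m
    induction m with
    | zero =>
      simp [Y]
    | succ m ih =>
      have h1 : ∑ i, (∑ r ∈ Finset.range (m + 1), p ^ r * z r (Y r) i) * x t i =
          ∑ i, (∑ r ∈ Finset.range m, p ^ r * z r (Y r) i) * x t i +
            p ^ m * ∑ i, z m (Y m) i * x t i := by
        rw [Finset.mul_sum, ← Finset.sum_add_distrib]
        refine Finset.sum_congr rfl fun i _ => ?_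
        rw [Finset.sum_range_succ, add_mul, mul_assoc]
      rw [h1, ← sub_sub, ih, ← mul_sub, hz m (Y m) (hY m), pow_succ, mul_assoc]
  choose Z hZ using fun i => hcomp fun r => z r (Y r) i
  choose w hw using hZ
  have hy0' : y0 - ∑ i, Z i * x t i = 0 := by
    refine hsep _ fun m => ⟨Y m - ∑ i, w i m * x t i, ?_⟩
    rw [mul_sub, ← hsum m, Finset.mul_sum, sub_sub, ← Finset.sum_add_distrib]
    congr 1
    refine Finset.sum_congr rfl fun i _ => ?_
    rw [← mul_assoc, ← hw i m, ← add_mul, add_sub_cancel]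
  have h1 : y = u + p ^ t * y0 := by
    rw [← hy0, add_sub_cancel]
  rw [h1, sub_eq_zero.1 hy0', Finset.mul_sum]
  refine P.add_mem hu (P.sum_mem fun i _ => ?_)
  rw [← mul_assoc, pow_comm' hc, mul_assoc]
  exact P.smul_mem _ (hgP t le_rfl i)

end

end Pool.Agent.Lvl
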