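import Pool.Agent.Lvl.FilC

set_option autoImplicit false
set_option linter.unusedSectionVars false

noncomputable section

/-!
PACKAGE LVL-LIMF. The limit ring `L1 = lim F_p[P k]`: filtration and leading forms.

`FL n u`: every component `u k` is in `Fil n`. `lf n u`: the homogeneous component of degree `n` of
the polynomial of `u k` for large `k`; here `k = n`, because all exponents of degree `n` are smaller
than `p ^ n` (`Nat.lt_pow_self`, `e l ≤ degree e`).
* `lf_eq`: `pl_pr` shows that the coefficients with `Bx p k e` of `pl (u k)` and `pl (u (k + 1))`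
  agree, hence those of `pl (u k)` and `pl (u k')`, `k ≤ k'`. Compare `k` and `n` with `max k n`.
* `exists_lf`: some `u k ≠ 0`; `Fil N = ⊥` at the level `k` for some `N` (`exists_fil_eq_bot`,
  `isPGroup_P`), so `FL N u` fails; `FL 0 u` holds. Let `n` be maximal with `FL n u`
  (`Nat.find`), then `lf n u ≠ 0` by `fl_succ`.
* `fl_succ`: let `k` be given and `e` with `(pl (u k)).coeff e ≠ 0`; `n ≤ degree e` (`mem_fil_iff`).
  If `degree e = n` then with `Bx p k e` (`pl_coeff_ne`) the coefficient at `e` is the one of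
  `pl (u k')` for large `k'`, that is of `lf n u`, zero. So `n + 1 ≤ degree e`.
* `lf_mul`: take a level `k` with `m + n < p ^ k` and use `lf_eq` and `pl_mul`; both sides are
  homogeneous of degree `m + n` and exponents of this degree satisfy `Bx p k`.
* `fl_mul`: `fil_mul`. `evL`: `pr_ev`. `fl_evL`: `ev_mem_fil`. `lf_evL`: `pl_ev_coeff`.
* domain: `exists_lf`, `lf_mul` and `MvPolynomial` over a field has no zero divisors. Nontrivial:
  the component `0` is a nontrivial ring.
-/

namespace Pool.Agent.Lvl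

open MonoidAlgebra MvPolynomial

variable {p q d : ℕ} [hp : Fact p.Prime] (T : Tower p q d)

/-- the filtration of the limit ring -/
def FL (n : ℕ) (u : Lim T (ZMod p)) : Prop := ∀ k, u.1 k ∈ Fil (ZMod p) (T.P k) n

/-- the form of degree `n` of an element of the limit ring -/
def lf (n : ℕ) (u : Lim T (ZMod p)) : MvPolynomial (Fin d) (ZMod p) :=
  homogeneousComponent n (pl T n (u.1 n))

private lemma bx_of_degree {k : ℕ} {e : Fin d →₀ ℕ} (h : e.degree < p ^ k) : Bx p k e :=
  fun l => lt_of_le_of_lt (Finsupp.le_degree l e) h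

private lemma bx_mono {k k' : ℕ} (hk : k ≤ k') {e : Fin d →₀ ℕ} (h : Bx p k e) : Bx p k' e :=
  fun l => lt_of_lt_of_le (h l) (Nat.pow_le_pow_right hp.out.pos hk)

private lemma coeff_stable {k k' : ℕ} (hk : k ≤ k') (u : Lim T (ZMod p)) {e : Fin d →₀ ℕ}
    (h : Bx p k e) : (pl T k (u.1 k)).coeff e = (pl T k' (u.1 k')).coeff e := by
  induction k', hk using Nat.le_induction with
  | base => rfl
  | succ m hm ih =>
    rw [ih]
    have h1 := pl_pr T (u.1 (m + 1)) (bx_mono hm h)
    have h2 : prA T m (u.1 (m + 1)) = u.1 m := u.2 m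
    rw [h2] at h1
    exact h1

private lemma n_lt (n : ℕ) : n < p ^ n := Nat.lt_pow_self hp.out.one_lt

private lemma coeff_lf {n k : ℕ} (u : Lim T (ZMod p)) {e : Fin d →₀ ℕ} (he : e.degree = n)
    (h : Bx p k e) : (lf T n u).coeff e = (pl T k (u.1 k)).coeff e := by
  unfold lf
  rw [coeff_homogeneousComponent, if_pos he]
  have hb : Bx p n e := bx_of_degree (by rw [he]; exact n_lt n)
  rw [coeff_stable T (le_max_left n k) u hb, coeff_stable T (le_max_right n k) u h]

lemma lf_eq {n k : ℕ} (h : n < p ^ k) (u : Lim T (ZMod p)) :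
    homogeneousComponent n (pl T k (u.1 k)) = lf T n u := by
  ext e
  by_cases he : e.degree = n
  · rw [coeff_lf T u he (bx_of_degree (by rw [he]; exact h)), coeff_homogeneousComponent,
      if_pos he]
  · unfold lf
    rw [coeff_homogeneousComponent, coeff_homogeneousComponent, if_neg he, if_neg he]

lemma lf_isHomogeneous (n : ℕ) (u : Lim T (ZMod p)) : (lf T n u).IsHomogeneous n :=
  homogeneousComponent_isHomogeneous _ _

/-- the leading form as an additive map -/
private def lfHom (n : ℕ) : Lim T (ZMod p) →+ MvPolynomial (Fin d) (ZMod p) where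
  toFun := lf T n
  map_zero' := by
    unfold lf
    have h : (0 : Lim T (ZMod p)).1 n = 0 := rfl
    rw [h, map_zero, map_zero]
  map_add' := by
    intro u v
    unfold lf
    have h : (u + v).1 n = u.1 n + v.1 n := rfl
    rw [h, map_add, map_add]

lemma lf_sub (n : ℕ) (u v : Lim T (ZMod p)) : lf T n (u - v) = lf T n u - lf T n v :=
  map_sub (lfHom T n) u v

lemma lf_sum {ι : Type} (s : Finset ι) (n : ℕ) (u : ι → Lim T (ZMod p)) :
    lf T n (∑ i ∈ s, u i) = ∑ i ∈ s, lf T n (u i) :=
  map_sum (lfHom T n) u s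

lemma fl_zero (u : Lim T (ZMod p)) : FL T 0 u := fun _ => mem_fil_zero _

lemma FL.sub {n : ℕ} {u v : Lim T (ZMod p)} (hu : FL T n u) (hv : FL T n v) : FL T n (u - v) :=
  fun k => Submodule.sub_mem _ (hu k) (hv k)

lemma FL.sum {ι : Type} {s : Finset ι} {n : ℕ} {u : ι → Lim T (ZMod p)}
    (h : ∀ i ∈ s, FL T n (u i)) : FL T n (∑ i ∈ s, u i) := by
  intro k
  have e : (∑ i ∈ s, u i).1 k = ∑ i ∈ s, (u i).1 k := by
    have h1 : (∑ i ∈ s, u i).1 = ∑ i ∈ s, (u i).1 := AddSubmonoidClass.coe_finsetSum _ _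
    rw [h1, Finset.sum_apply]
  rw [e]
  exact Submodule.sum_mem _ fun i hi => h i hi k

lemma fl_succ {n : ℕ} {u : Lim T (ZMod p)} (hu : FL T n u) (h : lf T n u = 0) :
    FL T (n + 1) u := by
  intro k
  rw [mem_fil_iff]
  intro e he
  have h1 : n ≤ e.degree := (mem_fil_iff T).1 (hu k) e he
  rcases Nat.lt_or_ge n e.degree with h2 | h2
  · exact h2
  · exfalso
    have h3 : e.degree = n := le_antisymm h2 h1
    apply he
    rw [← coeff_lf T u h3 (pl_coeff_ne T he), h, MvPolynomial.coeff_zero]

lemma exists_lf {u : Lim T (ZMod p)} (hu : u ≠ 0) : ∃ n, FL T n u ∧ lf T n u ≠ 0 := by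
  by_contra hcon
  push Not at hcon
  have hall : ∀ n, FL T n u := by
    intro n
    induction n with
    | zero => exact fl_zero T u
    | succ n ih => exact fl_succ T ih (hcon n ih)
  apply hu
  apply Subtype.ext
  funext k
  obtain ⟨N, hN⟩ := exists_fil_eq_bot (isPGroup_P T k)
  have h1 := hall N k
  rw [hN, Submodule.mem_bot] at h1
  exact h1

lemma fl_mul {m n : ℕ} {u v : Lim T (ZMod p)} (hu : FL T m u) (hv : FL T n v) :
    FL T (m + n) (u * v) := fun k => fil_mul (hu k) (hv k)

lemma lf_mul {m n : ℕ} {u v : Lim T (ZMod p)} (hu : FL T m u) (hv : FL T n v) :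
    lf T (m + n) (u * v) = lf T m u * lf T n v := by
  have hk : m + n < p ^ (m + n) := n_lt (m + n)
  have hm : m < p ^ (m + n) := lt_of_le_of_lt (Nat.le_add_right m n) hk
  have hn : n < p ^ (m + n) := lt_of_le_of_lt (Nat.le_add_left n m) hk
  have hmul : (u * v).1 (m + n) = u.1 (m + n) * v.1 (m + n) := rfl
  rw [← lf_eq T hm u, ← lf_eq T hn v]
  ext e
  by_cases he : e.degree = m + n
  · have hb : Bx p (m + n) e := bx_of_degree (by rw [he]; exact hk)
    rw [coeff_lf T (u * v) he hb, hmul]
    exact pl_mul T (hu (m + n)) (hv (m + n)) hb he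
  · have h1 : (lf T (m + n) (u * v)).coeff e = 0 := by
      unfold lf
      rw [coeff_homogeneousComponent, if_neg he]
    have h2 : (homogeneousComponent m (pl T (m + n) (u.1 (m + n))) *
        homogeneousComponent n (pl T (m + n) (v.1 (m + n)))).IsHomogeneous (m + n) :=
      (homogeneousComponent_isHomogeneous _ _).mul (homogeneousComponent_isHomogeneous _ _)
    rw [h1]
    exact (h2.coeff_eq_zero he).symm

/-- polynomials in the limit ring -/
def evL (f : MvPolynomial (Fin d) (ZMod p)) : Lim T (ZMod p) :=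
  ⟨fun k => ev T k f, fun k => pr_ev T k f⟩

lemma fl_evL {n : ℕ} {f : MvPolynomial (Fin d) (ZMod p)} (hf : f.IsHomogeneous n) :
    FL T n (evL T f) := fun _ => ev_mem_fil T hf

lemma lf_evL {n : ℕ} {f : MvPolynomial (Fin d) (ZMod p)} (hf : f.IsHomogeneous n) :
    lf T n (evL T f) = f := by
  ext e
  by_cases he : e.degree = n
  · have hb : Bx p n e := bx_of_degree (by rw [he]; exact n_lt n)
    rw [coeff_lf T (evL T f) he hb]
    exact pl_ev_coeff T f hb
  · have h1 : (lf T n (evL T f)).coeff e = 0 := by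
      unfold lf
      rw [coeff_homogeneousComponent, if_neg he]
    rw [h1]
    exact (hf.coeff_eq_zero he).symm

instance : Nontrivial (Lim T (ZMod p)) := by
  refine ⟨0, 1, fun h => ?_⟩
  have h1 : (0 : Lim T (ZMod p)).1 0 = (1 : Lim T (ZMod p)).1 0 := by rw [h]
  have h2 : (0 : GA T 0) = 1 := h1
  exact zero_ne_one h2

instance : NoZeroDivisors (Lim T (ZMod p)) := by
  refine ⟨fun {u v} huv => ?_⟩
  by_contra hcon
  push Not at hcon
  obtain ⟨m, hm, hm0⟩ := exists_lf T hcon.1
  obtain ⟨n, hn, hn0⟩ := exists_lf T hcon.2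
  have h1 := lf_mul T hm hn
  rw [huv] at h1
  have h2 : lf T (m + n) (0 : Lim T (ZMod p)) = 0 := map_zero (lfHom T (m + n))
  rw [h2] at h1
  exact mul_ne_zero hm0 hn0 h1.symm

end Pool.Agent.Lvl
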