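import Pool.Agent.Lvl.OPow

set_option autoImplicit false
set_option linter.unusedSectionVars false

noncomputable section

/-!
PACKAGE LVL-LIMR. The reduction `lim ℤ_p[P k] → lim F_p[P k]` is surjective.

`T.pr k` is surjective by `T.gen` and `T.pr_c` (`map_opow`), so `ℤ_p[P (k + 1)] → ℤ_p[P k]` is
surjective.
* `red_surj`: let `u ∈ L1`. Build `a k ∈ ℤ_p[P k]` step by step with reduction `u k` and
  `a (k + 1) ↦ a k`: take any lift `a'` of `u (k + 1)` (`PadicInt.toZMod` is surjective,
  lift the coefficients); the image of `a'` in `ℤ_p[P k]` and `a k` have the same reduction, so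
  `a k - a'` is `p w`, and `a (k + 1) = a' + p w'` with `w' ↦ w`. (Recursion on `k` with values in
  `{a : ℤ_p[P k] // red a = u k}`.)
-/

namespace Pool.Agent.Lvl

open MonoidAlgebra

variable {p q d : ℕ} [hp : Fact p.Prime] (T : Tower p q d)

lemma pr_surjective (k : ℕ) : Function.Surjective (T.pr k) := by
  intro g
  obtain ⟨a, ha⟩ := T.gen k g
  refine ⟨opow (T.c (k + 1)) a, ?_⟩
  rw [map_opow, ha]
  congr 1
  funext l
  exact T.pr_c k l

/-- change of the coefficients -/
def lmap {R S : Type} [CommRing R] [CommRing S] (φ : R →+* S) : Lim T R →+* Lim T S where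
  toFun a := ⟨fun k => mapRingHom (T.P k) φ (a.1 k), fun k =>
    (DFunLike.congr_fun (mapRingHom_comp_mapDomainRingHom φ (T.pr k)) (a.1 (k + 1))).symm.trans
      (congrArg (mapRingHom (T.P k) φ) (a.2 k))⟩
  map_one' := by
    apply Subtype.ext
    funext k
    exact map_one (mapRingHom (T.P k) φ)
  map_mul' a b := by
    apply Subtype.ext
    funext k
    exact map_mul (mapRingHom (T.P k) φ) _ _
  map_zero' := by
    apply Subtype.ext
    funext k
    exact map_zero (mapRingHom (T.P k) φ)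
  map_add' a b := by
    apply Subtype.ext
    funext k
    exact map_add (mapRingHom (T.P k) φ) _ _

lemma lmap_apply {R S : Type} [CommRing R] [CommRing S] (φ : R →+* S) (a : Lim T R) (k : ℕ) :
    (lmap T φ a).1 k = mapRingHom (T.P k) φ (a.1 k) := rfl

/-- reduction modulo `p` -/
def red : Lim T ℤ_[p] →+* Lim T (ZMod p) := lmap T PadicInt.toZMod

private lemma toZMod_lift {G : Type} [Group G] (u : MonoidAlgebra (ZMod p) G) :
    ∃ a : MonoidAlgebra ℤ_[p] G, mapRingHom G (PadicInt.toZMod (p := p)) a = u := by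
  induction u using MonoidAlgebra.induction_linear with
  | zero => exact ⟨0, map_zero _⟩
  | add f g hf hg =>
    obtain ⟨a, ha⟩ := hf
    obtain ⟨b, hb⟩ := hg
    exact ⟨a + b, by rw [map_add, ha, hb]⟩
  | single g r =>
    obtain ⟨x, hx⟩ := ZMod.ringHom_surjective (PadicInt.toZMod (p := p)) r
    exact ⟨single g x, by rw [mapRingHom_single, hx]⟩

private lemma mapDomain_lift {R G H : Type} [CommRing R] [Group G] [Group H] (f : G →* H)
    (hf : Function.Surjective f) (u : MonoidAlgebra R H) :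
    ∃ a : MonoidAlgebra R G, mapDomainRingHom R f a = u := by
  induction u using MonoidAlgebra.induction_linear with
  | zero => exact ⟨0, map_zero _⟩
  | add x y hx hy =>
    obtain ⟨a, ha⟩ := hx
    obtain ⟨b, hb⟩ := hy
    exact ⟨a + b, by rw [map_add, ha, hb]⟩
  | single h r =>
    obtain ⟨g, rfl⟩ := hf h
    exact ⟨single g r, by simp⟩

private lemma ker_toZMod {G : Type} [Group G] [Fintype G] (w : MonoidAlgebra ℤ_[p] G)
    (hw : mapRingHom G (PadicInt.toZMod (p := p)) w = 0) :
    ∃ v : MonoidAlgebra ℤ_[p] G, w = (p : MonoidAlgebra ℤ_[p] G) * v := by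
  have h1 : ∀ g : G, ∃ x : ℤ_[p], w.coeff g = (p : ℤ_[p]) * x := by
    intro g
    have h2 : PadicInt.toZMod (w.coeff g) = 0 := by
      have := congrArg (fun z => z.coeff g) hw
      simpa using this
    have h3 : w.coeff g ∈ RingHom.ker (PadicInt.toZMod (p := p)) := h2
    rw [PadicInt.ker_toZMod, PadicInt.maximalIdeal_eq_span_p, Ideal.mem_span_singleton] at h3
    exact h3
  choose x hx using h1
  refine ⟨ofCoeff (Finsupp.equivFunOnFinite.symm x), ?_⟩
  rw [← nsmul_eq_mul]
  ext g
  rw [hx g, coeff_smul, Finsupp.smul_apply, coeff_ofCoeff, nsmul_eq_mul]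
  rfl

theorem red_surj : Function.Surjective (red T) := by
  intro u
  have step : ∀ (k : ℕ) (a : MonoidAlgebra ℤ_[p] (T.P k)),
      mapRingHom (T.P k) (PadicInt.toZMod (p := p)) a = u.1 k →
      ∃ a' : MonoidAlgebra ℤ_[p] (T.P (k + 1)),
        mapRingHom (T.P (k + 1)) (PadicInt.toZMod (p := p)) a' = u.1 (k + 1) ∧
        mapDomainRingHom ℤ_[p] (T.pr k) a' = a := by
    intro k a ha
    obtain ⟨b, hb⟩ := toZMod_lift (u.1 (k + 1))
    have h1 : mapRingHom (T.P k) (PadicInt.toZMod (p := p))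
        (mapDomainRingHom ℤ_[p] (T.pr k) b) = u.1 k := by
      rw [← u.2 k, ← hb]
      exact DFunLike.congr_fun (mapRingHom_comp_mapDomainRingHom _ (T.pr k)) b
    obtain ⟨w, hw⟩ := ker_toZMod (a - mapDomainRingHom ℤ_[p] (T.pr k) b)
      (by rw [map_sub, ha, h1, sub_self])
    obtain ⟨w', hw'⟩ := mapDomain_lift (R := ℤ_[p]) (T.pr k) (pr_surjective T k) w
    refine ⟨b + (p : MonoidAlgebra ℤ_[p] (T.P (k + 1))) * w', ?_, ?_⟩
    · rw [map_add, hb, map_mul, map_natCast]
      have : ((p : ℕ) : MonoidAlgebra (ZMod p) (T.P (k + 1))) = 0 := by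
        rw [← map_natCast (algebraMap (ZMod p) (MonoidAlgebra (ZMod p) (T.P (k + 1)))),
          ZMod.natCast_self, map_zero]
      rw [this, zero_mul, add_zero]
    · rw [map_add, map_mul, map_natCast, hw', ← hw]
      abel
  choose! F hF using step
  obtain ⟨a0, ha0⟩ := toZMod_lift (u.1 0)
  let s : ∀ k, {a : MonoidAlgebra ℤ_[p] (T.P k) //
      mapRingHom (T.P k) (PadicInt.toZMod (p := p)) a = u.1 k} := fun k =>
    Nat.rec ⟨a0, ha0⟩ (fun k a => ⟨F k a.1, (hF k a.1 a.2).1⟩) k
  refine ⟨⟨fun k => (s k).1, fun k => (hF k (s k).1 (s k).2).2⟩, ?_⟩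
  exact Subtype.ext (funext fun k => (s k).2)

end Pool.Agent.Lvl
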