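import Pool.Agent.Lvl.Noeth
import Pool.Agent.Lvl.Lift
import Pool.Agent.Lvl.LimR

set_option autoImplicit false
set_option linter.unusedSectionVars false

noncomputable section

/-!
PACKAGE LVL-LIMZ. The limit ring `L = lim ℤ_p[P k]` and its reduction `L1 = lim F_p[P k]`.

* `red_eq_zero`: all coefficients of all components are divisible by `p`
  (`PadicInt.ker_toZMod`, `PadicInt.maximalIdeal_eq_span_p`); divide (choose a divisor for every
  coefficient; `ℤ_p` is torsion-free, so the quotients are compatible).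
* `lsep`: every coefficient is divisible by all `p ^ n` in `ℤ_p`, so it is zero.
* `lcomp`: for every sequence in `ℤ_p` the series `∑ p ^ r z r` converges (`IsAdicComplete`
  or `IsPrecomplete` of `ℤ_[p]`, or `CompleteSpace ℤ_[p]`), with
  `s - ∑ r < n, p ^ r z r ∈ p ^ n ℤ_p`; apply this to all coefficients of all
  components; the results are compatible by uniqueness (separatedness).
-/

namespace Pool.Agent.Lvl

open MonoidAlgebra

variable {p q d : ℕ} [hp : Fact p.Prime] (T : Tower p q d)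

/-- the components -/
private def evz (k : ℕ) : Lim T ℤ_[p] →+* MonoidAlgebra ℤ_[p] (T.P k) :=
  (Pi.evalRingHom _ k).comp (Lim T ℤ_[p]).subtype

private lemma evz_apply (k : ℕ) (x : Lim T ℤ_[p]) : evz T k x = x.1 k := rfl

private lemma limz_ext {x y : Lim T ℤ_[p]} (h : ∀ k, evz T k x = evz T k y) : x = y :=
  Subtype.ext (funext h)

private lemma evz_compat (x : Lim T ℤ_[p]) (k : ℕ) :
    mapDomainRingHom ℤ_[p] (T.pr k) (evz T (k + 1) x) = evz T k x := x.2 k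

private lemma coeffz_pow_mul {G : Type} [Group G] (x : MonoidAlgebra ℤ_[p] G) (n : ℕ) (g : G) :
    (((p : ℕ) : MonoidAlgebra ℤ_[p] G) ^ n * x).coeff g = (p : ℤ_[p]) ^ n * x.coeff g := by
  rw [← Nat.cast_pow, ← nsmul_eq_mul, coeff_smul_apply, nsmul_eq_mul, Nat.cast_pow]

private lemma powz_ne (n : ℕ) : (p : ℤ_[p]) ^ n ≠ 0 :=
  pow_ne_zero n (Nat.cast_ne_zero.mpr hp.out.ne_zero)

private lemma levz_cancel {G : Type} [Group G] {x y : MonoidAlgebra ℤ_[p] G} (n : ℕ)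
    (h : ((p : ℕ) : MonoidAlgebra ℤ_[p] G) ^ n * x =
      ((p : ℕ) : MonoidAlgebra ℤ_[p] G) ^ n * y) : x = y := by
  ext g
  have h1 := congrArg (fun w => w.coeff g) h
  simp only [coeffz_pow_mul] at h1
  exact mul_left_cancel₀ (powz_ne n) h1

private lemma levz_dvd {G : Type} [Group G] [Fintype G] {x : MonoidAlgebra ℤ_[p] G} (n : ℕ)
    (h : ∀ g, ∃ b, x.coeff g = (p : ℤ_[p]) ^ n * b) :
    ∃ y, x = ((p : ℕ) : MonoidAlgebra ℤ_[p] G) ^ n * y := by
  choose b hb using h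
  refine ⟨ofCoeff (Finsupp.equivFunOnFinite.symm b), ?_⟩
  ext g
  rw [coeffz_pow_mul, hb g]
  rfl

/-- divisibility by `p ^ n` can be checked at all levels -/
private lemma limz_dvd {x : Lim T ℤ_[p]} (n : ℕ)
    (h : ∀ k, ∃ y, evz T k x = ((p : ℕ) : MonoidAlgebra ℤ_[p] (T.P k)) ^ n * y) :
    ∃ y, x = ((p : ℕ) : Lim T ℤ_[p]) ^ n * y := by
  choose y hy using h
  refine ⟨⟨y, fun k => ?_⟩, ?_⟩
  · apply levz_cancel n
    rw [← hy k, ← evz_compat T x k, hy (k + 1), map_mul, map_pow, map_natCast]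
  · apply limz_ext
    intro k
    rw [map_mul, map_pow, map_natCast, hy k]
    rfl

private lemma zpz_sep {x : ℤ_[p]} (h : ∀ n : ℕ, ∃ y, x = (p : ℤ_[p]) ^ n * y) : x = 0 := by
  refine IsHausdorff.haus (I := IsLocalRing.maximalIdeal ℤ_[p]) inferInstance x fun n => ?_
  obtain ⟨y, hy⟩ := h n
  rw [SModEq.zero, smul_eq_mul, Ideal.mul_top, PadicInt.maximalIdeal_eq_span_p,
    Ideal.span_singleton_pow]
  exact Ideal.mem_span_singleton'.mpr ⟨y, by rw [hy, mul_comm]⟩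

private lemma zpz_comp (z : ℕ → ℤ_[p]) : ∃ s, ∀ n : ℕ, ∃ y,
    s - ∑ r ∈ Finset.range n, (p : ℤ_[p]) ^ r * z r = (p : ℤ_[p]) ^ n * y := by
  have key : ∀ (n : ℕ) (a b : ℤ_[p]), a ≡ b [SMOD ((IsLocalRing.maximalIdeal ℤ_[p]) ^ n •
      (⊤ : Submodule ℤ_[p] ℤ_[p]))] ↔ ∃ y, a - b = (p : ℤ_[p]) ^ n * y := by
    intro n a b
    rw [SModEq.sub_mem, smul_eq_mul, Ideal.mul_top, PadicInt.maximalIdeal_eq_span_p,
      Ideal.span_singleton_pow, Ideal.mem_span_singleton]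
    rfl
  obtain ⟨s, hs⟩ := IsPrecomplete.prec (I := IsLocalRing.maximalIdeal ℤ_[p]) (M := ℤ_[p])
    inferInstance (f := fun n => ∑ r ∈ Finset.range n, (p : ℤ_[p]) ^ r * z r) (by
      intro m n hmn
      refine ((key m _ _).mpr ?_).symm
      obtain ⟨t, rfl⟩ := Nat.exists_eq_add_of_le hmn
      refine ⟨∑ r ∈ Finset.range t, (p : ℤ_[p]) ^ r * z (m + r), ?_⟩
      rw [Finset.sum_range_add, add_sub_cancel_left, Finset.mul_sum]
      refine Finset.sum_congr rfl fun r _ => ?_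
      rw [pow_add, mul_assoc])
  exact ⟨s, fun n => (key n _ _).mp (hs n).symm⟩

private lemma levz_sep {G : Type} [Group G] {x y : MonoidAlgebra ℤ_[p] G}
    (h : ∀ n : ℕ, ∃ w, x - y = ((p : ℕ) : MonoidAlgebra ℤ_[p] G) ^ n * w) : x = y := by
  rw [← sub_eq_zero]
  ext g
  refine zpz_sep fun n => ?_
  obtain ⟨w, hw⟩ := h n
  exact ⟨w.coeff g, by rw [hw, coeffz_pow_mul]⟩

private lemma levz_comp {G : Type} [Group G] [Fintype G] (z : ℕ → MonoidAlgebra ℤ_[p] G) :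
    ∃ s, ∀ n : ℕ, ∃ y,
      s - ∑ r ∈ Finset.range n, ((p : ℕ) : MonoidAlgebra ℤ_[p] G) ^ r * z r =
        ((p : ℕ) : MonoidAlgebra ℤ_[p] G) ^ n * y := by
  choose b hb using fun g : G => zpz_comp fun r => (z r).coeff g
  refine ⟨ofCoeff (Finsupp.equivFunOnFinite.symm b), fun n => levz_dvd n fun g => ?_⟩
  obtain ⟨y, hy⟩ := hb g n
  refine ⟨y, ?_⟩
  rw [← hy, coeff_sub, coeff_sum, Finsupp.sub_apply, Finsupp.finsetSum_apply]
  refine congrArg₂ _ rfl (Finset.sum_congr rfl fun r _ => ?_)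
  rw [coeffz_pow_mul]

theorem red_eq_zero {x : Lim T ℤ_[p]} (h : red T x = 0) :
    ∃ y, x = ((p : ℕ) : Lim T ℤ_[p]) * y := by
  obtain ⟨y, hy⟩ := limz_dvd T (x := x) 1 fun k => levz_dvd 1 fun g => by
    have h1 : mapRingHom (T.P k) PadicInt.toZMod (x.1 k) = 0 :=
      congrArg (fun w : Lim T (ZMod p) => w.1 k) h
    have h2 : (PadicInt.toZMod ((x.1 k).coeff g) : ZMod p) = 0 := by
      rw [← coeff_mapRingHom, h1]
      rfl
    rw [← RingHom.mem_ker, PadicInt.ker_toZMod, PadicInt.maximalIdeal_eq_span_p,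
      Ideal.mem_span_singleton] at h2
    obtain ⟨b, hb⟩ := h2
    exact ⟨b, by rw [pow_one, evz_apply, hb]⟩
  exact ⟨y, by rw [hy, pow_one]⟩

theorem p_torsion {x : Lim T ℤ_[p]} (h : ((p : ℕ) : Lim T ℤ_[p]) * x = 0) : x = 0 := by
  apply limz_ext
  intro k
  apply levz_cancel 1
  rw [map_zero, mul_zero, pow_one, ← map_natCast (evz T k) p, ← map_mul, h, map_zero]

theorem lsep {x : Lim T ℤ_[p]} (h : ∀ n : ℕ, ∃ y, x = ((p : ℕ) : Lim T ℤ_[p]) ^ n * y) :
    x = 0 := by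
  apply limz_ext
  intro k
  refine levz_sep fun n => ?_
  obtain ⟨y, hy⟩ := h n
  refine ⟨evz T k y, ?_⟩
  rw [map_zero, sub_zero]
  conv_lhs => rw [hy]
  rw [map_mul, map_pow, map_natCast]

theorem lcomp (z : ℕ → Lim T ℤ_[p]) : ∃ s, ∀ n : ℕ, ∃ y,
    s - ∑ r ∈ Finset.range n, ((p : ℕ) : Lim T ℤ_[p]) ^ r * z r =
      ((p : ℕ) : Lim T ℤ_[p]) ^ n * y := by
  choose s hs using fun k => levz_comp fun r => evz T k (z r)
  have hc : ∀ k, mapDomainRingHom ℤ_[p] (T.pr k) (s (k + 1)) = s k := by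
    intro k
    refine levz_sep fun n => ?_
    obtain ⟨y, hy⟩ := hs (k + 1) n
    obtain ⟨y', hy'⟩ := hs k n
    refine ⟨mapDomainRingHom ℤ_[p] (T.pr k) y - y', ?_⟩
    have h1 := congrArg (mapDomainRingHom ℤ_[p] (T.pr k)) hy
    simp only [map_sub, map_sum, map_mul, map_pow, map_natCast, evz_compat] at h1
    rw [mul_sub, ← h1, ← hy']
    abel
  refine ⟨⟨s, hc⟩, fun n => limz_dvd T n fun k => ?_⟩
  obtain ⟨y, hy⟩ := hs k n
  refine ⟨y, ?_⟩
  rw [← hy]
  simp only [map_sub, map_sum, map_mul, map_pow, map_natCast]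
  rfl

instance : Nontrivial (Lim T ℤ_[p]) := (red T).domain_nontrivial

instance : NoZeroDivisors (Lim T ℤ_[p]) :=
  domain_lift (φ := red T) (p := ((p : ℕ) : Lim T ℤ_[p])) (fun x => Nat.cast_comm p x)
    (fun _ h => p_torsion T h) (fun _ h => red_eq_zero T h) fun _ h => lsep T h

instance : IsDomain (Lim T ℤ_[p]) := NoZeroDivisors.to_isDomain _

instance : IsNoetherianRing (Lim T ℤ_[p]) :=
  noeth_lift (φ := red T) (p := ((p : ℕ) : Lim T ℤ_[p])) (red_surj T)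
    (fun x => Nat.cast_comm p x) (fun _ h => p_torsion T h) (fun _ h => red_eq_zero T h)
    (fun _ h => lsep T h) (lcomp T)

end Pool.Agent.Lvl
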