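import Pool.Agent.Lvl.Approx
import Pool.Agent.Lvl.DivS

set_option autoImplicit false

noncomputable section

/-!
PACKAGE LVL-NOETH. The ring `L1 = lim F_p[P k]` is (left) Noetherian.

Let `M` be a left ideal (`isNoetherianRing_iff_ideal_fg` or `isNoetherian_def`). Let `S` be the set
of all polynomials `lf n m` with `m ∈ M`, `FL n m`. The ideal of `MvPolynomial` generated by `S` is
finitely generated (Hilbert), so it is generated by a finite subset of `S`
(`Submodule.fg_span_iff_fg_span_finset_subset`): there are a finite type `ι` (or `Fin s`), `m i ∈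
M`,
`n i` with `FL (n i) (m i)`, such that the forms `g i = lf (n i) (m i)` generate the ideal.
* `div_step`: for `u ∈ M` with `FL n u` there are `z i` with `FL (n + 1) (u - ∑ z i * m i)`, and
  `u - ∑ z i * m i` is in `M` again. So for every `u ∈ M` and every `N` there are `z i` with
  `FL N (u - ∑ z i * m i)` (induction on `N`, `fl_zero`).
* `exists_of_approx`: `u = ∑ z i * m i`. So the `m i` generate `M`.
-/

namespace Pool.Agent.Lvl

open MonoidAlgebra MvPolynomial

variable {p q d : ℕ} [hp : Fact p.Prime] (T : Tower p q d)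

instance noeth_L1 : IsNoetherianRing (Lim T (ZMod p)) := by
  refine isNoetherianRing_iff.2 (isNoetherian_def.2 fun M => ?_)
  let S : Set (MvPolynomial (Fin d) (ZMod p)) :=
    {f | ∃ (n : ℕ) (m : Lim T (ZMod p)), m ∈ M ∧ FL T n m ∧ lf T n m = f}
  obtain ⟨s', hs', hspan⟩ := (Submodule.fg_span_iff_fg_span_finset_subset S).1
    ((isNoetherianRing_iff_ideal_fg (MvPolynomial (Fin d) (ZMod p))).1 inferInstance
      (Ideal.span S))
  have hch : ∀ f : s', ∃ (n : ℕ) (m : Lim T (ZMod p)), m ∈ M ∧ FL T n m ∧ lf T n m = f :=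
    fun f => hs' f.2
  choose n' m hm hF hl using hch
  have hrange : (Set.range fun i : s' => lf T (n' i) (m i)) =
      (s' : Set (MvPolynomial (Fin d) (ZMod p))) := by
    ext f
    simp only [Set.mem_range, hl]
    exact ⟨fun ⟨i, hi⟩ => hi ▸ i.2, fun hf => ⟨⟨f, hf⟩, rfl⟩⟩
  have hsum : ∀ z : s' → Lim T (ZMod p), ∑ i, z i * m i ∈ M := fun z =>
    Submodule.sum_mem _ fun i _ => M.smul_mem (z i) (hm i)
  have happ : ∀ u ∈ M, ∀ N, ∃ z : s' → Lim T (ZMod p), FL T N (u - ∑ i, z i * m i) := by
    intro u hu N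
    induction N with
    | zero => exact ⟨0, fl_zero T _⟩
    | succ N ih =>
      obtain ⟨z, hz⟩ := ih
      have hv : u - ∑ i, z i * m i ∈ M := M.sub_mem hu (hsum z)
      have hmem : lf T N (u - ∑ i, z i * m i) ∈
          Ideal.span (Set.range fun i : s' => lf T (n' i) (m i)) := by
        rw [hrange]
        have h1 : lf T N (u - ∑ i, z i * m i) ∈
            Submodule.span (MvPolynomial (Fin d) (ZMod p)) S :=
          Submodule.subset_span ⟨N, _, hv, hz, rfl⟩
        rw [hspan] at h1
        exact h1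
      obtain ⟨z', hz'⟩ := div_step T m n' hF hz hmem
      refine ⟨z + z', ?_⟩
      have he : u - ∑ i, (z + z') i * m i = u - ∑ i, z i * m i - ∑ i, z' i * m i := by
        simp only [Pi.add_apply, add_mul, Finset.sum_add_distrib]
        abel
      rw [he]
      exact hz'
  refine (Submodule.fg_def).2 ⟨Set.range m, Set.finite_range m, ?_⟩
  refine le_antisymm (Submodule.span_le.2 ?_) fun u hu => ?_
  · rintro _ ⟨i, rfl⟩
    exact hm i
  · obtain ⟨z, hz⟩ := exists_of_approx T m u (happ u hu)
    rw [hz]
    exact Submodule.sum_mem _ fun i _ =>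
      Submodule.smul_mem _ (z i) (Submodule.subset_span ⟨i, rfl⟩)

end Pool.Agent.Lvl
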