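import Pool.Agent.Lvl.OddG

set_option autoImplicit false
set_option linter.unusedSectionVars false

noncomputable section

/-!
The final theorem for the level subgroups, with the common denominators.
-/

open scoped Nat

namespace Pool.Agent.Lvl

open Pool.Agent.VN

/-- `H` is a free group of rank `N`, or `N = 2 g` and `H` is the fundamental group of the closed
orientable surface of genus `g`. (So `N` is the rank of `H₁(H; ℤ)`.) -/
def SurfN (H : Type) [Group H] (N : ℕ) : Prop :=
  Nonempty (H ≃* FreeGroup (Fin N)) ∨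
    ∃ g : ℕ, N = 2 * g ∧ Nonempty (H ≃* CongCL.SurfaceGroup g)

/-- Let `L m` be the level `m` subgroup of `Q`. For every subgroup `G` of `Q` (every group `G` with
an injective homomorphism `f : G → Q`) let `G[m]` be the preimage of `L m`. The index `[G : G[m]]` is
finite for all `m ≥ 3`. If for every prime `q ≤ N + 1` there is an `m ≥ 3` such that `q` does not
divide `[G : G[m]]`, then `G` satisfies the strong Atiyah conjecture over `ℂ`. In general the von
Neumann dimensions `kerDim A` of the kernels of all matrices `A` over `ℂG` lie in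
`(1/[G : G[m]]) ℤ` for all `m ≥ 3`, and in `(1/mink N) ℤ`. -/
def LevelBounds {Q : Type} [Group Q] (L : ℕ → Subgroup Q) (N : ℕ) : Prop :=
  ∀ (G : Type) [Group G] (f : G →* Q), Function.Injective f →
    (∀ m : ℕ, 3 ≤ m → ((L m).comap f).FiniteIndex) ∧
    ((∀ q : ℕ, q.Prime → q ≤ N + 1 → ∃ m : ℕ, 3 ≤ m ∧ ¬ q ∣ ((L m).comap f).index) →
      AtiyahOver ⊤ G) ∧
    ∀ (r n : ℕ) (A : Matrix (Fin r) (Fin n) (G →₀ ℂ)),
      (∀ m : ℕ, 3 ≤ m → ∃ z : ℤ, (((L m).comap f).index : ℝ) * kerDim A = z) ∧
        ∃ z : ℤ, (mink N : ℝ) * kerDim A = z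

section

variable {H : Type} [Group H] {N : ℕ}

theorem SurfN.surfH (h : SurfN H N) : SurfH H := by
  rcases h with h | ⟨g, -, h⟩
  · exact Or.inl ⟨N, h⟩
  · exact Or.inr ⟨g, h⟩

theorem closure_of_equiv {K : Type} [Group K] {ι : Type} (e : H ≃* K) {s : ι → K}
    (hs : Subgroup.closure (Set.range s) = ⊤) :
    Subgroup.closure (Set.range fun i => e.symm (s i)) = ⊤ := by
  have h1 : (Set.range fun i => e.symm (s i)) = (e.symm : K →* H) '' Set.range s := by
    rw [← Set.range_comp]
    rfl
  rw [h1, ← MonoidHom.map_closure, hs, ← MonoidHom.range_eq_map]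
  exact MonoidHom.range_eq_top.2 e.symm.surjective

theorem SurfN.gen (h : SurfN H N) : ∃ (ι : Type) (_ : Fintype ι) (s : ι → H),
    Fintype.card ι = N ∧ Subgroup.closure (Set.range s) = ⊤ := by
  rcases h with ⟨⟨e⟩⟩ | ⟨g, rfl, ⟨e⟩⟩
  · exact ⟨Fin N, inferInstance, fun i => e.symm (FreeGroup.of i), Fintype.card_fin N,
      closure_of_equiv e (FreeGroup.closure_range_of (Fin N))⟩
  · refine ⟨Fin g × Bool, inferInstance, fun i => e.symm (PresentedGroup.of i), ?_,
      closure_of_equiv e (PresentedGroup.closure_range_of _)⟩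
    rw [Fintype.card_prod, Fintype.card_fin, Fintype.card_bool, mul_comm]

theorem SurfN.dvd (h : SurfN H N) (l : ℕ) (hl : l.Prime) :
    ∃ r, r ≤ N ∧ (level H l).index ∣ ∏ i : Fin r, (l ^ r - l ^ (i : ℕ)) := by
  have := Fact.mk hl
  obtain ⟨ι, hι, s, hc, hs⟩ := h.gen
  obtain ⟨r, hr, hd⟩ := index_level_dvd (l := l) s hs
  exact ⟨r, hr.trans hc.le, hd⟩

theorem SurfN.bounds_aut (h : SurfN H N) : LevelBounds (level H) N := by
  intro G _ f hf
  have := h.surfH.fg
  have hfin : ∀ m : ℕ, 3 ≤ m → (level H m).FiniteIndex := fun m hm =>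
    level_finiteIndex (by omega)
  obtain ⟨h1, h2⟩ := den_main (L := level H) (N := N) (fun m hm => surf_aut h.surfH hm)
    (fun m => inferInstance) hfin (fun l hl _ => h.dvd l hl) f hf
  exact ⟨fun m hm => have := hfin m hm; comap_finiteIndex _ f, h2, h1⟩

theorem SurfN.bounds_out (h : SurfN H N) : LevelBounds (outLevel H) N := by
  intro G _ f hf
  have := h.surfH.fg
  have hfin : ∀ m : ℕ, 3 ≤ m → (outLevel H m).FiniteIndex := fun m hm =>
    outLevel_finiteIndex (by omega)
  obtain ⟨h1, h2⟩ := den_main (L := outLevel H) (N := N) (fun m hm => surf_out h.surfH hm)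
    (fun m => inferInstance) hfin (fun l hl _ => by
      obtain ⟨r, hr, hd⟩ := h.dvd l hl
      exact ⟨r, hr, index_outLevel_dvd.trans hd⟩) f hf
  exact ⟨fun m hm => have := hfin m hm; comap_finiteIndex _ f, h2, h1⟩

end

/-- The main theorem. -/
theorem levels_all {H : Type} [Group H] {N : ℕ} (hH : SurfN H N) :
    LevelBounds (level H) N ∧ LevelBounds (outLevel H) N :=
  ⟨hH.bounds_aut, hH.bounds_out⟩

end Pool.Agent.Lvl
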