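import Mathlib

set_option autoImplicit false

/-!
Primes which are primitive roots modulo `q ^ 2`, and the order of `GL_r(ℤ/l)` (Minkowski).
-/

open scoped Nat

namespace Pool.Agent.Lvl

/-- the exponent of the prime `q` in the bound `mink N` -/
def mexp (N q : ℕ) : ℕ :=
  if q = 2 then N + N / 2 + padicValNat 2 N ! else
    N / (q - 1) + padicValNat q (N / (q - 1))!

/-- the product over all primes `q ≤ N + 1` of `q ^ mexp N q`; for odd primes `q` the exponent is
`⌊N / (q - 1)⌋ + ⌊N / (q (q - 1))⌋ + ⌊N / (q ^ 2 (q - 1))⌋ + ...`, as in Minkowski's theorem. -/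
def mink (N : ℕ) : ℕ := ∏ q ∈ (Finset.range (N + 2)).filter Nat.Prime, q ^ mexp N q

/-- the bound for the `q`-adic valuation of `l ^ j - 1` -/
def oexp (q j : ℕ) : ℕ :=
  if q = 2 then (if 2 ∣ j then 2 + padicValNat 2 j else 1) else
    if (q - 1) ∣ j then 1 + padicValNat q (j / (q - 1)) else 0

theorem sum_oexp (q : ℕ) (hq : q.Prime) (r : ℕ) :
    ∑ j ∈ Finset.range r, oexp q (j + 1) = mexp r q := by
  have := Fact.mk hq
  induction r with
  | zero =>
    unfold mexp
    split_ifs with h
    · simp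
    · simp
  | succ r ih =>
    rw [Finset.sum_range_succ, ih]
    unfold mexp oexp
    split_ifs with h h1 h1
    · have h2 : (r + 1) / 2 = r / 2 + 1 := by omega
      rw [h2, Nat.factorial_succ, padicValNat.mul (by omega) (Nat.factorial_ne_zero r)]
      omega
    · have h2 : (r + 1) / 2 = r / 2 := by omega
      have h3 : padicValNat 2 (r + 1) = 0 := padicValNat.eq_zero_of_not_dvd h1
      rw [h2, Nat.factorial_succ, padicValNat.mul (by omega) (Nat.factorial_ne_zero r)]
      omega
    · have h2 : (r + 1) / (q - 1) = r / (q - 1) + 1 := by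
        rw [Nat.succ_div, if_pos h1]
      have h3 : r / (q - 1) + 1 ≠ 0 := Nat.succ_ne_zero _
      rw [h2, Nat.factorial_succ, padicValNat.mul h3 (Nat.factorial_ne_zero _)]
      omega
    · have h2 : (r + 1) / (q - 1) = r / (q - 1) := by
        rw [Nat.succ_div, if_neg h1, add_zero]
      rw [h2]
      rfl

theorem mexp_mono {q : ℕ} (hq : q.Prime) {r N : ℕ} (h : r ≤ N) : mexp r q ≤ mexp N q := by
  rw [← sum_oexp q hq, ← sum_oexp q hq]
  exact Finset.sum_le_sum_of_subset (Finset.range_subset_range.2 h)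

theorem mexp_eq_zero {q N : ℕ} (hq : q.Prime) (h : N + 1 < q) : mexp N q = 0 := by
  have h2 := hq.two_le
  unfold mexp
  rw [Nat.div_eq_of_lt (by omega : N < q - 1)]
  split_ifs with h3
  · subst h3
    have h4 : N = 0 := by omega
    subst h4
    simp
  · simp

theorem mink_ne_zero (N : ℕ) : mink N ≠ 0 := by
  unfold mink
  rw [Finset.prod_ne_zero_iff]
  intro q hq
  rw [Finset.mem_filter] at hq
  exact pow_ne_zero _ hq.2.ne_zero

theorem dvd_mink {d N : ℕ} (hd : d ≠ 0) (h : ∀ q : ℕ, q.Prime → padicValNat q d ≤ mexp N q) :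
    d ∣ mink N := by
  rw [Nat.dvd_iff_prime_pow_dvd_dvd]
  intro p k hp hk
  have := Fact.mk hp
  have h1 : k ≤ mexp N p := ((padicValNat_dvd_iff_le hd).1 hk).trans (h p hp)
  rcases Nat.eq_zero_or_pos k with h0 | h0
  · rw [h0, pow_zero]
    exact one_dvd _
  have h2 : p < N + 2 := by
    by_contra h3
    have h4 := mexp_eq_zero (N := N) hp (by omega)
    omega
  refine (pow_dvd_pow p h1).trans ?_
  unfold mink
  exact Finset.dvd_prod_of_mem (fun q => q ^ mexp N q)
    (Finset.mem_filter.2 ⟨Finset.mem_range.2 h2, hp⟩)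

theorem val_prod_pow {q : ℕ} (hq : q.Prime) (e : ℕ → ℕ) (s : Finset ℕ) (hs : ∀ p ∈ s, p.Prime) :
    padicValNat q (∏ p ∈ s, p ^ e p) = if q ∈ s then e q else 0 := by
  have := Fact.mk hq
  induction s using Finset.induction_on with
  | empty => simp
  | insert a s ha ih =>
    have hap : a.Prime := hs a (Finset.mem_insert_self a s)
    have h0 : ∏ p ∈ s, p ^ e p ≠ 0 :=
      Finset.prod_ne_zero_iff.2 fun p hp =>
        pow_ne_zero _ (hs p (Finset.mem_insert_of_mem hp)).ne_zero
    rw [Finset.prod_insert ha, padicValNat.mul (pow_ne_zero _ hap.ne_zero) h0,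
      ih fun p hp => hs p (Finset.mem_insert_of_mem hp)]
    by_cases hqa : q = a
    · subst hqa
      rw [padicValNat.prime_pow, if_neg ha, if_pos (Finset.mem_insert_self q s), add_zero]
    · have h1 : padicValNat q (a ^ e a) = 0 :=
        padicValNat.eq_zero_of_not_dvd fun h =>
          hqa ((Nat.prime_dvd_prime_iff_eq hq hap).1 (hq.dvd_of_dvd_pow h))
      rw [h1, zero_add]
      by_cases hqs : q ∈ s
      · rw [if_pos hqs, if_pos (Finset.mem_insert_of_mem hqs)]
      · rw [if_neg hqs, if_neg]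
        intro h
        rcases Finset.mem_insert.1 h with h | h
        · exact hqa h
        · exact hqs h

theorem mink_val {q : ℕ} (hq : q.Prime) (N : ℕ) : padicValNat q (mink N) = mexp N q := by
  unfold mink
  rw [val_prod_pow hq _ _ fun p hp => (Finset.mem_filter.1 hp).2]
  split_ifs with h
  · rfl
  · refine (mexp_eq_zero hq ?_).symm
    by_contra h1
    exact h (Finset.mem_filter.2 ⟨Finset.mem_range.2 (by omega), hq⟩)

theorem exists_prime_level (q : ℕ) (hq : q.Prime) : ∃ l : ℕ, l.Prime ∧ 3 ≤ l ∧ l ≠ q ∧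
    ∀ j, j ≠ 0 → padicValNat q (l ^ j - 1) ≤ oexp q j := by
  have := Fact.mk hq
  rcases eq_or_ne q 2 with rfl | hq2
  · refine ⟨3, Nat.prime_three, le_rfl, by norm_num, fun j hj => ?_⟩
    unfold oexp
    rw [if_pos rfl]
    split_ifs with h
    · have h1 := padicValNat.pow_two_sub_pow (x := 3) (y := 1) (by norm_num) (by norm_num)
        (by norm_num) hj (even_iff_two_dvd.2 h)
      rw [one_pow] at h1
      have h2 : padicValNat 2 (3 + 1) = 2 := by
        have h3 : (3 + 1 : ℕ) = 2 ^ 2 := by norm_num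
        rw [h3, padicValNat.prime_pow]
      have h3 : padicValNat 2 (3 - 1) = 1 := by
        have h3 : (3 - 1 : ℕ) = 2 ^ 1 := by norm_num
        rw [h3, padicValNat.prime_pow]
      omega
    · have h1 : 3 ^ j % 8 = 3 := by
        obtain ⟨t, ht⟩ : Odd j := Nat.not_even_iff_odd.1 fun h' => h (even_iff_two_dvd.1 h')
        rw [ht, pow_succ, pow_mul, Nat.mul_mod, Nat.pow_mod]
        norm_num
      have h2 : ¬ 2 ^ 2 ∣ 3 ^ j - 1 := by
        intro h3
        have h4 : 0 < 3 ^ j := by positivity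
        omega
      by_contra h3
      apply h2
      have h4 : 3 ^ j - 1 ≠ 0 := by
        intro h5
        have h6 : 0 < 3 ^ j := by positivity
        omega
      exact (padicValNat_dvd_iff_le h4).2 (by omega)
  · have hq3 : 3 ≤ q := by
      have := hq.two_le
      omega
    have hodd : Odd q := hq.odd_of_ne_two hq2
    have hcyc := ZMod.isCyclic_units_of_prime_pow q hq hq2 2
    obtain ⟨u, hu⟩ := hcyc.exists_generator
    have hord : orderOf u = q * (q - 1) := by
      rw [orderOf_eq_card_of_forall_mem_zpowers hu, Nat.card_eq_fintype_card,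
        ZMod.card_units_eq_totient, Nat.totient_prime_pow hq (by norm_num)]
      norm_num
    have hne : NeZero (q ^ 2) := ⟨pow_ne_zero _ hq.ne_zero⟩
    obtain ⟨l, hl2, hl, hlu⟩ := Nat.forall_exists_prime_gt_and_eq_mod (q := q ^ 2)
      (a := (u : ZMod (q ^ 2))) u.isUnit (max 2 q)
    have hl3 : 3 ≤ l := by
      have := le_max_left 2 q
      omega
    have hlq : q < l := by
      have := le_max_right 2 q
      omega
    have hql : ¬ q ∣ l := by
      intro h
      rcases (Nat.dvd_prime hl).1 h with h | h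
      · omega
      · omega
    have hpow : ∀ j, q ^ 2 ∣ l ^ j - 1 → q * (q - 1) ∣ j := by
      intro j hj
      rw [← hord]
      apply orderOf_dvd_of_pow_eq_one
      apply Units.ext
      rw [Units.val_pow_eq_pow_val, ← hlu, Units.val_one]
      have h1 : 1 ≤ l ^ j := Nat.one_le_pow _ _ (by omega)
      have h2 : ((l ^ j - 1 : ℕ) : ZMod (q ^ 2)) = 0 := (ZMod.natCast_eq_zero_iff _ _).2 hj
      rw [Nat.cast_sub h1, Nat.cast_pow, Nat.cast_one] at h2
      exact sub_eq_zero.1 h2
    have hsub : ∀ j, 1 ≤ l ^ j := fun j => Nat.one_le_pow _ _ (by omega)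
    have hgt : ∀ j, j ≠ 0 → 1 < l ^ j := fun j hj => Nat.one_lt_pow hj (by omega)
    have hnd : ∀ j, ¬ q ∣ l ^ j := fun j h => hql (hq.dvd_of_dvd_pow h)
    have hdiv : ∀ j, j ≠ 0 → q ∣ l ^ j - 1 → (q - 1) ∣ j := by
      intro j hj h
      have h1 : padicValNat q ((l ^ j) ^ q - 1 ^ q) =
          padicValNat q (l ^ j - 1) + padicValNat q q :=
        padicValNat.pow_sub_pow hodd (hgt j hj) h (hnd j) hq.ne_zero
      rw [one_pow, ← pow_mul, padicValNat_self] at h1
      have h0 : l ^ j - 1 ≠ 0 := by have := hgt j hj; omega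
      have h0' : l ^ (j * q) - 1 ≠ 0 := by
        have := hgt (j * q) (Nat.mul_ne_zero hj hq.ne_zero)
        omega
      have h2 : 1 ≤ padicValNat q (l ^ j - 1) := one_le_padicValNat_of_dvd h0 h
      have h3 : q ^ 2 ∣ l ^ (j * q) - 1 := (padicValNat_dvd_iff_le h0').2 (by omega)
      have h4 := hpow _ h3
      rw [mul_comm j q] at h4
      exact Nat.dvd_of_mul_dvd_mul_left hq.pos h4
    have hval : padicValNat q (l ^ (q - 1) - 1) ≤ 1 := by
      by_contra h
      have h0 : l ^ (q - 1) - 1 ≠ 0 := by have := hgt (q - 1) (by omega); omega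
      have h1 : q ^ 2 ∣ l ^ (q - 1) - 1 := (padicValNat_dvd_iff_le h0).2 (by omega)
      have h2 := Nat.le_of_dvd (by omega) (hpow _ h1)
      have h3 : 1 * (q - 1) < q * (q - 1) := Nat.mul_lt_mul_of_pos_right (by omega) (by omega)
      omega
    refine ⟨l, hl, hl3, hlq.ne', fun j hj => ?_⟩
    unfold oexp
    rw [if_neg hq2]
    split_ifs with h
    · obtain ⟨t, rfl⟩ := h
      have ht : t ≠ 0 := by
        rintro rfl
        exact hj (mul_zero _)
      rw [Nat.mul_div_cancel_left _ (by omega)]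
      by_cases hd : q ∣ l ^ (q - 1) - 1
      · have h1 : padicValNat q ((l ^ (q - 1)) ^ t - 1 ^ t) =
            padicValNat q (l ^ (q - 1) - 1) + padicValNat q t :=
          padicValNat.pow_sub_pow hodd (hgt _ (by omega)) hd (hnd _) ht
        rw [one_pow, ← pow_mul] at h1
        omega
      · exfalso
        apply hd
        have h1 : (l : ZMod q) ^ (q - 1) = 1 := by
          refine ZMod.pow_card_sub_one_eq_one ?_
          intro h2
          exact hql ((ZMod.natCast_eq_zero_iff _ _).1 h2)
        rw [← ZMod.natCast_eq_zero_iff, Nat.cast_sub (hsub _), Nat.cast_pow, h1]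
        simp
    · rw [Nat.le_zero]
      exact padicValNat.eq_zero_of_not_dvd fun h1 => h (hdiv j hj h1)

theorem val_prod {q l : ℕ} (hq : q.Prime) (hl : l.Prime) (hlq : l ≠ q)
    (h : ∀ j, j ≠ 0 → padicValNat q (l ^ j - 1) ≤ oexp q j) (r : ℕ) :
    padicValNat q (∏ i : Fin r, (l ^ r - l ^ (i : ℕ))) ≤ mexp r q := by
  have := Fact.mk hq
  have hql : ¬ q ∣ l := by
    intro h
    rcases (Nat.dvd_prime hl).1 h with h | h
    · exact hq.one_lt.ne' h
    · exact hlq h.symm
  have h1 : ∀ i : Fin r, l ^ r - l ^ (i : ℕ) = l ^ (i : ℕ) * (l ^ (r - i) - 1) := by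
    intro i
    rw [Nat.mul_sub, mul_one, ← pow_add]
    congr 2
    have := i.2
    omega
  have h0 : ∀ s : Finset (Fin r),
      padicValNat q (∏ i ∈ s, (l ^ r - l ^ (i : ℕ))) ≤ ∑ i ∈ s, oexp q (r - i) := by
    intro s
    induction s using Finset.induction_on with
    | empty => simp
    | insert a s ha ih =>
      rw [Finset.prod_insert ha, Finset.sum_insert ha]
      have ha' : r - (a : ℕ) ≠ 0 := by
        have := a.2
        omega
      have hpos : ∀ i : Fin r, l ^ r - l ^ (i : ℕ) ≠ 0 := by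
        intro i
        have h3 : l ^ (i : ℕ) < l ^ r := Nat.pow_lt_pow_right hl.one_lt i.2
        omega
      rw [padicValNat.mul (hpos a) (Finset.prod_ne_zero_iff.2 fun i _ => hpos i)]
      have h4 : padicValNat q (l ^ r - l ^ (a : ℕ)) ≤ oexp q (r - a) := by
        rw [h1 a, padicValNat.mul (pow_ne_zero _ hl.ne_zero) (by
          have h3 : 1 < l ^ (r - (a : ℕ)) := Nat.one_lt_pow ha' hl.one_lt
          omega)]
        have h5 : padicValNat q (l ^ (a : ℕ)) = 0 :=
          padicValNat.eq_zero_of_not_dvd fun h6 => hql (hq.dvd_of_dvd_pow h6)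
        rw [h5, zero_add]
        exact h _ ha'
      omega
  refine (h0 Finset.univ).trans ?_
  rw [← sum_oexp q hq r, Fin.sum_univ_eq_sum_range (fun i => oexp q (r - i)) r,
    ← Finset.sum_range_reflect]
  refine le_of_eq (Finset.sum_congr rfl fun i hi => ?_)
  rw [Finset.mem_range] at hi
  congr 1
  omega

end Pool.Agent.Lvl
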