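import Pool.Agent.Lvl.Final
import Pool.Agent.Lvl.OddNT

set_option autoImplicit false
set_option linter.unusedSectionVars false

noncomputable section

/-!
The index of the level `l` subgroups (`l` a prime) divides the order of `GL_r(ℤ/l)`, where `r` is at
most the number of generators; the resulting bound for the von Neumann dimensions.
-/

namespace Pool.Agent.Lvl

open Pool.Agent.VN

section

variable (H : Type) [Group H] (l : ℕ)

theorem quot_UU_comm (a b : H ⧸ UU H l) : a * b = b * a := by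
  obtain ⟨a, rfl⟩ := QuotientGroup.mk_surjective a
  obtain ⟨b, rfl⟩ := QuotientGroup.mk_surjective b
  rw [← QuotientGroup.mk_mul, ← QuotientGroup.mk_mul, QuotientGroup.eq]
  refine Subgroup.subset_closure (Or.inl ⟨b⁻¹, a⁻¹, ?_⟩)
  group

instance quotUUComm : CommGroup (H ⧸ UU H l) :=
  { (inferInstance : Group (H ⧸ UU H l)) with mul_comm := quot_UU_comm H l }

/-- `H₁(H; ℤ/l)`, written additively -/
abbrev HL : Type := Additive (H ⧸ UU H l)

theorem HL_smul (x : HL H l) : l • x = 0 := by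
  obtain ⟨a, ha⟩ := QuotientGroup.mk_surjective x.toMul
  have h1 : ((a ^ l : H) : H ⧸ UU H l) = 1 :=
    (QuotientGroup.eq_one_iff _).2 (Subgroup.subset_closure (Or.inr ⟨a, rfl⟩))
  have h2 : x.toMul ^ l = 1 := by
    rw [← ha]
    exact h1
  exact congrArg Additive.ofMul h2

instance HLmodule : Module (ZMod l) (HL H l) := AddCommGroup.zmodModule (HL_smul H l)

/-- endomorphisms of the abelian group as linear maps -/
def toEndL : Monoid.End (H ⧸ UU H l) →* Module.End (ZMod l) (HL H l) where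
  toFun f := (MonoidHom.toAdditive (f : (H ⧸ UU H l) →* (H ⧸ UU H l))).toZModLinearMap l
  map_one' := by
    ext x
    rfl
  map_mul' f g := by
    ext x
    rfl

theorem toEndL_injective : Function.Injective (toEndL H l) := by
  intro f g h
  apply MonoidHom.ext
  intro x
  exact congrArg (fun u : Module.End (ZMod l) (HL H l) => (u (Additive.ofMul x)).toMul) h

end

section

variable {H : Type} [Group H] {l : ℕ}

theorem finrank_HL [Fact l.Prime] {ι : Type} [Fintype ι] (s : ι → H)
    (hs : Subgroup.closure (Set.range s) = ⊤) :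
    Module.finrank (ZMod l) (HL H l) ≤ Fintype.card ι := by
  have h1 : Submodule.span (ZMod l)
      (Set.range fun i => (Additive.ofMul (s i : H ⧸ UU H l) : HL H l)) = ⊤ := by
    rw [eq_top_iff]
    rintro x -
    obtain ⟨a, ha⟩ := QuotientGroup.mk_surjective x.toMul
    have h2 : ∀ a : H, (Additive.ofMul (a : H ⧸ UU H l) : HL H l) ∈ Submodule.span (ZMod l)
        (Set.range fun i => (Additive.ofMul (s i : H ⧸ UU H l) : HL H l)) := by
      intro a
      have ha : a ∈ Subgroup.closure (Set.range s) := by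
        rw [hs]
        exact Subgroup.mem_top a
      induction ha using Subgroup.closure_induction with
      | mem x hx =>
        obtain ⟨i, rfl⟩ := hx
        exact Submodule.subset_span ⟨i, rfl⟩
      | one => exact Submodule.zero_mem _
      | mul x y _ _ hx hy => exact Submodule.add_mem _ hx hy
      | inv x _ hx => exact Submodule.neg_mem _ hx
    have h3 := h2 a
    rw [ha] at h3
    exact h3
  have h2 := finrank_range_le_card (R := ZMod l)
    (fun i => (Additive.ofMul (s i : H ⧸ UU H l) : HL H l))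
  rw [Set.finrank, h1, finrank_top] at h2
  exact h2

/-- the index of the level `l` subgroup divides the order of `GL_r(ℤ/l)` -/
theorem index_level_dvd [hl : Fact l.Prime] {ι : Type} [Fintype ι] (s : ι → H)
    (hs : Subgroup.closure (Set.range s) = ⊤) : ∃ r, r ≤ Fintype.card ι ∧
      (level H l).index ∣ ∏ i : Fin r, (l ^ r - l ^ (i : ℕ)) := by
  have hfg : Group.FG H := by
    refine ⟨⟨(Set.finite_range s).toFinset, ?_⟩⟩
    rw [Set.Finite.coe_toFinset]
    exact hs
  have hfin : Finite (H ⧸ UU H l) := finite_quot hl.out.pos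
  have hfin' : Finite (HL H l) := inferInstanceAs (Finite (H ⧸ UU H l))
  have hmod : Module.Finite (ZMod l) (HL H l) := Module.Finite.of_finite
  let b := Module.finBasis (ZMod l) (HL H l)
  refine ⟨Module.finrank (ZMod l) (HL H l), finrank_HL s hs, ?_⟩
  let M : Module.End (ZMod l) (HL H l) →*
      Matrix (Fin (Module.finrank (ZMod l) (HL H l))) (Fin (Module.finrank (ZMod l) (HL H l)))
        (ZMod l) := (LinearMap.toMatrixAlgEquiv b : _ ≃ₐ[ZMod l] _)
  have hM : Function.Injective M := (LinearMap.toMatrixAlgEquiv b).injective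
  let Φ : MulAut H →* Matrix.GeneralLinearGroup
      (Fin (Module.finrank (ZMod l) (HL H l))) (ZMod l) :=
    (Units.map (M.comp (toEndL H l))).comp (actQ H l).toHomUnits
  have hker : Φ.ker = level H l := by
    rw [← ker_actQ]
    ext φ
    rw [MonoidHom.mem_ker, MonoidHom.mem_ker]
    constructor
    · intro h
      refine Units.map_injective (f := M.comp (toEndL H l))
        (hM.comp (toEndL_injective H l)) ?_
      rw [map_one]
      exact h
    · intro h
      show Units.map (M.comp (toEndL H l)) ((actQ H l).toHomUnits φ) = 1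
      rw [h, map_one]
  rw [← hker, Subgroup.index_ker]
  have h1 := Subgroup.card_subgroup_dvd_card Φ.range
  rw [Matrix.card_GL_field, ZMod.card] at h1
  exact h1

instance level_normal : (level H l).Normal := by
  rw [← ker_actQ]
  infer_instance

instance outLevel_normal : (outLevel H l).Normal := by
  unfold outLevel
  exact Subgroup.Normal.map inferInstance _ (QuotientGroup.mk'_surjective _)

theorem index_outLevel_dvd : (outLevel H l).index ∣ (level H l).index :=
  Subgroup.index_map_dvd (level H l) (QuotientGroup.mk'_surjective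
    (MulAut.conj : H →* MulAut H).range)

end

/-! ### The common denominator -/

section

variable {x : ℝ}

theorem exists_den {S : Set ℕ} (h : ∀ k ∈ S, k ≠ 0 ∧ ∃ z : ℤ, (k : ℝ) * x = z)
    (hS : S.Nonempty) : ∃ d : ℕ, d ≠ 0 ∧ (∃ z : ℤ, (d : ℝ) * x = z) ∧ ∀ k ∈ S, d ∣ k := by
  classical
  let I : AddSubgroup ℤ :=
    { carrier := {k | ∃ z : ℤ, (k : ℝ) * x = z}
      add_mem' := by
        rintro a b ⟨z, hz⟩ ⟨w, hw⟩
        refine ⟨z + w, ?_⟩
        push_cast
        rw [add_mul, hz, hw]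
      zero_mem' := ⟨0, by simp⟩
      neg_mem' := by
        rintro a ⟨z, hz⟩
        refine ⟨-z, ?_⟩
        push_cast
        rw [neg_mul, hz] }
  obtain ⟨g, hg⟩ := Int.subgroup_cyclic I
  have hmem : ∀ k ∈ S, (k : ℤ) ∈ I := by
    intro k hk
    obtain ⟨z, hz⟩ := (h k hk).2
    exact ⟨z, by exact_mod_cast hz⟩
  have hdvd : ∀ k ∈ S, g.natAbs ∣ k := by
    intro k hk
    have h1 := hmem k hk
    rw [hg, AddSubgroup.mem_closure_singleton] at h1
    obtain ⟨n, hn⟩ := h1
    have h2 : g ∣ (k : ℤ) := ⟨n, by rw [← hn, smul_eq_mul, mul_comm]⟩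
    exact Int.natAbs_dvd_natAbs.2 h2
  refine ⟨g.natAbs, ?_, ?_, hdvd⟩
  · obtain ⟨k, hk⟩ := hS
    intro h0
    have h1 := hdvd k hk
    rw [h0] at h1
    exact (h k hk).1 (Nat.eq_zero_of_zero_dvd h1)
  · have h1 : (g.natAbs : ℤ) ∈ I := by
      have h2 : g ∈ I := by
        rw [hg]
        exact AddSubgroup.mem_closure_singleton_self g
      rcases Int.natAbs_eq g with h3 | h3
      · rw [← h3]
        exact h2
      · have h4 : (g.natAbs : ℤ) = -g := by omega
        rw [h4]
        exact I.neg_mem h2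
    obtain ⟨z, hz⟩ := h1
    exact ⟨z, by rw [← hz, Int.cast_natCast]⟩

end

/-- The main lemma: a group `Q` with a subgroup `L m` for every `m ≥ 3` as the level subgroups. -/
theorem den_main {Q : Type} [Group Q] {L : ℕ → Subgroup Q} {N : ℕ}
    (hL : ∀ m, 3 ≤ m → AtiyahOver ⊤ (L m)) (hn : ∀ m, (L m).Normal)
    (hf : ∀ m, 3 ≤ m → (L m).FiniteIndex)
    (hd : ∀ l, l.Prime → 3 ≤ l → ∃ r, r ≤ N ∧ (L l).index ∣ ∏ i : Fin r, (l ^ r - l ^ (i : ℕ)))
    {G : Type} [Group G] (f : G →* Q) (hi : Function.Injective f) :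
    (∀ (r n : ℕ) (A : Matrix (Fin r) (Fin n) (G →₀ ℂ)),
      (∀ m, 3 ≤ m → ∃ z : ℤ, (((L m).comap f).index : ℝ) * kerDim A = z) ∧
        ∃ z : ℤ, (mink N : ℝ) * kerDim A = z) ∧
    ((∀ q : ℕ, q.Prime → q ≤ N + 1 → ∃ m, 3 ≤ m ∧ ¬ q ∣ ((L m).comap f).index) →
      AtiyahOver ⊤ G) := by
  have hfi : ∀ m, 3 ≤ m → ((L m).comap f).index ≠ 0 := by
    intro m hm
    have := hf m hm
    exact (comap_finiteIndex (L m) f).index_ne_zero
  have hval : ∀ q : ℕ, q.Prime → ∃ m, 3 ≤ m ∧
      padicValNat q ((L m).comap f).index ≤ mexp N q := by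
    intro q hq
    have := Fact.mk hq
    obtain ⟨l, hl, hl3, hlq, h⟩ := exists_prime_level q hq
    obtain ⟨r, hr, hdr⟩ := hd l hl hl3
    refine ⟨l, hl3, ?_⟩
    have hp0 : ∏ i : Fin r, (l ^ r - l ^ (i : ℕ)) ≠ 0 := by
      rw [Finset.prod_ne_zero_iff]
      intro i _
      have h3 : l ^ (i : ℕ) < l ^ r := Nat.pow_lt_pow_right hl.one_lt i.2
      omega
    have h1 : ((L l).comap f).index ∣ ∏ i : Fin r, (l ^ r - l ^ (i : ℕ)) := by
      refine Dvd.dvd.trans ?_ hdr
      rw [Subgroup.index_comap]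
      have := hn l
      exact Subgroup.relIndex_dvd_index_of_normal (L l) f.range
    exact ((padicValNat_dvd_iff_le hp0).1 (pow_padicValNat_dvd.trans h1)).trans
      ((val_prod hq hl hlq h r).trans (mexp_mono hq hr))
  have hz : ∀ (r n : ℕ) (A : Matrix (Fin r) (Fin n) (G →₀ ℂ)) (m : ℕ), 3 ≤ m →
      ∃ z : ℤ, (((L m).comap f).index : ℝ) * kerDim A = z :=
    fun r n A m hm => index_mul (L m) (hL m hm) f hi A
  have hden : ∀ (r n : ℕ) (A : Matrix (Fin r) (Fin n) (G →₀ ℂ)), ∃ d : ℕ, d ≠ 0 ∧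
      (∃ z : ℤ, (d : ℝ) * kerDim A = z) ∧ ∀ m, 3 ≤ m → d ∣ ((L m).comap f).index := by
    intro r n A
    obtain ⟨d, h0, h1, h2⟩ := exists_den (x := kerDim A)
      (S := {k | ∃ m, 3 ≤ m ∧ k = ((L m).comap f).index}) (by
        rintro _ ⟨m, hm, rfl⟩
        exact ⟨hfi m hm, hz r n A m hm⟩) ⟨_, 3, le_rfl, rfl⟩
    exact ⟨d, h0, h1, fun m hm => h2 _ ⟨m, hm, rfl⟩⟩
  refine ⟨fun r n A => ⟨hz r n A, ?_⟩, fun h r n A _ => ?_⟩
  · obtain ⟨d, h0, ⟨z, hz⟩, h2⟩ := hden r n A
    have h3 : d ∣ mink N := by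
      refine dvd_mink h0 fun q hq => ?_
      have := Fact.mk hq
      obtain ⟨m, hm, h4⟩ := hval q hq
      exact ((padicValNat_dvd_iff_le (hfi m hm)).1 (pow_padicValNat_dvd.trans (h2 m hm))).trans h4
    obtain ⟨e, he⟩ := h3
    refine ⟨z * e, ?_⟩
    rw [he]
    push_cast
    rw [← hz]
    ring
  · obtain ⟨d, h0, ⟨z, hz⟩, h2⟩ := hden r n A
    have h3 : d = 1 := by
      by_contra h4
      obtain ⟨q, hq, hqd⟩ := Nat.exists_prime_and_dvd h4
      have := Fact.mk hq
      by_cases hqN : q ≤ N + 1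
      · obtain ⟨m, hm, h5⟩ := h q hq hqN
        exact h5 (hqd.trans (h2 m hm))
      · obtain ⟨m, hm, h5⟩ := hval q hq
        rw [mexp_eq_zero hq (by omega), Nat.le_zero, padicValNat.eq_zero_iff] at h5
        rcases h5 with h5 | h5 | h5
        · exact hq.one_lt.ne' h5
        · exact hfi m hm h5
        · exact h5 (hqd.trans (h2 m hm))
    rw [h3, Nat.cast_one, one_mul] at hz
    exact ⟨z, hz⟩

end Pool.Agent.Lvl
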