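import Pool.Agent.Lvl.OddF

set_option autoImplicit false
set_option linter.unusedSectionVars false

noncomputable section

/-!
The level subgroups of the automorphism groups of all finitely generated residually torsion-free
nilpotent groups.
-/

namespace Pool.Agent.Lvl

open Pool.Agent.VN

/-- `H` is generated by `N` elements, and for every `g ≠ 1` in `H` there is a homomorphism from `H`
to the group of unitriangular matrices over `ℚ` of some size which does not kill `g`. (By a theorem
of Malcev this means that `H` is generated by `N` elements and residually torsion-free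
nilpotent.) -/
def RTFN (H : Type) [Group H] (N : ℕ) : Prop :=
  (∃ s : Fin N → H, Subgroup.closure (Set.range s) = ⊤) ∧ ResU H

section

variable {H : Type} [Group H] {N : ℕ}

theorem RTFN.fg (h : RTFN H N) : Group.FG H := by
  obtain ⟨⟨s, hs⟩, -⟩ := h
  exact Group.fg_iff.2 ⟨Set.range s, hs, Set.finite_range s⟩

theorem RTFN.dvd (h : RTFN H N) (l : ℕ) (hl : l.Prime) :
    ∃ r, r ≤ N ∧ (level H l).index ∣ ∏ i : Fin r, (l ^ r - l ^ (i : ℕ)) := by
  have := Fact.mk hl
  obtain ⟨⟨s, hs⟩, -⟩ := h
  obtain ⟨r, hr, hd⟩ := index_level_dvd (l := l) s hs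
  exact ⟨r, hr.trans (Fintype.card_fin N).le, hd⟩

theorem RTFN.bounds (h : RTFN H N) : LevelBounds (level H) N := by
  intro G _ f hf
  have := h.fg
  have hfin : ∀ m : ℕ, 3 ≤ m → (level H m).FiniteIndex := fun m hm =>
    level_finiteIndex (by omega)
  obtain ⟨h1, h2⟩ := den_main (L := level H) (N := N)
    (fun m hm => strong_level (residual_of_uni h.2) hm)
    (fun m => inferInstance) hfin (fun l hl _ => h.dvd l hl) f hf
  exact ⟨fun m hm => have := hfin m hm; comap_finiteIndex _ f, h2, h1⟩

end

/-- The main theorem, for all finitely generated residually torsion-free nilpotent groups. -/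
theorem levels_res :
    (∀ (H : Type) [Group H] (N : ℕ), RTFN H N → LevelBounds (level H) N) ∧
    ∀ (H : Type) [Group H] (N : ℕ), SurfN H N →
      LevelBounds (level H) N ∧ LevelBounds (outLevel H) N :=
  ⟨fun _ _ _ h => h.bounds, fun _ _ _ h => levels_all h⟩

end Pool.Agent.Lvl
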