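import Mathlib

set_option autoImplicit false
set_option linter.unusedSectionVars false

/-!
Finite subgroups of the (outer) automorphism groups of free groups: the wreath product of the
symmetric groups `S_(b + 1)` and `S_k` acts on the free group with the basis `(i, j)`, `i < k`,
`j < b`, and additional basis elements.
-/

open scoped Nat

namespace Pool.Agent.Lvl.OddW

section

variable {κ β ρ : Type} [DecidableEq κ] [DecidableEq β] [DecidableEq ρ]

/-- the permutations of `κ × Option β` which preserve the blocks `{k} × Option β` -/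
def Wr (κ β : Type) : Subgroup (Equiv.Perm (κ × Option β)) where
  carrier := {w | ∀ a b, (w a).1 = (w b).1 ↔ a.1 = b.1}
  mul_mem' := by
    intro v w hv hw a b
    rw [Equiv.Perm.mul_apply, Equiv.Perm.mul_apply, hv, hw]
  one_mem' := fun a b => Iff.rfl
  inv_mem' := by
    intro w hw a b
    have h := hw (w⁻¹ a) (w⁻¹ b)
    have ha : w (w⁻¹ a) = a := w.apply_symm_apply a
    have hb : w (w⁻¹ b) = b := w.apply_symm_apply b
    rw [ha, hb] at h
    exact h.symm

/-- the basis elements; the elements `(k, none)` correspond to `1` -/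
def xx (ρ : Type) : κ × Option β → FreeGroup ((κ × β) ⊕ ρ)
  | (_, none) => 1
  | (k, some b) => FreeGroup.of (Sum.inl (k, b))

/-- the endomorphism defined by a permutation -/
def ph (ρ : Type) (w : Equiv.Perm (κ × Option β)) :
    FreeGroup ((κ × β) ⊕ ρ) →* FreeGroup ((κ × β) ⊕ ρ) :=
  FreeGroup.lift (Sum.elim (fun a => (xx ρ (w (a.1, none)))⁻¹ * xx ρ (w (a.1, some a.2)))
    (fun r => FreeGroup.of (Sum.inr r)))

theorem ph_xx (w : Equiv.Perm (κ × Option β)) (a : κ × Option β) :
    ph ρ w (xx ρ a) = (xx ρ (w (a.1, none)))⁻¹ * xx ρ (w a) := by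
  obtain ⟨k, o⟩ := a
  cases o with
  | none =>
    show ph ρ w 1 = _
    rw [map_one, inv_mul_cancel]
  | some b =>
    show ph ρ w (FreeGroup.of (Sum.inl (k, b))) = _
    rw [ph, FreeGroup.lift_apply_of]
    rfl

theorem ph_one : ph ρ (1 : Equiv.Perm (κ × Option β)) = MonoidHom.id _ := by
  refine FreeGroup.ext_hom _ _ ?_
  rintro (⟨k, b⟩ | r)
  · rw [ph, FreeGroup.lift_apply_of]
    show (1 : FreeGroup ((κ × β) ⊕ ρ))⁻¹ * FreeGroup.of (Sum.inl (k, b)) = _
    rw [inv_one, one_mul]
    rfl
  · rw [ph, FreeGroup.lift_apply_of]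
    rfl

theorem ph_mul (v w : Wr κ β) : ph ρ (v * w : Wr κ β).1 = (ph ρ v.1).comp (ph ρ w.1) := by
  refine FreeGroup.ext_hom _ _ ?_
  rintro (⟨k, b⟩ | r)
  · rw [MonoidHom.comp_apply, ph, FreeGroup.lift_apply_of]
    show _ = ph ρ v.1 (ph ρ w.1 (FreeGroup.of (Sum.inl (k, b))))
    have h1 : ph ρ w.1 (FreeGroup.of (Sum.inl (k, b))) =
        (xx ρ (w.1 (k, none)))⁻¹ * xx ρ (w.1 (k, some b)) := by
      rw [ph, FreeGroup.lift_apply_of]
      rfl
    rw [h1, map_mul, map_inv, ph_xx, ph_xx]
    have h2 : (w.1 (k, none)).1 = (w.1 (k, some b)).1 := (w.2 _ _).2 rfl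
    rw [h2]
    show (xx ρ (v.1 (w.1 (k, none))))⁻¹ * xx ρ (v.1 (w.1 (k, some b))) = _
    group
  · rw [MonoidHom.comp_apply, ph, FreeGroup.lift_apply_of]
    show FreeGroup.of (Sum.inr r) = ph ρ v.1 (ph ρ w.1 (FreeGroup.of (Sum.inr r)))
    have h1 : ∀ u : Equiv.Perm (κ × Option β), ph ρ u (FreeGroup.of (Sum.inr r)) =
        FreeGroup.of (Sum.inr r) := by
      intro u
      rw [ph, FreeGroup.lift_apply_of]
      rfl
    rw [h1, h1]

/-- the action of the wreath product on the free group -/
def act (κ β ρ : Type) [DecidableEq κ] [DecidableEq β] [DecidableEq ρ] :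
    Wr κ β →* MulAut (FreeGroup ((κ × β) ⊕ ρ)) where
  toFun w := MonoidHom.toMulEquiv (ph ρ w.1) (ph ρ (w⁻¹ : Wr κ β).1)
    (by rw [← ph_mul, inv_mul_cancel]; exact ph_one)
    (by rw [← ph_mul, mul_inv_cancel]; exact ph_one)
  map_one' := by
    ext x
    exact DFunLike.congr_fun ph_one x
  map_mul' v w := by
    ext x
    exact DFunLike.congr_fun (ph_mul v w) x

theorem act_apply (w : Wr κ β) (x : FreeGroup ((κ × β) ⊕ ρ)) : act κ β ρ w x = ph ρ w.1 x := rfl

/-- the exponent of one basis element -/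
def ex (ρ : Type) [DecidableEq ρ] (y : κ × β) : FreeGroup ((κ × β) ⊕ ρ) →* Multiplicative ℤ :=
  FreeGroup.lift fun z => Multiplicative.ofAdd (if z = Sum.inl y then 1 else 0)

theorem ex_xx (y : κ × β) (a : κ × Option β) :
    ex ρ y (xx ρ a) = Multiplicative.ofAdd (if a = (y.1, some y.2) then 1 else 0) := by
  obtain ⟨k, o⟩ := a
  cases o with
  | none =>
    show ex ρ y 1 = _
    rw [map_one, if_neg (by simp)]
    rfl
  | some b =>
    show ex ρ y (FreeGroup.of (Sum.inl (k, b))) = _
    rw [ex, FreeGroup.lift_apply_of]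
    congr 1
    by_cases h : (k, b) = y
    · rw [if_pos (by rw [h]), if_pos (by rw [← h])]
    · rw [if_neg (by simpa using h), if_neg]
      intro h'
      apply h
      have h1 := congrArg Prod.fst h'
      have h2 := congrArg Prod.snd h'
      exact Prod.ext h1 (Option.some_injective _ h2)

/-- a permutation which acts as an inner automorphism is trivial -/
theorem act_inner [Nonempty β] (w : Wr κ β) (g : FreeGroup ((κ × β) ⊕ ρ))
    (h : ∀ x, act κ β ρ w x = g * x * g⁻¹) : w = 1 := by
  have h1 : ∀ (y : κ × β) (x : FreeGroup ((κ × β) ⊕ ρ)), ex ρ y (ph ρ w.1 x) = ex ρ y x := by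
    intro y x
    rw [← act_apply, h, map_mul, map_mul, map_inv, mul_comm, inv_mul_cancel_left]
  have h2 : ∀ k b, w.1 (k, some b) = (k, some b) := by
    intro k b
    have h3 := h1 (k, b) (xx ρ (k, some b))
    rw [ph_xx, map_mul, map_inv, ex_xx, ex_xx, ex_xx, if_pos rfl] at h3
    have h4 := congrArg Multiplicative.toAdd h3
    rw [toAdd_mul, toAdd_inv, toAdd_ofAdd, toAdd_ofAdd, toAdd_ofAdd] at h4
    by_contra h5
    rw [if_neg h5] at h4
    split_ifs at h4
    · omega
    · omega
  apply Subtype.ext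
  refine Equiv.ext ?_
  rintro ⟨k, o⟩
  show w.1 (k, o) = (k, o)
  cases o with
  | some b => exact h2 k b
  | none =>
    obtain ⟨b⟩ := ‹Nonempty β›
    have h3 : (w.1 (k, none)).1 = k := by
      have h4 : (w.1 (k, none)).1 = (w.1 (k, some b)).1 := (w.2 _ _).2 rfl
      rw [h4, h2]
    rcases h5 : w.1 (k, none) with ⟨k', o'⟩
    rw [h5] at h3
    cases o' with
    | none =>
      have h6 : k' = k := h3
      rw [h6]
    | some b' =>
      exfalso
      rw [← h2 k' b'] at h5
      have h6 := w.1.injective h5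
      have h7 := congrArg Prod.snd h6
      simp at h7

/-! ### the order -/

/-- the permutation of the blocks -/
def blk (κ β : Type) : Wr κ β →* Equiv.Perm κ where
  toFun w :=
    { toFun := fun k => (w.1 (k, none)).1
      invFun := fun k => ((w⁻¹ : Wr κ β).1 (k, none)).1
      left_inv := by
        intro k
        have h1 := ((w⁻¹ : Wr κ β).2 ((w.1 (k, none)).1, none) (w.1 (k, none))).2 rfl
        show ((w⁻¹ : Wr κ β).1 ((w.1 (k, none)).1, none)).1 = k
        rw [h1]
        exact congrArg Prod.fst (w.1.symm_apply_apply (k, none))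
      right_inv := by
        intro k
        have h1 := (w.2 (((w⁻¹ : Wr κ β).1 (k, none)).1, none) ((w⁻¹ : Wr κ β).1 (k, none))).2 rfl
        show (w.1 (((w⁻¹ : Wr κ β).1 (k, none)).1, none)).1 = k
        rw [h1]
        exact congrArg Prod.fst (w.1.apply_symm_apply (k, none)) }
  map_one' := by
    ext k
    rfl
  map_mul' v w := by
    refine Equiv.ext fun k => ?_
    show (v.1 (w.1 (k, none))).1 = (v.1 ((w.1 (k, none)).1, none)).1
    exact (v.2 _ _).2 rfl

theorem blk_surjective : Function.Surjective (blk κ β) := by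
  intro σ
  refine ⟨⟨Equiv.prodCongr σ (Equiv.refl _), fun a b => ?_⟩, ?_⟩
  · exact σ.injective.eq_iff
  · refine Equiv.ext fun k => ?_
    rfl

/-- independent permutations of the blocks -/
def fib (κ β : Type) : (κ → Equiv.Perm (Option β)) →* (blk κ β).ker where
  toFun f := ⟨⟨⟨fun a => (a.1, f a.1 a.2), fun a => (a.1, (f a.1).symm a.2),
    fun a => by simp, fun a => by simp⟩, fun a b => Iff.rfl⟩, by
      rw [MonoidHom.mem_ker]
      refine Equiv.ext fun k => ?_
      rfl⟩
  map_one' := by
    apply Subtype.ext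
    apply Subtype.ext
    refine Equiv.ext fun a => ?_
    rfl
  map_mul' f g := by
    apply Subtype.ext
    apply Subtype.ext
    refine Equiv.ext fun a => ?_
    rfl

theorem fib_injective : Function.Injective (fib κ β) := by
  intro f g h
  funext k
  refine Equiv.ext fun o => ?_
  have h1 := congrArg (fun u : (blk κ β).ker => (u.1.1 (k, o)).2) h
  exact h1

theorem card_Wr [Finite κ] [Finite β] :
    ((Nat.card β + 1)! ^ Nat.card κ) * (Nat.card κ)! ∣ Nat.card (Wr κ β) := by
  have h1 : Nat.card (Wr κ β) = Nat.card (blk κ β).ker * (blk κ β).ker.index :=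
    (Subgroup.card_mul_index (blk κ β).ker).symm
  have h2 : (blk κ β).ker.index = (Nat.card κ)! := by
    rw [Subgroup.index_ker, MonoidHom.range_eq_top.2 blk_surjective]
    rw [Nat.card_congr (Subgroup.topEquiv (G := Equiv.Perm κ)).toEquiv, Nat.card_perm]
  have h3 : Nat.card (κ → Equiv.Perm (Option β)) ∣ Nat.card (blk κ β).ker :=
    Subgroup.card_dvd_of_injective (fib κ β) fib_injective
  rw [h1, h2]
  refine Nat.mul_dvd_mul ?_ dvd_rfl
  refine (dvd_of_eq ?_).trans h3
  have := Fintype.ofFinite κ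
  rw [Nat.card_fun, Nat.card_perm, Finite.card_option]

end

end Pool.Agent.Lvl.OddW
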