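import Pool.Agent.Lvl.OddF
import Pool.Agent.Lvl.OddW

set_option autoImplicit false
set_option linter.unusedSectionVars false

noncomputable section

/-!
The odd part of `mink N` divides the least common multiple of the orders of the finite subgroups of
the automorphism group and of the outer automorphism group of the free group of rank `N`.
-/

open scoped Nat

namespace Pool.Agent.Lvl

/-- finite subgroups of the (outer) automorphism group of the free group of rank `N` -/
theorem exists_finite_free (N : ℕ) {q : ℕ} (hq : q.Prime) :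
    ∃ (W : Type) (_ : Group W) (_ : Finite W) (j : W →* MulAut (FreeGroup (Fin N))),
      (∀ w, j w ∈ (MulAut.conj : FreeGroup (Fin N) →* MulAut (FreeGroup (Fin N))).range → w = 1) ∧
      q ^ (N / (q - 1) + padicValNat q (N / (q - 1))!) ∣ Nat.card W := by
  have hq2 := hq.two_le
  have := Fact.mk hq
  set K := N / (q - 1) with hK
  have hKN : K * (q - 1) ≤ N := Nat.div_mul_le_self N (q - 1)
  have hne : Nonempty (Fin (q - 1)) := ⟨⟨0, by omega⟩⟩
  let e : ((Fin K × Fin (q - 1)) ⊕ Fin (N - K * (q - 1))) ≃ Fin N :=
    Fintype.equivFinOfCardEq (by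
      rw [Fintype.card_sum, Fintype.card_prod, Fintype.card_fin, Fintype.card_fin,
        Fintype.card_fin]
      omega)
  let E := FreeGroup.freeGroupCongr e
  refine ⟨OddW.Wr (Fin K) (Fin (q - 1)), inferInstance, inferInstance,
    (MulAut.congr E).toMonoidHom.comp (OddW.act (Fin K) (Fin (q - 1)) (Fin (N - K * (q - 1)))),
    ?_, ?_⟩
  · rintro w ⟨g, hg⟩
    refine OddW.act_inner w (E.symm g) fun x => ?_
    have h1 := DFunLike.congr_fun hg (E x)
    have h2 : ((MulAut.congr E).toMonoidHom.comp
        (OddW.act (Fin K) (Fin (q - 1)) (Fin (N - K * (q - 1)))) w) (E x) =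
        E (OddW.act (Fin K) (Fin (q - 1)) (Fin (N - K * (q - 1))) w (E.symm (E x))) := rfl
    rw [h2, MulAut.conj_apply, E.symm_apply_apply] at h1
    rw [← E.symm_apply_apply (OddW.act (Fin K) (Fin (q - 1)) (Fin (N - K * (q - 1))) w x), ← h1]
    rw [map_mul, map_mul, map_inv, E.symm_apply_apply]
  · refine Dvd.dvd.trans ?_ (OddW.card_Wr (κ := Fin K) (β := Fin (q - 1)))
    rw [Nat.card_fin, Nat.card_fin, Nat.sub_add_cancel (by omega), pow_add]
    exact Nat.mul_dvd_mul (pow_dvd_pow_of_dvd (Nat.dvd_factorial hq.pos le_rfl) K)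
      pow_padicValNat_dvd

/-- for every odd prime `q` the automorphism group and the outer automorphism group of the free
group of rank `N` have finite subgroups whose orders are divisible by the `q`-part of `mink N` -/
theorem sharp_free (N : ℕ) {q : ℕ} (hq : q.Prime) (hq2 : q ≠ 2) :
    (∃ W : Subgroup (MulAut (FreeGroup (Fin N))), Finite W ∧
      q ^ padicValNat q (mink N) ∣ Nat.card W) ∧
    ∃ W : Subgroup (Out (FreeGroup (Fin N))), Finite W ∧
      q ^ padicValNat q (mink N) ∣ Nat.card W := by
  obtain ⟨W, _, _, j, hj, hd⟩ := exists_finite_free N hq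
  have h1 : q ^ padicValNat q (mink N) ∣ Nat.card W := by
    rw [mink_val hq, mexp, if_neg hq2]
    exact hd
  constructor
  · have hi : Function.Injective j := by
      rw [injective_iff_map_eq_one]
      intro w hw
      exact hj w (by rw [hw]; exact Subgroup.one_mem _)
    refine ⟨j.range, Finite.of_surjective j.rangeRestrict j.rangeRestrict_surjective, ?_⟩
    rw [← Nat.card_congr (MonoidHom.ofInjective hi).toEquiv]
    exact h1
  · let j' : W →* Out (FreeGroup (Fin N)) := (QuotientGroup.mk' _).comp j
    have hi : Function.Injective j' := by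
      rw [injective_iff_map_eq_one]
      intro w hw
      exact hj w ((QuotientGroup.eq_one_iff _).1 hw)
    refine ⟨j'.range, Finite.of_surjective j'.rangeRestrict j'.rangeRestrict_surjective, ?_⟩
    rw [← Nat.card_congr (MonoidHom.ofInjective hi).toEquiv]
    exact h1

end Pool.Agent.Lvl
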