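import Mathlib

set_option autoImplicit false

noncomputable section

/-!
PACKAGE LVL-ORE. A (left) Noetherian domain satisfies the (left) Ore condition.

`IsNoetherianRing.strongRankCondition` (the ring is nontrivial): the linear map of left modules
`(Fin 2 → R) → (Fin 1 → R)`, `v ↦ v 0 * a - v 1 * b` is not injective
(`StrongRankCondition.le_of_fin_injective`), so there is `v ≠ 0` with `v 0 * a = v 1 * b`. As `R` is
a domain and `a ≠ 0`, `b ≠ 0`, both `v 0` and `v 1` are nonzero.
-/

namespace Pool.Agent.Lvl

theorem ore {R : Type} [Ring R] [IsDomain R] [IsNoetherianRing R] {a b : R} (ha : a ≠ 0)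
    (hb : b ≠ 0) : ∃ x y : R, x ≠ 0 ∧ y ≠ 0 ∧ x * a = y * b := by
  let L : (Fin 2 → R) →ₗ[R] (Fin 1 → R) :=
    { toFun := fun v _ => v 0 * a - v 1 * b
      map_add' := fun v w => by
        funext i
        simp only [Pi.add_apply, add_mul]
        abel
      map_smul' := fun c v => by
        funext i
        simp only [Pi.smul_apply, smul_eq_mul, RingHom.id_apply, mul_sub, mul_assoc] }
  have h1 : ¬ Function.Injective L := fun h => by
    have := StrongRankCondition.le_of_fin_injective L h
    omega
  obtain ⟨v, hv, h0⟩ : ∃ v, L v = 0 ∧ v ≠ 0 := by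
    by_contra hcon
    push Not at hcon
    exact h1 ((injective_iff_map_eq_zero L).2 hcon)
  have h2 : v 0 * a = v 1 * b := sub_eq_zero.1 (congrFun hv 0)
  have h3 : v 0 ≠ 0 := fun h => by
    apply h0
    rw [h, zero_mul] at h2
    have h4 := (mul_eq_zero.1 h2.symm).resolve_right hb
    funext i
    fin_cases i
    · exact h
    · exact h4
  have h5 : v 1 ≠ 0 := fun h => by
    rw [h, zero_mul] at h2
    exact h3 ((mul_eq_zero.1 h2).resolve_right ha)
  exact ⟨v 0, v 1, h3, h5, h2⟩

end Pool.Agent.Lvl
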