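import Pool.Agent.Lvl.ThmB
import Pool.Agent.Lvl.CircT
import Pool.Agent.HX.Base

set_option autoImplicit false
set_option linter.unusedSectionVars false

noncomputable section

open Classical

/-!
PACKAGE LVL-PADIC. Groups with homomorphisms to `Circ (p ^ s) N ℤ_p` (this is the congruence
subgroup of level `p ^ s` of `GL_N(ℤ_p)`).

* `DetM.det`: let `f : G → Circ (p ^ s) N ℤ_p` detect the finite set `F`. The tower is
  `circTower p s N`, the homomorphisms are `cmap (PadicInt.toZModPow k) ∘ f`; they are compatible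
  (`PadicInt.zmod_cast_comp_toZModPow` or `PadicInt.cast_toZModPow`). For `g ∈ F` the
  matrix `(f g).m` is not zero, so some entry is not zero modulo `p ^ k`
  (`PadicInt.ext_of_toZModPow`), and then it is nonzero modulo `p ^ k'` for all `k' ≥ k`; take the
  maximum over the finite set `F`.
* `DetM.pow`: let `F` be a finite set of nontrivial elements of `G^m`; take `f` for the set of all
  nontrivial coordinates of the elements of `F`. The homomorphism for `G^m` is
  `u ↦` the block diagonal matrix with the blocks `f (u i)`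
  (`Matrix.blockDiagonal`, `Matrix.blockDiagonal_mul`, reindexed by
  `Fin N × Fin m ≃ Fin (N * m)`), that is `blk`.
* `strong_of_detM`: `atiyah_of_towers` for all powers of `G` and `Pool.Agent.HX.base_change`, and
  `AtiyahOver.of_injective` for `G → (Fin 1 → G)`.
-/

namespace Pool.Agent.Lvl

open Circ Pool.Agent.VN

open Pool.Agent.AH (Qc)

/-- every finite set of nontrivial elements is detected by a homomorphism to the congruence
subgroup of level `p ^ s ≥ 3` of `GL_N(ℤ_p)`, for some `p`, `s`, `N` -/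
def DetM (G : Type) [Group G] : Prop :=
  ∀ F : Finset G, (∀ g ∈ F, g ≠ 1) → ∃ (p : ℕ) (_ : Fact p.Prime) (s N : ℕ) (_ : 1 ≤ s)
    (_ : 3 ≤ p ^ s) (f : G →* Circ (p ^ s) N ℤ_[p]), ∀ g ∈ F, f g ≠ 1

variable {G : Type} [Group G]

/-- the homomorphisms to the levels of the tower -/
private def hmOf {p s N : ℕ} [hp : Fact p.Prime] (hs : 1 ≤ s) (h3 : 3 ≤ p ^ s)
    (f : G →* Circ (p ^ s) N ℤ_[p]) : Hm (circTower p s N hs h3) G where
  f k := (cmap (PadicInt.toZModPow k)).comp f
  h k g := by
    show pc p (p ^ s) N k (cmap (PadicInt.toZModPow (k + 1)) (f g)) =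
      cmap (PadicInt.toZModPow k) (f g)
    apply Circ.ext
    ext i j
    show ZMod.castHom (pow_dvd_pow p (Nat.le_succ k)) (ZMod (p ^ k))
      (PadicInt.toZModPow (k + 1) ((f g).m i j)) = PadicInt.toZModPow k ((f g).m i j)
    rw [← PadicInt.zmod_cast_comp_toZModPow k (k + 1) (Nat.le_succ k)]
    rfl

private lemma exists_level {p s N : ℕ} [hp : Fact p.Prime] (X : Circ (p ^ s) N ℤ_[p])
    (hX : X ≠ 1) : ∃ k : ℕ, ∀ k' : ℕ, k ≤ k' → cmap (PadicInt.toZModPow k') X ≠ 1 := by
  by_contra hcon
  push Not at hcon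
  apply hX
  apply Circ.ext
  ext i j
  rw [one_m, Matrix.zero_apply]
  apply PadicInt.ext_of_toZModPow.1
  intro n
  obtain ⟨k', hk', h1⟩ := hcon n
  have h2 : PadicInt.toZModPow k' (X.m i j) = 0 := congrFun (congrFun (congrArg Circ.m h1) i) j
  rw [← PadicInt.cast_toZModPow n k' hk', h2, map_zero, ZMod.cast_zero]

theorem DetM.det (h : DetM G) : Det G := by
  intro F hF
  obtain ⟨p, hp, s, N, hs, h3, f, hf⟩ := h F hF
  choose K hK using fun (g : {g : G // g ∈ F}) => exists_level (f g) (hf g g.2)
  refine ⟨p, p ^ s, N * N, hp, circTower p s N hs h3, hmOf hs h3 f, F.attach.sup K,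
    fun g hg => ?_⟩
  exact hK ⟨g, hg⟩ _ (Finset.le_sup (f := K) (Finset.mem_attach F ⟨g, hg⟩))

/-- block diagonal matrices -/
theorem exists_blk (q N m : ℕ) (R : Type) [CommRing R] :
    ∃ b : (Fin m → Circ q N R) →* Circ q (N * m) R, Function.Injective b := by
  let e : Fin N × Fin m ≃ Fin (N * m) := finProdFinEquiv
  refine ⟨⟨⟨fun u => ⟨(Matrix.blockDiagonal fun i => (u i).m).submatrix e.symm e.symm⟩, ?_⟩,
    ?_⟩, ?_⟩
  · apply Circ.ext
    show (Matrix.blockDiagonal fun _ : Fin m => (0 : Matrix (Fin N) (Fin N) R)).submatrix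
      e.symm e.symm = 0
    have h0 : (fun _ : Fin m => (0 : Matrix (Fin N) (Fin N) R)) = 0 := rfl
    rw [h0, Matrix.blockDiagonal_zero, Matrix.submatrix_zero]
    rfl
  · intro u v
    apply Circ.ext
    show (Matrix.blockDiagonal fun i : Fin m =>
      (u i).m + (v i).m + (q : R) • ((u i).m * (v i).m)).submatrix e.symm e.symm = _
    have h1 : (fun i : Fin m => (u i).m + (v i).m + (q : R) • ((u i).m * (v i).m)) =
        (fun i => (u i).m) + (fun i => (v i).m) +
          (q : R) • (fun i => (u i).m * (v i).m) := rfl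
    rw [h1, Matrix.blockDiagonal_add, Matrix.blockDiagonal_add, Matrix.blockDiagonal_smul,
      Matrix.blockDiagonal_mul, mul_m]
    show _ = (Matrix.blockDiagonal fun i => (u i).m).submatrix e.symm e.symm +
      (Matrix.blockDiagonal fun i => (v i).m).submatrix e.symm e.symm +
      (q : R) • ((Matrix.blockDiagonal fun i => (u i).m).submatrix e.symm e.symm *
        (Matrix.blockDiagonal fun i => (v i).m).submatrix e.symm e.symm)
    rw [Matrix.submatrix_mul_equiv]
    rfl
  · intro u v huv
    funext i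
    apply Circ.ext
    ext a b
    have h1 := congrFun (congrFun (congrArg Circ.m huv) (e (a, i))) (e (b, i))
    have h2 : (Matrix.blockDiagonal fun i => (u i).m) (e.symm (e (a, i))) (e.symm (e (b, i))) =
      (Matrix.blockDiagonal fun i => (v i).m) (e.symm (e (a, i))) (e.symm (e (b, i))) := h1
    rw [Equiv.symm_apply_apply, Equiv.symm_apply_apply, Matrix.blockDiagonal_apply_eq,
      Matrix.blockDiagonal_apply_eq] at h2
    exact h2

theorem DetM.pow (h : DetM G) (m : ℕ) : DetM (Fin m → G) := by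
  intro F hF
  obtain ⟨p, hp, s, N, hs, h3, f, hf⟩ := h
    ((F.biUnion fun u => Finset.univ.image u).filter fun g => g ≠ 1)
    (fun g hg => (Finset.mem_filter.1 hg).2)
  obtain ⟨b, hb⟩ := exists_blk (p ^ s) N m ℤ_[p]
  refine ⟨p, hp, s, N * m, hs, h3, b.comp (f.compLeft (Fin m)), fun u hu h0 => ?_⟩
  have h1 : f.compLeft (Fin m) u = 1 := hb (h0.trans (map_one b).symm)
  apply hF u hu
  funext i
  by_contra hi
  refine hf (u i) (Finset.mem_filter.2 ⟨Finset.mem_biUnion.2 ⟨u, hu,
    Finset.mem_image_of_mem u (Finset.mem_univ i)⟩, hi⟩) ?_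
  exact congrFun h1 i

theorem strong_of_detM (h : DetM G) : AtiyahOver ⊤ G := by
  have h1 : ∀ m, AtiyahOver Qc (Fin m → G) := fun m => atiyah_of_towers (h.pow m).det
  have h2 := Pool.Agent.HX.base_change Qc G h1 1
  exact h2.of_injective (MonoidHom.mk' (fun (g : G) (_ : Fin 1) => g) (fun _ _ => rfl))
    (fun x y hxy => congrFun hxy 0)

end Pool.Agent.Lvl
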