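import Pool.Agent.Lvl.SRing

set_option autoImplicit false
set_option linter.unusedSectionVars false

noncomputable section

open Classical

/-!
PACKAGE LVL-SFG. Modulo a power of the augmentation ideal the ring `S` is a finitely generated
abelian group.

Let `Y` be a finite set of elements of `H` which generates `H` and is closed under inverses, so
every
element of `H` is a product of a list of elements of `Y`
(`Group.fg_iff`, `Subgroup.closure_toSubmonoid`, `Submonoid.exists_list_of_mem_closure`). Let `C`
  be
the additive subgroup generated by all products of lists of elements `y x`, `x ∈ Y`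
(`AddSubgroup.closure` of the submonoid generated by these elements). `C` is a subring
(`Subring.closure` of a set is the additive closure of the submonoid closure:
`Subring.mem_closure_iff`), and it contains all `y h`: induction on the length of the list with
`yy_mul`. So `S` is contained in `C`. The product of a list of length `≥ n` is in
`Fil n ≤ W` (`yy_fil`, `fil_mul`, `fil_le`), so the image of `S` in the quotient is contained in
  the
group generated by the images of the finitely many products of lists of length `< n`, and these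
are in `S`: the image of `S` is generated by finitely many elements.
-/

namespace Pool.Agent.Lvl

open MonoidAlgebra

variable {H : Type} [Group H] {q : ℕ}

private lemma yy_one' : yy q (1 : H) = 0 := by
  unfold yy
  rw [MonoidAlgebra.one_def, sub_self, smul_zero]

private lemma qsmul_mem (C : Subring (MonoidAlgebra ℚ H)) {x : MonoidAlgebra ℚ H} (hx : x ∈ C) :
    (q : ℚ) • x ∈ C := by
  have h1 : (q : ℚ) • x = q • x := by
    rw [Nat.cast_smul_eq_nsmul]
  rw [h1]
  exact nsmul_mem hx q

private lemma list_fil {l : List (MonoidAlgebra ℚ H)} (hl : ∀ x ∈ l, x ∈ Fil ℚ H 1) :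
    l.prod ∈ Fil ℚ H l.length := by
  induction l with
  | nil => exact mem_fil_zero _
  | cons a l ih =>
    rw [List.prod_cons, List.length_cons, Nat.add_comm]
    exact fil_mul (hl a List.mem_cons_self) (ih fun x hx => hl x (List.mem_cons_of_mem _ hx))

theorem SS_fg [Group.FG H] (hq : 0 < q) (W : Submodule ℚ (MonoidAlgebra ℚ H)) {n : ℕ}
    (hW : Fil ℚ H n ≤ W) :
    ((SS H q).toAddSubgroup.map W.mkQ.toAddMonoidHom).FG := by
  obtain ⟨S, hS, hSf⟩ := Group.fg_iff.1 (inferInstance : Group.FG H)
  set Y : Set H := S ∪ (fun x => x⁻¹) '' S with hY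
  have hYf : Y.Finite := hSf.union (hSf.image _)
  set Z : Set (MonoidAlgebra ℚ H) := yy q '' Y with hZ
  have hZf : Z.Finite := hYf.image _
  have h1 : ∀ h : H, yy q h ∈ Subring.closure Z ∧ yy q h⁻¹ ∈ Subring.closure Z := by
    intro h
    have hh : h ∈ Subgroup.closure S := by rw [hS]; exact Subgroup.mem_top h
    induction hh using Subgroup.closure_induction with
    | mem x hx =>
      exact ⟨Subring.subset_closure ⟨x, Or.inl hx, rfl⟩,
        Subring.subset_closure ⟨x⁻¹, Or.inr ⟨x, hx, rfl⟩, rfl⟩⟩
    | one =>
      rw [inv_one, yy_one']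
      exact ⟨Subring.zero_mem _, Subring.zero_mem _⟩
    | mul a b _ _ ha hb =>
      rw [mul_inv_rev, yy_mul hq, yy_mul hq]
      exact ⟨Subring.add_mem _ (Subring.add_mem _ ha.1 hb.1)
          (qsmul_mem _ (Subring.mul_mem _ ha.1 hb.1)),
        Subring.add_mem _ (Subring.add_mem _ hb.2 ha.2)
          (qsmul_mem _ (Subring.mul_mem _ hb.2 ha.2))⟩
    | inv a _ ha =>
      rw [inv_inv]
      exact ⟨ha.2, ha.1⟩
  have h2 : SS H q ≤ Subring.closure Z := by
    unfold SS
    rw [Subring.closure_le]
    rintro _ ⟨h, rfl⟩
    exact (h1 h).1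
  have hZS : ∀ x ∈ Z, x ∈ SS H q := by
    rintro _ ⟨h, _, rfl⟩
    exact yy_mem h
  have hZF : ∀ x ∈ Z, x ∈ Fil ℚ H 1 := by
    rintro _ ⟨h, _, rfl⟩
    exact yy_fil h
  have : Finite ↥Z := hZf.to_subtype
  set F : Set (MonoidAlgebra ℚ H) :=
    (fun l : List ↥Z => (l.map Subtype.val).prod) '' {l | l.length < n} with hF
  have hFf : F.Finite := (List.finite_length_lt _ n).image _
  rw [AddSubgroup.fg_iff]
  refine ⟨W.mkQ '' F, ?_, hFf.image _⟩
  apply le_antisymm
  · rw [AddSubgroup.closure_le]
    rintro _ ⟨x, ⟨l, _, rfl⟩, rfl⟩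
    refine ⟨(l.map Subtype.val).prod, ?_, rfl⟩
    refine Subring.list_prod_mem (SS H q) fun x hx => ?_
    obtain ⟨y, _, rfl⟩ := List.mem_map.1 hx
    exact hZS _ y.2
  · rintro _ ⟨x, hx, rfl⟩
    have hx1 : x ∈ Subring.closure Z := h2 hx
    rw [Subring.mem_closure_iff] at hx1
    have h3 : ∀ y, y ∈ AddSubgroup.closure (Submonoid.closure Z : Set (MonoidAlgebra ℚ H)) →
        W.mkQ y ∈ AddSubgroup.closure (W.mkQ '' F) := by
      intro y hy
      induction hy using AddSubgroup.closure_induction with
      | mem m hm =>
        obtain ⟨l, hl, rfl⟩ := Submonoid.exists_list_of_mem_closure hm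
        by_cases hn : l.length < n
        · lift l to List ↥Z using hl
          rw [List.length_map] at hn
          exact AddSubgroup.subset_closure ⟨_, ⟨l, hn, rfl⟩, rfl⟩
        · have h4 : l.prod ∈ W :=
            hW (fil_le (not_lt.1 hn) (list_fil fun x hx => hZF x (hl x hx)))
          have h5 : W.mkQ l.prod = 0 := by
            rw [Submodule.mkQ_apply, Submodule.Quotient.mk_eq_zero]
            exact h4
          rw [h5]
          exact AddSubgroup.zero_mem _
      | zero =>
        rw [map_zero]
        exact AddSubgroup.zero_mem _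
      | add a b _ _ ha hb =>
        rw [map_add]
        exact AddSubgroup.add_mem _ ha hb
      | neg a _ ha =>
        rw [map_neg]
        exact AddSubgroup.neg_mem _ ha
    exact h3 x hx1

end Pool.Agent.Lvl
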