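import Pool.Agent.Lvl.SDef

set_option autoImplicit false
set_option linter.unusedSectionVars false

noncomputable section

open Classical

/-!
PACKAGE LVL-SRING. The ring generated by the elements `y h = (h - 1) / q`.

* `single_eq`, `yy_mul`: `h = 1 + q y h`, so `y (g h) = y g + y h + q y g y h`.
* `yy_UU`: the set of all `u` with `y u ∈ q S` is a subgroup: products by `yy_mul`,
  `y (u⁻¹) = - u⁻¹ y u` (`u⁻¹ - 1 = - u⁻¹ (u - 1)`, and `u⁻¹ ∈ S`). It contains
  the `q`-th powers: `1 + q y (g ^ q) = (1 + q y g) ^ q`, so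
  `y (g ^ q) = ∑ j ≥ 1, choose q j q ^ (j - 1) (y g) ^ j`; for `j = 1` the coefficient is `q`, for
  `j ≥ 2` it is divisible by `q ^ (j - 1)`. (Or: the geometric series
  `g ^ q - 1 = (g - 1) ∑ i < q, g ^ i`, and `g ^ i = 1 + q y (g ^ i)`, so
  `∑ i < q, g ^ i = q + q ∑ y (g ^ i)`, so `y (g ^ q) = y g * q * (1 + ∑ i < q, y (g ^ i))`.)
  It contains the commutators `u = a b a⁻¹ b⁻¹`: `(u - 1) b a = a b - b a =
  q ^ 2 (y a y b - y b y a)`, so `y u = q (y a y b - y b y a) (b a)⁻¹`.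
* `act_sub`: `S` is generated by the `y h` as a ring (`Subring.closure_induction`);
  `φ (y h) = y (φ h) = y (h u) = y h + y u + q y h y u` with `u = h⁻¹ φ h`; sums, negatives;
  products:
  `φ (a b) - a b = (φ a - a) φ b + a (φ b - b)`, `φ b ∈ S`.
* `yy_fil`: `single_sub_mem`.
-/

namespace Pool.Agent.Lvl

open MonoidAlgebra

variable {H : Type} [Group H] {q : ℕ}

private lemma q_smul_yy (hq : 0 < q) (h : H) : (q : ℚ) • yy q h = single h (1 : ℚ) - 1 := by
  have h0 : (q : ℚ) ≠ 0 := by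
    exact_mod_cast hq.ne'
  unfold yy
  rw [smul_inv_smul₀ h0]

private lemma q_cancel (hq : 0 < q) {x y : MonoidAlgebra ℚ H} (h : (q : ℚ) • x = (q : ℚ) • y) :
    x = y := by
  have h0 : (q : ℚ) ≠ 0 := by
    exact_mod_cast hq.ne'
  have h1 := congrArg (fun z => (q : ℚ)⁻¹ • z) h
  simp only [inv_smul_smul₀ h0] at h1
  exact h1

private lemma single_mul' (g h : H) :
    (single (g * h) (1 : ℚ) : MonoidAlgebra ℚ H) = single g 1 * single h 1 := by
  rw [single_mul_single, mul_one]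

lemma single_eq (hq : 0 < q) (h : H) : single h (1 : ℚ) = 1 + (q : ℚ) • yy q h := by
  rw [q_smul_yy hq]
  abel

lemma yy_mul (hq : 0 < q) (g h : H) :
    yy q (g * h) = yy q g + yy q h + (q : ℚ) • (yy q g * yy q h) := by
  apply q_cancel hq
  rw [q_smul_yy hq, single_mul', single_eq hq g, single_eq hq h]
  simp only [add_mul, mul_add, smul_add, smul_mul_assoc, mul_smul_comm, one_mul, mul_one]
  abel

lemma yy_mem (h : H) : yy q h ∈ SS H q := Subring.subset_closure ⟨h, rfl⟩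

private lemma q_smul_mem {x : MonoidAlgebra ℚ H} (hx : x ∈ SS H q) : (q : ℚ) • x ∈ SS H q := by
  rw [Nat.cast_smul_eq_nsmul ℚ q x]
  exact nsmul_mem hx q

lemma single_mem (hq : 0 < q) (h : H) : single h (1 : ℚ) ∈ SS H q := by
  rw [single_eq hq]
  exact add_mem (one_mem _) (q_smul_mem (yy_mem h))

lemma yy_fil (h : H) : yy q h ∈ Fil ℚ H 1 := by
  unfold yy
  exact Submodule.smul_mem _ _ (single_sub_mem h)

private lemma yy_comm (hq : 0 < q) (a b : H) :
    yy q (a * b * a⁻¹ * b⁻¹) =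
      (q : ℚ) • ((yy q a * yy q b - yy q b * yy q a) * single (b * a)⁻¹ 1) := by
  apply q_cancel hq
  rw [q_smul_yy hq]
  have h1 : (single (a * b * a⁻¹ * b⁻¹) (1 : ℚ) : MonoidAlgebra ℚ H) - 1 =
      (single a 1 * single b 1 - single b 1 * single a 1) * single (b * a)⁻¹ 1 := by
    rw [← single_mul', ← single_mul', sub_mul, ← single_mul', ← single_mul', mul_inv_cancel,
      mul_inv_rev, ← mul_assoc]
    rfl
  rw [h1, single_eq hq a, single_eq hq b, ← smul_mul_assoc, ← smul_mul_assoc]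
  congr 1
  simp only [add_mul, mul_add, smul_add, smul_sub, smul_mul_assoc, mul_smul_comm, one_mul, mul_one]
  abel

private lemma yy_pow (hq : 0 < q) (g : H) :
    yy q (g ^ q) = (q : ℚ) • (yy q g * (1 + ∑ i ∈ Finset.range q, yy q (g ^ i))) := by
  apply q_cancel hq
  rw [q_smul_yy hq]
  have h1 : (single (g ^ q) (1 : ℚ) : MonoidAlgebra ℚ H) = single g 1 ^ q := by
    rw [MonoidAlgebra.single_pow, one_pow]
  have h2 : ∀ i, (single g (1 : ℚ) : MonoidAlgebra ℚ H) ^ i = 1 + (q : ℚ) • yy q (g ^ i) := by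
    intro i
    rw [← single_eq hq, MonoidAlgebra.single_pow, one_pow]
  rw [h1, ← mul_geom_sum, ← q_smul_yy hq]
  simp only [h2]
  rw [Finset.sum_add_distrib, Finset.sum_const, Finset.card_range, ← Finset.smul_sum,
    ← Nat.cast_smul_eq_nsmul ℚ q, ← smul_add, smul_mul_assoc, mul_smul_comm]

theorem yy_UU (hq : 0 < q) {u : H} (hu : u ∈ UU H q) : ∃ x ∈ SS H q, yy q u = (q : ℚ) • x := by
  unfold UU at hu
  induction hu using Subgroup.closure_induction with
  | mem u hu =>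
    rcases hu with ⟨a, b, rfl⟩ | ⟨a, rfl⟩
    · refine ⟨_, ?_, yy_comm hq a b⟩
      exact mul_mem (sub_mem (mul_mem (yy_mem a) (yy_mem b)) (mul_mem (yy_mem b) (yy_mem a)))
        (single_mem hq _)
    · refine ⟨_, ?_, yy_pow hq a⟩
      exact mul_mem (yy_mem a) (add_mem (one_mem _) (sum_mem fun i _ => yy_mem _))
  | one =>
    refine ⟨0, zero_mem _, ?_⟩
    unfold yy
    rw [MonoidAlgebra.one_def, sub_self, smul_zero, smul_zero]
  | mul a b _ _ ha hb =>
    obtain ⟨x, hx, hxa⟩ := ha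
    obtain ⟨y, hy, hyb⟩ := hb
    refine ⟨x + y + yy q a * yy q b, add_mem (add_mem hx hy) (mul_mem (yy_mem a) (yy_mem b)), ?_⟩
    rw [yy_mul hq, smul_add, smul_add, ← hxa, ← hyb]
  | inv a _ ha =>
    obtain ⟨x, hx, hxa⟩ := ha
    refine ⟨-(single a⁻¹ 1 * x), neg_mem (mul_mem (single_mem hq _) hx), ?_⟩
    rw [smul_neg, ← mul_smul_comm, ← hxa]
    apply q_cancel hq
    rw [q_smul_yy hq, smul_neg, ← mul_smul_comm, q_smul_yy hq, mul_sub, ← single_mul',
      inv_mul_cancel, mul_one, neg_sub]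
    rfl

theorem act_sub (hq : 0 < q) (φ : H →* H) (hφ : ∀ h, h⁻¹ * φ h ∈ UU H q)
    {x : MonoidAlgebra ℚ H} (hx : x ∈ SS H q) :
    ∃ y ∈ SS H q, mapDomainRingHom ℚ φ x = x + (q : ℚ) • y := by
  have hx' : x ∈ Subring.closure (Set.range (yy q : H → MonoidAlgebra ℚ H)) := hx
  clear hx
  induction hx' using Subring.closure_induction with
  | mem x hx =>
    obtain ⟨h, rfl⟩ := hx
    obtain ⟨x, hx, hxu⟩ := yy_UU hq (hφ h)
    refine ⟨x + yy q h * yy q (h⁻¹ * φ h), add_mem hx (mul_mem (yy_mem _) (yy_mem _)), ?_⟩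
    have h1 : mapDomainRingHom ℚ φ (yy q h) = yy q (φ h) := by
      apply q_cancel hq
      rw [q_smul_yy hq]
      have h2 : (q : ℚ) • mapDomainRingHom ℚ φ (yy q h) =
          mapDomainRingHom ℚ φ ((q : ℚ) • yy q h) := by
        rw [mapDomainRingHom_apply, mapDomainRingHom_apply, mapDomain_smul]
      rw [h2, q_smul_yy hq, map_sub, map_one, mapDomainRingHom_apply, mapDomain_single]
    have h3 : φ h = h * (h⁻¹ * φ h) := by rw [mul_inv_cancel_left]
    have h4 := yy_mul hq h (h⁻¹ * φ h)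
    rw [← h3] at h4
    rw [h1, h4, smul_add, ← hxu, add_assoc]
  | zero => exact ⟨0, zero_mem _, by rw [map_zero, smul_zero, add_zero]⟩
  | one => exact ⟨0, zero_mem _, by rw [map_one, smul_zero, add_zero]⟩
  | add a b _ _ ha hb =>
    obtain ⟨x, hx, hxa⟩ := ha
    obtain ⟨y, hy, hyb⟩ := hb
    refine ⟨x + y, add_mem hx hy, ?_⟩
    rw [map_add, hxa, hyb, smul_add]
    abel
  | neg a _ ha =>
    obtain ⟨x, hx, hxa⟩ := ha
    refine ⟨-x, neg_mem hx, ?_⟩
    rw [map_neg, hxa, smul_neg]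
    abel
  | mul a b ha' hb' ha hb =>
    obtain ⟨x, hx, hxa⟩ := ha
    obtain ⟨y, hy, hyb⟩ := hb
    refine ⟨x * b + a * y + (q : ℚ) • (x * y),
      add_mem (add_mem (mul_mem hx hb') (mul_mem ha' hy)) (q_smul_mem (mul_mem hx hy)), ?_⟩
    rw [map_mul, hxa, hyb]
    simp only [add_mul, mul_add, smul_add, smul_mul_assoc, mul_smul_comm]
    abel

end Pool.Agent.Lvl
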