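import Pool.Agent.Lvl.Bas
import Pool.Agent.Lvl.AugC

set_option autoImplicit false
set_option linter.unusedSectionVars false

noncomputable section

/-!
PACKAGE LVL-SORT. Sorting of words in the elements `b`. `Fil n = Fil (ZMod p) (T.P k) n`.

* `bb_comm`: `b i * b j - b j * b i = c i c j - c j c i = ([c i, c j] - 1) * (c j * c i)` with
  `[c i, c j] = c i c j (c i)⁻¹ (c j)⁻¹`; the commutator is in the subgroup generated by the `q`-th
  powers (`T.comm`), for `q = p ^ s` (`T.hq`) `pow_char_mem` and `sub_one_mem_closure` give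
  `[c i, c j] - 1 ∈ Fil q ≤ Fil 3` (`T.h3`, `fil_le`); `fil_mul_right`.
* `word_mem`: induction on the word, `bb_mem`, `fil_mul`.
* `word_perm`: induction on `List.Perm`: `cons`: `b x * (w - w')`; `swap`:
  `(b y * b x - b x * b y) * w` is in `Fil (3 + length w)`; `trans`: sum (`List.Perm.length_eq`).
* `bm_mem`, `bm_mul`: `opow_eq_prod_word`, `length_word`, and `word e ++ word f` is a permutation
  of `word (e + f)` (`List.perm_iff_count`, `count_word`). `Finsupp.degree e = ∑ l, e l`
  (`Finsupp.degree_eq_sum`).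
-/

namespace Pool.Agent.Lvl

open MonoidAlgebra

variable {p q d : ℕ} [hp : Fact p.Prime] (T : Tower p q d)

lemma bb_mem (R : Type) [CommRing R] (k : ℕ) (l : Fin d) : bb T R k l ∈ Fil R (T.P k) 1 :=
  single_sub_mem _

lemma bb_comm (k : ℕ) (i j : Fin d) :
    bb T (ZMod p) k i * bb T (ZMod p) k j - bb T (ZMod p) k j * bb T (ZMod p) k i ∈
      Fil (ZMod p) (T.P k) 3 := by
  have h0 : single (T.c k i * T.c k j * (T.c k i)⁻¹ * (T.c k j)⁻¹) (1 : ZMod p) - 1 ∈
      Fil (ZMod p) (T.P k) 3 := by
    refine fil_le T.h3 (sub_one_mem_closure ?_ (T.comm k i j))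
    rintro _ ⟨g, rfl⟩
    obtain ⟨s, hs⟩ := T.hq
    have h1 := pow_char_mem (p := p) s g
    rw [← hs] at h1
    exact h1
  have e1 : (single (T.c k i) (1 : ZMod p) * single (T.c k j) (1 : ZMod p) :
      MonoidAlgebra (ZMod p) (T.P k)) = single (T.c k i * T.c k j) 1 := by
    rw [single_mul_single, mul_one]
  have e2 : (single (T.c k j) (1 : ZMod p) * single (T.c k i) (1 : ZMod p) :
      MonoidAlgebra (ZMod p) (T.P k)) = single (T.c k j * T.c k i) 1 := by
    rw [single_mul_single, mul_one]
  have e3 : (single (T.c k i * T.c k j * (T.c k i)⁻¹ * (T.c k j)⁻¹) (1 : ZMod p) *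
      single (T.c k j * T.c k i) (1 : ZMod p) : MonoidAlgebra (ZMod p) (T.P k)) =
      single (T.c k i * T.c k j) 1 := by
    rw [single_mul_single, mul_one]
    congr 1
    group
  have h1 : bb T (ZMod p) k i * bb T (ZMod p) k j - bb T (ZMod p) k j * bb T (ZMod p) k i =
      (single (T.c k i * T.c k j * (T.c k i)⁻¹ * (T.c k j)⁻¹) (1 : ZMod p) - 1) *
        single (T.c k j * T.c k i) (1 : ZMod p) := by
    rw [sub_mul, e3, one_mul, ← e1, ← e2]
    unfold bb
    noncomm_ring
  rw [h1]
  exact fil_mul_right h0 _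

lemma word_mem (R : Type) [CommRing R] (k : ℕ) (w : List (Fin d)) :
    (w.map (bb T R k)).prod ∈ Fil R (T.P k) w.length := by
  induction w with
  | nil => exact mem_fil_zero _
  | cons x w ih =>
    rw [List.map_cons, List.prod_cons, List.length_cons, Nat.add_comm]
    exact fil_mul (bb_mem T R k x) ih

lemma word_perm (k : ℕ) {w w' : List (Fin d)} (h : w.Perm w') :
    (w.map (bb T (ZMod p) k)).prod - (w'.map (bb T (ZMod p) k)).prod ∈
      Fil (ZMod p) (T.P k) (w.length + 1) := by
  induction h with
  | nil =>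
    rw [sub_self]
    exact Submodule.zero_mem _
  | cons x h ih =>
    rw [List.map_cons, List.prod_cons, List.map_cons, List.prod_cons, ← mul_sub,
      List.length_cons, Nat.add_comm]
    exact fil_mul (bb_mem T _ k x) ih
  | swap x y l =>
    rw [List.map_cons, List.prod_cons, List.map_cons, List.prod_cons, List.map_cons,
      List.prod_cons, List.map_cons, List.prod_cons, ← mul_assoc, ← mul_assoc, ← sub_mul,
      List.length_cons, List.length_cons]
    have h1 := fil_mul (bb_comm T k y x) (word_mem T (ZMod p) k l)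
    have h2 : 3 + l.length = l.length + 1 + 1 + 1 := by omega
    rw [h2] at h1
    exact h1
  | trans h1 h2 ih1 ih2 =>
    have h3 := Submodule.add_mem _ ih1 (by
      rw [← h1.length_eq] at ih2
      exact ih2)
    rw [sub_add_sub_cancel] at h3
    exact h3

lemma bm_mem (R : Type) [CommRing R] (k : ℕ) (e : Fin d →₀ ℕ) :
    bm T R k e ∈ Fil R (T.P k) e.degree := by
  unfold bm
  rw [opow_eq_prod_word, Finsupp.degree_eq_sum, ← length_word]
  exact word_mem T R k _

theorem bm_mul (k : ℕ) (e f : Fin d →₀ ℕ) :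
    bm T (ZMod p) k e * bm T (ZMod p) k f - bm T (ZMod p) k (e + f) ∈
      Fil (ZMod p) (T.P k) (e.degree + f.degree + 1) := by
  unfold bm
  rw [opow_eq_prod_word, opow_eq_prod_word, opow_eq_prod_word, ← List.prod_append,
    ← List.map_append]
  have h1 : (word e ++ word f).Perm (word (e + f : Fin d →₀ ℕ)) := by
    rw [List.perm_iff_count]
    intro l
    rw [List.count_append, count_word, count_word, count_word, Finsupp.add_apply]
  have h2 := word_perm T k h1
  rw [List.length_append, length_word, length_word, ← Finsupp.degree_eq_sum,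
    ← Finsupp.degree_eq_sum] at h2
  exact h2

end Pool.Agent.Lvl
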