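import Pool.Agent.Lvl.Dens
import Pool.Agent.Lvl.Ore
import Pool.Agent.Lvl.IntRank
import Pool.Agent.AH.Lueck

set_option autoImplicit false
set_option linter.unusedSectionVars false

noncomputable section

open Classical

/-!
PACKAGE LVL-THMA. Integrality of the limits for the models given by a tower.

Let `F : Hm T G` be a compatible system of homomorphisms `G → P k`. The model `mdl F k` is `P k`
with
the action `w • x = F.f k (pw G w) * x` of the free group.
* `el F g` in `lim R[P k]`: the elements `single (F.f k g) 1`.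
* `matL F L`: for an integral list `L` the matrix over `lim ℤ_p[P k]` with the entries
  `∑ c • el F (pw w)⁻¹` (sum over the terms `(c, j, i, w)` of `L`).
* `lmL_matL`: the entry of `mX (mdl F k) L` at `(j, x)`, `(i, y)` is the sum of all `c` with
  `y = w • x`, that is `x * y⁻¹ = (F.f k (pw w))⁻¹`; this is
  `lmL T k (matL F L j i) x y`.
* `finrank_kX`: so the kernel of `op (rho T k) (matL F L)` on `(ι → (P k → ℚ_p))` is the kernel
  of the matrix `(mX (mdl F k) L).map` (coefficients in `ℚ_p`) (currying), its dimension is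
  `card (ι × P k) - rank`, and the rank is the rank of `mX (mdl F k) L` (`rank_map_field`).
* `exists_limit`: `exists_den`, `kX_sml` reduce to an integral list; `integral_limit` for
  `R = lim ℤ_p[P k]` (`ore`, `tendsto_ker`).
-/

namespace Pool.Agent.Lvl

open MonoidAlgebra Filter Topology Module

open Pool.Agent.AH (LQ mX kX sz pw sf Intg)

variable {p q d : ℕ} [hp : Fact p.Prime] {T : Tower p q d} {G : Type} [Group G]

/-- compatible homomorphisms to the groups of a tower -/
structure Hm (T : Tower p q d) (G : Type) [Group G] where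
  f : ∀ k, G →* T.P k
  h : ∀ k g, T.pr k (f (k + 1) g) = f k g

/-- the model of the level `k` -/
def mdl (F : Hm T G) (k : ℕ) : AH.Mod G where
  X := T.P k
  fin := T.fin k
  act := MulAction.compHom (T.P k) ((F.f k).comp (pw G))
  ne := ⟨(1 : T.P k)⟩

lemma mdl_smul (F : Hm T G) (k : ℕ) (w : FreeGroup G) (x : T.P k) :
    (w • (show (mdl F k).X from x) : (mdl F k).X) = (F.f k (pw G w) * x : T.P k) := rfl

/-- the elements of the group in the limit of the group rings -/
def el (F : Hm T G) (R : Type) [CommRing R] (g : G) : Lim T R :=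
  ⟨fun k => single (F.f k g) 1, fun k => by
    show mapDomainRingHom R (T.pr k) (single (F.f (k + 1) g) 1) = _
    rw [mapDomainRingHom_apply, mapDomain_single, F.h]⟩

variable {ι κ : Type} [Fintype ι] [Fintype κ]

/-- the matrix of an integral list (numerators of the coefficients) -/
def matL (F : Hm T G) (L : LQ κ ι (FreeGroup G)) : Matrix κ ι (Lim T ℤ_[p]) := fun j i =>
  (L.map fun t => if j = t.2.1 ∧ i = t.2.2.1 then
    ((t.1.num : ℤ) : Lim T ℤ_[p]) * el F ℤ_[p] (pw G t.2.2.2)⁻¹ else 0).sum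

omit [Fintype ι] [Fintype κ] hp in
private lemma term_eq (F : Hm T G) [Fact p.Prime] (t : ℚ × κ × ι × FreeGroup G)
    (ht : ∃ z : ℤ, t.1 = z) (k : ℕ) (j : κ) (i : ι) (x y : T.P k) :
    lmL T k (if j = t.2.1 ∧ i = t.2.2.1 then
      ((t.1.num : ℤ) : Lim T ℤ_[p]) * el F ℤ_[p] (pw G t.2.2.2)⁻¹ else 0) x y =
      (((if j = t.2.1 ∧ i = t.2.2.1 ∧ y = F.f k (pw G t.2.2.2) * x then t.1 else 0 : ℚ)) :
        ℚ_[p]) := by
  obtain ⟨z, hz⟩ := ht
  by_cases h : j = t.2.1 ∧ i = t.2.2.1
  · rw [if_pos h, map_mul, map_intCast, hz, Rat.num_intCast]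
    have h1 : ((z : Matrix (T.P k) (T.P k) ℚ_[p]) * lmL T k (el F ℤ_[p] (pw G t.2.2.2)⁻¹)) x y =
        (z : ℚ_[p]) * lmL T k (el F ℤ_[p] (pw G t.2.2.2)⁻¹) x y := by
      rw [← zsmul_eq_mul, Matrix.smul_apply, zsmul_eq_mul]
    rw [h1, lmL_apply]
    have h2 : ((el F ℤ_[p] (pw G t.2.2.2)⁻¹).1 k).coeff (x * y⁻¹) =
        if y = F.f k (pw G t.2.2.2) * x then 1 else 0 := by
      show (single (F.f k (pw G t.2.2.2)⁻¹) (1 : ℤ_[p])).coeff (x * y⁻¹) = _
      rw [coeff_single, Finsupp.single_apply]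
      refine if_congr ?_ rfl rfl
      rw [map_inv]
      constructor
      · intro h
        have h3 := congrArg (fun g => F.f k (pw G t.2.2.2) * g * y) h
        simpa [mul_assoc] using h3
      · intro h
        rw [h]
        group
    rw [h2]
    by_cases h3 : y = F.f k (pw G t.2.2.2) * x
    · rw [if_pos h3, if_pos ⟨h.1, h.2, h3⟩, map_one, mul_one]
      push_cast
      rfl
    · rw [if_neg h3, if_neg fun h4 => h3 h4.2.2, map_zero, mul_zero, Rat.cast_zero]
  · rw [if_neg h, if_neg fun h4 => h ⟨h4.1, h4.2.1⟩, map_zero, Rat.cast_zero]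
    rfl

theorem lmL_matL (F : Hm T G) {L : LQ κ ι (FreeGroup G)} (hL : Intg L) (k : ℕ) (j : κ) (i : ι)
    (x y : T.P k) :
    lmL T k (matL F L j i) x y = ((mX (mdl F k) L (j, x) (i, y) : ℚ) : ℚ_[p]) := by
  have key : ∀ L : LQ κ ι (FreeGroup G), (∀ t ∈ L, ∃ z : ℤ, t.1 = z) →
      lmL T k ((L.map fun t => if j = t.2.1 ∧ i = t.2.2.1 then
        ((t.1.num : ℤ) : Lim T ℤ_[p]) * el F ℤ_[p] (pw G t.2.2.2)⁻¹ else 0).sum) x y =
      (((L.map fun t => if j = t.2.1 ∧ i = t.2.2.1 ∧ y = F.f k (pw G t.2.2.2) * x then t.1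
        else 0).sum : ℚ) : ℚ_[p]) := by
    intro L
    induction L with
    | nil =>
      intro _
      simp
    | cons a L ih =>
      intro h
      rw [List.map_cons, List.sum_cons, List.map_cons, List.sum_cons, map_add, Matrix.add_apply,
        term_eq F a (h a List.mem_cons_self), ih fun t ht => h t (List.mem_cons_of_mem _ ht),
        Rat.cast_add]
  exact key L hL

theorem finrank_kX (F : Hm T G) {L : LQ κ ι (FreeGroup G)} (hL : Intg L) (k : ℕ) :
    finrank ℚ (kX (mdl F k) L) = finrank ℚ_[p] (LinearMap.ker (op (rho T k) (matL F L))) := by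
  set M : Matrix (κ × T.P k) (ι × T.P k) ℚ := mX (mdl F k) L with hM
  have h1 : finrank ℚ (kX (mdl F k) L) + M.rank = Fintype.card (ι × T.P k) := by
    have h := LinearMap.finrank_range_add_finrank_ker M.mulVecLin
    rw [Module.finrank_fintype_fun_eq_card] at h
    rw [← h, Matrix.rank, add_comm]
    rfl
  set M' : Matrix (κ × T.P k) (ι × T.P k) ℚ_[p] := M.map (Rat.castHom ℚ_[p]) with hM'
  have h2 : finrank ℚ_[p] (LinearMap.ker M'.mulVecLin) + M.rank = Fintype.card (ι × T.P k) := by
    have h := LinearMap.finrank_range_add_finrank_ker M'.mulVecLin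
    rw [Module.finrank_fintype_fun_eq_card] at h
    rw [← h, ← rank_map_field (Rat.castHom ℚ_[p]) M, Matrix.rank, add_comm]
  have h3 : ∀ v : ι × T.P k → ℚ_[p], op (rho T k) (matL F L) (Function.curry v) =
      Function.curry (M'.mulVec v) := by
    intro v
    funext j x
    rw [op_apply, Finset.sum_apply]
    show ∑ i, (rho T k (matL F L j i)) (Function.curry v i) x = ∑ q, M' (j, x) q * v q
    rw [Fintype.sum_prod_type]
    refine Finset.sum_congr rfl fun i _ => ?_
    rw [rho_apply]
    show ∑ y, lmL T k (matL F L j i) x y * v (i, y) = _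
    refine Finset.sum_congr rfl fun y _ => ?_
    rw [lmL_matL F hL]
    rfl
  have h4 : LinearMap.ker (op (rho T k) (matL F L)) =
      (LinearMap.ker M'.mulVecLin).map
        (LinearEquiv.curry ℚ_[p] ℚ_[p] ι (T.P k) : (ι × T.P k → ℚ_[p]) →ₗ[ℚ_[p]] _) := by
    ext w
    rw [LinearMap.mem_ker, Submodule.mem_map]
    constructor
    · intro h
      refine ⟨Function.uncurry w, ?_, ?_⟩
      · rw [LinearMap.mem_ker]
        have h5 := h3 (Function.uncurry w)
        rw [Function.curry_uncurry, h] at h5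
        funext q
        exact (congrFun (congrFun h5 q.1) q.2).symm
      · exact Function.curry_uncurry w
    · rintro ⟨v, hv, rfl⟩
      have h5 := h3 v
      rw [LinearMap.mem_ker] at hv
      have hv' : M'.mulVec v = 0 := hv
      rw [hv'] at h5
      exact h5
  rw [h4, LinearEquiv.finrank_map_eq]
  omega

theorem exists_limit (F : Hm T G) (L : LQ κ ι (FreeGroup G)) :
    ∃ z : ℤ, Tendsto (fun k => (finrank ℚ (kX (mdl F k) L) : ℝ) / sz (mdl F k)) atTop
      (𝓝 (z : ℝ)) := by
  obtain ⟨D, hD, hL⟩ := AH.exists_den L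
  have hD' : (D : ℚ) ≠ 0 := by exact_mod_cast hD.ne'
  have hne : ∀ k, Nontrivial (T.P k → ℚ_[p]) := fun k => inferInstance
  obtain ⟨z, hz⟩ := integral_limit (K := ℚ_[p]) (R := Lim T ℤ_[p])
    (fun a b ha hb => ore ha hb) (fun k => T.P k → ℚ_[p]) (fun k => rho T k)
    (fun a ha => tendsto_ker T ha) (matL F (AH.sml (D : ℚ) L))
  refine ⟨z, ?_⟩
  refine hz.congr fun k => ?_
  rw [← finrank_kX F hL k, AH.kX_sml _ _ hD', Module.finrank_fintype_fun_eq_card]
  rfl

end Pool.Agent.Lvl
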