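import Pool.Agent.Lvl.ThmA
import Pool.Agent.AH.Final

set_option autoImplicit false
set_option linter.unusedSectionVars false

noncomputable section

open Classical

/-!
PACKAGE LVL-THMB. Groups which are residually the limit of a tower satisfy the Atiyah conjecture
over `ℚ`.

* `exists_good`: let `F` be a finite set of words. By the hypothesis, applied to the finite set of
  the `pw G w ≠ 1`, `w ∈ F`, there are a tower and compatible homomorphisms with
  `Φ.f k0 (pw G w) ≠ 1` for these `w`; then also at all levels `k ≥ k0` (`Φ.h`). At these levels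
  `bad (mdl Φ k) F = ∅`: `w • x = x` is `Φ.f k (pw G w) * x = x`, so it means
  `Φ.f k (pw G w) = 1`.
* `near_int`: Let `D = dm (kr (oG L))`. For `ε > 0` the set of all models `M` with
  `|finrank (kX M L) / sz M - D| < ε` is in `sf G` (`lueck`), so it contains all models with
  `card (bad M F) ≤ δ sz M` for some `F`, `δ > 0`. With `exists_good` all models `mdl Φ k`, `k ≥
  k0`,
  belong to it. By `exists_limit` the sequence converges to an integer `z`, so `|z - D| ≤ ε`.
* `dm_int`: a real number with an integer at distance `≤ ε` for all `ε > 0` is an integer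
  (the integers are closed: `Int.isClosedEmbedding_coe_real`, or with `round`).
* `atiyah_of_towers`: let `A` be a matrix with entries in `Qc`. `kerDim_eq` and `ker_mulR`
  (see the proof of `Pool.Agent.HI.atiyah_of_int0`) give `kerDim A = dm (kr (mulR (colF A)))`;
  `mulR (colF A)` is a `LocOp Qc (fun _ => ()) (fun _ => ())` (as in `atiyah_of_int0`),
  `Pool.Agent.AH.exists_list` gives a list `L` with `oG L = mulR (colF A)`.
-/

namespace Pool.Agent.Lvl

open MonoidAlgebra Filter Topology Module Pool.Agent.VN Pool.Agent.LFT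

open Pool.Agent.AH (LQ mX kX sz pw sf Intg oG bad Qc)

variable {G : Type} [Group G]

/-- every finite set of nontrivial elements of `G` is detected by a tower -/
def Det (G : Type) [Group G] : Prop :=
  ∀ F : Finset G, (∀ g ∈ F, g ≠ 1) → ∃ (p q d : ℕ) (_ : Fact p.Prime) (T : Tower p q d)
    (Φ : Hm T G) (k : ℕ), ∀ g ∈ F, Φ.f k g ≠ 1

theorem exists_good (h : Det G) (F : Finset (FreeGroup G)) :
    ∃ (p q d : ℕ) (_ : Fact p.Prime) (T : Tower p q d) (Φ : Hm T G) (k0 : ℕ),
      ∀ k, k0 ≤ k → bad (mdl Φ k) F = ∅ := by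
  obtain ⟨p, q, d, hp, T, Φ, k0, hk⟩ := h ((F.image (pw G)).filter fun g => g ≠ 1)
    (fun g hg => (Finset.mem_filter.1 hg).2)
  refine ⟨p, q, d, hp, T, Φ, k0, fun k hk0 => ?_⟩
  have h1 : ∀ g : G, Φ.f k0 g ≠ 1 → Φ.f k g ≠ 1 := by
    intro g hg
    induction k, hk0 using Nat.le_induction with
    | base => exact hg
    | succ n _ ih =>
      intro h2
      apply ih
      rw [← Φ.h, h2, map_one]
  unfold bad
  rw [Finset.filter_eq_empty_iff]
  rintro x - ⟨w, hw, h2⟩
  apply h2
  have h3 : (w • x = x) ↔ Φ.f k (pw G w) = 1 := by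
    constructor
    · intro h4
      have h5 : Φ.f k (pw G w) * (show T.P k from x) = (show T.P k from x) := h4
      exact mul_eq_right.1 h5
    · intro h4
      show Φ.f k (pw G w) * (show T.P k from x) = (show T.P k from x)
      rw [h4, one_mul]
  rw [h3]
  constructor
  · intro h4
    by_contra h5
    exact h1 _ (hk _ (Finset.mem_filter.2 ⟨Finset.mem_image_of_mem _ hw, h5⟩)) h4
  · intro h4
    rw [h4, map_one]

theorem near_int (h : Det G) {ι κ : Type} [Fintype ι] [Fintype κ] (L : LQ κ ι (FreeGroup G))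
    {ε : ℝ} (hε : 0 < ε) : ∃ z : ℤ, |(z : ℝ) - dm (kr (oG L))| ≤ ε := by
  have h1 : ∀ᶠ M in sf G, |(finrank ℚ (kX M L) : ℝ) / sz M - dm (kr (oG L))| < ε := by
    have h2 := (Pool.Agent.AH.lueck L).eventually (Metric.ball_mem_nhds _ hε)
    filter_upwards [h2] with M hM
    rwa [Real.dist_eq] at hM
  obtain ⟨F, δ, hδ, h3⟩ := h1
  obtain ⟨p, q, d, hp, T, Φ, k0, hk⟩ := exists_good h F
  obtain ⟨z, hz⟩ := exists_limit Φ L
  refine ⟨z, ?_⟩
  have h4 : Tendsto (fun k => |(finrank ℚ (kX (mdl Φ k) L) : ℝ) / sz (mdl Φ k)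
      - dm (kr (oG L))|) atTop (𝓝 |(z : ℝ) - dm (kr (oG L))|) :=
    (hz.sub_const _).abs
  refine le_of_tendsto h4 ?_
  filter_upwards [eventually_ge_atTop k0] with k hk1
  refine le_of_lt (h3 (mdl Φ k) ?_)
  rw [hk k hk1, Finset.card_empty, Nat.cast_zero]
  unfold sz
  positivity

theorem dm_int (h : Det G) {ι κ : Type} [Fintype ι] [Fintype κ] (L : LQ κ ι (FreeGroup G)) :
    ∃ z : ℤ, dm (kr (oG L)) = z := by
  have h1 : dm (kr (oG L)) ∈ closure (Set.range ((↑) : ℤ → ℝ)) := by
    rw [Metric.mem_closure_iff]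
    intro ε hε
    obtain ⟨z, hz⟩ := near_int h L (half_pos hε)
    refine ⟨(z : ℝ), ⟨z, rfl⟩, ?_⟩
    rw [dist_comm, Real.dist_eq]
    linarith
  rw [Int.isClosedEmbedding_coe_real.isClosed_range.closure_eq] at h1
  obtain ⟨z, hz⟩ := h1
  exact ⟨z, hz.symm⟩

theorem atiyah_of_towers (h : Det G) : AtiyahOver Qc G := by
  intro m n A hA
  have h1 : LocOp Qc (fun _ : Fin m => ()) (fun _ : Fin n => ())
      (mulR (colF A) : L2 (Fin m) G →L[ℂ] L2 (Fin n) G) :=
    ⟨colF A, fun j p => colF_coef hA _ ⟨j, rfl⟩ p, fun _ _ _ => rfl, rfl⟩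
  obtain ⟨L, -, hL⟩ := Pool.Agent.AH.exists_list h1
  obtain ⟨z, hz⟩ := dm_int h L
  refine ⟨z, ?_⟩
  rw [kerDim_eq, ← hz, hL]
  unfold dm
  rw [← ker_mulR]

end Pool.Agent.Lvl
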