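import Pool.Agent.Lvl.SFg
import Pool.Agent.Lvl.LatC

set_option autoImplicit false
set_option linter.unusedSectionVars false

noncomputable section

open Classical

/-!
PACKAGE LVL-THMC. Level subgroups of automorphism groups: lattices.

`latDet_of_filtered`: let `g : G`, `g ≠ 1`, `g = π γ`. Take `W`, `h` from `h4`. `V` is the quotient
of the rational group ring by `W`; `Γ` acts on `V` (`h2`; `Submodule.mapQ`) and the elements of the
kernel of `π` act trivially (`h3`), so `G` acts on `V`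
(`π` is surjective: `ρ g = ` the action of any `γ` with `π γ = g`;
well defined because `π (γ' * γ⁻¹) = 1` and `h3`). The lattice `Λ` is the image of `S`
(`SS_fg`, `h1`), and the action is trivial modulo `q` by `act_sub`. The element `x` is the image
of `y h`: `φ γ (y h) - y h = (φ γ h - h) / q` is not in `W`.

`exists_pp`: every `m ≥ 3` is divisible by a prime power `p ^ s ≥ 3`, `s ≥ 1`: an odd prime, or `4`.
`UU_le`: if `q` divides `m` then `UU H m ≤ UU H q` (an `m`-th power is a `q`-th power).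
`strong_of_filtered`: `strong_of_detM`, `detM_of_latDet`.
-/

namespace Pool.Agent.Lvl

open MonoidAlgebra Circ Pool.Agent.VN

variable {H Γ G : Type} [Group H] [Group Γ] [Group G]

/-- the endomorphism of the rational group ring -/
private def actL (f : H →* H) : MonoidAlgebra ℚ H →ₗ[ℚ] MonoidAlgebra ℚ H :=
  (mapDomainAlgHom ℚ ℚ f).toLinearMap

private lemma actL_apply (f : H →* H) (x : MonoidAlgebra ℚ H) :
    actL f x = mapDomainRingHom ℚ f x := rfl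

private lemma act_one (x : MonoidAlgebra ℚ H) :
    mapDomainRingHom ℚ ((1 : MulAut H) : H →* H) x = x := by
  have h1 : ((1 : MulAut H) : H →* H) = MonoidHom.id H := rfl
  rw [h1, mapDomainRingHom_id]
  rfl

private lemma act_mul (a b : MulAut H) (x : MonoidAlgebra ℚ H) :
    mapDomainRingHom ℚ ((a * b : MulAut H) : H →* H) x =
      mapDomainRingHom ℚ (a : H →* H) (mapDomainRingHom ℚ (b : H →* H) x) := by
  have h1 : ((a * b : MulAut H) : H →* H) = (a : H →* H).comp (b : H →* H) := rfl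
  rw [h1, mapDomainRingHom_comp]
  rfl

/-- the action on the quotient -/
private def actQ (φ : Γ →* MulAut H) (W : Submodule ℚ (MonoidAlgebra ℚ H))
    (h2 : ∀ γ, ∀ x ∈ W, mapDomainRingHom ℚ (φ γ : H →* H) x ∈ W) :
    Γ →* Module.End ℚ (MonoidAlgebra ℚ H ⧸ W) where
  toFun γ := W.mapQ W (actL (φ γ : H →* H)) (fun x hx => h2 γ x hx)
  map_one' := by
    refine LinearMap.ext fun v => ?_
    obtain ⟨x, rfl⟩ := W.mkQ_surjective v
    rw [Submodule.mkQ_apply, Submodule.mapQ_apply, actL_apply, map_one, act_one]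
    rfl
  map_mul' a b := by
    refine LinearMap.ext fun v => ?_
    obtain ⟨x, rfl⟩ := W.mkQ_surjective v
    rw [Module.End.mul_apply, Submodule.mkQ_apply, Submodule.mapQ_apply, Submodule.mapQ_apply,
      Submodule.mapQ_apply, actL_apply, actL_apply, actL_apply, map_mul, act_mul]

private lemma actQ_apply (φ : Γ →* MulAut H) (W : Submodule ℚ (MonoidAlgebra ℚ H))
    (h2 : ∀ γ, ∀ x ∈ W, mapDomainRingHom ℚ (φ γ : H →* H) x ∈ W) (γ : Γ)
    (x : MonoidAlgebra ℚ H) :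
    actQ φ W h2 γ (W.mkQ x) = W.mkQ (mapDomainRingHom ℚ (φ γ : H →* H) x) := rfl

private lemma exists_desc {A : Type} [Monoid A] (π : Γ →* G) (hπ : Function.Surjective π)
    (f : Γ →* A) (hf : ∀ γ, π γ = 1 → f γ = 1) : ∃ g : G →* A, ∀ γ, g (π γ) = f γ := by
  have key : ∀ γ γ', π γ = π γ' → f γ = f γ' := by
    intro γ γ' h
    have h1 : f (γ * γ'⁻¹) = 1 := hf _ (by rw [map_mul, map_inv, h, mul_inv_cancel])
    have h2 : γ = (γ * γ'⁻¹) * γ' := by rw [inv_mul_cancel_right]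
    rw [h2, map_mul, h1, one_mul]
  refine ⟨{ toFun := fun g => f (Function.surjInv hπ g), map_one' := ?_, map_mul' := ?_ }, ?_⟩
  · rw [← map_one f]
    apply key
    rw [Function.surjInv_eq hπ, map_one]
  · intro a b
    rw [← map_mul]
    apply key
    rw [Function.surjInv_eq hπ, map_mul, Function.surjInv_eq hπ, Function.surjInv_eq hπ]
  · intro γ
    exact key _ _ (Function.surjInv_eq hπ (π γ))

theorem latDet_of_filtered [Group.FG H] (π : Γ →* G) (hπ : Function.Surjective π)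
    (φ : Γ →* MulAut H) {q : ℕ} (hq : 0 < q) (hU : ∀ γ h, h⁻¹ * φ γ h ∈ UU H q)
    (𝒲 : Set (Submodule ℚ (MonoidAlgebra ℚ H))) (h1 : ∀ W ∈ 𝒲, ∃ n, Fil ℚ H n ≤ W)
    (h2 : ∀ W ∈ 𝒲, ∀ γ, ∀ x ∈ W, mapDomainRingHom ℚ (φ γ : H →* H) x ∈ W)
    (h3 : ∀ W ∈ 𝒲, ∀ γ, π γ = 1 → ∀ x, mapDomainRingHom ℚ (φ γ : H →* H) x - x ∈ W)
    (h4 : ∀ γ, π γ ≠ 1 → ∃ W ∈ 𝒲, ∃ h : H, single (φ γ h) (1 : ℚ) - single h 1 ∉ W) :
    LatDet q G := by
  intro g hg
  obtain ⟨γ0, rfl⟩ := hπ g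
  obtain ⟨W, hW, h, hh⟩ := h4 γ0 hg
  obtain ⟨n, hn⟩ := h1 W hW
  have h2' := h2 W hW
  have h3' := h3 W hW
  obtain ⟨ρ, hρ⟩ := exists_desc π hπ (actQ φ W h2') (by
    intro γ h5
    refine LinearMap.ext fun v => ?_
    obtain ⟨x, rfl⟩ := W.mkQ_surjective v
    rw [actQ_apply, Module.End.one_apply, Submodule.mkQ_apply, Submodule.mkQ_apply,
      Submodule.Quotient.eq]
    exact h3' γ h5 x)
  refine ⟨MonoidAlgebra ℚ H ⧸ W, inferInstance, inferInstance, ρ,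
    (SS H q).toAddSubgroup.map W.mkQ.toAddMonoidHom, SS_fg hq W hn, ?_, ?_⟩
  · intro g' x hx
    obtain ⟨γ, rfl⟩ := hπ g'
    obtain ⟨a, ha, rfl⟩ := hx
    obtain ⟨y, hy, hy1⟩ := act_sub hq (φ γ : H →* H) (hU γ) ha
    refine ⟨W.mkQ y, ⟨y, hy, rfl⟩, ?_⟩
    rw [hρ]
    show actQ φ W h2' γ (W.mkQ a) = W.mkQ a + q • W.mkQ y
    rw [actQ_apply, hy1, map_add, map_smul, Nat.cast_smul_eq_nsmul]
  · refine ⟨W.mkQ (yy q h), ⟨yy q h, yy_mem h, rfl⟩, ?_⟩
    rw [hρ, actQ_apply]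
    intro h5
    apply hh
    rw [Submodule.mkQ_apply, Submodule.mkQ_apply, Submodule.Quotient.eq] at h5
    have h6 := W.smul_mem (q : ℚ) h5
    have hq0 : (q : ℚ) ≠ 0 := by exact_mod_cast hq.ne'
    have h7 : mapDomainRingHom ℚ (φ γ0 : H →* H) (yy q h) =
        (q : ℚ)⁻¹ • (single (φ γ0 h) 1 - 1) := by
      rw [← actL_apply]
      unfold yy
      rw [map_smul, map_sub, actL_apply, actL_apply, map_one]
      congr 2
      simp
    rw [h7] at h6
    unfold yy at h6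
    rw [← smul_sub, smul_smul, mul_inv_cancel₀ hq0, one_smul, sub_sub_sub_cancel_right] at h6
    exact h6

lemma exists_pp {m : ℕ} (hm : 3 ≤ m) : ∃ p s : ℕ, p.Prime ∧ 1 ≤ s ∧ 3 ≤ p ^ s ∧ p ^ s ∣ m := by
  rcases Nat.eq_two_pow_or_exists_odd_prime_and_dvd m with ⟨k, hk⟩ | ⟨p, hp, h1, h2⟩
  · refine ⟨2, 2, Nat.prime_two, by norm_num, by norm_num, ?_⟩
    have h1 : 2 ≤ k := by
      by_contra h2
      have h3 : k = 0 ∨ k = 1 := by omega
      rcases h3 with rfl | rfl <;> omega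
    rw [hk]
    exact pow_dvd_pow 2 h1
  · refine ⟨p, 1, hp, le_rfl, ?_, by rwa [pow_one]⟩
    rw [pow_one]
    have h3 := hp.two_le
    rcases h2 with ⟨j, hj⟩
    omega

lemma UU_le {q m : ℕ} (h : q ∣ m) : UU H m ≤ UU H q := by
  unfold UU
  rw [Subgroup.closure_le]
  rintro x (hx | ⟨a, rfl⟩)
  · exact Subgroup.subset_closure (Or.inl hx)
  · obtain ⟨r, rfl⟩ := h
    refine Subgroup.subset_closure (Or.inr ⟨a ^ r, ?_⟩)
    rw [← pow_mul, mul_comm]

theorem strong_of_filtered [Group.FG H] (π : Γ →* G) (hπ : Function.Surjective π)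
    (φ : Γ →* MulAut H) {m : ℕ} (hm : 3 ≤ m) (hU : ∀ γ h, h⁻¹ * φ γ h ∈ UU H m)
    (𝒲 : Set (Submodule ℚ (MonoidAlgebra ℚ H))) (h1 : ∀ W ∈ 𝒲, ∃ n, Fil ℚ H n ≤ W)
    (h2 : ∀ W ∈ 𝒲, ∀ γ, ∀ x ∈ W, mapDomainRingHom ℚ (φ γ : H →* H) x ∈ W)
    (h3 : ∀ W ∈ 𝒲, ∀ γ, π γ = 1 → ∀ x, mapDomainRingHom ℚ (φ γ : H →* H) x - x ∈ W)
    (h4 : ∀ γ, π γ ≠ 1 → ∃ W ∈ 𝒲, ∃ h : H, single (φ γ h) (1 : ℚ) - single h 1 ∉ W) :
    AtiyahOver ⊤ G := by
  obtain ⟨p, s, hp, hs, h5, h6⟩ := exists_pp hm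
  have : Fact p.Prime := ⟨hp⟩
  exact strong_of_detM (detM_of_latDet (p := p) (s := s) hs h5
    (latDet_of_filtered π hπ φ (by omega) (fun γ h => UU_le h6 (hU γ h)) 𝒲 h1 h2 h3 h4))

end Pool.Agent.Lvl
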