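import Pool.Agent.Lvl.ThmC

set_option autoImplicit false
set_option linter.unusedSectionVars false

noncomputable section

open Classical

/-!
PACKAGE LVL-THMD. The level subgroups of `Aut(H)` and `Out(H)`.

* `strong_level`: `strong_of_filtered` with `Γ = G = level H m`, `π = id`, and the set of all
  `Fil ℚ H n`. `h2`: `map_fil`. `h3` is trivial. `h4`: `φ ≠ 1` moves some `h`;
  `φ h = h u`, `u ≠ 1`, `φ h - h = h (u - 1)`, and `u - 1` is not in `Fil n` for some `n`
  (multiply by `h⁻¹`: `fil_mul_left`).
* `strong_out`: `Γ = level H m`, `G` the quotient by the inner automorphisms, and the set of all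
  `Fil ℚ H n ⊔ comQ H`. `h2`: `map_fil`, and ring homomorphisms map `comQ` to `comQ`. `h3`: `π γ =
  1`
  means that `γ` is conjugation by some `g`, and `g x g⁻¹ - x` is the commutator of `g x` and `g⁻¹`
  (it is enough to check `x = single h r`, or `mapDomain` is conjugation by `single g 1`). `h4`: by
  contraposition: if `φ h - h ∈ Fil n ⊔ comQ` for all `h`, `n`, that is
  `CC (φ h) h`, then `φ` is inner by the hypothesis.
* `residual_of_uni`: a homomorphism `ρ` to unitriangular matrices extends to the rational group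
  ring; `Fil n` is mapped to matrices with zeros at all `(i, j)` with `j < i + n`
  (`fil_succ_le_of` or `Submodule.mul_induction_on`, induction on `n`), so `Fil r` is mapped
  to `0`, and `ρ g ≠ 1` gives `g - 1 ∉ Fil r`.
-/

namespace Pool.Agent.Lvl

open MonoidAlgebra Circ Pool.Agent.VN

variable (H : Type) [Group H]

/-- the powers of the augmentation ideal of the rational group ring separate the elements (for a
finitely generated group: residually torsion-free nilpotent) -/
def ResN : Prop := ∀ g : H, g ≠ 1 → ∃ n, single g (1 : ℚ) - 1 ∉ Fil ℚ H n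

/-- residually unitriangular over `ℚ` -/
def ResU : Prop := ∀ g : H, g ≠ 1 → ∃ (r : ℕ) (ρ : H →* Matrix (Fin r) (Fin r) ℚ),
  (∀ (h : H) (i j : Fin r), (j < i → ρ h i j = 0) ∧ ρ h i i = 1) ∧ ρ g ≠ 1

variable {H}

private def triZ (r n : ℕ) : Submodule ℚ (Matrix (Fin r) (Fin r) ℚ) where
  carrier := {M | ∀ i j : Fin r, (j : ℕ) < i + n → M i j = 0}
  add_mem' := by
    intro a b ha hb i j hij
    rw [Matrix.add_apply, ha i j hij, hb i j hij, add_zero]
  zero_mem' := by
    intro i j _
    rfl
  smul_mem' := by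
    intro c a ha i j hij
    rw [Matrix.smul_apply, ha i j hij, smul_zero]

private lemma fil_tri {r : ℕ} (ρ : H →* Matrix (Fin r) (Fin r) ℚ)
    (hρ : ∀ (h : H) (i j : Fin r), (j < i → ρ h i j = 0) ∧ ρ h i i = 1) (n : ℕ) :
    Fil ℚ H n ≤ (triZ r n).comap
      (MonoidAlgebra.lift ℚ (Matrix (Fin r) (Fin r) ℚ) H ρ).toLinearMap := by
  induction n with
  | zero =>
    intro x _
    rw [Submodule.mem_comap]
    induction x using MonoidAlgebra.induction_linear with
    | zero => rw [map_zero]; exact Submodule.zero_mem _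
    | add a b ha hb =>
      rw [map_add]
      exact Submodule.add_mem _ (ha (mem_fil_zero a)) (hb (mem_fil_zero b))
    | single h c =>
      rw [AlgHom.toLinearMap_apply, MonoidAlgebra.lift_single]
      refine Submodule.smul_mem _ _ ?_
      intro i j hij
      exact (hρ h i j).1 (by rw [Fin.lt_def]; simpa using hij)
  | succ n ih =>
    refine fil_succ_le_of _ ?_
    intro g v hv
    have hM := ih hv
    rw [Submodule.mem_comap, AlgHom.toLinearMap_apply] at hM ⊢
    rw [map_mul, map_sub, MonoidAlgebra.lift_single, map_one, one_smul]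
    intro i j hij
    rw [Matrix.mul_apply]
    refine Finset.sum_eq_zero ?_
    intro k _
    by_cases hk : (k : ℕ) ≤ i
    · have : (ρ g - 1) i k = 0 := by
        rw [Matrix.sub_apply]
        rcases eq_or_lt_of_le hk with h | h
        · have : k = i := Fin.ext h
          subst this
          rw [(hρ g k k).2, Matrix.one_apply_eq, sub_self]
        · have h' : k < i := h
          rw [(hρ g i k).1 h', Matrix.one_apply_ne (ne_of_gt h'), sub_zero]
      rw [this, zero_mul]
    · have : (MonoidAlgebra.lift ℚ (Matrix (Fin r) (Fin r) ℚ) H ρ) v k j = 0 :=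
        hM k j (by omega)
      rw [this, mul_zero]

theorem residual_of_uni (h : ResU H) : ResN H := by
  intro g hg
  obtain ⟨r, ρ, hρ, h1⟩ := h g hg
  refine ⟨r, fun hmem => h1 ?_⟩
  have h2 := fil_tri ρ hρ r hmem
  rw [Submodule.mem_comap, AlgHom.toLinearMap_apply, map_sub, MonoidAlgebra.lift_single,
    map_one, one_smul] at h2
  rw [← sub_eq_zero]
  ext i j
  exact h2 i j (by omega)

private lemma diff_eq (a b : H) : (single a (1 : ℚ) : MonoidAlgebra ℚ H) - single b 1
    = single b 1 * (single (b⁻¹ * a) 1 - 1) := by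
  rw [mul_sub, single_mul_single, mul_one, mul_one, mul_inv_cancel_left]

theorem strong_level [Group.FG H] (hH : ResN H) {m : ℕ} (hm : 3 ≤ m) :
    AtiyahOver ⊤ (level H m) := by
  refine strong_of_filtered (H := H) (MonoidHom.id (level H m)) Function.surjective_id
    (level H m).subtype hm (fun γ h => γ.2 h) (Set.range (Fil ℚ H)) ?_ ?_ ?_ ?_
  · rintro _ ⟨n, rfl⟩
    exact ⟨n, le_rfl⟩
  · rintro _ ⟨n, rfl⟩ γ x hx
    exact map_fil _ hx
  · rintro _ ⟨n, rfl⟩ γ hγ x
    have h1 : γ = 1 := hγ
    subst h1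
    have h2 : mapDomainRingHom ℚ (((level H m).subtype 1 : MulAut H) : H →* H) x = x := by
      have : (((level H m).subtype 1 : MulAut H) : H →* H) = MonoidHom.id H := by
        ext y
        simp
      rw [this]
      simp
    rw [h2, sub_self]
    exact Submodule.zero_mem _
  · intro γ hγ
    have h1 : ∃ h : H, (γ : MulAut H) h ≠ h := by
      by_contra hcon
      push Not at hcon
      apply hγ
      show γ = 1
      apply Subtype.ext
      ext h
      exact hcon h
    obtain ⟨h, hh⟩ := h1
    obtain ⟨n, hn⟩ := hH (h⁻¹ * (γ : MulAut H) h) (by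
      intro h2
      apply hh
      rw [inv_mul_eq_one] at h2
      exact h2.symm)
    refine ⟨Fil ℚ H n, ⟨n, rfl⟩, h, fun hmem => hn ?_⟩
    rw [Subgroup.subtype_apply, diff_eq] at hmem
    have h3 := fil_mul_left hmem (single h⁻¹ 1)
    rwa [← mul_assoc, single_mul_single, inv_mul_cancel, mul_one, ← MonoidAlgebra.one_def,
      one_mul] at h3

private lemma map_comQ (f : H →* H) {x : MonoidAlgebra ℚ H} (hx : x ∈ comQ H) :
    mapDomainRingHom ℚ f x ∈ comQ H := by
  refine Submodule.span_induction (p := fun x _ => mapDomainRingHom ℚ f x ∈ comQ H)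
    ?_ ?_ ?_ ?_ hx
  · rintro _ ⟨a, b, rfl⟩
    rw [map_sub, map_mul, map_mul]
    exact Submodule.subset_span ⟨_, _, rfl⟩
  · rw [map_zero]; exact Submodule.zero_mem _
  · intro a b _ _ ha hb
    rw [map_add]; exact Submodule.add_mem _ ha hb
  · intro r a _ ha
    have e : mapDomainRingHom ℚ f (r • a) = r • mapDomainRingHom ℚ f a :=
      map_smul (mapDomainAlgHom ℚ ℚ f) r a
    rw [e]
    exact Submodule.smul_mem _ _ ha

private lemma conj_map (g : H) (x : MonoidAlgebra ℚ H) :
    mapDomainRingHom ℚ ((MulAut.conj g : MulAut H) : H →* H) x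
      = single g 1 * x * single g⁻¹ 1 := by
  induction x using MonoidAlgebra.induction_linear with
  | zero => rw [map_zero, mul_zero, zero_mul]
  | add a b ha hb => rw [map_add, ha, hb, mul_add, add_mul]
  | single h c =>
    rw [single_mul_single, single_mul_single, one_mul, mul_one]
    simp

theorem strong_out [Group.FG H]
    (hH : ∀ φ : MulAut H, (∀ h, CC (φ h) h) → ∃ w, ∀ x, φ x = w * x * w⁻¹) {m : ℕ} (hm : 3 ≤ m) :
    AtiyahOver ⊤ (level H m ⧸ inner H m) := by
  refine strong_of_filtered (H := H) (QuotientGroup.mk' (inner H m))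
    (QuotientGroup.mk'_surjective _)
    (level H m).subtype hm (fun γ h => γ.2 h) (Set.range (fun n => Fil ℚ H n ⊔ comQ H))
    ?_ ?_ ?_ ?_
  · rintro _ ⟨n, rfl⟩
    exact ⟨n, le_sup_left⟩
  · rintro _ ⟨n, rfl⟩ γ x hx
    obtain ⟨a, ha, b, hb, rfl⟩ := Submodule.mem_sup.1 hx
    rw [map_add]
    exact Submodule.add_mem_sup (map_fil _ ha) (map_comQ _ hb)
  · rintro _ ⟨n, rfl⟩ γ hγ x
    rw [QuotientGroup.mk'_apply, QuotientGroup.eq_one_iff] at hγ
    obtain ⟨g, hg⟩ := hγ
    have hg' : (MulAut.conj g : MulAut H) = (level H m).subtype γ := hg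
    rw [← hg', conj_map]
    refine Submodule.mem_sup_right (Submodule.subset_span ⟨single g 1 * x, single g⁻¹ 1, ?_⟩)
    rw [← mul_assoc, single_mul_single, inv_mul_cancel, mul_one, ← MonoidAlgebra.one_def,
      one_mul]
  · intro γ hγ
    by_contra hcon
    push Not at hcon
    apply hγ
    obtain ⟨w, hw⟩ := hH (γ : MulAut H) (fun h n => hcon _ ⟨n, rfl⟩ h)
    rw [QuotientGroup.mk'_apply, QuotientGroup.eq_one_iff]
    refine ⟨w, ?_⟩
    ext x
    show w * x * w⁻¹ = (γ : MulAut H) x
    exact (hw x).symm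

end Pool.Agent.Lvl
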