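import Pool.Agent.VN.FinIndex
import Pool.Agent.VN.ZExt3

set_option autoImplicit false
set_option linter.unusedSectionVars false

noncomputable section

open Classical

/-!
CONG: overgroups of finite index of groups which satisfy the Atiyah conjecture.
-/

namespace Pool.Agent.Lvl

open Pool.Agent.VN

/-- If the subgroup `K` satisfies the Atiyah conjecture over `k`, then the dimensions for `G` lie in
`(1/n)ℤ` where `n` is the index of `K`. -/
theorem transfer {k : Subring ℂ} {G : Type} [Group G] (K : Subgroup G) (hK : AtiyahOver k K)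
    {m n : ℕ} (A : Matrix (Fin m) (Fin n) (G →₀ ℂ)) (hA : ∀ i j g, A i j g ∈ k) :
    ∃ z : ℤ, (K.index : ℝ) * kerDim A = z := by
  by_cases h0 : K.index = 0
  · exact ⟨0, by rw [h0]; simp⟩
  have hfi : K.FiniteIndex := ⟨h0⟩
  have hfin : Fintype (G ⧸ K) := Fintype.ofFinite _
  have h1 := vdim_finIndex K (Set.range (colF A))
  have hC : {c | ∃ a ∈ Set.range (colF A), ∃ q : G ⧸ K, c = cosF K a q}
      = ⋃ q : G ⧸ K, (fun a => cosF K a q) '' Set.range (colF A) := by
    ext c
    simp only [Set.mem_iUnion, Set.mem_image, Set.mem_ofPred_eq]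
    constructor
    · rintro ⟨a, ha, q, rfl⟩
      exact ⟨q, a, ha, rfl⟩
    · rintro ⟨q, a, ha, rfl⟩
      exact ⟨a, ha, q, rfl⟩
  obtain ⟨z, hz⟩ := hK.forms {c | ∃ a ∈ Set.range (colF A), ∃ q : G ⧸ K, c = cosF K a q}
    (by
      rw [hC]
      exact Set.finite_iUnion fun q => (Set.finite_range _).image _)
    (by
      rintro _ ⟨a, ha, q, rfl⟩
      exact coefIn_cosF K (colF_coef hA a ha) q)
  refine ⟨z, ?_⟩
  rw [← hz, h1, kerDim_eq, Subgroup.index_eq_card, Nat.card_eq_fintype_card]

end Pool.Agent.Lvl
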